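import Pool.Agent.LibPRK.Crt

/-!
# Blocks: definitions and identities

`S = (X ^ 2 - 1) S₀`, `T = S ^ p - X`, `T - 1 = (X + 1) A`, `T + 1 = (X - 1) B`.
-/

set_option autoImplicit false

namespace Pool.Agent.PRB

open Polynomial

section defs

variable {k : Type} [CommRing k]

noncomputable def blkS (S₀ : k[X]) : k[X] := (X ^ 2 - 1) * S₀

noncomputable def blkT (p : ℕ) (S₀ : k[X]) : k[X] := blkS S₀ ^ p - X

noncomputable def blkA (p : ℕ) (S₀ : k[X]) : k[X] :=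
  (X - 1) ^ p * (X + 1) ^ (p - 1) * S₀ ^ p - 1

noncomputable def blkB (p : ℕ) (S₀ : k[X]) : k[X] :=
  (X + 1) ^ p * (X - 1) ^ (p - 1) * S₀ ^ p - 1

/-- The twisting factor of the block. -/
noncomputable def blkU (p μ : ℕ) (S₀ : k[X]) : k[X] :=
  blkA p S₀ ^ μ * blkB p S₀ ^ (p - 1 - μ)

noncomputable def blkG (p μ : ℕ) : k[X] := (X + 1) ^ (p - μ) * (X - 1) ^ (μ + 1)

end defs

variable {p : ℕ} [Fact p.Prime] {k : Type} [Field k] [IsAlgClosed k] [CharP k p]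

theorem blk_A (S₀ : k[X]) : (X + 1) * blkA p S₀ = blkT p S₀ - 1 := by
  have h1 : p = (p - 1) + 1 := (Nat.succ_pred_eq_of_pos (Fact.out : p.Prime).pos).symm
  have h2 : (X ^ 2 - 1 : k[X]) = (X - 1) * (X + 1) := by ring
  have h3 : ((X + 1 : k[X])) ^ p = (X + 1) ^ (p - 1) * (X + 1) := by
    conv_lhs => rw [h1, pow_succ]
  unfold blkA blkT blkS
  rw [h2, mul_pow, mul_pow, h3]
  ring

theorem blk_B (S₀ : k[X]) : (X - 1) * blkB p S₀ = blkT p S₀ + 1 := by
  have h1 : p = (p - 1) + 1 := (Nat.succ_pred_eq_of_pos (Fact.out : p.Prime).pos).symm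
  have h2 : (X ^ 2 - 1 : k[X]) = (X - 1) * (X + 1) := by ring
  have h3 : ((X - 1 : k[X])) ^ p = (X - 1) ^ (p - 1) * (X - 1) := by
    conv_lhs => rw [h1, pow_succ]
  unfold blkB blkT blkS
  rw [h2, mul_pow, mul_pow, h3]
  ring

theorem blk_U (μ : ℕ) (hμ : μ ≤ p - 1) (S₀ : k[X]) :
    (X ^ 2 - 1) ^ p * blkU p μ S₀ =
      blkG p μ * ((blkT p S₀ - 1) ^ μ * (blkT p S₀ + 1) ^ (p - 1 - μ)) := by
  have hp := (Fact.out : p.Prime).pos
  have h2 : (X ^ 2 - 1 : k[X]) = (X + 1) * (X - 1) := by ring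
  have h3 : ((X + 1 : k[X])) ^ p = (X + 1) ^ (p - μ) * (X + 1) ^ μ := by
    rw [← pow_add]; congr 1; omega
  have h4 : ((X - 1 : k[X])) ^ p = (X - 1) ^ (μ + 1) * (X - 1) ^ (p - 1 - μ) := by
    rw [← pow_add]; congr 1; omega
  unfold blkU blkG
  rw [← blk_A, ← blk_B, h2, mul_pow, h3, h4, mul_pow, mul_pow]
  ring

omit [Fact p.Prime] [IsAlgClosed k] in
theorem blk_dT (S₀ : k[X]) : derivative (blkT p S₀) = -1 := by
  unfold blkT
  rw [derivative_sub, derivative_pow, CharP.cast_eq_zero k p, C_0, zero_mul, zero_mul,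
    derivative_X, zero_sub]

omit [IsAlgClosed k] [CharP k p] in
theorem blkA_zero : blkA p (0 : k[X]) = -1 := by
  unfold blkA
  rw [zero_pow (Fact.out : p.Prime).ne_zero, mul_zero, zero_sub]

omit [IsAlgClosed k] [CharP k p] in
theorem blkB_zero : blkB p (0 : k[X]) = -1 := by
  unfold blkB
  rw [zero_pow (Fact.out : p.Prime).ne_zero, mul_zero, zero_sub]

omit [IsAlgClosed k] [CharP k p] in
theorem blkT_zero : blkT p (0 : k[X]) = -X := by
  unfold blkT blkS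
  rw [mul_zero, zero_pow (Fact.out : p.Prime).ne_zero, zero_sub]

omit [IsAlgClosed k] [CharP k p] in
theorem blkU_zero (hp2 : p ≠ 2) {μ : ℕ} (hμ : μ ≤ p - 1) : blkU p μ (0 : k[X]) = 1 := by
  have hp : p.Prime := Fact.out
  unfold blkU
  rw [blkA_zero, blkB_zero, ← pow_add, show μ + (p - 1 - μ) = p - 1 by omega]
  exact Even.neg_one_pow (hp.even_sub_one hp2)

/-- The operators attached to the block: `G` is a polynomial in `d/dX` with constant term `1`, `H` its inverse. -/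
structure BlkOps (p μ : ℕ) [Fact p.Prime] {k : Type} [Field k] [IsAlgClosed k] [CharP k p]
    (G H : k[X] →ₗ[k] k[X]) : Prop where
  GH : ∀ f, G (H f) = f
  HG : ∀ f, H (G f) = f
  Gp : ∀ q f : k[X], G (q ^ p * f) = q ^ p * G f
  Hp : ∀ q f : k[X], H (q ^ p * f) = q ^ p * H f
  Gd : ∀ f, (G f).degree ≤ f.degree
  Hd : ∀ f, (H f).degree ≤ f.degree
  H1 : ∀ q : k[X], H (q ^ p) = q ^ p
  crt : ∀ T f : k[X], derivative T = -1 →
    crt p (f * ((T - 1) ^ μ * (T + 1) ^ (p - 1 - μ))) = crt p (G f * T ^ (p - 1))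

end Pool.Agent.PRB
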