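import Pool.Agent.LibPRK.BlkD

/-!
# Blocks: degrees and separability

PLAN. `natDegree (blkA p S₀) = p + (p - 1) + p * s`, `s = S₀.natDegree` (`Monic.natDegree_mul`, `natDegree_X_sub_C`-type lemmas:
`(X - 1) = X - C 1`, `(X + 1) = X + C 1`; subtracting `1` does not change the degree or the leading coefficient).
`blk_sep`: `A` divides `T - 1` (`blk_A`-type identity over any commutative ring of characteristic `p`; reprove it), `derivative (T - 1) = -1`
is a unit, so `T - 1` is separable, and so is its divisor `A` (`Polynomial.Separable.of_dvd`); same for `B ∣ T + 1`.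
`A`, `B` coprime: `(T + 1) - (T - 1) = 2`, a unit (`p ≠ 2`).  `P` and `A` coprime: `A = P * (...) - 1` if `P ∣ S₀`.
`Polynomial.Separable.mul` for coprime separable factors.
-/

set_option autoImplicit false

namespace Pool.Agent.PRB

open Polynomial

variable {p : ℕ} [Fact p.Prime] {K : Type} [Field K]

private theorem bd_pos : 2 ≤ p := (Fact.out : p.Prime).two_le

private theorem bd_m1 : (X - 1 : K[X]).Monic := by
  rw [← C_1]; exact monic_X_sub_C 1

private theorem bd_m2 : (X + 1 : K[X]).Monic := by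
  rw [← C_1]; exact monic_X_add_C 1

private theorem bd_d1 : (X - 1 : K[X]).natDegree = 1 := by
  rw [← C_1]; exact natDegree_X_sub_C 1

private theorem bd_d2 : (X + 1 : K[X]).natDegree = 1 := by
  rw [← C_1]; exact natDegree_X_add_C 1

private theorem bd_ar (p s : ℕ) (hp : 2 ≤ p) : p * 1 + (p - 1) * 1 + p * s = p * (s + 2) - 1 := by
  have h : p * (s + 2) = p * s + p + p := by ring
  omega

private theorem bd_MA (S₀ : K[X]) (h : S₀.Monic) :
    ((X - 1 : K[X]) ^ p * (X + 1) ^ (p - 1) * S₀ ^ p).Monic ∧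
    ((X - 1 : K[X]) ^ p * (X + 1) ^ (p - 1) * S₀ ^ p).natDegree = p * (S₀.natDegree + 2) - 1 := by
  have h1 : ((X - 1 : K[X]) ^ p).Monic := bd_m1.pow p
  have h2 : ((X + 1 : K[X]) ^ (p - 1)).Monic := bd_m2.pow (p - 1)
  have h3 : (S₀ ^ p).Monic := h.pow p
  refine ⟨(h1.mul h2).mul h3, ?_⟩
  rw [(h1.mul h2).natDegree_mul h3, h1.natDegree_mul h2, bd_m1.natDegree_pow,
    bd_m2.natDegree_pow, h.natDegree_pow, bd_d1, bd_d2]
  exact bd_ar p _ (bd_pos (p := p))

private theorem bd_MB (S₀ : K[X]) (h : S₀.Monic) :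
    ((X + 1 : K[X]) ^ p * (X - 1) ^ (p - 1) * S₀ ^ p).Monic ∧
    ((X + 1 : K[X]) ^ p * (X - 1) ^ (p - 1) * S₀ ^ p).natDegree = p * (S₀.natDegree + 2) - 1 := by
  have h1 : ((X + 1 : K[X]) ^ p).Monic := bd_m2.pow p
  have h2 : ((X - 1 : K[X]) ^ (p - 1)).Monic := bd_m1.pow (p - 1)
  have h3 : (S₀ ^ p).Monic := h.pow p
  refine ⟨(h1.mul h2).mul h3, ?_⟩
  rw [(h1.mul h2).natDegree_mul h3, h1.natDegree_mul h2, bd_m1.natDegree_pow,
    bd_m2.natDegree_pow, h.natDegree_pow, bd_d1, bd_d2]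
  exact bd_ar p _ (bd_pos (p := p))

private theorem bd_sub {M N : K[X]} {n : ℕ} (h : M.Monic) (hn : M.natDegree = n)
    (hN : N.natDegree < n) : (M - N).Monic ∧ (M - N).natDegree = n := by
  subst hn
  exact ⟨h.sub_of_left (degree_lt_degree hN), natDegree_sub_eq_left_of_natDegree_lt hN⟩

private theorem bd_big (s : ℕ) : 2 < p * (s + 2) := by
  have h1 := bd_pos (p := p)
  nlinarith

theorem blkA_monic (S₀ : K[X]) (h : S₀.Monic) : (blkA p S₀).Monic := by
  have h1 := bd_MA (p := p) S₀ h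
  have h2 := bd_big (p := p) S₀.natDegree
  exact (bd_sub h1.1 h1.2 (by rw [natDegree_one]; omega)).1

theorem blkB_monic (S₀ : K[X]) (h : S₀.Monic) : (blkB p S₀).Monic := by
  have h1 := bd_MB (p := p) S₀ h
  have h2 := bd_big (p := p) S₀.natDegree
  exact (bd_sub h1.1 h1.2 (by rw [natDegree_one]; omega)).1

theorem blkA_deg (S₀ : K[X]) (h : S₀.Monic) :
    (blkA p S₀).natDegree = p * (S₀.natDegree + 2) - 1 := by
  have h1 := bd_MA (p := p) S₀ h
  have h2 := bd_big (p := p) S₀.natDegree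
  exact (bd_sub h1.1 h1.2 (by rw [natDegree_one]; omega)).2

theorem blkB_deg (S₀ : K[X]) (h : S₀.Monic) :
    (blkB p S₀).natDegree = p * (S₀.natDegree + 2) - 1 := by
  have h1 := bd_MB (p := p) S₀ h
  have h2 := bd_big (p := p) S₀.natDegree
  exact (bd_sub h1.1 h1.2 (by rw [natDegree_one]; omega)).2

theorem blkT_deg (S₀ : K[X]) (h : S₀.Monic) :
    (blkT p S₀).natDegree = p * (S₀.natDegree + 2) := by
  have h0 : (X ^ 2 - 1 : K[X]) = (X - 1) * (X + 1) := by ring
  have h1 : (blkS S₀).Monic := by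
    unfold blkS
    rw [h0]
    exact (bd_m1.mul bd_m2).mul h
  have h2 : (blkS S₀).natDegree = S₀.natDegree + 2 := by
    unfold blkS
    rw [h0, (bd_m1.mul bd_m2).natDegree_mul h, bd_m1.natDegree_mul bd_m2, bd_d1, bd_d2]
    omega
  have h3 := bd_big (p := p) S₀.natDegree
  refine (bd_sub (h1.pow p) (by rw [h1.natDegree_pow, h2]) ?_).2
  rw [natDegree_X]
  omega

theorem blkA_map {K' : Type} [Field K'] (f : K →+* K') (S₀ : K[X]) :
    (blkA p S₀).map f = blkA p (S₀.map f) := by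
  simp [blkA]

theorem blkB_map {K' : Type} [Field K'] (f : K →+* K') (S₀ : K[X]) :
    (blkB p S₀).map f = blkB p (S₀.map f) := by
  simp [blkB]

private theorem bd_A (S₀ : K[X]) : (X + 1) * blkA p S₀ = blkT p S₀ - 1 := by
  have h1 : p = (p - 1) + 1 := (Nat.succ_pred_eq_of_pos (Fact.out : p.Prime).pos).symm
  have h2 : (X ^ 2 - 1 : K[X]) = (X - 1) * (X + 1) := by ring
  have h3 : ((X + 1 : K[X])) ^ p = (X + 1) ^ (p - 1) * (X + 1) := by
    conv_lhs => rw [h1, pow_succ]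
  unfold blkA blkT blkS
  rw [h2, mul_pow, mul_pow, h3]
  ring

private theorem bd_B (S₀ : K[X]) : (X - 1) * blkB p S₀ = blkT p S₀ + 1 := by
  have h1 : p = (p - 1) + 1 := (Nat.succ_pred_eq_of_pos (Fact.out : p.Prime).pos).symm
  have h2 : (X ^ 2 - 1 : K[X]) = (X - 1) * (X + 1) := by ring
  have h3 : ((X - 1 : K[X])) ^ p = (X - 1) ^ (p - 1) * (X - 1) := by
    conv_lhs => rw [h1, pow_succ]
  unfold blkB blkT blkS
  rw [h2, mul_pow, mul_pow, h3]
  ring

private theorem bd_sep {F : K[X]} (h : derivative F = -1) : F.Separable := by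
  rw [Polynomial.separable_def, h, IsCoprime.neg_right_iff]
  exact isCoprime_one_right

private theorem bd_cop (S₀ : K[X]) (P Q : K[X]) (hPS : P ∣ S₀) :
    IsCoprime P (Q * S₀ ^ p - 1) := by
  have h1 : IsCoprime S₀ (Q * S₀ ^ p - 1) := by
    refine ⟨Q * S₀ ^ (p - 1), -1, ?_⟩
    have h2 : S₀ ^ p = S₀ ^ (p - 1) * S₀ := by
      rw [← pow_succ, Nat.sub_add_cancel (Fact.out : p.Prime).one_le]
    rw [h2]
    ring
  exact h1.of_isCoprime_of_dvd_left hPS

theorem blk_sep [CharP K p] (hp2 : p ≠ 2) (P S₀ : K[X]) (hP : P.Separable) (hPS : P ∣ S₀) :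
    (P * (blkA p S₀ * blkB p S₀)).Separable := by
  have hp : p.Prime := Fact.out
  have hdT : derivative (blkT p S₀) = -1 := blk_dT (p := p) (k := K) S₀
  have eA : blkT p S₀ - 1 = blkA p S₀ * (X + 1) := by
    rw [← bd_A (p := p) S₀]
    exact mul_comm _ _
  have eB : blkT p S₀ + 1 = blkB p S₀ * (X - 1) := by
    rw [← bd_B (p := p) S₀]
    exact mul_comm _ _
  have h1A : (blkT p S₀ - 1).Separable := bd_sep (by
    rw [derivative_sub, hdT, derivative_one]
    exact _root_.sub_zero _)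
  have h1B : (blkT p S₀ + 1).Separable := bd_sep (by
    rw [derivative_add, hdT, derivative_one, add_zero])
  have hA : (blkA p S₀).Separable := h1A.of_dvd ⟨X + 1, eA⟩
  have hB : (blkB p S₀).Separable := h1B.of_dvd ⟨X - 1, eB⟩
  have h2 : (2 : K) ≠ 0 := by
    intro h0
    have h3 : ((2 : ℕ) : K) = 0 := by exact_mod_cast h0
    rw [CharP.cast_eq_zero_iff K p] at h3
    exact hp2 ((Nat.prime_dvd_prime_iff_eq hp Nat.prime_two).1 h3)
  have hT : IsCoprime (blkT p S₀ - 1) (blkT p S₀ + 1) := by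
    refine ⟨-C (2 : K)⁻¹, C (2 : K)⁻¹, ?_⟩
    have h3 : (C (2 : K)⁻¹ * 2 : K[X]) = 1 := by
      have h4 : (2 : K[X]) = C (2 : K) := (map_ofNat C 2).symm
      rw [h4, ← C_mul, inv_mul_cancel₀ h2, C_1]
    linear_combination h3
  have hAB : IsCoprime (blkA p S₀) (blkB p S₀) :=
    (hT.of_isCoprime_of_dvd_left ⟨X + 1, eA⟩).of_isCoprime_of_dvd_right ⟨X - 1, eB⟩
  have c1 : IsCoprime P (blkA p S₀) := bd_cop (p := p) S₀ P ((X - 1) ^ p * (X + 1) ^ (p - 1)) hPS
  have c2 : IsCoprime P (blkB p S₀) := bd_cop (p := p) S₀ P ((X + 1) ^ p * (X - 1) ^ (p - 1)) hPS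
  exact hP.mul (hA.mul hB hAB) (c1.mul_right c2)

end Pool.Agent.PRB
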