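import Pool.Agent.LibPRK.BlkD

/-!
# Blocks: the operators

PLAN. Let `D = derivative`.  `D^[p] = 0` on `k[X]` (`coeff_iterate_derivative`: `p` consecutive factors; or from FixE/PBa style lemmas).
(1) The polynomial `(X - 1) ^ μ * (X + 1) ^ (p - 1 - μ)` is monic of degree `p - 1`; let `b j` be its coefficient at `p - 1 - j`, `b 0 = 1`.
(2) For `T` with `D T = -1`: `D^[j] (T ^ (p-1)) = (-1) ^ j (p-1)(p-2)...(p-j) T ^ (p-1-j)` for `j ≤ p - 1` (induction).
Put `γ j = b j / ((p-1)(p-2)...(p-j)) = b j / (p-1).descFactorial j` (nonzero for `j ≤ p - 1`): then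
`(T - 1) ^ μ (T + 1) ^ (p-1-μ) = ∑_{j<p} b j T ^ (p-1-j) = ∑_{j<p} γ j (-1) ^ j D^[j] (T ^ (p-1))`.
(3) `crt (f * D^[j] h) = (-1) ^ j crt (D^[j] f * h)` (induction with `crt_deriv_mul`), so with `G f = ∑_{j<p} γ j • D^[j] f`, `γ 0 = 1`:
`crt (f * ((T-1)^μ (T+1)^(p-1-μ))) = crt (G f * T ^ (p-1))`  (`crt (C c * _)`: not linear in `c`, but this is an identity of
polynomials before applying `crt`: `crt (f * ∑ C(γ j) (-1)^j D^[j] h) = ∑ crt (C (γ j) (-1)^j f * D^[j] h) = ∑ crt (D^[j] (C (γ j) f) * h)`).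
(4) `N = G - 1 = ∑_{1≤j<p} γ j D^[j]` satisfies `N^p = 0` (each term contains `D`, everything commutes, `D^[p] = 0`);
`H = ∑_{i<p} (-N)^i`.  In `Module.End k k[X]`: `G = aeval D (g)`, `H = aeval D (h)` with `h` the inverse of `g` modulo `X ^ p`:
perhaps easier: `g : k[X]` (polynomial in the operator), `g.coeff 0 = 1`, so `IsCoprime g (X ^ p)`, `g * h + r * X ^ p = 1`, hence
`G ∘ H = 1 - aeval D r ∘ D ^ p = 1`; and replace `h` by `h %ₘ X^p` or note `h.coeff 0 = 1` (compare constant coefficients).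
(5) `D^[j] (q ^ p * f) = q ^ p * D^[j] f` (`deriv_pow_mul`), degrees do not increase, `D (q ^ p) = 0` so `H (q ^ p) = h.coeff 0 • q ^ p = q ^ p`.
-/

set_option autoImplicit false

namespace Pool.Agent.PRB

open Polynomial

variable {p : ℕ} [Fact p.Prime] {k : Type} [Field k] [IsAlgClosed k] [CharP k p]

omit [Fact p.Prime] [IsAlgClosed k] in
private theorem BlkOp_Dp (hp : p.Prime) (f : k[X]) : (derivative^[p] f : k[X]) = 0 := by
  rw [← factorial_smul_hasseDeriv]
  rw [LinearMap.smul_apply, ← Nat.cast_smul_eq_nsmul k]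
  have h : ((p.factorial : ℕ) : k) = 0 := by
    rw [CharP.cast_eq_zero_iff k p]
    exact Nat.dvd_factorial hp.pos le_rfl
  rw [h, zero_smul]

/-- polynomials in `d/dX` -/
private noncomputable def BlkOp_op (e : k[X]) : k[X] →ₗ[k] k[X] := aeval (derivative : Module.End k k[X]) e

omit [Fact p.Prime] [IsAlgClosed k] [CharP k p] in
private theorem BlkOp_op_add (e e' f : k[X]) : BlkOp_op (e + e') f = BlkOp_op e f + BlkOp_op e' f := by
  unfold BlkOp_op
  rw [map_add]
  rfl

omit [Fact p.Prime] [IsAlgClosed k] [CharP k p] in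
private theorem BlkOp_op_mul (e e' f : k[X]) : BlkOp_op (e * e') f = BlkOp_op e (BlkOp_op e' f) := by
  unfold BlkOp_op
  rw [map_mul]
  rfl

omit [Fact p.Prime] [IsAlgClosed k] [CharP k p] in
private theorem BlkOp_op_mon (n : ℕ) (a : k) (f : k[X]) :
    BlkOp_op (C a * X ^ n) f = C a * derivative^[n] f := by
  unfold BlkOp_op
  rw [map_mul, aeval_C, map_pow, aeval_X, Module.End.mul_apply, Module.End.pow_apply,
    Module.algebraMap_end_apply, smul_eq_C_mul]

omit [Fact p.Prime] [IsAlgClosed k] [CharP k p] in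
private theorem BlkOp_op_C (a : k) (f : k[X]) : BlkOp_op (C a) f = C a * f := by
  have h := BlkOp_op_mon 0 a f
  rw [pow_zero, mul_one] at h
  exact h

omit [Fact p.Prime] [IsAlgClosed k] in
private theorem BlkOp_op_pow (e q f : k[X]) : BlkOp_op e (q ^ p * f) = q ^ p * BlkOp_op e f := by
  induction e using Polynomial.induction_on' with
  | add e e' h h' => rw [BlkOp_op_add, BlkOp_op_add, h, h', mul_add]
  | monomial n a =>
    rw [← C_mul_X_pow_eq_monomial, BlkOp_op_mon, BlkOp_op_mon, deriv_pow_mul]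
    ring

omit [Fact p.Prime] [IsAlgClosed k] [CharP k p] in
private theorem BlkOp_iter_deg (n : ℕ) (f : k[X]) : (derivative^[n] f).degree ≤ f.degree := by
  induction n with
  | zero => exact le_rfl
  | succ n ih =>
    rw [Function.iterate_succ_apply']
    exact (degree_derivative_le).trans ih

omit [Fact p.Prime] [IsAlgClosed k] [CharP k p] in
private theorem BlkOp_op_deg (e f : k[X]) : (BlkOp_op e f).degree ≤ f.degree := by
  induction e using Polynomial.induction_on' with
  | add e e' h h' =>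
    rw [BlkOp_op_add]
    exact (degree_add_le _ _).trans (max_le h h')
  | monomial n a =>
    rw [← C_mul_X_pow_eq_monomial, BlkOp_op_mon, ← smul_eq_C_mul]
    exact (degree_smul_le _ _).trans (BlkOp_iter_deg n f)

omit [Fact p.Prime] [IsAlgClosed k] in
private theorem BlkOp_inv (hp : p.Prime) (g : k[X]) (hg : g.coeff 0 = 1) :
    ∃ h : k[X], (∀ f : k[X], BlkOp_op h (BlkOp_op g f) = f) ∧ ∀ f : k[X], BlkOp_op g (BlkOp_op h f) = f := by
  have h1 : IsCoprime g X := by
    refine ⟨1, -divX g, ?_⟩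
    have h2 := divX_mul_X_add g
    rw [hg, C_1] at h2
    calc 1 * g + -divX g * X = g - divX g * X := by ring
      _ = 1 := by
        nth_rewrite 1 [← h2]
        ring
  obtain ⟨h, r, hr⟩ := h1.pow_right (n := p)
  have hX : ∀ f : k[X], BlkOp_op (r * X ^ p) f = 0 := by
    intro f
    have h3 := BlkOp_op_mon p (1 : k) f
    rw [C_1, one_mul, one_mul, BlkOp_Dp hp f] at h3
    rw [BlkOp_op_mul, h3, map_zero]
  have h4 : ∀ f : k[X], BlkOp_op (h * g) f = f := by
    intro f
    have h5 : BlkOp_op (h * g + r * X ^ p) f = f := by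
      rw [hr, ← C_1, BlkOp_op_C, C_1, one_mul]
    rw [BlkOp_op_add, hX, add_zero] at h5
    exact h5
  refine ⟨h, fun f => ?_, fun f => ?_⟩
  · rw [← BlkOp_op_mul]
    exact h4 f
  · rw [← BlkOp_op_mul, mul_comm]
    exact h4 f

omit [Fact p.Prime] [IsAlgClosed k] [CharP k p] in
private theorem BlkOp_one (g : k[X]) (hg : g.coeff 0 = 1) : BlkOp_op g (1 : k[X]) = 1 := by
  have h2 := divX_mul_X_add g
  rw [hg, C_1] at h2
  have h3 : BlkOp_op (X : k[X]) (1 : k[X]) = 0 := by
    have h4 := BlkOp_op_mon 1 (1 : k) (1 : k[X])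
    rw [C_1, one_mul, pow_one, one_mul, Function.iterate_one, derivative_one] at h4
    exact h4
  have h5 : BlkOp_op (1 : k[X]) (1 : k[X]) = 1 := by
    have h6 := BlkOp_op_C (1 : k) (1 : k[X])
    rw [C_1, one_mul] at h6
    exact h6
  calc BlkOp_op g (1 : k[X]) = BlkOp_op (divX g * X + 1) (1 : k[X]) := by rw [h2]
    _ = 1 := by rw [BlkOp_op_add, BlkOp_op_mul, h3, map_zero, h5, zero_add]

private theorem BlkOp_crt_iter (j : ℕ) (f h : k[X]) :
    crt p (f * derivative^[j] h) = crt p ((-1) ^ j * derivative^[j] f * h) := by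
  induction j generalizing f with
  | zero => simp
  | succ j ih =>
    have h1 := crt_deriv_mul (p := p) f (derivative^[j] h)
    rw [Function.iterate_succ_apply', eq_comm, neg_eq_iff_eq_neg] at *
    rw [h1, ih, ← crt_neg, Function.iterate_succ_apply]
    congr 1
    ring

omit [Fact p.Prime] [IsAlgClosed k] [CharP k p] in
private theorem BlkOp_iterT (T : k[X]) (hT : derivative T = -1) (n j : ℕ) (hj : j ≤ n) :
    derivative^[j] (T ^ n) = C ((-1) ^ j * (n.descFactorial j : k)) * T ^ (n - j) := by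
  induction j with
  | zero => simp
  | succ j ih =>
    rw [Function.iterate_succ_apply', ih (by omega), derivative_C_mul, derivative_pow, hT,
      Nat.descFactorial_succ, show n - j - 1 = n - (j + 1) by omega]
    push_cast
    rw [C_mul, C_mul, C_mul, pow_succ, C_mul]
    simp only [C_neg, C_1, map_natCast]
    ring

theorem exists_ops (μ : ℕ) (hμ : μ ≤ p - 1) : ∃ G H : k[X] →ₗ[k] k[X], BlkOps p μ G H := by
  have hp : p.Prime := Fact.out
  have hp1 : 1 ≤ p := hp.pos
  -- the polynomial and its coefficients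
  obtain ⟨P, hP⟩ : ∃ P : k[X], P = (X - 1) ^ μ * (X + 1) ^ (p - 1 - μ) := ⟨_, rfl⟩
  have hm1 : ((X - 1 : k[X]) ^ μ).Monic := by
    have := monic_X_sub_C (1 : k)
    rw [C_1] at this
    exact this.pow μ
  have hm2 : ((X + 1 : k[X]) ^ (p - 1 - μ)).Monic := by
    have := monic_X_add_C (1 : k)
    rw [C_1] at this
    exact this.pow _
  have hPm : P.Monic := by
    rw [hP]
    exact hm1.mul hm2
  have hPd : P.natDegree = p - 1 := by
    rw [hP, Monic.natDegree_mul hm1 hm2, natDegree_pow, natDegree_pow]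
    have h1 : (X - 1 : k[X]).natDegree = 1 := by
      have := natDegree_X_sub_C (1 : k)
      rwa [C_1] at this
    have h2 : (X + 1 : k[X]).natDegree = 1 := by
      have := natDegree_X_add_C (1 : k)
      rwa [C_1] at this
    rw [h1, h2]
    omega
  have hfac : ∀ j, j ≤ p - 1 → ((p - 1).descFactorial j : k) ≠ 0 := by
    intro j hj h0
    rw [CharP.cast_eq_zero_iff k p] at h0
    have h1 : (p - 1 - j).factorial * (p - 1).descFactorial j = (p - 1).factorial :=
      Nat.factorial_mul_descFactorial hj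
    have h2 : p ∣ (p - 1).factorial := by
      rw [← h1]
      exact Dvd.dvd.mul_left h0 _
    rw [hp.dvd_factorial] at h2
    omega
  obtain ⟨γ, hγ⟩ : ∃ γ : ℕ → k, γ = fun j => P.coeff (p - 1 - j) / ((p - 1).descFactorial j : k) := ⟨_, rfl⟩
  obtain ⟨g, hgdef⟩ : ∃ g : k[X], g = ∑ j ∈ Finset.range p, C (γ j) * X ^ j := ⟨_, rfl⟩
  have hγ0 : γ 0 = 1 := by
    rw [hγ]
    show P.coeff (p - 1 - 0) / ((p - 1).descFactorial 0 : k) = 1
    rw [Nat.descFactorial_zero, Nat.cast_one, div_one, Nat.sub_zero, ← hPd]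
    exact hPm
  have hg0 : g.coeff 0 = 1 := by
    rw [hgdef, finsetSum_coeff]
    simp only [coeff_C_mul, coeff_X_pow]
    rw [Finset.sum_eq_single 0]
    · rw [if_pos rfl, mul_one, hγ0]
    · intro j _ hj
      rw [if_neg (fun h => hj h.symm), mul_zero]
    · intro h
      exact absurd (Finset.mem_range.mpr hp.pos) h
  obtain ⟨h, hHG, hGH⟩ := BlkOp_inv hp g hg0
  refine ⟨BlkOp_op g, BlkOp_op h, hGH, hHG, BlkOp_op_pow g, BlkOp_op_pow h, BlkOp_op_deg g, BlkOp_op_deg h, ?_, ?_⟩
  · intro q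
    have h1 : BlkOp_op h (1 : k[X]) = 1 := by
      have h2 := hHG (1 : k[X])
      rw [BlkOp_one g hg0] at h2
      exact h2
    have h3 := BlkOp_op_pow (p := p) h q 1
    rw [mul_one, h1, mul_one] at h3
    exact h3
  · intro T f hT
    have hcomp : (T - 1) ^ μ * (T + 1) ^ (p - 1 - μ) = P.comp T := by
      rw [hP]
      simp
    have hsum : P.comp T = ∑ j ∈ Finset.range p, C (P.coeff (p - 1 - j)) * T ^ (p - 1 - j) := by
      rw [comp, eval₂_eq_sum_range, hPd, Nat.sub_add_cancel hp1,
        ← Finset.sum_range_reflect]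
    have hterm : ∀ j ∈ Finset.range p, C (P.coeff (p - 1 - j)) * T ^ (p - 1 - j) =
        C (γ j) * ((-1) ^ j * derivative^[j] (T ^ (p - 1))) := by
      intro j hj
      rw [Finset.mem_range] at hj
      have hj' : j ≤ p - 1 := by omega
      rw [BlkOp_iterT T hT (p - 1) j hj']
      have h5 : P.coeff (p - 1 - j) = γ j * ((p - 1).descFactorial j : k) := by
        rw [hγ]
        exact (div_mul_cancel₀ _ (hfac j hj')).symm
      rw [h5, C_mul, C_mul, C_pow, C_neg, C_1]
      have h6 : ((-1 : k[X]) ^ j) * (-1) ^ j = 1 := by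
        rw [← mul_pow]
        simp
      calc C (γ j) * C ((p - 1).descFactorial j : k) * T ^ (p - 1 - j)
          = C (γ j) * (1 * C ((p - 1).descFactorial j : k) * T ^ (p - 1 - j)) := by ring
        _ = C (γ j) * (((-1 : k[X]) ^ j * (-1) ^ j) * C ((p - 1).descFactorial j : k) * T ^ (p - 1 - j)) := by
          rw [h6]
        _ = _ := by ring
    rw [hcomp, hsum, Finset.sum_congr rfl hterm, Finset.mul_sum, crt_sum]
    have hG : BlkOp_op g f = ∑ j ∈ Finset.range p, C (γ j) * derivative^[j] f := by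
      have h7 : ∀ s : Finset ℕ, BlkOp_op (∑ j ∈ s, C (γ j) * X ^ j) f = ∑ j ∈ s, C (γ j) * derivative^[j] f := by
        intro s
        induction s using Finset.induction_on with
        | empty =>
          rw [Finset.sum_empty, Finset.sum_empty]
          have := BlkOp_op_C (0 : k) f
          rw [C_0, zero_mul] at this
          exact this
        | insert j s hj ih =>
          rw [Finset.sum_insert hj, Finset.sum_insert hj, BlkOp_op_add, BlkOp_op_mon, ih]
      rw [hgdef]
      exact h7 _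
    rw [hG, Finset.sum_mul, crt_sum]
    refine Finset.sum_congr rfl fun j _ => ?_
    have h8 : f * (C (γ j) * ((-1) ^ j * derivative^[j] (T ^ (p - 1)))) =
        (C (γ j * (-1) ^ j) * f) * derivative^[j] (T ^ (p - 1)) := by
      rw [C_mul, C_pow, C_neg, C_1]
      ring
    rw [h8, BlkOp_crt_iter, iterate_derivative_C_mul, C_mul, C_pow, C_neg, C_1]
    congr 1
    have h6 : ((-1 : k[X]) ^ j) * (-1) ^ j = 1 := by
      rw [← mul_pow]
      simp
    calc (-1) ^ j * (C (γ j) * (-1) ^ j * derivative^[j] f) * T ^ (p - 1)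
        = C (γ j) * (((-1) ^ j) * (-1) ^ j) * derivative^[j] f * T ^ (p - 1) := by ring
      _ = _ := by rw [h6, mul_one]

end Pool.Agent.PRB
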