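import Pool.Agent.LibPRK.Crt

/-!
# Divisibility and the Cartier operator

PLAN. `crt_pow`: `E ∣ crt _` implies `E ∣ derivative^[p-1] (f * E ^ (p-1))`.  Modulo `E`: by `Polynomial.iterate_derivative_mul`
(Leibniz) `derivative^[p-1] (f * E ^ (p-1)) = ∑ j ≤ p-1, choose * derivative^[p-1-j] f * derivative^[j] (E ^ (p-1))`, and
`derivative^[j] (E ^ n)` is divisible by `E ^ (n - j)` for `j ≤ n` (induction; Mathlib: `Polynomial.dvd_iterate_derivative_pow` or similar),
and `derivative^[n] (E ^ n) ≡ n! (derivative E) ^ n` mod `E` (induction on `n`, using `derivative^[n] (E ^ n) =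
derivative^[n-1] (n * E ^ (n-1) * E')`, Leibniz again: all terms but one contain `E`; or prove the general statement
`derivative^[n] (E ^ n * g) ≡ n! (E') ^ n g` mod `E` by induction on `n` for all `g`:
`derivative (E ^ (n+1) * g) = E ^ n * ((n + 1) E' g + E g')`).
So `E ∣ (p-1)! * (E') ^ (p-1) * f`; `(p-1)! ≠ 0` in `k`; `E` is coprime to `E'` (separable): `E ∣ f`.
-/

set_option autoImplicit false

namespace Pool.Agent.PRB

open Polynomial

variable {p : ℕ} [Fact p.Prime] {k : Type} [Field k] [IsAlgClosed k] [CharP k p]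

private theorem CrtDvd_aux {k : Type} [Field k] (E : k[X]) (n : ℕ) : ∀ g : k[X], ∃ h : k[X],
    derivative^[n] (E ^ n * g) = E * h + ((n.factorial : ℕ) : k[X]) * derivative E ^ n * g := by
  induction n with
  | zero => intro g; exact ⟨0, by simp⟩
  | succ n ih =>
    intro g
    obtain ⟨h, hh⟩ := ih (((n : k[X]) + 1) * derivative E * g + E * derivative g)
    refine ⟨h + ((n.factorial : ℕ) : k[X]) * derivative E ^ n * derivative g, ?_⟩
    rw [Function.iterate_succ_apply]
    have h1 : derivative (E ^ (n + 1) * g) =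
        E ^ n * (((n : k[X]) + 1) * derivative E * g + E * derivative g) := by
      rw [derivative_mul, derivative_pow_succ]
      simp only [map_add, map_natCast, map_one]
      ring
    rw [h1, hh, Nat.factorial_succ]
    push_cast
    ring

/-- If `E` is separable and divides `crt (f * E ^ (p - 1))` (for instance because this is `0`), then `E`
divides `f`. -/
theorem dvd_of_dvd_crt (E f : k[X]) (hE : E.Separable)
    (h : E ∣ crt p (f * E ^ (p - 1))) : E ∣ f := by
  have hp : p.Prime := Fact.out
  have h1 : E ∣ derivative^[p - 1] (E ^ (p - 1) * f) := by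
    have h2 : E ∣ crt p (f * E ^ (p - 1)) ^ p := dvd_pow h hp.ne_zero
    rw [crt_pow, dvd_neg, mul_comm] at h2
    exact h2
  obtain ⟨g, hg⟩ := CrtDvd_aux E (p - 1) f
  rw [hg] at h1
  have h3 : E ∣ (((p - 1).factorial : ℕ) : k[X]) * derivative E ^ (p - 1) * f :=
    (dvd_add_right (dvd_mul_right E g)).1 h1
  have h4 : (((p - 1).factorial : ℕ) : k) ≠ 0 := by
    intro h5
    rw [CharP.cast_eq_zero_iff k p, hp.dvd_factorial] at h5
    have := hp.pos
    omega
  have h5 : IsUnit (((p - 1).factorial : ℕ) : k[X]) := by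
    have h6 : ((((p - 1).factorial : ℕ) : k[X])) = C (((p - 1).factorial : ℕ) : k) := by
      rw [map_natCast]
    rw [h6, isUnit_C]
    exact isUnit_iff_ne_zero.2 h4
  rw [mul_assoc, h5.dvd_mul_left] at h3
  have h6 : IsCoprime E (derivative E ^ (p - 1)) := IsCoprime.pow_right hE
  exact h6.dvd_of_dvd_mul_left h3

end Pool.Agent.PRB
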