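import Pool.Agent.LibPRK.BlkD
import Pool.Agent.LibPRK.CrtDvd

/-!
# Blocks: the kernel in terms of the polynomials `Ξ`

PLAN. Write `T = blkT p S₀`, `S = blkS S₀`, `U = blkU p μ S₀`, `G' = blkG p μ` (monic of degree `p + 1`, divides `(X ^ 2 - 1) ^ p`),
`F = g * (W * G')`.
`blk_fwd`: `(X^2-1)^p * (g * (W * U)) = F * ((T-1)^μ (T+1)^(p-1-μ))` (`blk_U`), so by `crt_pow_mul`, `O.crt` (with `blk_dT`)
`crt (G F * T ^ (p-1)) = (X^2-1) * crt (g * (W * U)) = 0`.  `dvd_of_dvd_crt` (`T` is separable: `derivative T = -1`): `G F = T * Ξ`;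
`crt (T Ξ T ^ (p-1)) = crt (T ^ p * Ξ) = T * crt Ξ`, `T ≠ 0`: `crt Ξ = 0`.  `F = H (G F) = H (S ^ p Ξ - X Ξ) = S ^ p H Ξ - H (X Ξ)`
(`O.Hp`), and `W * G' ∣ S ^ p`, so `W * G' ∣ H (X Ξ)`.  Degree: `deg Ξ + deg T = deg (G F) ≤ deg g + deg W + p + 1`, `deg T ≥ 1`.
(If `Ξ = 0` nothing to show.  `g.degree < ν + (deg T - 1) - 1`, truncated: if the right side is `0` then `g = 0`, `Ξ = 0`.)
`blk_bwd`: `H (T Ξ) = S ^ p H Ξ - H (X Ξ)` is divisible by `W * G'`: `g`.  `G (g * (W * G')) = T Ξ`, so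
`(X^2-1) * crt (g * (W * U)) = crt (T Ξ T^(p-1)) = T * crt Ξ = 0`.  Degree: `deg g = deg (H (T Ξ)) - deg W - (p + 1)`.
-/

set_option autoImplicit false

namespace Pool.Agent.PRB

open Polynomial

variable {p : ℕ} [Fact p.Prime] {k : Type} [Field k] [IsAlgClosed k] [CharP k p]

theorem blk_bwd (hp2 : p ≠ 2) {μ : ℕ} (hμ : μ ≤ p - 1) {G H : k[X] →ₗ[k] k[X]}
    (O : BlkOps p μ G H) (W S₀ : k[X]) (hW : W ≠ 0)
    (hS : W * (X ^ 2 - 1) ^ p ∣ blkS S₀ ^ p) (ν : ℕ) (Ξ : k[X])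
    (h1 : crt p Ξ = 0) (h2 : W * blkG p μ ∣ H (X * Ξ))
    (h3 : Ξ.degree < ((ν + W.natDegree + (p - 1) : ℕ) : WithBot ℕ)) :
    ∃ g : k[X], g.degree < ((ν + ((blkT p S₀).natDegree - 1) - 1 : ℕ) : WithBot ℕ) ∧
      g * (W * blkG p μ) = H (blkT p S₀ * Ξ) ∧ crt p (g * (W * blkU p μ S₀)) = 0 := by
  have hp : p.Prime := Fact.out
  have hp1 : 1 < p := hp.one_lt
  have hX2 : (X ^ 2 - 1 : k[X]) ≠ 0 := by
    have : (X ^ 2 - 1 : k[X]) = X ^ 2 - C 1 := by rw [C_1]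
    rw [this]
    exact X_pow_sub_C_ne_zero (by norm_num) 1
  -- the factor divides `(X ^ 2 - 1) ^ p`
  have hG : blkG p μ ∣ ((X ^ 2 - 1 : k[X])) ^ p := by
    have h4 : (X ^ 2 - 1 : k[X]) = (X + 1) * (X - 1) := by ring
    unfold blkG
    rw [h4, mul_pow]
    exact mul_dvd_mul (pow_dvd_pow _ (by omega)) (pow_dvd_pow _ (by omega))
  have hWG : W * blkG p μ ∣ blkS S₀ ^ p := (mul_dvd_mul_left W hG).trans hS
  have hHT : H (blkT p S₀ * Ξ) = blkS S₀ ^ p * H Ξ - H (X * Ξ) := by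
    unfold blkT
    rw [sub_mul, map_sub, O.Hp]
  have hdvd : W * blkG p μ ∣ H (blkT p S₀ * Ξ) := by
    rw [hHT]
    exact dvd_sub (hWG.mul_right _) h2
  obtain ⟨g, hg⟩ := hdvd
  have hg' : g * (W * blkG p μ) = H (blkT p S₀ * Ξ) := by
    rw [hg]
    ring
  have hT1 : 1 ≤ (blkT p S₀).natDegree := by
    by_contra h0
    have h5 : (blkT p S₀).natDegree = 0 := by omega
    have h6 := blk_dT (p := p) S₀
    rw [eq_C_of_natDegree_eq_zero h5, derivative_C] at h6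
    exact neg_ne_zero.2 one_ne_zero h6.symm
  have hT0 : blkT p S₀ ≠ 0 := by
    intro h0
    rw [h0, natDegree_zero] at hT1
    omega
  have hmon : (blkG p μ : k[X]).Monic := by
    have h5 : ((X + 1 : k[X])).Monic := by
      have := monic_X_add_C (1 : k)
      rwa [C_1] at this
    have h6 : ((X - 1 : k[X])).Monic := by
      have := monic_X_sub_C (1 : k)
      rwa [C_1] at this
    exact (h5.pow _).mul (h6.pow _)
  have hGdeg : (blkG p μ : k[X]).natDegree = p + 1 := by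
    have h5 : ((X + 1 : k[X])).Monic := by
      have := monic_X_add_C (1 : k)
      rwa [C_1] at this
    have h6 : ((X - 1 : k[X])).Monic := by
      have := monic_X_sub_C (1 : k)
      rwa [C_1] at this
    have h7 : (X + 1 : k[X]).natDegree = 1 := by
      have := natDegree_X_add_C (1 : k)
      rwa [C_1] at this
    have h8 : (X - 1 : k[X]).natDegree = 1 := by
      have := natDegree_X_sub_C (1 : k)
      rwa [C_1] at this
    unfold blkG
    rw [(h5.pow _).natDegree_mul (h6.pow _), h5.natDegree_pow, h6.natDegree_pow, h7, h8]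
    omega
  refine ⟨g, ?_, hg', ?_⟩
  · by_cases hg0 : g = 0
    · rw [hg0, degree_zero]
      exact WithBot.bot_lt_coe _
    have hΞ0 : Ξ ≠ 0 := by
      rintro rfl
      rw [mul_zero, map_zero] at hg'
      exact hg0 ((mul_eq_zero.1 hg').resolve_right (mul_ne_zero hW hmon.ne_zero))
    have h5 : (g * (W * blkG p μ)).natDegree ≤ (blkT p S₀ * Ξ).natDegree := by
      rw [hg']
      exact natDegree_le_natDegree (O.Hd _)
    rw [natDegree_mul hg0 (mul_ne_zero hW hmon.ne_zero), natDegree_mul hW hmon.ne_zero, hGdeg,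
      natDegree_mul hT0 hΞ0] at h5
    have h6 : Ξ.natDegree < ν + W.natDegree + (p - 1) := (natDegree_lt_iff_degree_lt hΞ0).2 h3
    rw [← natDegree_lt_iff_degree_lt hg0]
    omega
  · have h5 : (X ^ 2 - 1) * crt p (g * (W * blkU p μ S₀)) = 0 := by
      rw [← crt_pow_mul]
      have h6 : (X ^ 2 - 1) ^ p * (g * (W * blkU p μ S₀)) =
          H (blkT p S₀ * Ξ) * ((blkT p S₀ - 1) ^ μ * (blkT p S₀ + 1) ^ (p - 1 - μ)) := by
        rw [← hg']
        calc (X ^ 2 - 1) ^ p * (g * (W * blkU p μ S₀))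
            = g * W * ((X ^ 2 - 1) ^ p * blkU p μ S₀) := by ring
          _ = g * W * (blkG p μ * ((blkT p S₀ - 1) ^ μ * (blkT p S₀ + 1) ^ (p - 1 - μ))) := by
              rw [blk_U μ hμ S₀]
          _ = _ := by ring
      rw [h6, O.crt _ _ (blk_dT S₀), O.GH]
      have h7 : blkT p S₀ * Ξ * blkT p S₀ ^ (p - 1) = blkT p S₀ ^ p * Ξ := by
        have h8 : blkT p S₀ ^ p = blkT p S₀ ^ (p - 1) * blkT p S₀ := by
          rw [← pow_succ]
          congr 1
          omega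
        rw [h8]
        ring
      rw [h7, crt_pow_mul, h1, mul_zero]
    exact (mul_eq_zero.1 h5).resolve_left hX2

end Pool.Agent.PRB
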