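import Pool.Agent.LibPRK.BlkX
import Pool.Agent.LibPRK.BlkY
import Pool.Agent.LibPRK.BlkOp
import Pool.Agent.LibPRK.BlkDeg

/-!
# Blocks preserve the dimension of the kernel
-/

set_option autoImplicit false

namespace Pool.Agent.PRB

open Polynomial

variable {p : ℕ} [Fact p.Prime] {k : Type} [Field k] [IsAlgClosed k] [CharP k p]

/-- The space of the `Ξ`. -/
private def blkKer_X (p : ℕ) [Fact p.Prime] {k : Type} [Field k] [IsAlgClosed k] [CharP k p]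
    (H : k[X] →ₗ[k] k[X]) (D : k[X]) (n : ℕ) : Submodule k k[X] where
  carrier := {Ξ | crt p Ξ = 0 ∧ D ∣ H (X * Ξ) ∧ Ξ.degree < (n : WithBot ℕ)}
  add_mem' := fun {f g} hf hg => ⟨by rw [crt_add, hf.1, hg.1, add_zero],
    by rw [mul_add, map_add]; exact dvd_add hf.2.1 hg.2.1,
    (degree_add_le f g).trans_lt (max_lt hf.2.2 hg.2.2)⟩
  zero_mem' := ⟨crt_zero, by rw [mul_zero, map_zero]; exact dvd_zero _,
    by rw [degree_zero]; exact WithBot.bot_lt_coe n⟩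
  smul_mem' := fun c {g} hg => ⟨by
      obtain ⟨r, rfl⟩ := IsAlgClosed.exists_pow_nat_eq c (Fact.out : p.Prime).pos
      rw [smul_eq_C_mul, crt_C_pow_mul, hg.1, mul_zero],
    by
      rw [mul_smul_comm, map_smul, smul_eq_C_mul]
      exact Dvd.dvd.mul_left hg.2.1 _,
    (degree_smul_le c g).trans_lt hg.2.2⟩

private theorem blkKer_iso (hp2 : p ≠ 2) {μ : ℕ} (hμ : μ ≤ p - 1) {G H : k[X] →ₗ[k] k[X]}
    (O : BlkOps p μ G H) (W S₀ : k[X]) (hW : W ≠ 0) (hJ : (blkG p μ : k[X]) ≠ 0)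
    (hT : blkT p S₀ ≠ 0)
    (hS : W * (X ^ 2 - 1) ^ p ∣ blkS S₀ ^ p) (ν : ℕ) :
    Module.finrank k (kSp p (W * blkU p μ S₀) (ν + ((blkT p S₀).natDegree - 1) - 1)) =
      Module.finrank k (blkKer_X p H (W * blkG p μ) (ν + W.natDegree + (p - 1))) := by
  have hWJ : W * blkG p μ ≠ 0 := mul_ne_zero hW hJ
  let j : k[X] →ₗ[k] k[X] := G ∘ₗ LinearMap.mulRight k (W * blkG p μ)
  let i : k[X] →ₗ[k] k[X] := LinearMap.mulLeft k (blkT p S₀)
  have hj : ∀ g, j g = G (g * (W * blkG p μ)) := fun g => rfl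
  have hi : ∀ g, i g = blkT p S₀ * g := fun g => rfl
  have hjinj : Function.Injective j := by
    intro a b hab
    rw [hj, hj] at hab
    have h1 := congrArg H hab
    rw [O.HG, O.HG] at h1
    exact mul_right_cancel₀ hWJ h1
  have hiinj : Function.Injective i := by
    intro a b hab
    rw [hi, hi] at hab
    exact mul_left_cancel₀ hT hab
  have hmap : (kSp p (W * blkU p μ S₀) (ν + ((blkT p S₀).natDegree - 1) - 1)).map j =
      (blkKer_X p H (W * blkG p μ) (ν + W.natDegree + (p - 1))).map i := by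
    ext f
    rw [Submodule.mem_map, Submodule.mem_map]
    constructor
    · rintro ⟨g, hg, rfl⟩
      rw [mem_kSp] at hg
      obtain ⟨Ξ, h1, h2, h3, h4⟩ := blk_fwd hp2 hμ O W S₀ hW hS ν g hg.1 hg.2
      exact ⟨Ξ, ⟨h2, h3, h4⟩, by rw [hi, hj, h1]⟩
    · rintro ⟨Ξ, hΞ, rfl⟩
      obtain ⟨g, h1, h2, h3⟩ := blk_bwd hp2 hμ O W S₀ hW hS ν Ξ hΞ.1 hΞ.2.1 hΞ.2.2
      exact ⟨g, mem_kSp.2 ⟨h1, h3⟩, by rw [hi, hj, h2, O.GH]⟩
  have e1 := (Submodule.equivMapOfInjective j hjinj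
    (kSp p (W * blkU p μ S₀) (ν + ((blkT p S₀).natDegree - 1) - 1))).finrank_eq
  have e2 := (Submodule.equivMapOfInjective i hiinj
    (blkKer_X p H (W * blkG p μ) (ν + W.natDegree + (p - 1)))).finrank_eq
  rw [e1, hmap, e2]

theorem blk_ker (hp2 : p ≠ 2) {μ : ℕ} (hμ : μ ≤ p - 1) (W S₀ : k[X]) (hW : W ≠ 0)
    (hS₀ : S₀.Monic) (hS : (X ^ 2 - 1) ^ (p - 1) * W ∣ S₀) (ν : ℕ) :
    Module.finrank k (kSp p (W * blkU p μ S₀) (ν + (blkA p S₀).natDegree - 1)) =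
      Module.finrank k (kSp p W (ν - 1)) := by
  have hp : p.Prime := Fact.out
  obtain ⟨G, H, O⟩ := exists_ops (p := p) (k := k) μ hμ
  have hJ : (blkG p μ : k[X]) ≠ 0 := by
    unfold blkG
    have m1 : (X + 1 : k[X]).Monic := by
      rw [← C_1]
      exact monic_X_add_C 1
    have m2 : (X - 1 : k[X]).Monic := by
      rw [← C_1]
      exact monic_X_sub_C 1
    exact ((m1.pow _).mul (m2.pow _)).ne_zero
  have hT : ∀ S : k[X], blkT p S ≠ 0 := by
    intro S h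
    have h1 := blk_dT (p := p) S
    rw [h, derivative_zero] at h1
    exact one_ne_zero (neg_eq_zero.1 h1.symm)
  have hS' : W * (X ^ 2 - 1) ^ p ∣ blkS S₀ ^ p := by
    refine Dvd.dvd.trans ?_ (dvd_pow_self (blkS S₀) hp.ne_zero)
    obtain ⟨R, hR⟩ := hS
    refine ⟨R, ?_⟩
    unfold blkS
    rw [← pow_sub_one_mul hp.ne_zero (X ^ 2 - 1 : k[X])]
    linear_combination (X ^ 2 - 1) * hR
  have h1 := blkKer_iso hp2 hμ O W S₀ hW hJ (hT S₀) hS' ν
  have h2 := blkKer_iso hp2 hμ O W 0 hW hJ (hT 0) (by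
    unfold blkS
    rw [mul_zero, zero_pow hp.ne_zero]
    exact dvd_zero _) ν
  have h3 : (blkT p S₀).natDegree - 1 = (blkA p S₀).natDegree := by
    rw [blkT_deg S₀ hS₀, blkA_deg S₀ hS₀]
  have h4 : (blkT p (0 : k[X])).natDegree - 1 = 0 := by
    rw [blkT_zero, natDegree_neg, natDegree_X]
  rw [h3] at h1
  rw [h4, blkU_zero hp2 hμ, mul_one, add_zero] at h2
  rw [h1, h2]

end Pool.Agent.PRB
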