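import Pool.Agent.LibPRK.Crt

/-!
# The Cartier operator and the powers of `S ^ p - X`

PLAN. Put `T = S ^ p - X`.  `T ^ (p-1) = ∑_{l<p} (S^l)^p * X^(p-1-l)`: in `k`, `(p-1).choose l = (-1)^l` (or: `(a - b) ^ (p-1) = ∑_{l<p} a^l b^(p-1-l)` in
characteristic `p`: multiply by `a - b`: `(a-b)^p = a^p - b^p` (`sub_pow_char`), `Commute.geom_sum₂_mul` / `geom_sum₂_mul : (∑ i ∈ range n, x^i * y^(n-1-i)) * (x - y) = x^n - y^n`,
cancel `a - b ≠ 0`; here `a = S^p`, `b = X`, `S^p - X ≠ 0` because its derivative is `-1`).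
`crt_T_pow`: `crt_sum`, `crt_pow_mul`; `crt (X ^ (p-1-l)) = 0` for `l ≠ 0`, `1` for `l = 0` (`crt_eq_iff`, coefficients of `X ^ n`).
`crt_T_pow_X`: the term `l`: `crt ((S^l)^p * X^(2 (p-1) - l)) = S^l * crt (X^(2(p-1)-l))`, which is `1` for `l = p - 1` and `0` otherwise
(`2 (p-1) - l = p i + (p-1)` with `0 ≤ l ≤ p - 1` forces `i = 0`, `l = p-1`).
-/

set_option autoImplicit false

namespace Pool.Agent.PRB

open Polynomial

variable {p : ℕ} [Fact p.Prime] {k : Type} [Field k] [IsAlgClosed k] [CharP k p]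

omit [Fact p.Prime] [IsAlgClosed k] in
private theorem BlkT1_ne (S : k[X]) : S ^ p - X ≠ 0 := by
  intro h
  have h1 : derivative (S ^ p - X) = -1 := by
    rw [derivative_sub, derivative_pow, CharP.cast_eq_zero k p, C_0, zero_mul, zero_mul,
      derivative_X, zero_sub]
  rw [h, derivative_zero] at h1
  exact one_ne_zero (neg_eq_zero.1 h1.symm)

private theorem BlkT1_pow (S : k[X]) :
    (S ^ p - X) ^ (p - 1) = ∑ l ∈ Finset.range p, (S ^ l) ^ p * X ^ (p - 1 - l) := by
  have hp : p.Prime := Fact.out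
  apply mul_right_cancel₀ (BlkT1_ne (p := p) S)
  have h1 : (∑ l ∈ Finset.range p, (S ^ l) ^ p * X ^ (p - 1 - l)) * (S ^ p - X) =
      (S ^ p) ^ p - X ^ p := by
    rw [← geom_sum₂_mul]
    congr 1
    refine Finset.sum_congr rfl fun l _ => ?_
    rw [← pow_mul, ← pow_mul, mul_comm l p]
  rw [h1, ← pow_succ, Nat.sub_add_cancel hp.one_lt.le, sub_pow_char]

private theorem BlkT1_X (n : ℕ) (hn : n < p + (p - 1)) :
    crt p (X ^ n : k[X]) = if n = p - 1 then 1 else 0 := by
  have hp : p.Prime := Fact.out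
  rw [crt_eq_iff]
  intro i
  rw [coeff_X_pow]
  by_cases h : n = p - 1
  · rw [if_pos h, h, coeff_one]
    by_cases hi : i = 0
    · rw [if_pos hi, hi, mul_zero, zero_add, if_pos rfl, one_pow]
    · have : ¬ (p * i + (p - 1) = p - 1) := by
        intro h1
        have h2 : p * i = 0 := by omega
        rcases Nat.mul_eq_zero.1 h2 with h3 | h3
        · exact hp.ne_zero h3
        · exact hi h3
      rw [if_neg hi, if_neg this, zero_pow hp.ne_zero]
  · rw [if_neg h, coeff_zero, zero_pow hp.ne_zero]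
    have : ¬ (p * i + (p - 1) = n) := by
      intro h1
      rcases Nat.eq_zero_or_pos i with hi | hi
      · rw [hi, mul_zero, zero_add] at h1
        exact h h1.symm
      · have := Nat.le_mul_of_pos_right p hi
        omega
    rw [if_neg this]

theorem crt_T_pow (S q : k[X]) : crt p (q ^ p * (S ^ p - X) ^ (p - 1)) = q := by
  have hp : p.Prime := Fact.out
  rw [crt_pow_mul, BlkT1_pow, crt_sum, Finset.sum_eq_single 0]
  · rw [crt_pow_mul, BlkT1_X (p - 1 - 0) (by have := hp.pos; omega), if_pos (Nat.sub_zero _), pow_zero,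
      mul_one, mul_one]
  · intro l hl hl0
    rw [Finset.mem_range] at hl
    rw [crt_pow_mul, BlkT1_X _ (by omega), if_neg (by omega), mul_zero]
  · intro h
    exact absurd (Finset.mem_range.2 hp.pos) h

theorem crt_T_pow_X (S q : k[X]) :
    crt p (q ^ p * ((S ^ p - X) ^ (p - 1) * X ^ (p - 1))) = q * S ^ (p - 1) := by
  have hp : p.Prime := Fact.out
  have hp1 := hp.one_lt
  rw [crt_pow_mul, BlkT1_pow, Finset.sum_mul, crt_sum, Finset.sum_eq_single (p - 1)]
  · rw [mul_assoc, ← pow_add, crt_pow_mul, BlkT1_X _ (by omega), if_pos (by omega), mul_one]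
  · intro l hl hl0
    rw [Finset.mem_range] at hl
    rw [mul_assoc, ← pow_add, crt_pow_mul, BlkT1_X _ (by omega), if_neg (by omega), mul_zero]
  · intro h
    exact absurd (Finset.mem_range.2 (by omega)) h

end Pool.Agent.PRB
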