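import Pool.Agent.LibPRK.BlkD
import Pool.Agent.LibPRK.BlkT1
import Pool.Agent.LibPRK.CrtDvd

/-!
# Blocks and stability, second step
-/

set_option autoImplicit false

namespace Pool.Agent.PRB

open Polynomial

variable {p : ℕ} [Fact p.Prime] {k : Type} [Field k] [IsAlgClosed k] [CharP k p]

omit [IsAlgClosed k] [CharP k p] in
private theorem blkT3_E : (X ^ 2 - 1 : k[X]) ≠ 0 := by
  intro h
  have h1 := congrArg (fun f => f.coeff 2) h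
  simp [coeff_one] at h1

omit [IsAlgClosed k] [CharP k p] in
private theorem blkT3_J {μ : ℕ} (hμ : μ ≤ p - 1) :
    (blkG p μ : k[X]) ∣ (X ^ 2 - 1) ^ p := by
  have hp := (Fact.out : p.Prime).pos
  have h2 : (X ^ 2 - 1 : k[X]) = (X + 1) * (X - 1) := by ring
  rw [h2, mul_pow]
  exact mul_dvd_mul (pow_dvd_pow _ (by omega)) (pow_dvd_pow _ (by omega))

private theorem blkT3_T0 (S₀ : k[X]) : blkT p S₀ ≠ 0 := by
  intro h
  have h1 := blk_dT (p := p) S₀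
  rw [h, derivative_zero] at h1
  exact one_ne_zero (neg_eq_zero.1 h1.symm)

private theorem blkT3_sep (S₀ : k[X]) : (blkT p S₀).Separable := by
  rw [separable_def, blk_dT]
  exact (isCoprime_one_right).neg_right

private theorem blkT3_X (hp2 : p ≠ 2) (q : k[X]) : crt p (q ^ p * X ^ (p - 1)) = q := by
  have hp : p.Prime := Fact.out
  have h := crt_T_pow (p := p) (0 : k[X]) q
  rw [zero_pow hp.ne_zero, zero_sub, (hp.even_sub_one hp2).neg_pow] at h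
  exact h

theorem blk_st_two (hp2 : p ≠ 2) {μ : ℕ} (hμ : μ ≤ p - 1) {G H : k[X] →ₗ[k] k[X]}
    (O : BlkOps p μ G H) (W S₀ : k[X]) (hW : W ≠ 0)
    (hS : W * (X ^ 2 - 1) ^ p ∣ blkS S₀ ^ p) (g g₁' Y₁ : k[X])
    (hY : W * (X ^ 2 - 1) ^ p ∣ Y₁ ^ p)
    (h : (X ^ 2 - 1) * crt p (g * (W * blkU p μ S₀)) =
      (X ^ 2 - 1) * g₁' + blkS S₀ ^ (p - 1) * Y₁) :
    ∃ g₁ Z : k[X], crt p (g₁ * W) = g₁' ∧
      G (g * (W * blkG p μ)) =
        ((X ^ 2 - 1) * g₁') ^ p + (blkS S₀ ^ (p - 1) * Y₁) ^ p + blkT p S₀ * Z ∧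
      g₁ * (W * blkG p μ) =
        g * (W * blkG p μ) - blkS S₀ ^ p * H Z - Y₁ ^ p * H (blkT p S₀ ^ (p - 1)) := by
  have hp : p.Prime := Fact.out
  have hpp : p - 1 + 1 = p := Nat.succ_pred_eq_of_pos hp.pos
  have hT0 := blkT3_T0 (p := p) (k := k) S₀
  have hTS : blkT p S₀ = blkS S₀ ^ p - X := rfl
  -- (1)
  have e1 : (X ^ 2 - 1) ^ p * (g * (W * blkU p μ S₀)) =
      g * (W * blkG p μ) * ((blkT p S₀ - 1) ^ μ * (blkT p S₀ + 1) ^ (p - 1 - μ)) := by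
    have := blk_U (p := p) μ hμ S₀
    linear_combination (g * W) * this
  have e2 : (X ^ 2 - 1) * crt p (g * (W * blkU p μ S₀)) =
      crt p (G (g * (W * blkG p μ)) * blkT p S₀ ^ (p - 1)) := by
    rw [← crt_pow_mul, e1, O.crt _ _ (blk_dT S₀)]
  rw [h] at e2
  -- (2)
  have e3 : crt p (((X ^ 2 - 1) * g₁' + blkS S₀ ^ (p - 1) * Y₁) ^ p * blkT p S₀ ^ (p - 1)) =
      (X ^ 2 - 1) * g₁' + blkS S₀ ^ (p - 1) * Y₁ := by
    rw [hTS]
    exact crt_T_pow _ _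
  have e4 : crt p ((G (g * (W * blkG p μ)) -
      ((X ^ 2 - 1) * g₁' + blkS S₀ ^ (p - 1) * Y₁) ^ p) * blkT p S₀ ^ (p - 1)) = 0 := by
    rw [sub_mul, crt_sub, e3, ← e2, sub_self]
  obtain ⟨Z, hZ⟩ := dvd_of_dvd_crt (p := p) (blkT p S₀) _ (blkT3_sep S₀)
    (by rw [e4]; exact dvd_zero _)
  have hGF : G (g * (W * blkG p μ)) =
      ((X ^ 2 - 1) * g₁') ^ p + (blkS S₀ ^ (p - 1) * Y₁) ^ p + blkT p S₀ * Z := by
    rw [← add_pow_char]
    linear_combination hZ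
  have hcZ : crt p Z = 0 := by
    rw [hZ] at e4
    have e5 : blkT p S₀ * Z * blkT p S₀ ^ (p - 1) = blkT p S₀ ^ p * Z := by
      rw [← pow_sub_one_mul hp.ne_zero (blkT p S₀)]
      ring
    rw [e5, crt_pow_mul] at e4
    exact (mul_eq_zero.1 e4).resolve_left hT0
  -- (3)
  have hWJ : W * blkG p μ ∣ W * (X ^ 2 - 1) ^ p := mul_dvd_mul_left _ (blkT3_J hμ)
  have hdiv : W * blkG p μ ∣ g * (W * blkG p μ) - blkS S₀ ^ p * H Z -
      Y₁ ^ p * H (blkT p S₀ ^ (p - 1)) :=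
    dvd_sub (dvd_sub (dvd_mul_left _ _) ((hWJ.trans hS).mul_right _)) ((hWJ.trans hY).mul_right _)
  obtain ⟨g₁, hg₁⟩ := hdiv
  rw [mul_comm (W * blkG p μ) g₁] at hg₁
  refine ⟨g₁, Z, ?_, hGF, hg₁.symm⟩
  -- (4)
  have e6 : G (g₁ * (W * blkG p μ)) = ((X ^ 2 - 1) * g₁') ^ p + (blkS S₀ ^ (p - 1) * Y₁) ^ p -
      X * Z - Y₁ ^ p * blkT p S₀ ^ (p - 1) := by
    rw [← hg₁, map_sub, map_sub, O.Gp, O.Gp, O.GH, O.GH, hGF, hTS]
    ring
  -- (5)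
  have e7 : (X ^ 2 - 1) ^ p * (g₁ * W) =
      g₁ * (W * blkG p μ) * ((-X - 1) ^ μ * (-X + 1) ^ (p - 1 - μ)) := by
    have := blk_U (p := p) μ hμ (0 : k[X])
    rw [blkU_zero hp2 hμ, blkT_zero, mul_one] at this
    linear_combination (g₁ * W) * this
  have e8 : (X ^ 2 - 1) * crt p (g₁ * W) = (X ^ 2 - 1) * g₁' := by
    rw [← crt_pow_mul, e7, O.crt (-X) _ (by rw [derivative_neg, derivative_X]), e6,
      (hp.even_sub_one hp2).neg_pow]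
    have e9 : (((X ^ 2 - 1) * g₁') ^ p + (blkS S₀ ^ (p - 1) * Y₁) ^ p -
      X * Z - Y₁ ^ p * blkT p S₀ ^ (p - 1)) * X ^ (p - 1) =
        ((X ^ 2 - 1) * g₁') ^ p * X ^ (p - 1) + (blkS S₀ ^ (p - 1) * Y₁) ^ p * X ^ (p - 1) -
        X ^ p * Z - Y₁ ^ p * (blkT p S₀ ^ (p - 1) * X ^ (p - 1)) := by
      have : (X : k[X]) ^ p = X ^ (p - 1) * X := (pow_sub_one_mul hp.ne_zero X).symm
      rw [this]
      ring
    rw [e9, crt_sub, crt_sub, crt_add, blkT3_X hp2, blkT3_X hp2, crt_pow_mul, hcZ, mul_zero,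
      sub_zero, hTS, crt_T_pow_X]
    ring
  exact mul_left_cancel₀ blkT3_E e8

end Pool.Agent.PRB
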