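import Pool.Agent.LibPRK.BlkD
import Pool.Agent.LibPRK.BlkDeg

/-!
# Blocks and stability: the degree of `g₁`

PLAN. `E = X ^ 2 - 1`, `S = blkS S₀` (monic of degree `n = S₀.natDegree + 2`), `T = blkT p S₀ = S ^ p - X` (natDegree `p n`), `J = blkG p μ` (monic of degree `p + 1`), `F = g * (W * J)`,
`F₁ = g₁ * (W * J)`, `w = W.natDegree`.
`Ψ := S ^ p * Z + T ^ (p-1) * Y₁ ^ p` satisfies `T * Ψ = S ^ p * (G F - (E g₁') ^ p) - X ^ p * Y₁ ^ p` (`h1`, `T ^ p = S^(p^2) - X^p` by `sub_pow_char`, `(S^(p-1) Y₁)^p * S^p = S^(p^2) Y₁^p`).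
`H (T ^ p) = T ^ p` (`O.H1`) and `T ^ p = S^p * T^(p-1) - X * T^(p-1)` give `S ^ p * H (T^(p-1)) = T ^ p + H (X * T^(p-1))` (`O.Hp`).
`F = H (G F) = (E g₁')^p + (S^(p-1) Y₁)^p + S ^ p * H Z - H (X * Z)` (`O.HG`, `O.H1`, `O.Hp`), so (`h2`)
`S ^ p * F₁ = S ^ p * (E g₁') ^ p + X ^ p * Y₁ ^ p - H (X * Ψ)`.
Degrees (natDegree): `F ≤ p n + ν + w + p - 2` (`g ≤ ν + p n - 3`), `G F` the same (`O.Gd`), `(E g₁')^p ≤ p ν` (`g₁' = 0` or `natDegree g₁' ≤ ν - 2`), `X^p Y₁^p ≤ p + p (n + ν - 1) = p n + p ν`;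
so `T Ψ ≤ p n + max (p n + ν + w + p - 2) (p ν)`, `Ψ ≤ max (p n + ν + w + p - 2) (p ν)`, `H (X Ψ) ≤ max (p n + ν + w + p - 1) (p ν + 1)`, `S^p F₁ ≤ p n + max (p ν) (ν + w + p - 1)` (`p n ≥ 1`), so
`F₁ ≤ max (p ν) (ν + w + p - 1) = ν + w + p - 1` by `hd2`, and `g₁ = 0` or `natDegree g₁ = natDegree F₁ - w - (p + 1) ≤ ν - 2` (with `natDegree F₁ ≥ w + p + 1` so `ν ≥ 2`).
-/

set_option autoImplicit false

namespace Pool.Agent.PRB

open Polynomial

variable {p : ℕ} [Fact p.Prime] {k : Type} [Field k] [IsAlgClosed k] [CharP k p]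

omit [Fact p.Prime] [IsAlgClosed k] [CharP k p] in
private theorem BlkT4_J {μ : ℕ} (hp : 0 < p) (hμ : μ ≤ p - 1) :
    (blkG p μ : k[X]).Monic ∧ (blkG p μ : k[X]).natDegree = p + 1 := by
  have h1 : ((X + 1 : k[X])).Monic := by
    simpa using monic_X_add_C (1 : k)
  have h2 : ((X - 1 : k[X])).Monic := by
    simpa using monic_X_sub_C (1 : k)
  have d1 : ((X + 1 : k[X])).natDegree = 1 := by
    simpa using natDegree_X_add_C (1 : k)
  have d2 : ((X - 1 : k[X])).natDegree = 1 := by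
    simpa using natDegree_X_sub_C (1 : k)
  unfold blkG
  refine ⟨(h1.pow _).mul (h2.pow _), ?_⟩
  rw [(h1.pow _).natDegree_mul (h2.pow _), h1.natDegree_pow, h2.natDegree_pow, d1, d2]
  omega

omit [Fact p.Prime] [IsAlgClosed k] [CharP k p] in
private theorem BlkT4_E : ((X ^ 2 - 1 : k[X])).Monic ∧ ((X ^ 2 - 1 : k[X])).natDegree = 2 := by
  constructor
  · simpa using monic_X_pow_sub_C (1 : k) two_ne_zero
  · simpa using natDegree_X_pow_sub_C (n := 2) (r := (1 : k))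

theorem blk_st_deg (hp2 : p ≠ 2) {μ : ℕ} (hμ : μ ≤ p - 1) {G H : k[X] →ₗ[k] k[X]}
    (O : BlkOps p μ G H) (W S₀ : k[X]) (hW : W ≠ 0) (hS₀ : S₀.Monic) (g g₁ g₁' Y₁ Z : k[X])
    (ν : ℕ) (hd2 : p * ν ≤ W.natDegree + ν + (p - 1))
    (hg : g.degree < ((ν + ((blkT p S₀).natDegree - 1) - 1 : ℕ) : WithBot ℕ))
    (hg₁' : g₁'.degree < ((ν - 1 : ℕ) : WithBot ℕ))
    (hY : Y₁.natDegree ≤ S₀.natDegree + 1 + ν)
    (h1 : G (g * (W * blkG p μ)) =
      ((X ^ 2 - 1) * g₁') ^ p + (blkS S₀ ^ (p - 1) * Y₁) ^ p + blkT p S₀ * Z)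
    (h2 : g₁ * (W * blkG p μ) =
      g * (W * blkG p μ) - blkS S₀ ^ p * H Z - Y₁ ^ p * H (blkT p S₀ ^ (p - 1))) :
    g₁.degree < ((ν - 1 : ℕ) : WithBot ℕ) := by
  have hp : p.Prime := Fact.out
  have hp0 : 0 < p := hp.pos
  have hp3 : 2 ≤ p := hp.two_le
  obtain ⟨hJm, hJd⟩ := BlkT4_J (k := k) hp0 hμ
  obtain ⟨hEm, hEd⟩ := BlkT4_E (k := k)
  have hTd := blkT_deg (p := p) S₀ hS₀
  have hT : blkT p S₀ = blkS S₀ ^ p - X := rfl
  have hSm : (blkS S₀).Monic := by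
    unfold blkS
    exact hEm.mul hS₀
  have hSd : (blkS S₀).natDegree = S₀.natDegree + 2 := by
    unfold blkS
    rw [hEm.natDegree_mul hS₀, hEd]
    ring
  generalize blkS S₀ = S at *
  generalize blkT p S₀ = T at *
  generalize (blkG p μ : k[X]) = J at *
  generalize (X ^ 2 - 1 : k[X]) = E at *
  obtain ⟨n, hn⟩ : ∃ n, n = S₀.natDegree + 2 := ⟨_, rfl⟩
  rw [← hn] at hTd hSd
  have hY' : Y₁.natDegree + 1 ≤ n + ν := by omega
  have hn2 : 2 ≤ n := by omega
  have hpn : p * n ≥ 4 := by nlinarith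
  have hT0 : T ≠ 0 := by
    intro h0
    rw [h0, natDegree_zero] at hTd
    omega
  have hSpd : (S ^ p).natDegree = p * n := by
    rw [hSm.natDegree_pow, hSd]
  have hSp0 : S ^ p ≠ 0 := (hSm.pow p).ne_zero
  -- the identities
  have hTp : T ^ p = S ^ (p * p) - X ^ p := by
    rw [hT, sub_pow_char (R := k[X]) (S ^ p) X, ← pow_mul]
  have hTT : T * T ^ (p - 1) = T ^ p := by
    rw [← pow_succ']
    congr 1
    omega
  have hSS : S ^ p * (S ^ (p - 1) * Y₁) ^ p = S ^ (p * p) * Y₁ ^ p := by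
    rw [mul_pow, ← mul_assoc, ← pow_mul, ← pow_add]
    congr 2
    obtain ⟨m, rfl⟩ : ∃ m, p = m + 1 := ⟨p - 1, by omega⟩
    simp only [Nat.add_sub_cancel]
    ring
  obtain ⟨F, hF⟩ : ∃ F, F = g * (W * J) := ⟨_, rfl⟩
  obtain ⟨Ψ, hΨ⟩ : ∃ Ψ, Ψ = S ^ p * Z + T ^ (p - 1) * Y₁ ^ p := ⟨_, rfl⟩
  rw [← hF] at h1 h2
  have e2 : T * Ψ = S ^ p * (G F - (E * g₁') ^ p) - X ^ p * Y₁ ^ p := by
    have a1 : T * Ψ = S ^ p * (T * Z) + (T * T ^ (p - 1)) * Y₁ ^ p := by
      rw [hΨ]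
      ring
    have a2 : T * Z = G F - (E * g₁') ^ p - (S ^ (p - 1) * Y₁) ^ p := by
      rw [h1]
      ring
    rw [a1, a2, hTT, hTp, mul_sub, hSS]
    ring
  have e3 : S ^ p * (g₁ * (W * J)) = S ^ p * (E * g₁') ^ p + X ^ p * Y₁ ^ p - H (X * Ψ) := by
    have b1 : F = (E * g₁') ^ p + (S ^ (p - 1) * Y₁) ^ p + (S ^ p * H Z - H (X * Z)) := by
      have c1 : T * Z = S ^ p * Z - X * Z := by
        rw [hT]
        ring
      conv_lhs => rw [← O.HG F, h1]
      rw [map_add, map_add, O.H1, O.H1, c1, map_sub, O.Hp]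
    have b2 : S ^ p * H (T ^ (p - 1)) = T ^ p + H (X * T ^ (p - 1)) := by
      have c2 : S ^ p * T ^ (p - 1) = T ^ p + X * T ^ (p - 1) := by
        rw [← hTT]
        nth_rewrite 2 [hT]
        ring
      rw [← O.Hp, c2, map_add, O.H1]
    have b3 : H (X * Ψ) = S ^ p * H (X * Z) + Y₁ ^ p * H (X * T ^ (p - 1)) := by
      have c3 : X * Ψ = S ^ p * (X * Z) + Y₁ ^ p * (X * T ^ (p - 1)) := by
        rw [hΨ]
        ring
      rw [c3, map_add, O.Hp, O.Hp]
    rw [h2, b3]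
    calc S ^ p * (F - S ^ p * H Z - Y₁ ^ p * H (T ^ (p - 1)))
        = S ^ p * (F - S ^ p * H Z) - Y₁ ^ p * (S ^ p * H (T ^ (p - 1))) := by ring
      _ = S ^ p * (F - S ^ p * H Z) - Y₁ ^ p * (S ^ (p * p) - X ^ p + H (X * T ^ (p - 1))) := by
          rw [b2, hTp]
      _ = S ^ p * ((E * g₁') ^ p - H (X * Z)) + S ^ p * (S ^ (p - 1) * Y₁) ^ p -
            Y₁ ^ p * (S ^ (p * p) - X ^ p + H (X * T ^ (p - 1))) := by
          nth_rewrite 1 [b1]
          ring
      _ = _ := by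
          rw [hSS]
          ring
  -- the degrees
  obtain ⟨w, hw⟩ : ∃ w, w = W.natDegree := ⟨_, rfl⟩
  rw [← hw] at hd2
  have hgd : g.natDegree + 3 ≤ ν + p * n := by
    rw [hTd] at hg
    by_cases h0 : g = 0
    · rw [h0, natDegree_zero]
      omega
    · have := (natDegree_lt_iff_degree_lt h0).2 hg
      omega
  have hWJ : (W * J).natDegree = w + (p + 1) := by
    rw [natDegree_mul hW hJm.ne_zero, hJd, ← hw]
  have hFd : F.natDegree + 2 ≤ p * n + ν + w + p := by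
    have h3 : F.natDegree ≤ g.natDegree + (w + (p + 1)) := by
      rw [hF]
      exact natDegree_mul_le.trans (by rw [hWJ])
    omega
  have hGF : (G F).natDegree + 2 ≤ p * n + ν + w + p := by
    have := natDegree_le_natDegree (O.Gd F)
    omega
  have hEg : ((E * g₁') ^ p).natDegree ≤ p * ν := by
    refine natDegree_pow_le.trans (Nat.mul_le_mul_left p ?_)
    by_cases h0 : g₁' = 0
    · rw [h0, mul_zero, natDegree_zero]
      exact Nat.zero_le _
    · have h3 := (natDegree_lt_iff_degree_lt h0).2 hg₁'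
      refine natDegree_mul_le.trans ?_
      omega
  have hXY : (X ^ p * Y₁ ^ p : k[X]).natDegree ≤ p * n + p * ν := by
    refine natDegree_mul_le.trans ?_
    have h3 : (X ^ p : k[X]).natDegree = p := natDegree_X_pow p
    have h4 : (Y₁ ^ p).natDegree ≤ p * Y₁.natDegree := natDegree_pow_le
    have h5 : p * (Y₁.natDegree + 1) ≤ p * (n + ν) := Nat.mul_le_mul_left p hY'
    rw [h3]
    rw [mul_add] at h5
    rw [mul_add] at h5
    omega
  obtain ⟨M, hM⟩ : ∃ M, M = max (p * n + ν + w + p - 2) (p * ν) := ⟨_, rfl⟩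
  have hΨd : Ψ.natDegree ≤ M := by
    by_cases h0 : Ψ = 0
    · rw [h0, natDegree_zero]
      exact Nat.zero_le _
    · have h3 : (T * Ψ).natDegree = p * n + Ψ.natDegree := by
        rw [natDegree_mul hT0 h0, hTd]
      have h4 : (T * Ψ).natDegree ≤ p * n + M := by
        rw [e2]
        refine (natDegree_sub_le _ _).trans (max_le ?_ ?_)
        · refine natDegree_mul_le.trans ?_
          rw [hSpd]
          refine Nat.add_le_add_left ?_ _
          refine (natDegree_sub_le _ _).trans (max_le ?_ ?_)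
          · rw [hM]
            refine le_max_of_le_left ?_
            omega
          · rw [hM]
            exact le_max_of_le_right hEg
        · refine hXY.trans (Nat.add_le_add_left ?_ _)
          rw [hM]
          exact le_max_right _ _
      omega
  have hHd : (H (X * Ψ)).natDegree ≤ M + 1 := by
    refine (natDegree_le_natDegree (O.Hd _)).trans (natDegree_mul_le.trans ?_)
    rw [natDegree_X]
    omega
  by_cases h0 : g₁ = 0
  · rw [h0, degree_zero]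
    exact WithBot.bot_lt_coe _
  rw [← natDegree_lt_iff_degree_lt h0]
  have hL : (S ^ p * (g₁ * (W * J))).natDegree = p * n + (g₁.natDegree + (w + (p + 1))) := by
    rw [natDegree_mul hSp0 (mul_ne_zero h0 (mul_ne_zero hW hJm.ne_zero)),
      natDegree_mul h0 (mul_ne_zero hW hJm.ne_zero), hWJ, hSpd]
  have hR : (S ^ p * (g₁ * (W * J))).natDegree ≤ max (p * n + p * ν) (M + 1) := by
    rw [e3]
    refine (natDegree_sub_le _ _).trans (max_le ?_ ?_)
    · refine (natDegree_add_le _ _).trans (max_le ?_ ?_)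
      · refine le_max_of_le_left ?_
        refine natDegree_mul_le.trans ?_
        rw [hSpd]
        exact Nat.add_le_add_left hEg _
      · exact le_max_of_le_left hXY
    · exact le_max_of_le_right hHd
  rw [hL, hM] at hR
  omega

end Pool.Agent.PRB
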