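import Pool.Agent.LibPRK.BlkT2
import Pool.Agent.LibPRK.BlkT3
import Pool.Agent.LibPRK.BlkT4
import Pool.Agent.LibPRK.BlkOp
import Pool.Agent.LibPRK.BlkDeg

/-!
# Blocks preserve stability
-/

set_option autoImplicit false

namespace Pool.Agent.PRB

open Polynomial

variable {p : ℕ} [Fact p.Prime] {k : Type} [Field k] [IsAlgClosed k] [CharP k p]

omit [IsAlgClosed k] [CharP k p] in
private theorem blkSt_E : (X ^ 2 - 1 : k[X]).Monic ∧ (X ^ 2 - 1 : k[X]).natDegree = 2 := by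
  have h : (X ^ 2 - 1 : k[X]) = X ^ 2 - C 1 := by rw [C_1]
  rw [h]
  exact ⟨monic_X_pow_sub_C 1 two_ne_zero, natDegree_X_pow_sub_C⟩

omit [IsAlgClosed k] [CharP k p] in
private theorem blkSt_J {μ : ℕ} (hμ : μ ≤ p - 1) :
    (blkG p μ : k[X]).Monic ∧ (blkG p μ : k[X]).natDegree = p + 1 ∧
      (blkG p μ : k[X]) ∣ (X ^ 2 - 1) ^ p := by
  have hp := (Fact.out : p.Prime).pos
  have m1 : (X + 1 : k[X]).Monic := by
    rw [← C_1]
    exact monic_X_add_C 1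
  have m2 : (X - 1 : k[X]).Monic := by
    rw [← C_1]
    exact monic_X_sub_C 1
  have n1 : (X + 1 : k[X]).natDegree = 1 := by
    rw [← C_1]
    exact natDegree_X_add_C 1
  have n2 : (X - 1 : k[X]).natDegree = 1 := by
    rw [← C_1]
    exact natDegree_X_sub_C 1
  refine ⟨(m1.pow _).mul (m2.pow _), ?_, ?_⟩
  · unfold blkG
    rw [(m1.pow _).natDegree_mul (m2.pow _), m1.natDegree_pow, m2.natDegree_pow, n1, n2]
    omega
  · have h2 : (X ^ 2 - 1 : k[X]) = (X + 1) * (X - 1) := by ring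
    rw [h2, mul_pow]
    exact mul_dvd_mul (pow_dvd_pow _ (by omega)) (pow_dvd_pow _ (by omega))

private theorem blkSt_deg {f : k[X]} {n : ℕ} (h : f.degree < (n : WithBot ℕ)) :
    f.natDegree ≤ n - 1 := by
  by_cases hf : f = 0
  · rw [hf, natDegree_zero]
    exact Nat.zero_le _
  · have := (natDegree_lt_iff_degree_lt hf).2 h
    omega

theorem blk_stable (hp2 : p ≠ 2) {μ μ' : ℕ} (hμ : μ ≤ p - 1) (hμ' : μ' ≤ p - 1)
    (W W' S₀ : k[X]) (hW : W ≠ 0) (hW' : W' ≠ 0) (hS₀ : S₀.Monic)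
    (hS : (X ^ 2 - 1) ^ (p - 1) * (W * W') ∣ S₀) (ν : ℕ)
    (hd1 : W.natDegree + ν ≤ p * ν) (hd2 : p * ν ≤ W.natDegree + ν + (p - 1))
    (hst : ∀ g : k[X], g.degree < ((ν - 1 : ℕ) : WithBot ℕ) →
      crt p (crt p (g * W) * W') = 0 → crt p (g * W) = 0)
    (g : k[X]) (hg : g.degree < ((ν + (blkA p S₀).natDegree - 1 : ℕ) : WithBot ℕ))
    (h0 : crt p (crt p (g * (W * blkU p μ S₀)) * (W' * blkU p μ' S₀)) = 0) :
    crt p (g * (W * blkU p μ S₀)) = 0 := by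
  have hp : p.Prime := Fact.out
  have hp3 : 3 ≤ p := by
    have := hp.two_le
    omega
  by_cases hg0 : g = 0
  · rw [hg0, zero_mul, crt_zero]
  obtain ⟨G, H, O⟩ := exists_ops (p := p) (k := k) μ hμ
  obtain ⟨G', H', O'⟩ := exists_ops (p := p) (k := k) μ' hμ'
  obtain ⟨hEm, hEd⟩ := blkSt_E (k := k)
  obtain ⟨hJm, hJd, J'', hJ''⟩ := blkSt_J (p := p) (k := k) hμ'
  have hLA := blkA_deg (p := p) S₀ hS₀
  have hLB := blkB_deg (p := p) S₀ hS₀
  have hLT := blkT_deg (p := p) S₀ hS₀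
  obtain ⟨L, hL⟩ : ∃ L : ℕ, L = (blkA p S₀).natDegree := ⟨_, rfl⟩
  have hL1 : p * (S₀.natDegree + 2) = L + 1 := by
    have : 1 ≤ p * (S₀.natDegree + 2) := Nat.mul_pos hp.pos (by omega)
    omega
  have hT1 : (blkT p S₀).natDegree - 1 = L := by omega
  have hB : (blkB p S₀).natDegree = L := by omega
  rw [← hL] at hg
  have hL6 : 5 ≤ L := by nlinarith
  have hp1 : p - 1 + 1 = p := by omega
  -- (a)
  obtain ⟨g', hg'⟩ : ∃ g' : k[X], g' = crt p (g * (W * blkU p μ S₀)) := ⟨_, rfl⟩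
  rw [← hg'] at h0 ⊢
  have hUd : (blkU p μ S₀).natDegree ≤ (p - 1) * L := by
    unfold blkU
    refine natDegree_mul_le.trans ?_
    have e1 : (blkA p S₀ ^ μ).natDegree ≤ μ * L := by
      rw [hL]
      exact natDegree_pow_le
    have e2 : (blkB p S₀ ^ (p - 1 - μ)).natDegree ≤ (p - 1 - μ) * L := by
      rw [← hB]
      exact natDegree_pow_le
    have e3 : (p - 1) * L = μ * L + (p - 1 - μ) * L := by
      rw [← add_mul]
      congr 1
      omega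
    omega
  have hgn : g.natDegree < ν + L - 1 := (natDegree_lt_iff_degree_lt hg0).2 hg
  have hgdeg : g'.degree < ((ν + ((blkT p S₀).natDegree - 1) - 1 : ℕ) : WithBot ℕ) := by
    rw [hT1, hg']
    apply crt_degree_lt
    by_cases hz : g * (W * blkU p μ S₀) = 0
    · rw [hz, degree_zero]
      exact WithBot.bot_lt_coe _
    rw [← natDegree_lt_iff_degree_lt hz]
    have e1 : (g * (W * blkU p μ S₀)).natDegree ≤ g.natDegree + (W.natDegree + (p - 1) * L) := by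
      refine natDegree_mul_le.trans (Nat.add_le_add_left ?_ _)
      exact natDegree_mul_le.trans (Nat.add_le_add_left hUd _)
    have e2 : (p - 1) * L + L = p * L := by
      conv_rhs => rw [← hp1, add_mul, one_mul]
    have e3 : p * (ν + L - 1) + p = p * ν + p * L := by
      rw [← mul_add, ← Nat.mul_succ]
      congr 1
      omega
    omega
  -- (b)
  have hSE : (X ^ 2 - 1) ^ p * (W * W') ∣ blkS S₀ := by
    obtain ⟨R, hR⟩ := hS
    refine ⟨R, ?_⟩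
    unfold blkS
    rw [← pow_sub_one_mul hp.ne_zero (X ^ 2 - 1 : k[X])]
    linear_combination (X ^ 2 - 1) * hR
  have hSp : blkS S₀ ∣ blkS S₀ ^ p := dvd_pow_self _ hp.ne_zero
  have hSW : W * (X ^ 2 - 1) ^ p ∣ blkS S₀ ^ p :=
    (Dvd.intro W' (by ring)).trans (hSE.trans hSp)
  have hSW' : W' * (X ^ 2 - 1) ^ p ∣ blkS S₀ ^ p :=
    (Dvd.intro W (by ring)).trans (hSE.trans hSp)
  obtain ⟨Ξ', g₁', i1, i2, i3, i4, i5⟩ := blk_st_one hp2 hμ' O' W' S₀ hW' hSW' ν g' hgdeg h0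
  -- (c)
  obtain ⟨R, hR⟩ := hSE
  obtain ⟨Q, hQ⟩ : ∃ Q : k[X], Q = J'' * (W * R) := ⟨_, rfl⟩
  have hSQ : blkS S₀ = Q * (W' * blkG p μ') := by
    rw [hR, hQ, hJ'']
    ring
  have hWJ0 : W' * blkG p μ' ≠ 0 := mul_ne_zero hW' hJm.ne_zero
  have hg'e : g' = blkS S₀ ^ (p - 1) * Q * H' Ξ' + g₁' := by
    apply mul_right_cancel₀ hWJ0
    rw [i1, ← pow_sub_one_mul hp.ne_zero (blkS S₀)]
    linear_combination (blkS S₀ ^ (p - 1) * H' Ξ') * hSQ
  obtain ⟨Y₁, hY₁⟩ : ∃ Y₁ : k[X], Y₁ = (X ^ 2 - 1) * Q * H' Ξ' := ⟨_, rfl⟩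
  have hEg : (X ^ 2 - 1) * crt p (g * (W * blkU p μ S₀)) =
      (X ^ 2 - 1) * g₁' + blkS S₀ ^ (p - 1) * Y₁ := by
    rw [← hg', hg'e, hY₁]
    ring
  have hWQ : W ∣ Q ^ p := by
    refine Dvd.dvd.trans ?_ (dvd_pow_self Q hp.ne_zero)
    rw [hQ]
    exact Dvd.intro (J'' * R) (by ring)
  have hYd : W * (X ^ 2 - 1) ^ p ∣ Y₁ ^ p := by
    rw [hY₁, mul_pow, mul_pow, mul_comm W]
    exact (mul_dvd_mul_left _ hWQ).mul_right _
  have hS0ne : blkS S₀ ≠ 0 := by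
    unfold blkS
    exact mul_ne_zero hEm.ne_zero hS₀.ne_zero
  have hQ0 : Q ≠ 0 := by
    intro h
    rw [h, zero_mul] at hSQ
    exact hS0ne hSQ
  have hSnd : (blkS S₀).natDegree = 2 + S₀.natDegree := by
    unfold blkS
    rw [hEm.natDegree_mul hS₀, hEd]
  have hQnd : Q.natDegree + (W'.natDegree + (p + 1)) = 2 + S₀.natDegree := by
    rw [← hSnd, hSQ, natDegree_mul hQ0 hWJ0, natDegree_mul hW' hJm.ne_zero, hJd]
  have hYnd : Y₁.natDegree ≤ S₀.natDegree + 1 + ν := by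
    have e1 : (H' Ξ').natDegree ≤ ν + W'.natDegree + (p - 1) - 1 :=
      blkSt_deg ((O'.Hd Ξ').trans_lt i5)
    have e2 : Y₁.natDegree ≤ 2 + Q.natDegree + (H' Ξ').natDegree := by
      rw [hY₁]
      refine natDegree_mul_le.trans (Nat.add_le_add_right ?_ _)
      refine natDegree_mul_le.trans (le_of_eq ?_)
      rw [hEd]
    omega
  -- (d)
  have hg2 : g.degree < ((ν + ((blkT p S₀).natDegree - 1) - 1 : ℕ) : WithBot ℕ) := by
    rw [hT1]
    exact hg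
  obtain ⟨g₁, Z, j1, j2, j3⟩ := blk_st_two hp2 hμ O W S₀ hW hSW g g₁' Y₁ hYd hEg
  have hg₁d := blk_st_deg hp2 hμ O W S₀ hW hS₀ g g₁ g₁' Y₁ Z ν hd2 hg2 i3 hYnd j2 j3
  -- (e)
  have hz : crt p (g₁ * W) = 0 := hst g₁ hg₁d (by rw [j1]; exact i4)
  rw [j1] at hz
  rw [hz, zero_mul] at i2
  have hH0 : H' (X * Ξ') = 0 := neg_eq_zero.1 i2.symm
  have hXΞ : X * Ξ' = 0 := by
    rw [← O'.GH (X * Ξ'), hH0, map_zero]
  have hΞ : Ξ' = 0 := (mul_eq_zero.1 hXΞ).resolve_left X_ne_zero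
  rw [hg'e, hΞ, map_zero, mul_zero, hz, add_zero]

end Pool.Agent.PRB
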