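import Pool.Agent.LibPRK.BlkX
import Pool.Agent.LibPRK.BlkY

/-!
# Blocks and stability, first step

PLAN. `blk_fwd` gives `Ξ'` with `G' (g' * (W' * J')) = T * Ξ'`, `crt Ξ' = 0`, `W' * J' ∣ H' (X * Ξ')`, degree bound (`J' = blkG p μ'`).  Let `g₁'` be
the quotient of `-H' (X Ξ')` by `W' * J'`.  Apply `H'` to the first identity (`O.HG`): `g' * (W' J') = H' (T Ξ') = S^p * H' Ξ' - H' (X Ξ')` (`T = S^p - X`, `O.Hp`, `map_sub`).
`crt (g₁' * W') = 0` and its degree: `blk_bwd` with `S₀ := 0` (`blkT_zero : blkT p 0 = -X`, `natDegree (-X) = 1`, `blkU_zero : blkU p μ' 0 = 1`, the divisibility hypothesis is trivial: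
`blkS 0 = 0`, `0 ^ p = 0`) and `Ξ := Ξ'` gives `g` with `g.degree < ν - 1`, `g * (W' J') = H' (-X Ξ') = -H' (X Ξ')`, `crt (g * (W' * 1)) = 0`; cancel: `g = g₁'`.
-/

set_option autoImplicit false

namespace Pool.Agent.PRB

open Polynomial

variable {p : ℕ} [Fact p.Prime] {k : Type} [Field k] [IsAlgClosed k] [CharP k p]

theorem blk_st_one (hp2 : p ≠ 2) {μ' : ℕ} (hμ' : μ' ≤ p - 1) {G' H' : k[X] →ₗ[k] k[X]}
    (O' : BlkOps p μ' G' H') (W' S₀ : k[X]) (hW' : W' ≠ 0)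
    (hS : W' * (X ^ 2 - 1) ^ p ∣ blkS S₀ ^ p) (ν : ℕ) (g' : k[X])
    (hg' : g'.degree < ((ν + ((blkT p S₀).natDegree - 1) - 1 : ℕ) : WithBot ℕ))
    (h0 : crt p (g' * (W' * blkU p μ' S₀)) = 0) :
    ∃ Ξ' g₁' : k[X],
      g' * (W' * blkG p μ') = blkS S₀ ^ p * H' Ξ' + g₁' * (W' * blkG p μ') ∧
      g₁' * (W' * blkG p μ') = -H' (X * Ξ') ∧
      g₁'.degree < ((ν - 1 : ℕ) : WithBot ℕ) ∧ crt p (g₁' * W') = 0 ∧
      Ξ'.degree < ((ν + W'.natDegree + (p - 1) : ℕ) : WithBot ℕ) := by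
  have hp : p.Prime := Fact.out
  obtain ⟨Ξ, e1, e2, e3, e4⟩ := blk_fwd hp2 hμ' O' W' S₀ hW' hS ν g' hg' h0
  have hd : W' * (X ^ 2 - 1) ^ p ∣ blkS (0 : k[X]) ^ p := by
    unfold blkS
    rw [mul_zero, zero_pow hp.ne_zero]
    exact dvd_zero _
  obtain ⟨g, f1, f2, f3⟩ := blk_bwd hp2 hμ' O' W' 0 hW' hd ν Ξ e2 e3 e4
  have h2 : g * (W' * blkG p μ') = -H' (X * Ξ) := by
    rw [f2, blkT_zero, neg_mul, map_neg]
  refine ⟨Ξ, g, ?_, h2, ?_, ?_, e4⟩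
  · have h3 : g' * (W' * blkG p μ') = H' (blkT p S₀ * Ξ) := by
      rw [← e1, O'.HG]
    rw [h3, h2]
    unfold blkT
    rw [sub_mul, map_sub, O'.Hp, sub_eq_add_neg]
  · rw [blkT_zero, natDegree_neg, natDegree_X] at f1
    exact f1
  · rw [blkU_zero hp2 hμ', mul_one] at f3
    exact f3

end Pool.Agent.PRB
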