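import Pool.Agent.LibPRK.BlkD
import Pool.Agent.LibPRK.CrtDvd

/-!
# Blocks: the kernel in terms of the polynomials `Ξ`

PLAN. Write `T = blkT p S₀`, `S = blkS S₀`, `U = blkU p μ S₀`, `G' = blkG p μ` (monic of degree `p + 1`, divides `(X ^ 2 - 1) ^ p`),
`F = g * (W * G')`.
`blk_fwd`: `(X^2-1)^p * (g * (W * U)) = F * ((T-1)^μ (T+1)^(p-1-μ))` (`blk_U`), so by `crt_pow_mul`, `O.crt` (with `blk_dT`)
`crt (G F * T ^ (p-1)) = (X^2-1) * crt (g * (W * U)) = 0`.  `dvd_of_dvd_crt` (`T` is separable: `derivative T = -1`): `G F = T * Ξ`;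
`crt (T Ξ T ^ (p-1)) = crt (T ^ p * Ξ) = T * crt Ξ`, `T ≠ 0`: `crt Ξ = 0`.  `F = H (G F) = H (S ^ p Ξ - X Ξ) = S ^ p H Ξ - H (X Ξ)`
(`O.Hp`), and `W * G' ∣ S ^ p`, so `W * G' ∣ H (X Ξ)`.  Degree: `deg Ξ + deg T = deg (G F) ≤ deg g + deg W + p + 1`, `deg T ≥ 1`.
(If `Ξ = 0` nothing to show.  `g.degree < ν + (deg T - 1) - 1`, truncated: if the right side is `0` then `g = 0`, `Ξ = 0`.)
`blk_bwd`: `H (T Ξ) = S ^ p H Ξ - H (X Ξ)` is divisible by `W * G'`: `g`.  `G (g * (W * G')) = T Ξ`, so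
`(X^2-1) * crt (g * (W * U)) = crt (T Ξ T^(p-1)) = T * crt Ξ = 0`.  Degree: `deg g = deg (H (T Ξ)) - deg W - (p + 1)`.
-/

set_option autoImplicit false

namespace Pool.Agent.PRB

open Polynomial

variable {p : ℕ} [Fact p.Prime] {k : Type} [Field k] [IsAlgClosed k] [CharP k p]

private theorem BlkX_G {μ : ℕ} (hμ : μ ≤ p - 1) :
    (blkG p μ : k[X]) ∣ (X ^ 2 - 1) ^ p ∧ (blkG p μ : k[X]) ≠ 0 ∧
      (blkG p μ : k[X]).natDegree = p + 1 := by
  have hp : p.Prime := Fact.out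
  have hp0 := hp.pos
  have h1 : (blkG p μ : k[X]) = (X + C 1) ^ (p - μ) * (X - C 1) ^ (μ + 1) := by
    rw [blkG, C_1]
  have h2 : (X + C 1 : k[X]) ≠ 0 := X_add_C_ne_zero 1
  have h3 : (X - C 1 : k[X]) ≠ 0 := X_sub_C_ne_zero 1
  refine ⟨?_, ?_, ?_⟩
  · have h4 : (X ^ 2 - 1 : k[X]) ^ p = (X + C 1) ^ p * (X - C 1) ^ p := by
      rw [← mul_pow, C_1]
      congr 1
      ring
    rw [h4, h1]
    exact mul_dvd_mul (pow_dvd_pow _ (by omega)) (pow_dvd_pow _ (by omega))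
  · rw [h1]
    exact mul_ne_zero (pow_ne_zero _ h2) (pow_ne_zero _ h3)
  · rw [h1, natDegree_mul (pow_ne_zero _ h2) (pow_ne_zero _ h3), natDegree_pow, natDegree_pow,
      natDegree_X_add_C, natDegree_X_sub_C]
    omega

theorem blk_fwd (hp2 : p ≠ 2) {μ : ℕ} (hμ : μ ≤ p - 1) {G H : k[X] →ₗ[k] k[X]}
    (O : BlkOps p μ G H) (W S₀ : k[X]) (hW : W ≠ 0)
    (hS : W * (X ^ 2 - 1) ^ p ∣ blkS S₀ ^ p) (ν : ℕ) (g : k[X])
    (hg : g.degree < ((ν + ((blkT p S₀).natDegree - 1) - 1 : ℕ) : WithBot ℕ))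
    (h0 : crt p (g * (W * blkU p μ S₀)) = 0) :
    ∃ Ξ : k[X], G (g * (W * blkG p μ)) = blkT p S₀ * Ξ ∧ crt p Ξ = 0 ∧
      W * blkG p μ ∣ H (X * Ξ) ∧
      Ξ.degree < ((ν + W.natDegree + (p - 1) : ℕ) : WithBot ℕ) := by
  have hp : p.Prime := Fact.out
  have hp0 := hp.two_le
  obtain ⟨hGd, hG0, hGn⟩ := BlkX_G (k := k) hμ
  have hdT : derivative (blkT p S₀) = -1 := blk_dT S₀
  have hT0 : blkT p S₀ ≠ 0 := by
    intro h
    rw [h, derivative_zero] at hdT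
    exact one_ne_zero (neg_eq_zero.1 hdT.symm)
  have hT1 : 1 ≤ (blkT p S₀).natDegree := by
    rw [Nat.one_le_iff_ne_zero]
    intro h
    rw [natDegree_eq_zero] at h
    obtain ⟨c, hc⟩ := h
    rw [← hc, derivative_C] at hdT
    exact one_ne_zero (neg_eq_zero.1 hdT.symm)
  have hsep : (blkT p S₀).Separable := by
    rw [separable_def, hdT]
    exact isCoprime_one_right.neg_right
  obtain ⟨F, hF⟩ : ∃ F, F = g * (W * blkG p μ) := ⟨_, rfl⟩
  have h1 : crt p (G F * blkT p S₀ ^ (p - 1)) = 0 := by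
    rw [← O.crt _ _ hdT]
    have e1 : F * ((blkT p S₀ - 1) ^ μ * (blkT p S₀ + 1) ^ (p - 1 - μ)) =
        (X ^ 2 - 1) ^ p * (g * (W * blkU p μ S₀)) := by
      have e2 := blk_U (p := p) μ hμ S₀
      calc F * ((blkT p S₀ - 1) ^ μ * (blkT p S₀ + 1) ^ (p - 1 - μ)) =
          g * W * (blkG p μ * ((blkT p S₀ - 1) ^ μ * (blkT p S₀ + 1) ^ (p - 1 - μ))) := by
            rw [hF]
            ring
        _ = g * W * ((X ^ 2 - 1) ^ p * blkU p μ S₀) := by rw [e2]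
        _ = _ := by ring
    rw [e1, crt_pow_mul, h0, mul_zero]
  obtain ⟨Ξ, hΞ⟩ := dvd_of_dvd_crt (p := p) (blkT p S₀) (G F) hsep (by
    rw [h1]
    exact dvd_zero _)
  have hpp : p - 1 + 1 = p := by omega
  have h2 : crt p Ξ = 0 := by
    have e1 : G F * blkT p S₀ ^ (p - 1) = blkT p S₀ ^ p * Ξ := by
      have e0 : blkT p S₀ ^ p = blkT p S₀ ^ (p - 1) * blkT p S₀ := by
        rw [← pow_succ, hpp]
      rw [hΞ, e0]
      ring
    rw [e1, crt_pow_mul] at h1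
    exact (mul_eq_zero.1 h1).resolve_left hT0
  refine ⟨Ξ, by rw [← hF]; exact hΞ, h2, ?_, ?_⟩
  · have e1 : F = blkS S₀ ^ p * H Ξ - H (X * Ξ) := by
      have e2 := O.HG F
      have e3 : blkT p S₀ * Ξ = blkS S₀ ^ p * Ξ - X * Ξ := by
        rw [blkT]
        ring
      rw [hΞ, e3, map_sub, O.Hp] at e2
      exact e2.symm
    have e4 : H (X * Ξ) = blkS S₀ ^ p * H Ξ - F := by
      rw [e1]
      ring
    rw [e4]
    refine dvd_sub (Dvd.dvd.mul_right ((mul_dvd_mul_left W hGd).trans hS) _) ?_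
    rw [hF]
    exact Dvd.intro_left g rfl
  · by_cases hΞ0 : Ξ = 0
    · rw [hΞ0, degree_zero]
      exact WithBot.bot_lt_coe _
    · have hGF : G F ≠ 0 := by
        rw [hΞ]
        exact mul_ne_zero hT0 hΞ0
      have hg0 : g ≠ 0 := by
        rintro rfl
        apply hGF
        rw [hF, zero_mul, map_zero]
      have e1 : (G F).natDegree ≤ F.natDegree := natDegree_le_natDegree (O.Gd F)
      rw [hΞ, natDegree_mul hT0 hΞ0, hF, natDegree_mul hg0 (mul_ne_zero hW hG0),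
        natDegree_mul hW hG0, hGn] at e1
      have e2 := (natDegree_lt_iff_degree_lt hg0).2 hg
      rw [← natDegree_lt_iff_degree_lt hΞ0]
      omega

end Pool.Agent.PRB
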