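import Pool.Agent.LibPRK.BsExp

/-!
# The base curve: the first column vanishes

PLAN. `bs_expand`: the exponents are `m + (m+1) k₁ + 2 m k₂`; equal to `p - 1 - i = 2 m - i` with `i < m` means `(m+1) k₁ + 2 m k₂ = m - i`, `0 < m - i ≤ m`: impossible.
-/

set_option autoImplicit false

namespace Pool.Agent.PRB

open Polynomial

theorem bs_zero (p : ℕ) [Fact p.Prime] (hp4 : p % 4 = 1) (b : ZMod p) (i : ℕ)
    (hi : i < (p - 1) / 2) : (bsW p b ^ ((p - 1) / 2)).coeff (p - 1 - i) = 0 := by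
  rw [bs_expand p hp4 b, finsetSum_coeff]
  apply Finset.sum_eq_zero
  intro k₂ _
  rw [finsetSum_coeff]
  apply Finset.sum_eq_zero
  intro k₁ _
  rw [coeff_C_mul, coeff_X_pow, if_neg, mul_zero]
  obtain ⟨m, hm⟩ : ∃ m, p = 2 * m + 1 := ⟨(p - 1) / 2, by omega⟩
  have h1 : (p - 1) / 2 = m := by omega
  have h2 : p - 1 = 2 * m := by omega
  rw [h1, h2]
  rw [h1] at hi
  intro h
  rcases Nat.eq_zero_or_pos k₁ with hk | hk
  · rcases Nat.eq_zero_or_pos k₂ with hk' | hk'
    · subst hk; subst hk'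
      simp at h
      omega
    · have : 2 * m * 1 ≤ 2 * m * k₂ := Nat.mul_le_mul_left _ hk'
      omega
  · have : (m + 1) * 1 ≤ (m + 1) * k₁ := Nat.mul_le_mul_left _ hk
    omega

end Pool.Agent.PRB
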