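import Pool.Agent.LibPRK.BsExp
import Pool.Agent.LibPRK.BsZero

/-!
# The base curve `y ^ 2 = X + X ^ (m+2) + b X ^ p`, `p = 2 m + 1`: the coefficients

PLAN. `m` even, `2 ≤ m`.  `(bs_expand) (X + X^(m+2) + C b * X^p)^m = ∑_{k₁ + k₂ ≤ m} choose m k₂ * choose (m - k₂) k₁ * b^k₂ * X^(m + (m+1) k₁ + 2 m k₂)`
(two applications of `add_pow`; the exponent is `k₀ + (m+2) k₁ + p k₂` with `k₀ = m - k₁ - k₂`).
Put `I = i + 1`, `J = j + 1`, `1 ≤ I, J ≤ m`.  `p j + (p-1) - i = p J - I`.  `m + (m+1) k₁ + 2 m k₂ = (2m+1) J - I` with `k₁ + k₂ ≤ m`: modulo `m`: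
`k₁ ≡ J - I`, `0 ≤ k₁ ≤ m` and `|J - I| < m`: `k₁ = J - I` (then `2 k₂ = I + J - 1`), or `k₁ = m + J - I` (then `2 k₂ = I + J - 2 - m`) [`k₁ = 2 m + J - I > m` and
`k₁ = J - I - m < 0` are impossible].  Since `m` is even the first case needs `I + J` odd, the second `I + J` even: at most one solution.
Type A (`I + J` odd): `k₁ = J - I ≥ 1`, `k₂ = (I+J-1)/2`, and `k₁ + k₂ ≤ m`.  Type B (`I + J` even, `I + J ≥ m + 2`): `k₁ = m + J - I`, `k₂ = (I+J-2-m)/2`,
`k₁ + k₂ ≤ m`.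
`bs_coef` (`1 ≤ i, j ≤ m - 1`): `b = β ^ 2`, so `b^k₂ = β^(I+J-1)` for type A and `β^(I+J-2-m) = β^(I+J-1) * (β⁻¹)^(m+1)` for type B; `I + J - 1 = i + j + 1`.
Let `A i j`, `B i j` be the products of the two binomial coefficients (or `0`).  `A i (i+1)`: `k₁ = 1`, `k₂ = i + 1`, `k₁ + k₂ ≤ m` iff `i + 2 ≤ m`: nonzero in `ZMod p` (`choose` of
numbers `≤ m < p` is prime to `p`: `Nat.Prime.dvd_choose...` / it divides `m!`).  `B (m-1) 1`: `I = m`, `J = 2`: `k₁ = 2`, `k₂ = 0`: `choose m 2 ≠ 0`.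
A smaller goal with the same content: use `Polynomial.coeff` of a double sum and `Finset.sum_eq_single`.
-/

set_option autoImplicit false

namespace Pool.Agent.PRB

open Polynomial

private theorem BsCoef_choose (p : ℕ) [Fact p.Prime] (n k : ℕ) (hn : n < p) (hk : k ≤ n) :
    (n.choose k : ZMod p) ≠ 0 := by
  intro h
  rw [ZMod.natCast_eq_zero_iff] at h
  have h1 : p ∣ n.factorial := by
    rw [← Nat.choose_mul_factorial_mul_factorial hk]
    exact Dvd.dvd.mul_right (Dvd.dvd.mul_right h _) _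
  rw [(Fact.out : p.Prime).dvd_factorial] at h1
  omega

private theorem BsCoef_iff (m i j k₁ k₂ : ℕ) (hi1 : 1 ≤ i) (hi : i < m) (hj1 : 1 ≤ j) (hj : j < m)
    (hk : k₁ ≤ m) :
    ((2 * m + 1) * j + 2 * m - i = m + (m + 1) * k₁ + 2 * m * k₂) ↔
      ((k₁ + i = j ∧ 2 * k₂ = i + j + 1) ∨ (k₁ + i = m + j ∧ 2 * k₂ + m = i + j)) := by
  constructor
  · intro h
    have h' : ((2 * m + 1) * j + 2 * m : ℤ) - i = m + (m + 1) * k₁ + 2 * m * k₂ := by
      have h2 : (2 * m + 1) * j + 2 * m = m + (m + 1) * k₁ + 2 * m * k₂ + i := by omega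
      have h3 : (((2 * m + 1) * j + 2 * m : ℕ) : ℤ) = ((m + (m + 1) * k₁ + 2 * m * k₂ + i : ℕ) : ℤ) := by
        rw [h2]
      push_cast at h3
      linarith
    obtain ⟨q, hq⟩ : ∃ q : ℤ, q = 2 * j + 1 - k₁ - 2 * k₂ := ⟨_, rfl⟩
    have hmq : (m : ℤ) * q = i + k₁ - j := by rw [hq]; linarith
    have hm0 : (0 : ℤ) < m := by omega
    have hqlo : -1 < q := by
      by_contra hcon
      have h1 : q ≤ -1 := by omega
      have h2 : (m : ℤ) * q ≤ m * (-1) := mul_le_mul_of_nonneg_left h1 hm0.le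
      rw [hmq] at h2
      omega
    have hqhi : q < 2 := by
      by_contra hcon
      have h1 : 2 ≤ q := by omega
      have h2 : (m : ℤ) * 2 ≤ m * q := mul_le_mul_of_nonneg_left h1 hm0.le
      rw [hmq] at h2
      omega
    rcases (by omega : q = 0 ∨ q = 1) with h0 | h0
    · rw [h0] at hmq hq
      left
      constructor <;> omega
    · rw [h0] at hmq hq
      right
      constructor <;> omega
  · intro h
    have h2 : (2 * m + 1) * j + 2 * m = m + (m + 1) * k₁ + 2 * m * k₂ + i := by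
      have h3 : (((2 * m + 1) * j + 2 * m : ℕ) : ℤ) = ((m + (m + 1) * k₁ + 2 * m * k₂ + i : ℕ) : ℤ) := by
        push_cast
        rcases h with ⟨ha, hb⟩ | ⟨ha, hb⟩
        · have ha' : (k₁ : ℤ) = j - i := by omega
          have hb' : 2 * (k₂ : ℤ) = i + j + 1 := by omega
          have e : 2 * (m : ℤ) * k₂ = m * (2 * k₂) := by ring
          rw [e, hb', ha']
          ring
        · have ha' : (k₁ : ℤ) = m + j - i := by omega
          have hb' : 2 * (k₂ : ℤ) = i + j - m := by omega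
          have e : 2 * (m : ℤ) * k₂ = m * (2 * k₂) := by ring
          rw [e, hb', ha']
          ring
      exact_mod_cast h3
    omega

theorem bs_coef (p : ℕ) [Fact p.Prime] (hp4 : p % 4 = 1) :
    ∃ A B : ℕ → ℕ → ZMod p, (∀ i j, j ≤ i → A i j = 0) ∧
      (∀ i, 1 ≤ i → i + 2 ≤ (p - 1) / 2 → A i (i + 1) ≠ 0) ∧ B ((p - 1) / 2 - 1) 1 ≠ 0 ∧
      ∀ β : ZMod p, β ≠ 0 → ∀ i j, 1 ≤ i → i < (p - 1) / 2 → 1 ≤ j → j < (p - 1) / 2 →
        (bsW p (β ^ 2) ^ ((p - 1) / 2)).coeff (p * j + (p - 1) - i) =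
          β ^ (i + j + 1) * (A i j + β⁻¹ ^ ((p - 1) / 2 + 1) * B i j) := by
  classical
  obtain ⟨n, hn⟩ : ∃ n, p = 4 * n + 1 := ⟨p / 4, by omega⟩
  have hp2 : 2 ≤ p := (Fact.out : p.Prime).two_le
  have hn1 : 1 ≤ n := by omega
  have hmm : (p - 1) / 2 = 2 * n := by omega
  have hpm : p - 1 = 2 * (2 * n) := by omega
  refine ⟨fun i j => ∑ k₂ ∈ Finset.range ((p - 1) / 2 + 1),
      ∑ k₁ ∈ Finset.range ((p - 1) / 2 - k₂ + 1),
        if (k₁ + i = j ∧ 2 * k₂ = i + j + 1) then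
          ((((p - 1) / 2).choose k₂ : ZMod p) * (((p - 1) / 2 - k₂).choose k₁ : ZMod p)) else 0,
    fun i j => ∑ k₂ ∈ Finset.range ((p - 1) / 2 + 1),
      ∑ k₁ ∈ Finset.range ((p - 1) / 2 - k₂ + 1),
        if (k₁ + i = (p - 1) / 2 + j ∧ 2 * k₂ + (p - 1) / 2 = i + j) then
          ((((p - 1) / 2).choose k₂ : ZMod p) * (((p - 1) / 2 - k₂).choose k₁ : ZMod p)) else 0,
    ?_, ?_, ?_, ?_⟩
  · intro i j hij
    apply Finset.sum_eq_zero
    intro k₂ _
    apply Finset.sum_eq_zero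
    intro k₁ _
    rw [if_neg]
    rintro ⟨ha, hb⟩
    omega
  · intro i hi1 hi2
    show (∑ k₂ ∈ Finset.range ((p - 1) / 2 + 1), ∑ k₁ ∈ Finset.range ((p - 1) / 2 - k₂ + 1),
        if (k₁ + i = i + 1 ∧ 2 * k₂ = i + (i + 1) + 1) then
          ((((p - 1) / 2).choose k₂ : ZMod p) * (((p - 1) / 2 - k₂).choose k₁ : ZMod p)) else 0) ≠ 0
    rw [Finset.sum_eq_single (i + 1), Finset.sum_eq_single 1, if_pos ⟨by omega, by omega⟩]
    · apply mul_ne_zero
      · exact BsCoef_choose p _ _ (by omega) (by omega)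
      · exact BsCoef_choose p _ _ (by omega) (by omega)
    · intro k₁ _ hk
      rw [if_neg]
      rintro ⟨ha, hb⟩
      omega
    · intro hk
      exfalso
      apply hk
      rw [Finset.mem_range]
      omega
    · intro k₂ _ hk
      apply Finset.sum_eq_zero
      intro k₁ _
      rw [if_neg]
      rintro ⟨ha, hb⟩
      omega
    · intro hk
      exfalso
      apply hk
      rw [Finset.mem_range]
      omega
  · show (∑ k₂ ∈ Finset.range ((p - 1) / 2 + 1), ∑ k₁ ∈ Finset.range ((p - 1) / 2 - k₂ + 1),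
        if (k₁ + ((p - 1) / 2 - 1) = (p - 1) / 2 + 1 ∧
          2 * k₂ + (p - 1) / 2 = ((p - 1) / 2 - 1) + 1) then
          ((((p - 1) / 2).choose k₂ : ZMod p) * (((p - 1) / 2 - k₂).choose k₁ : ZMod p)) else 0) ≠ 0
    rw [Finset.sum_eq_single 0, Finset.sum_eq_single 2, if_pos ⟨by omega, by omega⟩]
    · apply mul_ne_zero
      · exact BsCoef_choose p _ _ (by omega) (by omega)
      · exact BsCoef_choose p _ _ (by omega) (by omega)
    · intro k₁ _ hk
      rw [if_neg]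
      rintro ⟨ha, hb⟩
      omega
    · intro hk
      exfalso
      apply hk
      rw [Finset.mem_range]
      omega
    · intro k₂ _ hk
      apply Finset.sum_eq_zero
      intro k₁ _
      rw [if_neg]
      rintro ⟨ha, hb⟩
      omega
    · intro hk
      exfalso
      apply hk
      rw [Finset.mem_range]
      omega
  · intro β hβ i j hi1 hi hj1 hj
    rw [bs_expand p hp4 (β ^ 2), finsetSum_coeff, Finset.mul_sum, ← Finset.sum_add_distrib,
      Finset.mul_sum]
    apply Finset.sum_congr rfl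
    intro k₂ hk₂
    rw [finsetSum_coeff, Finset.mul_sum, ← Finset.sum_add_distrib, Finset.mul_sum]
    apply Finset.sum_congr rfl
    intro k₁ hk₁
    rw [coeff_C_mul, coeff_X_pow]
    rw [Finset.mem_range] at hk₁ hk₂
    have hiff := BsCoef_iff (2 * n) i j k₁ k₂ hi1 (by omega) hj1 (by omega) (by omega)
    have hp' : p * j + (p - 1) - i = (2 * (2 * n) + 1) * j + 2 * (2 * n) - i := by
      have : p = 2 * (2 * n) + 1 := by omega
      rw [hpm]
      nth_rewrite 1 [this]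
      rfl
    rw [hp']
    rw [hmm, hpm]
    by_cases hA : (k₁ + i = j ∧ 2 * k₂ = i + j + 1)
    · have hB : ¬ (k₁ + i = 2 * n + j ∧ 2 * k₂ + 2 * n = i + j) := by
        rintro ⟨ha, hb⟩
        omega
      rw [if_pos (hiff.mpr (Or.inl hA)), if_pos hA, if_neg hB, ← pow_mul, hA.2]
      ring
    · by_cases hB : (k₁ + i = 2 * n + j ∧ 2 * k₂ + 2 * n = i + j)
      · rw [if_pos (hiff.mpr (Or.inr hB)), if_neg hA, if_pos hB, ← pow_mul]
        have e1 : β ^ (i + j + 1) = β ^ (2 * k₂) * β ^ (2 * n + 1) := by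
          rw [← pow_add]
          congr 1
          omega
        have e2 : β ^ (2 * n + 1) * β⁻¹ ^ (2 * n + 1) = 1 := by
          rw [← mul_pow, mul_inv_cancel₀ hβ, one_pow]
        rw [e1]
        linear_combination (-(((2 * n).choose k₂ : ZMod p) * ((2 * n - k₂).choose k₁ : ZMod p) *
          β ^ (2 * k₂))) * e2
      · rw [if_neg (fun h => (hiff.mp h).elim hA hB), if_neg hA, if_neg hB]
        ring

end Pool.Agent.PRB
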