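import Mathlib

/-!
# A determinant with a parameter

Expand `det (A + t B)` along the first column: it is `t` times a polynomial `Δ'(t)` of degree at most `n`, and
`Δ'(0) = ± B n 0 * ∏ A j (j + 1) ≠ 0`.
-/

set_option autoImplicit false

namespace Pool.Agent.PRB

open Polynomial

private theorem BsDet_minor {F : Type} [Field F] {n : ℕ} (A : Matrix (Fin (n + 1)) (Fin (n + 1)) F)
    (hA : ∀ i j, j ≤ i → A i j = 0) (i : Fin (n + 1)) :
    (A.submatrix i.succAbove Fin.succ).det = ∏ r : Fin n, A (i.succAbove r) r.succ := by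
  rw [Matrix.det_of_upperTriangular]
  · rfl
  · intro r c hrc
    have h1 : (c : ℕ) < r := hrc
    refine hA _ _ ?_
    have h2 : (r : ℕ) ≤ (i.succAbove r : ℕ) := by
      unfold Fin.succAbove
      split_ifs
      · simp
      · simp
    change ((c.succ : Fin (n + 1)) : ℕ) ≤ (i.succAbove r : ℕ)
    rw [Fin.val_succ]
    omega

theorem bs_det {F : Type} [Field F] [DecidableEq F] {n : ℕ} (A B : Matrix (Fin (n + 1)) (Fin (n + 1)) F)
    (hA : ∀ i j, j ≤ i → A i j = 0)
    (hA1 : ∀ i : Fin n, A i.castSucc i.succ ≠ 0) (hB : B (Fin.last n) 0 ≠ 0) :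
    ∃ Z : Finset F, Z.card ≤ n ∧ ∀ t : F, t ≠ 0 → t ∉ Z → (A + t • B).det ≠ 0 := by
  set P : Matrix (Fin (n + 1)) (Fin (n + 1)) F[X] := (X : F[X]) • B.map (C : F → F[X]) + A.map (C : F → F[X]) with hP
  set Δ : F[X] := ∑ i : Fin (n + 1), (-1) ^ (i : ℕ) * C (B i 0) *
    (P.submatrix i.succAbove Fin.succ).det with hΔ
  have hev : ∀ t : F, P.map (evalRingHom t) = A + t • B := by
    intro t
    ext i j
    simp [hP, add_comm]
    ring
  have hdet : ∀ t : F, (A + t • B).det = t * Δ.eval t := by
    intro t
    rw [Matrix.det_succ_column_zero, hΔ, eval_finset_sum, Finset.mul_sum]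
    refine Finset.sum_congr rfl fun i _ => ?_
    have h1 : (A + t • B) i 0 = t * B i 0 := by
      simp [hA i 0 (Fin.zero_le _)]
    have h2 : ((P.submatrix i.succAbove Fin.succ).det).eval t =
        ((A + t • B).submatrix i.succAbove Fin.succ).det := by
      rw [← hev t, ← coe_evalRingHom, RingHom.map_det]
      rfl
    rw [h1, eval_mul, h2]
    simp only [eval_mul, eval_pow, eval_neg, eval_one, eval_C]
    ring
  have h0 : Δ.eval 0 = (-1) ^ n * B (Fin.last n) 0 * ∏ r : Fin n, A r.castSucc r.succ := by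
    rw [hΔ, eval_finset_sum, Finset.sum_eq_single (Fin.last n)]
    · have h2 : ((P.submatrix (Fin.last n).succAbove Fin.succ).det).eval 0 =
          (A.submatrix (Fin.last n).succAbove Fin.succ).det := by
        have h3 := hev 0
        rw [zero_smul, add_zero] at h3
        rw [← h3, ← coe_evalRingHom, RingHom.map_det]
        rfl
      rw [eval_mul, h2, BsDet_minor A hA]
      simp
    · intro i _ hi
      have h2 : ((P.submatrix i.succAbove Fin.succ).det).eval 0 =
          (A.submatrix i.succAbove Fin.succ).det := by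
        have h3 := hev 0
        rw [zero_smul, add_zero] at h3
        rw [← h3, ← coe_evalRingHom, RingHom.map_det]
        rfl
      have hin : (i : ℕ) < n := by
        have := i.2
        have h4 : (i : ℕ) ≠ n := fun h => hi (Fin.ext (by simpa using h))
        omega
      rw [eval_mul, h2, BsDet_minor A hA, Finset.prod_eq_zero (Finset.mem_univ (⟨i, hin⟩ : Fin n)),
        mul_zero]
      have h5 : i.succAbove ⟨i, hin⟩ = (⟨i, hin⟩ : Fin n).succ := by
        rw [Fin.succAbove_of_le_castSucc]
        exact le_refl _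
      rw [h5]
      exact hA _ _ le_rfl
    · intro h
      exact absurd (Finset.mem_univ _) h
  have hne : Δ ≠ 0 := by
    intro h
    rw [h, eval_zero] at h0
    have h6 : (-1 : F) ^ n * B (Fin.last n) 0 * ∏ r : Fin n, A r.castSucc r.succ ≠ 0 :=
      mul_ne_zero (mul_ne_zero (pow_ne_zero _ (neg_ne_zero.2 one_ne_zero)) hB)
        (Finset.prod_ne_zero_iff.2 fun r _ => hA1 r)
    exact h6 h0.symm
  have hdeg : Δ.natDegree ≤ n := by
    rw [hΔ]
    refine natDegree_sum_le_of_forall_le _ _ fun i _ => ?_
    have h7 : ((P.submatrix i.succAbove Fin.succ).det).natDegree ≤ n := by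
      have h8 := natDegree_det_X_add_C_le (B.submatrix i.succAbove Fin.succ)
        (A.submatrix i.succAbove Fin.succ)
      rw [Fintype.card_fin] at h8
      exact h8
    have h9 : ((-1 : F[X]) ^ (i : ℕ) * C (B i 0)) = C ((-1) ^ (i : ℕ) * B i 0) := by
      simp
    rw [h9]
    exact (natDegree_C_mul_le _ _).trans h7
  refine ⟨Δ.roots.toFinset, ?_, fun t ht hZ => ?_⟩
  · exact (Multiset.toFinset_card_le _).trans ((card_roots' _).trans hdeg)
  · rw [hdet t]
    refine mul_ne_zero ht fun h => hZ ?_
    rw [Multiset.mem_toFinset, mem_roots hne]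
    exact h

end Pool.Agent.PRB
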