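import Pool.Agent.LibPRK.BsCoef
import Pool.Agent.LibPRK.BsDet

/-!
# Choice of the parameter of the base curve

PLAN. `m = (p-1)/2`, `n = m - 2`, matrices `Fin (n + 1)`: index `i` stands for `i + 1 ∈ [1, m - 1]`.  `bs_coef` gives `A`, `B`; `bs_det` gives `Z`, `Z.card ≤ m - 2`.
Bad `β ≠ 0`: `β⁻¹^(m+1) ∈ Z`: the map `β ↦ β⁻¹^(m+1)` is injective on `ZMod p \ {0}` because `gcd (m+1, p-1) = 1` (`m` even; `pow_left_injective`-type via units:
`(ZMod p)ˣ` has order `2 m`), so at most `m - 2`; `3 β^2 + 1 = 0`: at most `2`.  Total `≤ m < 2 m = #{β ≠ 0}`.  Take a good `β`.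
The matrix `M i j = (bsW p (β^2) ^ m).coeff (p (j+1) + (p-1) - (i+1)) = β^(i+j+3) * (A + t B) i j`: it is `D₁ (A + t B) D₂` with invertible diagonal matrices, determinant nonzero.
-/

set_option autoImplicit false

namespace Pool.Agent.PRB

open Polynomial

private theorem BsEx_inj (p : ℕ) [Fact p.Prime] (hp4 : p % 4 = 1) (u : ZMod p) (hu : u ≠ 0)
    (h : u ^ ((p - 1) / 2 + 1) = 1) : u = 1 := by
  have hp := (Fact.out : p.Prime)
  obtain ⟨l, hl⟩ : ∃ l, p = 4 * l + 1 := ⟨p / 4, by omega⟩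
  have h1 : u ^ (p - 1) = 1 := ZMod.pow_card_sub_one_eq_one hu
  have e1 : (p - 1) / 2 + 1 = 2 * l + 1 := by omega
  have e2 : p - 1 = 4 * l := by omega
  rw [e1] at h
  rw [e2] at h1
  have h2 : u ^ 2 = 1 := by
    have : u ^ (4 * l) * u ^ 2 = 1 := by
      rw [← pow_add]
      have : 4 * l + 2 = (2 * l + 1) * 2 := by ring
      rw [this, pow_mul, h, one_pow]
    rwa [h1, one_mul] at this
  have h3 : u ^ (2 * l + 1) = u := by
    rw [pow_add, pow_mul, h2, one_pow, one_mul, pow_one]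
  rw [← h3, h]

private theorem BsEx_count (p : ℕ) [Fact p.Prime] (hp4 : p % 4 = 1) (Z : Finset (ZMod p))
    (hZ : Z.card ≤ (p - 1) / 2 - 2) :
    ∃ β : ZMod p, β ≠ 0 ∧ 3 * β ^ 2 + 1 ≠ 0 ∧ β⁻¹ ^ ((p - 1) / 2 + 1) ∉ Z := by
  classical
  have hp := (Fact.out : p.Prime)
  have hp5 : 5 ≤ p := by
    have := hp.two_le
    omega
  set U : Finset (ZMod p) := Finset.univ.filter (fun β => β ≠ 0) with hU
  have hUc : U.card = p - 1 := by
    have : U = Finset.univ.erase 0 := by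
      ext x
      simp [hU]
    rw [this, Finset.card_erase_of_mem (Finset.mem_univ _), Finset.card_univ, ZMod.card]
  set B1 : Finset (ZMod p) := U.filter (fun β => β⁻¹ ^ ((p - 1) / 2 + 1) ∈ Z) with hB1
  set B2 : Finset (ZMod p) := U.filter (fun β => 3 * β ^ 2 + 1 = 0) with hB2
  have c1 : B1.card ≤ (p - 1) / 2 - 2 := by
    refine le_trans (Finset.card_le_card_of_injOn (fun β => β⁻¹ ^ ((p - 1) / 2 + 1)) ?_ ?_) hZ
    · intro β hβ
      exact (Finset.mem_filter.1 hβ).2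
    · intro β hβ γ hγ heq
      have hβ0 : β ≠ 0 := by
        have := (Finset.mem_filter.1 (Finset.mem_filter.1 (Finset.mem_coe.1 hβ)).1).2
        exact this
      have hγ0 : γ ≠ 0 := by
        have := (Finset.mem_filter.1 (Finset.mem_filter.1 (Finset.mem_coe.1 hγ)).1).2
        exact this
      have heq' : β⁻¹ ^ ((p - 1) / 2 + 1) = γ⁻¹ ^ ((p - 1) / 2 + 1) := heq
      have h1 : (β⁻¹ * γ) ^ ((p - 1) / 2 + 1) = 1 := by
        rw [mul_pow, heq', ← mul_pow, inv_mul_cancel₀ hγ0, one_pow]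
      have h2 := BsEx_inj p hp4 (β⁻¹ * γ) (mul_ne_zero (inv_ne_zero hβ0) hγ0) h1
      have h3 : β * (β⁻¹ * γ) = β := by rw [h2, mul_one]
      rw [← mul_assoc, mul_inv_cancel₀ hβ0, one_mul] at h3
      exact h3.symm
  have c2 : B2.card ≤ 2 := by
    set F : (ZMod p)[X] := C 3 * X ^ 2 + C 1 with hF
    have hF0 : F ≠ 0 := by
      intro h
      have := congrArg (fun G => coeff G 0) h
      simp [hF] at this
    have hFd : F.natDegree ≤ 2 := by
      rw [hF]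
      compute_degree
    have hsub : B2 ⊆ F.roots.toFinset := by
      intro β hβ
      rw [Multiset.mem_toFinset, mem_roots hF0, IsRoot.def]
      have := (Finset.mem_filter.1 hβ).2
      simp [hF, this]
    calc B2.card ≤ F.roots.toFinset.card := Finset.card_le_card hsub
      _ ≤ Multiset.card F.roots := Multiset.toFinset_card_le _
      _ ≤ F.natDegree := card_roots' F
      _ ≤ 2 := hFd
  have c3 : (B1 ∪ B2).card < U.card := by
    have := Finset.card_union_le B1 B2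
    rw [hUc]
    omega
  obtain ⟨β, hβU, hβ⟩ := Finset.exists_mem_notMem_of_card_lt_card c3
  rw [Finset.mem_union, not_or] at hβ
  have hβ0 : β ≠ 0 := (Finset.mem_filter.1 hβU).2
  refine ⟨β, hβ0, ?_, ?_⟩
  · intro h
    exact hβ.2 (Finset.mem_filter.2 ⟨hβU, h⟩)
  · intro h
    exact hβ.1 (Finset.mem_filter.2 ⟨hβU, h⟩)

private theorem BsEx_gen (p : ℕ) [Fact p.Prime] (hp4 : p % 4 = 1) (n : ℕ)
    (hn : n + 1 = (p - 1) / 2 - 1) :
    ∃ β : ZMod p, β ≠ 0 ∧ 3 * β ^ 2 + 1 ≠ 0 ∧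
      (Matrix.of fun i j : Fin (n + 1) =>
        (bsW p (β ^ 2) ^ ((p - 1) / 2)).coeff (p * ((j : ℕ) + 1) + (p - 1) - ((i : ℕ) + 1))).det ≠ 0 := by
  classical
  obtain ⟨A, B, hA, hA1, hB, hW⟩ := bs_coef p hp4
  obtain ⟨Z, hZ, hdet⟩ := bs_det
    (Matrix.of fun i j : Fin (n + 1) => A ((i : ℕ) + 1) ((j : ℕ) + 1))
    (Matrix.of fun i j : Fin (n + 1) => B ((i : ℕ) + 1) ((j : ℕ) + 1))
    (by
      intro i j hji
      rw [Matrix.of_apply]
      exact hA _ _ (by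
        have : (j : ℕ) ≤ i := hji
        omega))
    (by
      intro i
      rw [Matrix.of_apply]
      have := hA1 ((i : ℕ) + 1) (by omega) (by
        have := i.2
        omega)
      simpa using this)
    (by
      rw [Matrix.of_apply]
      have : (((Fin.last n : Fin (n + 1)) : ℕ) + 1) = (p - 1) / 2 - 1 := by
        rw [Fin.val_last]
        exact hn
      rw [this]
      simpa using hB)
  obtain ⟨β, hβ0, hβ3, hβZ⟩ := BsEx_count p hp4 Z (by omega)
  refine ⟨β, hβ0, hβ3, ?_⟩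
  have hd := hdet (β⁻¹ ^ ((p - 1) / 2 + 1)) (pow_ne_zero _ (inv_ne_zero hβ0)) hβZ
  have hM : (Matrix.of fun i j : Fin (n + 1) =>
      (bsW p (β ^ 2) ^ ((p - 1) / 2)).coeff (p * ((j : ℕ) + 1) + (p - 1) - ((i : ℕ) + 1))) =
      Matrix.diagonal (fun i : Fin (n + 1) => β ^ ((i : ℕ) + 2)) *
        ((Matrix.of fun i j : Fin (n + 1) => A ((i : ℕ) + 1) ((j : ℕ) + 1)) +
          β⁻¹ ^ ((p - 1) / 2 + 1) •
            (Matrix.of fun i j : Fin (n + 1) => B ((i : ℕ) + 1) ((j : ℕ) + 1))) *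
        Matrix.diagonal (fun j : Fin (n + 1) => β ^ ((j : ℕ) + 1)) := by
    ext i j
    rw [Matrix.mul_diagonal, Matrix.diagonal_mul, Matrix.add_apply, Matrix.smul_apply,
      Matrix.of_apply, Matrix.of_apply, Matrix.of_apply]
    have hi := i.2
    have hj := j.2
    rw [hW β hβ0 ((i : ℕ) + 1) ((j : ℕ) + 1) (by omega) (by omega) (by omega) (by omega)]
    have e : (i : ℕ) + 1 + ((j : ℕ) + 1) + 1 = ((i : ℕ) + 2) + ((j : ℕ) + 1) := by ring
    rw [e, pow_add, smul_eq_mul]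
    ring
  rw [hM, Matrix.det_mul, Matrix.det_mul, Matrix.det_diagonal, Matrix.det_diagonal]
  refine mul_ne_zero (mul_ne_zero ?_ hd) ?_
  · exact Finset.prod_ne_zero_iff.2 fun i _ => pow_ne_zero _ hβ0
  · exact Finset.prod_ne_zero_iff.2 fun i _ => pow_ne_zero _ hβ0

theorem bs_exists (p : ℕ) [Fact p.Prime] (hp4 : p % 4 = 1) :
    ∃ β : ZMod p, β ≠ 0 ∧ 3 * β ^ 2 + 1 ≠ 0 ∧
      (Matrix.of fun i j : Fin ((p - 1) / 2 - 1) =>
        (bsW p (β ^ 2) ^ ((p - 1) / 2)).coeff (p * ((j : ℕ) + 1) + (p - 1) - ((i : ℕ) + 1))).det ≠ 0 := by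
  have hp := (Fact.out : p.Prime)
  have h2 := hp.two_le
  obtain ⟨n, hn⟩ : ∃ n, n + 1 = (p - 1) / 2 - 1 := by
    refine ⟨(p - 1) / 2 - 2, ?_⟩
    have : 5 ≤ p := by omega
    have : p ≠ 5 ∨ p = 5 := by tauto
    omega
  rw [← hn]
  exact BsEx_gen p hp4 n hn

end Pool.Agent.PRB
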