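import Mathlib

/-!
# The base curve `y ^ 2 = X + X ^ (m+2) + b X ^ p`, `p = 2 m + 1`: expansion

PLAN. `add_pow` twice: `(U + V)^m = ∑_{k₂ ≤ m} U^(m-k₂) V^k₂ choose m k₂` with `U = X + X^(m+2)`, `V = C b * X^p`; `U^n = ∑_{k₁ ≤ n} X^(n - k₁) * X^((m+2) k₁) * choose n k₁`;
exponent `(m - k₂ - k₁) + (m+2) k₁ + (2m+1) k₂ = m + (m+1) k₁ + 2 m k₂` (`m = (p-1)/2`, `2 m = p - 1` as `p` is odd).
-/

set_option autoImplicit false

namespace Pool.Agent.PRB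

open Polynomial

/-- The base polynomial. -/
noncomputable def bsW (p : ℕ) {R : Type} [CommRing R] (b : R) : R[X] :=
  X + X ^ ((p - 1) / 2 + 2) + C b * X ^ p

theorem bs_expand (p : ℕ) [Fact p.Prime] (hp4 : p % 4 = 1) (b : ZMod p) :
    bsW p b ^ ((p - 1) / 2) = ∑ k₂ ∈ Finset.range ((p - 1) / 2 + 1),
      ∑ k₁ ∈ Finset.range ((p - 1) / 2 - k₂ + 1),
        C ((((p - 1) / 2).choose k₂ : ZMod p) * (((p - 1) / 2 - k₂).choose k₁ : ZMod p) * b ^ k₂) *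
          X ^ ((p - 1) / 2 + ((p - 1) / 2 + 1) * k₁ + (p - 1) * k₂) := by
  have hp1 : 1 ≤ p := (Fact.out : p.Prime).one_lt.le
  have hW : bsW p b = C b * X ^ p + (X ^ ((p - 1) / 2 + 2) + X) := by unfold bsW; ring
  rw [hW]
  generalize (p - 1) / 2 = m
  rw [add_pow]
  apply Finset.sum_congr rfl
  intro k₂ hk₂
  rw [add_pow, Finset.mul_sum, Finset.sum_mul]
  apply Finset.sum_congr rfl
  intro k₁ hk₁
  rw [Finset.mem_range] at hk₁ hk₂
  have he : m + (m + 1) * k₁ + (p - 1) * k₂ = p * k₂ + ((m + 2) * k₁ + (m - k₂ - k₁)) := by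
    obtain ⟨d, hd⟩ : ∃ d, m = k₂ + k₁ + d := ⟨m - k₂ - k₁, by omega⟩
    obtain ⟨q, hq⟩ : ∃ q, p = q + 1 := ⟨p - 1, by omega⟩
    have h1 : m - k₂ - k₁ = d := by omega
    have h2 : p - 1 = q := by omega
    rw [h1, h2, hq]
    calc m + (m + 1) * k₁ + q * k₂ = (k₂ + k₁ + d) + (m + 1) * k₁ + q * k₂ := by rw [← hd]
      _ = (q + 1) * k₂ + ((m + 2) * k₁ + d) := by ring
  rw [he]
  simp only [mul_pow, ← pow_mul, C_mul, C_pow, pow_add, map_natCast]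
  ring

end Pool.Agent.PRB
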