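import Pool.Agent.LibPRK.BsCoef

/-!
# The base polynomial is separable

`p = 2 m + 1`, `m` even, `b = β ^ 2`. A common root `x` of `w = X + X^(m+2) + b X^p` and `w'` in an algebraic closure
satisfies `3 x^(m+1) = -2`, `3 b x^(2m) = -1`, `3 x^2 = -4 b`, so it is in the prime field, `x^(2m) = 1`, `3 b = -1`.
-/

set_option autoImplicit false

namespace Pool.Agent.PRB

open Polynomial

private theorem BsSep_aux (p : ℕ) [Fact p.Prime] {K : Type} [Field K] [Algebra (ZMod p) K] (r : ℕ)
    (hr : p = 4 * r + 1) (β : ZMod p) (hβ : β ≠ 0) (h3 : 3 * β ^ 2 + 1 ≠ 0) (x : K)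
    (e1 : x + x ^ (2 * r + 2) + algebraMap (ZMod p) K β ^ 2 * x ^ (4 * r + 1) = 0)
    (e2 : 1 + ((2 * r + 2 : ℕ) : K) * x ^ (2 * r + 1) = 0) : False := by
  have hp1 : 1 < p := (Fact.out : p.Prime).one_lt
  have hpK : (p : K) = 0 := by
    have h1 : ((p : ZMod p) : ZMod p) = 0 := ZMod.natCast_self p
    have h2 := congrArg (algebraMap (ZMod p) K) h1
    rwa [map_natCast, map_zero] at h2
  have h30 : (3 : ZMod p) ≠ 0 := by
    intro h
    have h1 : ((3 : ℕ) : ZMod p) = 0 := by exact_mod_cast h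
    rw [ZMod.natCast_eq_zero_iff] at h1
    have h2 := Nat.le_of_dvd (by norm_num) h1
    omega
  have h3K : (3 : K) ≠ 0 := by
    intro h
    apply h30
    apply (algebraMap (ZMod p) K).injective
    rw [map_ofNat, map_zero]
    exact h
  have hpr : ((4 * r + 1 : ℕ) : K) = 0 := (congrArg (fun k : ℕ => (k : K)) hr).symm.trans hpK
  have hpr2 : (4 : K) * (r : K) + 1 = 0 := by
    have h := hpr
    push_cast at h
    exact h
  set b : K := (algebraMap (ZMod p) K) β ^ 2 with hb
  have e3 : 3 * x ^ (2 * r + 1) = -2 := by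
    push_cast at e2
    linear_combination 2 * e2 - hpr2 * x ^ (2 * r + 1)
  have hx : x ≠ 0 := by
    intro h
    rw [h, zero_pow (by omega), mul_zero] at e3
    have h8 : (2 : K) = 0 := by linear_combination e3
    have h9 : (2 : ZMod p) = 0 := by
      apply (algebraMap (ZMod p) K).injective
      rw [map_ofNat, map_zero]
      exact h8
    have h1 : ((2 : ℕ) : ZMod p) = 0 := by exact_mod_cast h9
    rw [ZMod.natCast_eq_zero_iff] at h1
    have h2 := Nat.le_of_dvd (by norm_num) h1
    omega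
  have e4 : 3 * b * x ^ (4 * r) = -1 := by
    have h5 : x * (1 + x ^ (2 * r + 1) + b * x ^ (4 * r)) = 0 := by
      linear_combination e1
    have h6 := (mul_eq_zero.1 h5).resolve_left hx
    linear_combination 3 * h6 - e3
  have e5 : 3 * x ^ 2 = -4 * b := by
    have h5 : 9 * (x ^ 2 * x ^ (4 * r)) = 4 := by
      have h6 : x ^ 2 * x ^ (4 * r) = (x ^ (2 * r + 1)) ^ 2 := by ring
      rw [h6]
      linear_combination (3 * x ^ (2 * r + 1) - 2) * e3
    linear_combination 3 * x ^ 2 * e4 - b * h5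
  set c : ZMod p := -4 * β ^ 2 / 3 with hc
  have hc0 : algebraMap (ZMod p) K c = x ^ 2 := by
    have h5 : 3 * algebraMap (ZMod p) K c = 3 * x ^ 2 := by
      have h6 : (3 : K) = algebraMap (ZMod p) K 3 := (map_ofNat _ 3).symm
      have h7 : (4 : K) = algebraMap (ZMod p) K 4 := (map_ofNat _ 4).symm
      rw [e5, hb, ← map_pow, hc, h6, h7, ← map_neg, ← map_mul, ← map_mul]
      congr 1
      field_simp
    exact mul_left_cancel₀ h3K h5
  have hcz : c ≠ 0 := by
    intro h
    rw [h, map_zero] at hc0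
    exact pow_ne_zero 2 hx hc0.symm
  have e6 : x = algebraMap (ZMod p) K (-2 / (3 * c ^ r)) := by
    have h5 : (3 * algebraMap (ZMod p) K c ^ r) * x = -2 := by
      rw [hc0, ← e3]
      ring
    have h6 : (3 * algebraMap (ZMod p) K c ^ r) * algebraMap (ZMod p) K (-2 / (3 * c ^ r)) = -2 := by
      have h7 : (3 : K) = algebraMap (ZMod p) K 3 := (map_ofNat _ 3).symm
      have h8 : (2 : K) = algebraMap (ZMod p) K 2 := (map_ofNat _ 2).symm
      rw [h7, h8, ← map_pow, ← map_mul, ← map_mul, ← map_neg]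
      congr 1
      have h9 : 3 * c ^ r ≠ 0 := mul_ne_zero h30 (pow_ne_zero _ hcz)
      field_simp
    have h9 : 3 * algebraMap (ZMod p) K c ^ r ≠ 0 := by
      refine mul_ne_zero h3K (pow_ne_zero _ ?_)
      rw [hc0]
      exact pow_ne_zero _ hx
    exact mul_left_cancel₀ h9 (h5.trans h6.symm)
  have e7 : x ^ (4 * r) = 1 := by
    have h5 : (-2 / (3 * c ^ r) : ZMod p) ≠ 0 := by
      intro h
      rw [h, map_zero] at e6
      exact hx e6
    have h6 := ZMod.pow_card_sub_one_eq_one h5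
    have h7 : p - 1 = 4 * r := by omega
    rw [h7] at h6
    rw [e6, ← map_pow, h6, map_one]
  apply h3
  apply (algebraMap (ZMod p) K).injective
  rw [map_zero, map_add, map_mul, map_pow, map_one, ← hb, map_ofNat]
  rw [e7, mul_one] at e4
  rw [e4]
  ring

theorem bs_sep (p : ℕ) [Fact p.Prime] (hp4 : p % 4 = 1) (β : ZMod p) (hβ : β ≠ 0)
    (h3 : 3 * β ^ 2 + 1 ≠ 0) : (bsW p (β ^ 2)).Separable := by
  obtain ⟨r, hr⟩ : ∃ r, p = 4 * r + 1 := ⟨p / 4, by omega⟩
  have hm : (p - 1) / 2 = 2 * r := by omega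
  rw [separable_def, isCoprime_iff_aeval_ne_zero_of_isAlgClosed (ZMod p)
    (AlgebraicClosure (ZMod p))]
  intro x
  by_contra hcon
  push_neg at hcon
  obtain ⟨e1, e2⟩ := hcon
  have hd : derivative (bsW p (β ^ 2)) = 1 + C ((2 * r + 2 : ℕ) : ZMod p) * X ^ (2 * r + 1) := by
    rw [bsW, hm, derivative_add, derivative_add, derivative_X, derivative_X_pow, derivative_C_mul,
      derivative_X_pow]
    have h1 : ((p : ZMod p) : ZMod p) = 0 := ZMod.natCast_self p
    rw [h1]
    simp
  have hxp : x ^ p = x ^ (4 * r + 1) := congrArg (fun k => x ^ k) hr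
  rw [hd] at e2
  rw [bsW, hm] at e1
  refine BsSep_aux p r hr β hβ h3 x ?_ ?_
  · rw [← hxp]
    have h := e1
    simp only [map_add, map_mul, map_pow, aeval_X, aeval_C] at h
    exact h
  · have h := e2
    rw [map_add, map_one, map_mul, aeval_C, map_natCast, map_pow, aeval_X] at h
    exact h

end Pool.Agent.PRB
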