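import Pool.Agent.LibPRK.BsEx
import Pool.Agent.LibPRK.BsSep

/-!
# The base curve

PLAN. `F = C (β^2)⁻¹ * bsW p (β^2)`: monic of degree `p`, separable, and `F^m = bsW^m` as `(β^2)^m = β^(p-1) = 1`, `m = (p-1)/2`.
For `g` of degree `< m` and `e`: `(g * W).coeff (p j + (p-1)) = ∑_{i<m} g.coeff i * W.coeff (p j + (p-1) - i)` (`i ≤ p - 1`; `Polynomial.coeff_mul` or
`Polynomial.coeff_mul_of_...`, `as_sum_range'`), `W = map (bsW^m)`.
(1) `j = 0`: `bs_zero`.  (2) `g.coeff 0 = 0`, all these coefficients vanish for `1 ≤ j ≤ m - 1`: the vector `(g.coeff (i+1))_{i<m-1}` is in the left kernel of the image of the matrix of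
`bs_exists` (`RingHom.map_det`, `Matrix.eq_zero_of_vecMul_eq_zero`), so zero.
-/

set_option autoImplicit false

namespace Pool.Agent.PRB

open Polynomial

private theorem BsFin_deg_lt {R : Type} [Field R] (p : ℕ) (hp5 : 5 ≤ p) (c : R) :
    (C c * (X + X ^ ((p - 1) / 2 + 2)) : R[X]).degree < ((p : ℕ) : WithBot ℕ) := by
  by_cases hc : c = 0
  · rw [hc, C_0, zero_mul, degree_zero]
    exact WithBot.bot_lt_coe _
  rw [degree_C_mul hc]
  refine lt_of_le_of_lt (degree_add_le _ _) ?_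
  rw [degree_X, degree_X_pow, max_lt_iff]
  constructor
  · exact_mod_cast (by omega : 1 < p)
  · exact_mod_cast (by omega : (p - 1) / 2 + 2 < p)

private theorem BsFin_form {R : Type} [Field R] (p : ℕ) (b : R) (hb : b ≠ 0) :
    C b⁻¹ * bsW p b = X ^ p + C b⁻¹ * (X + X ^ ((p - 1) / 2 + 2)) := by
  have h1 : (C b⁻¹ * C b : R[X]) = 1 := by
    rw [← C_mul, inv_mul_cancel₀ hb, C_1]
  have h2 : C b⁻¹ * bsW p b = (C b⁻¹ * C b) * X ^ p + C b⁻¹ * (X + X ^ ((p - 1) / 2 + 2)) := by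
    unfold bsW
    ring
  rw [h2, h1, one_mul]

private theorem BsFin_coeff {k : Type} [Field k] (m : ℕ) (hm : 0 < m) (g W : k[X])
    (hg : g.degree < ((m : ℕ) : WithBot ℕ)) (n : ℕ) (hn : m ≤ n + 1) :
    (g * W).coeff n = ∑ i ∈ Finset.range m, g.coeff i * W.coeff (n - i) := by
  have hnd : g.natDegree < m := by
    by_cases h0 : g = 0
    · rw [h0, natDegree_zero]
      exact hm
    · exact (natDegree_lt_iff_degree_lt h0).mpr hg
  conv_lhs => rw [as_sum_range' g m hnd]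
  rw [Finset.sum_mul, finsetSum_coeff]
  refine Finset.sum_congr rfl fun i hi => ?_
  rw [Finset.mem_range] at hi
  rw [← C_mul_X_pow_eq_monomial, mul_assoc, coeff_C_mul, coeff_X_pow_mul', if_pos (by omega)]

private theorem BsFin_sum {k : Type} [Field k] (m : ℕ) (hm : 0 < m) (f : ℕ → k) (h : f 0 = 0) :
    ∑ i ∈ Finset.range m, f i = ∑ i : Fin (m - 1), f ((i : ℕ) + 1) := by
  obtain ⟨n, rfl⟩ : ∃ n, m = n + 1 := ⟨m - 1, by omega⟩
  rw [Finset.sum_range_succ', h, add_zero, Finset.sum_range]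
  rfl

theorem bs_base (p : ℕ) [Fact p.Prime] (hp4 : p % 4 = 1) :
    ∃ F : (ZMod p)[X], F.Monic ∧ F.Separable ∧ F.natDegree = p ∧
      ∀ (k : Type) [Field k] [Algebra (ZMod p) k],
        (∀ g : k[X], g.degree < (((p - 1) / 2 : ℕ) : WithBot ℕ) →
          (g * (F.map (algebraMap (ZMod p) k)) ^ ((p - 1) / 2)).coeff (p - 1) = 0) ∧
        (∀ g : k[X], g.degree < (((p - 1) / 2 : ℕ) : WithBot ℕ) → g.coeff 0 = 0 →
          (∀ i, (g * (F.map (algebraMap (ZMod p) k)) ^ ((p - 1) / 2)).coeff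
            (p * i + (p - 1)) = 0) → g = 0) := by
  have hp : p.Prime := Fact.out
  have hp5 : 5 ≤ p := by
    have := hp.two_le
    omega
  obtain ⟨β, hβ, h3, hdet⟩ := bs_exists p hp4
  have hb : β ^ 2 ≠ 0 := pow_ne_zero 2 hβ
  have hbm : (β ^ 2) ^ ((p - 1) / 2) = 1 := by
    rw [← pow_mul, show 2 * ((p - 1) / 2) = p - 1 by omega]
    exact ZMod.pow_card_sub_one_eq_one hβ
  have hform := BsFin_form p (β ^ 2) hb
  have hlt := BsFin_deg_lt (R := ZMod p) p hp5 ((β ^ 2)⁻¹)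
  have hFm : (C (β ^ 2)⁻¹ * bsW p (β ^ 2)) ^ ((p - 1) / 2) = bsW p (β ^ 2) ^ ((p - 1) / 2) := by
    rw [mul_pow, ← C_pow, inv_pow, hbm, inv_one, C_1, one_mul]
  have hF2 : ∀ (k : Type) [Field k] [Algebra (ZMod p) k],
      ((C (β ^ 2)⁻¹ * bsW p (β ^ 2)).map (algebraMap (ZMod p) k)) ^ ((p - 1) / 2) =
        (bsW p (β ^ 2) ^ ((p - 1) / 2)).map (algebraMap (ZMod p) k) := by
    intro k _ _
    rw [← Polynomial.map_pow, hFm]
  refine ⟨C (β ^ 2)⁻¹ * bsW p (β ^ 2), ?_, ?_, ?_, ?_⟩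
  · rw [hform]
    exact monic_X_pow_add hlt
  · refine (bs_sep p hp4 β hβ h3).of_dvd ⟨C (β ^ 2), ?_⟩
    have h1 : (C (β ^ 2)⁻¹ * C (β ^ 2) : (ZMod p)[X]) = 1 := by
      rw [← C_mul, inv_mul_cancel₀ hb, C_1]
    calc bsW p (β ^ 2) = (C (β ^ 2)⁻¹ * C (β ^ 2)) * bsW p (β ^ 2) := by rw [h1, one_mul]
      _ = C (β ^ 2)⁻¹ * bsW p (β ^ 2) * C (β ^ 2) := by ring
  · rw [hform]
    refine natDegree_eq_of_degree_eq_some ?_
    rw [degree_add_eq_left_of_degree_lt (by rw [degree_X_pow]; exact hlt), degree_X_pow]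
  · intro k _ _
    rw [hF2 k]
    constructor
    · intro g hg
      rw [BsFin_coeff ((p - 1) / 2) (by omega) g _ hg (p - 1) (by omega)]
      refine Finset.sum_eq_zero fun i hi => ?_
      rw [Finset.mem_range] at hi
      rw [coeff_map, bs_zero p hp4 (β ^ 2) i hi, map_zero, mul_zero]
    · intro g hg hg0 hall
      have hm : (p - 1) / 2 = ((p - 1) / 2 - 1) + 1 := by omega
      have hdet2 : ((Matrix.of fun i j : Fin ((p - 1) / 2 - 1) =>
          (bsW p (β ^ 2) ^ ((p - 1) / 2)).coeff (p * ((j : ℕ) + 1) + (p - 1) - ((i : ℕ) + 1))).map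
            (algebraMap (ZMod p) k)).det ≠ 0 := by
        have h1 := RingHom.map_det (algebraMap (ZMod p) k) (Matrix.of fun i j : Fin ((p - 1) / 2 - 1) =>
          (bsW p (β ^ 2) ^ ((p - 1) / 2)).coeff (p * ((j : ℕ) + 1) + (p - 1) - ((i : ℕ) + 1)))
        rw [RingHom.mapMatrix_apply] at h1
        rw [← h1]
        exact (_root_.map_ne_zero _).mpr hdet
      have hv : Matrix.vecMul (fun i : Fin ((p - 1) / 2 - 1) => g.coeff ((i : ℕ) + 1))
          ((Matrix.of fun i j : Fin ((p - 1) / 2 - 1) =>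
          (bsW p (β ^ 2) ^ ((p - 1) / 2)).coeff (p * ((j : ℕ) + 1) + (p - 1) - ((i : ℕ) + 1))).map
            (algebraMap (ZMod p) k)) = 0 := by
        funext j
        have h1 := hall ((j : ℕ) + 1)
        have hpj : p ≤ p * ((j : ℕ) + 1) := Nat.le_mul_of_pos_right p (Nat.succ_pos _)
        rw [BsFin_coeff ((p - 1) / 2) (by omega) g _ hg (p * ((j : ℕ) + 1) + (p - 1)) (by omega)] at h1
        rw [BsFin_sum _ (by omega) (fun i => g.coeff i *
          ((bsW p (β ^ 2) ^ ((p - 1) / 2)).map (algebraMap (ZMod p) k)).coeff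
            (p * ((j : ℕ) + 1) + (p - 1) - i)) (by rw [hg0, zero_mul])] at h1
        rw [Matrix.vecMul, dotProduct, Pi.zero_apply]
        refine Eq.trans (Finset.sum_congr rfl fun i _ => ?_) h1
        rw [coeff_map, Matrix.map_apply, Matrix.of_apply]
      have hz := Matrix.eq_zero_of_vecMul_eq_zero hdet2 hv
      have hnd : g.degree < (((p - 1) / 2 : ℕ) : WithBot ℕ) := hg
      refine Polynomial.ext fun n => ?_
      rw [coeff_zero]
      by_cases hn : n < (p - 1) / 2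
      · rcases Nat.eq_zero_or_pos n with h0 | h0
        · rw [h0, hg0]
        · have h2 := congrFun hz ⟨n - 1, by omega⟩
          simp only [Pi.zero_apply] at h2
          rwa [Nat.sub_add_cancel h0] at h2
      · exact coeff_eq_zero_of_degree_lt (lt_of_lt_of_le hnd (by exact_mod_cast not_lt.mp hn))

end Pool.Agent.PRB
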