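import Pool.Agent.LibPRB.LangC

/-!
# Fixed points of a `p⁻¹`-linear map without nilpotent part outside the kernel

PLAN. `U = range C` is a subspace (`c • C v = C (c ^ p • v)`), `C` maps `U` to `U` injectively (`hst`); a fixed vector `v = C v` lies in
`U`; `LangC_card` (Pool/Agent/LibPRB/LangC.lean) for the restriction to `U` gives `p ^ finrank U`.  `finrank U = finrank V - finrank K`:
take a complement `K'` of `K` (`Submodule.exists_isCompl`) with a basis `b i`; `C (b i)` is a basis of `U`: `∑ c_i • C (b i) =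
C (∑ c_i ^ p • b i)` (finite sums by additivity), so independent (`K ⊓ K' = ⊥`); they span: `v = v' + v''`, `C v = C v''`, the
coefficients of `v''` are `p`-th powers (`k` algebraically closed).
-/

set_option autoImplicit false

namespace Pool.Agent.PRB

private theorem CardFix_finrank {p : ℕ} [Fact p.Prime] {k V : Type} [Field k] [IsAlgClosed k]
    [CharP k p] [AddCommGroup V] [Module k V] [Module.Finite k V] (C : V →+ V)
    (hC : ∀ (c : k) (v : V), C (c ^ p • v) = c • C v)
    (K U : Submodule k V) (hK : ∀ v, v ∈ K ↔ C v = 0) (hU : ∀ v, v ∈ U ↔ ∃ w, C w = v) :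
    Module.finrank k K + Module.finrank k U = Module.finrank k V := by
  classical
  have hp : 1 < p := (Fact.out : p.Prime).one_lt
  obtain ⟨K', hKK⟩ := Submodule.exists_isCompl K
  rw [← Submodule.finrank_add_eq_of_isCompl hKK]
  congr 1
  set b := Module.finBasis k K' with hb
  set w : Fin (Module.finrank k K') → U := fun i => ⟨C (b i : V), (hU _).2 ⟨_, rfl⟩⟩ with hw
  have hsum : ∀ g : Fin (Module.finrank k K') → k,
      ∑ i, g i • C (b i : V) = C (∑ i, g i ^ p • (b i : V)) := by
    intro g
    rw [map_sum]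
    exact Finset.sum_congr rfl fun i _ => (hC _ _).symm
  have hli : LinearIndependent k w := by
    rw [Fintype.linearIndependent_iff]
    intro g hg i
    have h1 : ∑ i, g i • C (b i : V) = 0 := by
      have := congrArg (Subtype.val) hg
      simpa [hw] using this
    rw [hsum] at h1
    have h2 : ∑ i, g i ^ p • (b i : V) ∈ K := (hK _).2 h1
    have h3 : ∑ i, g i ^ p • (b i : V) ∈ K' :=
      Submodule.sum_mem _ fun i _ => Submodule.smul_mem _ _ (b i).2
    have h4 : ∑ i, g i ^ p • (b i : V) = 0 := by
      have := Submodule.disjoint_def.1 hKK.disjoint _ h2 h3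
      exact this
    have h5 : ∑ i, g i ^ p • b i = 0 := by
      apply Subtype.ext
      simpa using h4
    have h6 := Fintype.linearIndependent_iff.1 b.linearIndependent (fun i => g i ^ p) h5 i
    exact pow_eq_zero_iff (by omega) |>.1 h6
  have hsp : ⊤ ≤ Submodule.span k (Set.range w) := by
    rintro ⟨u, hu⟩ _
    obtain ⟨v, rfl⟩ := (hU u).1 hu
    obtain ⟨v1, hv1, v2, hv2, rfl⟩ : ∃ v1 ∈ K, ∃ v2 ∈ K', v1 + v2 = v := by
      have : v ∈ K ⊔ K' := by
        rw [hKK.sup_eq_top]
        exact Submodule.mem_top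
      exact Submodule.mem_sup.1 this
    have e1 : C (v1 + v2) = C v2 := by
      rw [map_add, (hK v1).1 hv1, zero_add]
    set c := b.repr ⟨v2, hv2⟩ with hc
    choose d hd using fun i => LangC_root_p (p := p) (c i)
    have e2 : v2 = ∑ i, d i ^ p • (b i : V) := by
      have h1 : (⟨v2, hv2⟩ : K') = ∑ i, c i • b i := (b.sum_repr ⟨v2, hv2⟩).symm
      have h2 := congrArg Subtype.val h1
      simp only at h2
      rw [h2]
      rw [Submodule.coe_sum]
      refine Finset.sum_congr rfl fun i _ => ?_
      rw [hd i]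
      rfl
    have e3 : C (v1 + v2) = ∑ i, d i • C (b i : V) := by
      rw [e1, hsum, ← e2]
    have e4 : (⟨C (v1 + v2), hu⟩ : U) = ∑ i, d i • w i := by
      apply Subtype.ext
      rw [Submodule.coe_sum]
      exact e3
    rw [e4]
    exact Submodule.sum_mem _ fun i _ =>
      Submodule.smul_mem _ _ (Submodule.subset_span ⟨i, rfl⟩)
  rw [Module.finrank_eq_card_basis (Module.Basis.mk hli hsp), Fintype.card_fin]

theorem card_fix_of_stable {p : ℕ} [Fact p.Prime] {k V : Type} [Field k] [IsAlgClosed k]
    [CharP k p] [AddCommGroup V] [Module k V] [Module.Finite k V] (C : V →+ V)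
    (hC : ∀ (c : k) (v : V), C (c ^ p • v) = c • C v) (hst : ∀ v, C (C v) = 0 → C v = 0)
    (K : Submodule k V) (hK : ∀ v, v ∈ K ↔ C v = 0) :
    Nat.card {v : V // C v = v} = p ^ (Module.finrank k V - Module.finrank k K) := by
  classical
  let U : Submodule k V :=
    { carrier := {v | ∃ w, C w = v}
      add_mem' := by
        rintro _ _ ⟨a, rfl⟩ ⟨b, rfl⟩
        exact ⟨a + b, map_add C a b⟩
      zero_mem' := ⟨0, map_zero C⟩
      smul_mem' := by
        rintro c _ ⟨a, rfl⟩
        exact ⟨c ^ p • a, hC c a⟩ }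
  have hU : ∀ v, v ∈ U ↔ ∃ w, C w = v := fun v => Iff.rfl
  have h1 := CardFix_finrank (p := p) C hC K U hK hU
  have h2 := lang_card (p := p) U C (map_add C) hC (fun v _ => (hU _).2 ⟨v, rfl⟩) (by
    intro v hv h0
    obtain ⟨w, rfl⟩ := (hU v).1 hv
    exact hst w h0)
  have h3 : Module.finrank k V - Module.finrank k K = Module.finrank k U := by omega
  rw [h3, ← h2]
  refine Nat.card_congr ?_
  exact
    { toFun := fun v => ⟨v.1, (hU _).2 ⟨v.1, v.2⟩, v.2⟩
      invFun := fun w => ⟨w.1, w.2.2⟩
      left_inv := fun _ => rfl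
      right_inv := fun _ => rfl }

end Pool.Agent.PRB
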