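import Pool.Agent.LibPRB.FixE

/-!
# The Cartier operator on polynomials

`crt p F` is the polynomial whose `i`-th coefficient is the `p`-th root of the coefficient of `F` at
`p i + (p - 1)`.
-/

set_option autoImplicit false

namespace Pool.Agent.PRB

open Polynomial

variable {p : ℕ} [Fact p.Prime] {k : Type} [Field k] [IsAlgClosed k] [CharP k p]

theorem exists_crt (p : ℕ) [Fact p.Prime] {k : Type} [Field k] [IsAlgClosed k]
    (F : k[X]) : ∃ G : k[X], ∀ i, G.coeff i ^ p = F.coeff (p * i + (p - 1)) := by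
  have hp : p.Prime := Fact.out
  choose r hr using fun c : k => IsAlgClosed.exists_pow_nat_eq c hp.pos
  refine ⟨∑ i ∈ Finset.range (F.natDegree + 1), monomial i (r (F.coeff (p * i + (p - 1)))), ?_⟩
  intro i
  rw [finsetSum_coeff]
  simp only [coeff_monomial]
  rw [Finset.sum_ite_eq']
  split_ifs with h
  · exact hr _
  · rw [zero_pow hp.ne_zero]
    symm
    apply coeff_eq_zero_of_natDegree_lt
    rw [Finset.mem_range] at h
    have := hp.pos
    nlinarith

/-- The Cartier operator on polynomials. -/
noncomputable def crt (p : ℕ) [Fact p.Prime] {k : Type} [Field k] [IsAlgClosed k]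
    (F : k[X]) : k[X] := (exists_crt p F).choose

omit [CharP k p] in
theorem coeff_crt (F : k[X]) (i : ℕ) : (crt p F).coeff i ^ p = F.coeff (p * i + (p - 1)) :=
  (exists_crt p F).choose_spec i

theorem crt_eq_iff (F G : k[X]) : crt p F = G ↔ ∀ i, G.coeff i ^ p = F.coeff (p * i + (p - 1)) := by
  constructor
  · rintro rfl i
    exact coeff_crt F i
  · intro h
    ext i
    exact frobenius_inj k p ((coeff_crt F i).trans (h i).symm)

theorem crt_eq_zero_iff (F : k[X]) : crt p F = 0 ↔ ∀ i, F.coeff (p * i + (p - 1)) = 0 := by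
  rw [crt_eq_iff]
  refine forall_congr' fun i => ?_
  rw [coeff_zero, zero_pow (Fact.out : p.Prime).ne_zero, eq_comm]

theorem crt_zero : crt p (0 : k[X]) = 0 := by
  rw [crt_eq_zero_iff]
  intro i
  exact coeff_zero _

theorem crt_add (F G : k[X]) : crt p (F + G) = crt p F + crt p G := by
  rw [crt_eq_iff]
  intro i
  rw [coeff_add, add_pow_char, coeff_crt, coeff_crt, coeff_add]

theorem crt_neg (F : k[X]) : crt p (-F) = -crt p F := by
  have h := crt_add (p := p) F (-F)
  rw [add_neg_cancel, crt_zero] at h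
  exact (neg_eq_of_add_eq_zero_right h.symm).symm

theorem crt_sub (F G : k[X]) : crt p (F - G) = crt p F - crt p G := by
  rw [sub_eq_add_neg, crt_add, crt_neg, sub_eq_add_neg]

theorem crt_sum {ι : Type*} (s : Finset ι) (f : ι → k[X]) :
    crt p (∑ i ∈ s, f i) = ∑ i ∈ s, crt p (f i) := by
  classical
  induction s using Finset.induction_on with
  | empty => simpa using crt_zero
  | insert i s hi ih => rw [Finset.sum_insert hi, Finset.sum_insert hi, crt_add, ih]

/-- the `p`-th power of `crt` and the `(p-1)`-th derivative -/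
theorem crt_pow (F : k[X]) : crt p F ^ p = -derivative^[p - 1] F := by
  exact (pow_eq_deriv_pred_iff (crt p F) F).2 (coeff_crt F)

theorem crt_eq_iff_pow (F G : k[X]) : crt p F = G ↔ G ^ p = -derivative^[p - 1] F := by
  rw [crt_eq_iff]
  exact (pow_eq_deriv_pred_iff G F).symm

theorem crt_eq_zero_iff_deriv (F : k[X]) : crt p F = 0 ↔ derivative^[p - 1] F = 0 := by
  rw [crt_eq_iff_pow, zero_pow (Fact.out : p.Prime).ne_zero]
  constructor
  · intro h
    exact neg_eq_zero.1 h.symm
  · intro h
    rw [h, neg_zero]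

omit [Fact p.Prime] [IsAlgClosed k] in
theorem deriv_pow_mul (G F : k[X]) (n : ℕ) :
    derivative^[n] (G ^ p * F) = G ^ p * derivative^[n] F := by
  induction n with
  | zero => rfl
  | succ n ih =>
    rw [Function.iterate_succ_apply', ih, derivative_mul, derivative_pow,
      CharP.cast_eq_zero k p, C_0, zero_mul, zero_mul, zero_mul, zero_add,
      Function.iterate_succ_apply']

/-- `crt` is linear over `p`-th powers. -/
theorem crt_pow_mul (G F : k[X]) : crt p (G ^ p * F) = G * crt p F := by
  rw [crt_eq_iff_pow, mul_pow, crt_pow, deriv_pow_mul, mul_neg]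

theorem crt_C_pow_mul (c : k) (F : k[X]) : crt p (C (c ^ p) * F) = C c * crt p F := by
  rw [C_pow, crt_pow_mul]

theorem crt_derivative (F : k[X]) : crt p (derivative F) = 0 := by
  have hp : p.Prime := Fact.out
  rw [crt_eq_zero_iff]
  intro i
  rw [coeff_derivative]
  have h : ((p * i + (p - 1) : ℕ) : k) + 1 = 0 := by
    have h1 : ((p * i + (p - 1) + 1 : ℕ) : k) = 0 := by
      rw [CharP.cast_eq_zero_iff k p]
      have : p * i + (p - 1) + 1 = p * (i + 1) := by
        have := hp.pos
        rw [mul_add, mul_one]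
        omega
      exact ⟨i + 1, this⟩
    push_cast at h1 ⊢
    exact h1
  rw [h, mul_zero]

/-- integration by parts -/
theorem crt_deriv_mul (F G : k[X]) :
    crt p (derivative F * G) = -crt p (F * derivative G) := by
  have h := crt_derivative (p := p) (F * G)
  rw [derivative_mul, crt_add] at h
  exact eq_neg_of_add_eq_zero_left h

omit [CharP k p] in
theorem crt_degree_lt (F : k[X]) (n : ℕ) (h : F.degree < ((p * n + (p - 1) : ℕ) : WithBot ℕ)) :
    (crt p F).degree < (n : WithBot ℕ) := by
  have hp : p.Prime := Fact.out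
  rw [degree_lt_iff_coeff_zero]
  intro i hi
  have h1 := coeff_crt (p := p) F i
  rw [coeff_eq_zero_of_degree_lt (h.trans_le ?_)] at h1
  · exact (pow_eq_zero_iff hp.ne_zero).1 h1
  · have : p * n + (p - 1) ≤ p * i + (p - 1) := by
      have := Nat.mul_le_mul_left p hi
      omega
    exact_mod_cast this

/-- The kernel of the twisted Cartier operator on the polynomials of degree `< n`. -/
def kSp (p : ℕ) [Fact p.Prime] {k : Type} [Field k] [IsAlgClosed k] [CharP k p]
    (W : k[X]) (n : ℕ) : Submodule k k[X] where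
  carrier := {g | g.degree < (n : WithBot ℕ) ∧ crt p (g * W) = 0}
  add_mem' := fun {f g} hf hg => ⟨(degree_add_le f g).trans_lt (max_lt hf.1 hg.1), by
    rw [add_mul, crt_add, hf.2, hg.2, add_zero]⟩
  zero_mem' := ⟨by rw [degree_zero]; exact WithBot.bot_lt_coe n, by rw [zero_mul, crt_zero]⟩
  smul_mem' := fun c {g} hg => ⟨(degree_smul_le c g).trans_lt hg.1, by
    obtain ⟨r, rfl⟩ := IsAlgClosed.exists_pow_nat_eq c (Fact.out : p.Prime).pos
    rw [smul_mul_assoc, smul_eq_C_mul, crt_C_pow_mul, hg.2, mul_zero]⟩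

theorem mem_kSp {W : k[X]} {n : ℕ} {g : k[X]} :
    g ∈ kSp p W n ↔ g.degree < (n : WithBot ℕ) ∧ crt p (g * W) = 0 := Iff.rfl

theorem kSp_le (W : k[X]) (n : ℕ) : kSp p W n ≤ degreeLT k n := fun _ hg =>
  mem_degreeLT.2 hg.1

theorem kSp_finite (W : k[X]) (n : ℕ) : Module.Finite k (kSp p W n) := by
  have : Module.Finite k (degreeLT k n) := Module.Finite.equiv (degreeLTEquiv k n).symm
  exact Submodule.finiteDimensional_of_le (kSp_le W n)

end Pool.Agent.PRB
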