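import Mathlib

/-!
# Families of twisted Cartier operators: definitions

The classes `d < 2 a` of the Kummer cover `u ^ (2 a) = F ^ a * A * B ^ (2 a - 1)`, with simple poles
allowed at the roots of `E`.
-/

set_option autoImplicit false

namespace Pool.Agent.PRB

open Polynomial

/-- The polynomial by which the Cartier operator of the class `d` is twisted. -/
noncomputable def kW (p a : ℕ) {k : Type} [Field k] (F A B E : k[X]) (d : ℕ) : k[X] :=
  (if d % 2 = 1 then F ^ ((p - 1) / 2) else 1) *
    (if d = 0 then 1 else A ^ (p - 1 - p * d / (2 * a)) * B ^ (p * d / (2 * a))) * E ^ (p - 1)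

/-- One more than the dimension of the space of differentials of the class `d` (`0` if there are none);
`α`, `L`, `δ` are the degrees of `F`, `A` (and `B`), `E`. -/
def kν (α L δ d : ℕ) : ℕ :=
  (if d % 2 = 1 then (α + 1) / 2 else 0) + (if d = 0 then 0 else L) + δ

/-- The families `(f_d)`, `d < 2 a`, fixed by the twisted Cartier operators. -/
def KFam (p a : ℕ) {k : Type} [Field k] (F A B E : k[X]) (s : ℕ) : Prop :=
  Nat.card {f : ℕ → k[X] // (∀ d, 2 * a ≤ d → f d = 0) ∧
    (∀ d < 2 * a, (f d).degree <
      ((kν F.natDegree A.natDegree E.natDegree d - 1 : ℕ) : WithBot ℕ)) ∧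
    ∀ d < 2 * a, ∀ i, (f d).coeff i ^ p =
      (f (p * d % (2 * a)) * kW p a F A B E d).coeff (p * i + (p - 1))} = p ^ s

end Pool.Agent.PRB
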