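import Pool.Agent.LibPRK.GoodD

/-!
# Families of twisted Cartier operators: degrees
-/

set_option autoImplicit false

namespace Pool.Agent.PRB

open Polynomial

variable {p : ℕ} [Fact p.Prime] {k : Type} [Field k] [IsAlgClosed k] [CharP k p]

theorem KFamN_cop (hp2 : p ≠ 2) {a : ℕ} (hpa : ¬ p ∣ a) : Nat.Coprime p (2 * a) := by
  have hpp : p.Prime := Fact.out
  rw [Nat.Prime.coprime_iff_not_dvd hpp]
  intro h
  rcases (Nat.Prime.dvd_mul hpp).1 h with h1 | h1
  · exact hp2 ((Nat.prime_dvd_prime_iff_eq hpp Nat.prime_two).1 h1)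
  · exact hpa h1

theorem KFamN_par (hp2 : p ≠ 2) {a : ℕ} (d : ℕ) : p * d % (2 * a) % 2 = d % 2 := by
  have hpp : p.Prime := Fact.out
  have h1 : p % 2 = 1 := (hpp.eq_two_or_odd.resolve_left hp2)
  rw [Nat.mod_mod_of_dvd _ (Dvd.intro a rfl), Nat.mul_mod, h1, one_mul, Nat.mod_mod]

theorem KFamN_zero (hp2 : p ≠ 2) {a : ℕ} (hpa : ¬ p ∣ a) {d : ℕ} (hd : d < 2 * a) :
    p * d % (2 * a) = 0 ↔ d = 0 := by
  constructor
  · intro h
    have h1 : 2 * a ∣ d := (KFamN_cop hp2 hpa).symm.dvd_of_dvd_mul_left (Nat.dvd_of_mod_eq_zero h)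
    exact Nat.eq_zero_of_dvd_of_lt h1 hd
  · rintro rfl
    simp

omit [Fact p.Prime] in
theorem KFamN_kν {α L δ d e : ℕ} (h1 : e % 2 = d % 2) (h2 : e = 0 ↔ d = 0) :
    kν α L δ e = kν α L δ d := by
  unfold kν
  simp only [h1, h2]

theorem kfam_N (hp2 : p ≠ 2) {a : ℕ} (ha : 0 < a) (hpa : ¬ p ∣ a) (F A E : k[X]) {d : ℕ}
    (hd : d < 2 * a) : kN F A E (p * d % (2 * a)) = kN F A E d := by
  unfold kN
  rw [KFamN_kν (KFamN_par hp2 d) (KFamN_zero hp2 hpa hd)]

omit [IsAlgClosed k] [CharP k p] in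
theorem KFamN_deg {a : ℕ} (ha : 0 < a) (F A B E : k[X])
    (hAB : B.natDegree = A.natDegree) {d : ℕ} (hd : d < 2 * a) :
    (kW p a F A B E d).natDegree ≤ (p - 1) * kν F.natDegree A.natDegree E.natDegree d := by
  have hpp : p.Prime := Fact.out
  have hq : p * d / (2 * a) ≤ p - 1 := by
    have h1 : p * d / (2 * a) < p := by
      rw [Nat.div_lt_iff_lt_mul (by omega)]
      exact Nat.mul_lt_mul_of_pos_left hd hpp.pos
    omega
  have e1 : (if d % 2 = 1 then F ^ ((p - 1) / 2) else (1 : k[X])).natDegree ≤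
      (p - 1) * (if d % 2 = 1 then (F.natDegree + 1) / 2 else 0) := by
    split_ifs with h
    · refine natDegree_pow_le.trans ?_
      calc (p - 1) / 2 * F.natDegree ≤ (p - 1) / 2 * (2 * ((F.natDegree + 1) / 2)) :=
            Nat.mul_le_mul_left _ (by omega)
        _ = ((p - 1) / 2 * 2) * ((F.natDegree + 1) / 2) := by ring
        _ ≤ (p - 1) * ((F.natDegree + 1) / 2) := Nat.mul_le_mul_right _ (Nat.div_mul_le_self _ _)
    · simp
  have e2 : (if d = 0 then (1 : k[X]) else A ^ (p - 1 - p * d / (2 * a)) *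
      B ^ (p * d / (2 * a))).natDegree ≤ (p - 1) * (if d = 0 then 0 else A.natDegree) := by
    split_ifs with h
    · simp
    · refine natDegree_mul_le.trans ?_
      refine (add_le_add natDegree_pow_le natDegree_pow_le).trans ?_
      rw [hAB, ← add_mul, Nat.sub_add_cancel hq]
  have e3 : (E ^ (p - 1)).natDegree ≤ (p - 1) * E.natDegree := natDegree_pow_le
  unfold kW kν
  refine natDegree_mul_le.trans ?_
  rw [mul_add, mul_add]
  exact add_le_add (natDegree_mul_le.trans (add_le_add e1 e2)) e3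

theorem kfam_map (hp2 : p ≠ 2) {a : ℕ} (ha : 0 < a) (hpa : ¬ p ∣ a) (F A B E : k[X])
    (hAB : B.natDegree = A.natDegree) {d : ℕ} (hd : d < 2 * a) (g : k[X])
    (hg : g.degree < (kN F A E d : WithBot ℕ)) :
    (crt p (g * kW p a F A B E d)).degree < (kN F A E d : WithBot ℕ) := by
  have hpp : p.Prime := Fact.out
  by_cases hg0 : g = 0
  · rw [hg0, zero_mul, crt_zero, degree_zero]
    exact WithBot.bot_lt_coe _
  · refine crt_degree_lt _ _ ?_
    have hW := KFamN_deg (p := p) ha F A B E hAB hd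
    have hgn : g.natDegree < kN F A E d := by
      rw [degree_eq_natDegree hg0] at hg
      exact_mod_cast hg
    refine degree_le_natDegree.trans_lt ?_
    have h1 : (g * kW p a F A B E d).natDegree ≤
        g.natDegree + (p - 1) * kν F.natDegree A.natDegree E.natDegree d :=
      natDegree_mul_le.trans (add_le_add le_rfl hW)
    have h2 : kN F A E d = kν F.natDegree A.natDegree E.natDegree d - 1 := rfl
    set ν := kν F.natDegree A.natDegree E.natDegree d with hν
    obtain ⟨q, hq⟩ : ∃ q, p = q + 1 := ⟨p - 1, by have := hpp.pos; omega⟩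
    obtain ⟨n, hn⟩ : ∃ n, ν = n + 1 := ⟨ν - 1, by omega⟩
    have h3 : (g * kW p a F A B E d).natDegree < p * kN F A E d + (p - 1) := by
      rw [h2, hn] at hgn ⊢
      rw [hn] at h1
      have h4 : (p - 1) * (n + 1) = (p - 1) * n + (p - 1) := by ring
      have h5 : p * (n + 1 - 1) = (p - 1) * n + n := by
        rw [show n + 1 - 1 = n by omega, hq, show q + 1 - 1 = q by omega]
        ring
      omega
    exact_mod_cast h3

end Pool.Agent.PRB
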