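import Pool.Agent.LibPRK.CardFix
import Pool.Agent.LibPRK.KFamN

/-!
# Counting the fixed families
-/

set_option autoImplicit false

namespace Pool.Agent.PRB

open Polynomial

variable {p : ℕ} [Fact p.Prime] {k : Type} [Field k] [IsAlgClosed k] [CharP k p]

theorem KFamOf_perm (hp2 : p ≠ 2) {a : ℕ} (ha : 0 < a) (hpa : ¬ p ∣ a) :
    ∃ σ : Fin (2 * a) ≃ Fin (2 * a), ∀ d, ((σ d : Fin (2 * a)) : ℕ) = p * d % (2 * a) := by
  have hinj : Function.Injective (fun d : Fin (2 * a) =>
      (⟨p * d % (2 * a), Nat.mod_lt _ (by omega)⟩ : Fin (2 * a))) := by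
    intro d e h
    have h1 : p * d % (2 * a) = p * e % (2 * a) := congrArg Fin.val h
    have h2 : (d : ℕ) ≡ e [MOD 2 * a] :=
      Nat.ModEq.cancel_left_of_coprime (KFamN_cop hp2 hpa).symm h1
    exact Fin.ext (Nat.ModEq.eq_of_lt_of_lt h2 d.2 e.2)
  exact ⟨Equiv.ofBijective _ (Finite.injective_iff_bijective.1 hinj), fun d => rfl⟩

omit [IsAlgClosed k] [CharP k p] [Fact p.Prime] in
theorem KFamOf_finrank (n : ℕ) : Module.finrank k (degreeLT k n) = n := by
  rw [LinearEquiv.finrank_eq (degreeLTEquiv k n), Module.finrank_fin_fun]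

theorem KFamOf_sum (a : ℕ) : ∑ d ∈ Finset.range (2 * a), (if d % 2 = 1 then 1 else 0) = a := by
  induction a with
  | zero => rfl
  | succ a ih =>
    rw [show 2 * (a + 1) = 2 * a + 1 + 1 by ring, Finset.sum_range_succ, Finset.sum_range_succ, ih,
      if_neg (by omega), if_pos (by omega)]

/-- The operator on the families. -/
theorem KFamOf_C {m : ℕ} (N : Fin m → ℕ) (W : Fin m → k[X]) (σ : Fin m ≃ Fin m)
    (hmap : ∀ (d : Fin m) (g : k[X]), g.degree < ((N (σ d) : ℕ) : WithBot ℕ) →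
      (crt p (g * W d)).degree < ((N d : ℕ) : WithBot ℕ)) :
    ∃ C : ((d : Fin m) → degreeLT k (N d)) →+ ((d : Fin m) → degreeLT k (N d)),
      ∀ (f : (d : Fin m) → degreeLT k (N d)) (d : Fin m),
        ((C f d : degreeLT k (N d)) : k[X]) = crt p ((f (σ d) : k[X]) * W d) := by
  refine ⟨AddMonoidHom.mk' (fun f d => ⟨crt p ((f (σ d) : k[X]) * W d),
    mem_degreeLT.2 (hmap d _ (mem_degreeLT.1 (f (σ d)).2))⟩) ?_, ?_⟩
  · intro f g
    funext d
    apply Subtype.ext
    have h1 : (((f + g) (σ d) : degreeLT k (N (σ d))) : k[X]) = (f (σ d) : k[X]) + (g (σ d) : k[X]) :=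
      rfl
    show crt p ((((f + g) (σ d) : degreeLT k (N (σ d))) : k[X]) * W d) =
      crt p ((f (σ d) : k[X]) * W d) + crt p ((g (σ d) : k[X]) * W d)
    rw [h1, add_mul, crt_add]
  · intro f d
    rfl

/-- The dimension of the kernel. -/
theorem KFamOf_ker {m : ℕ} (N : Fin m → ℕ) (W : Fin m → k[X]) (σ : Fin m ≃ Fin m)
    (hN : ∀ d, N (σ d) = N d)
    (K : Submodule k ((d : Fin m) → degreeLT k (N d)))
    (hK : ∀ f, f ∈ K ↔ ∀ d, crt p ((f (σ d) : k[X]) * W d) = 0) :
    Module.finrank k K = ∑ d, Module.finrank k (kSp p (W d) (N d)) := by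
  haveI : ∀ d : Fin m, Module.Finite k (kSp p (W d) (N d)) := fun d => kSp_finite _ _
  rw [← Module.finrank_pi_fintype]
  -- the map `f ↦ (f (σ d))_d`
  have hmem : ∀ (f : K) (d : Fin m), ((f : (d : Fin m) → degreeLT k (N d)) (σ d) : k[X]) ∈
      kSp p (W d) (N d) := fun f d =>
    mem_kSp.2 ⟨(mem_degreeLT.1 (f.1 (σ d)).2).trans_eq (by rw [hN]), (hK f.1).1 f.2 d⟩
  let L : K →ₗ[k] ((d : Fin m) → kSp p (W d) (N d)) :=
    LinearMap.pi fun d => LinearMap.codRestrict (kSp p (W d) (N d))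
      ((degreeLT k (N (σ d))).subtype.comp ((LinearMap.proj (σ d)).comp K.subtype))
      (fun f => hmem f d)
  have hL : ∀ (f : K) (d : Fin m), ((L f d : kSp p (W d) (N d)) : k[X]) =
      ((f : (d : Fin m) → degreeLT k (N d)) (σ d) : k[X]) := fun f d => rfl
  refine LinearEquiv.finrank_eq (LinearEquiv.ofBijective L ⟨?_, ?_⟩)
  · intro f g hfg
    apply Subtype.ext
    funext d
    apply Subtype.ext
    have h1 := congrArg (fun w => ((w (σ.symm d) : kSp p (W (σ.symm d)) (N (σ.symm d))) : k[X])) hfg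
    beta_reduce at h1
    rw [hL, hL, Equiv.apply_symm_apply] at h1
    exact h1
  · intro g
    have hdeg : ∀ d : Fin m, (g (σ.symm d) : k[X]).degree < ((N d : ℕ) : WithBot ℕ) := fun d =>
      (mem_kSp.1 (g (σ.symm d)).2).1.trans_eq (by rw [← hN, Equiv.apply_symm_apply])
    have hgK : (fun d => (⟨(g (σ.symm d) : k[X]), mem_degreeLT.2 (hdeg d)⟩ :
        degreeLT k (N d))) ∈ K := by
      rw [hK]
      intro d
      have h5 : ((g (σ.symm (σ d)) : kSp p (W (σ.symm (σ d))) (N (σ.symm (σ d)))) : k[X]) =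
          (g d : k[X]) := by
        rw [Equiv.symm_apply_apply]
      beta_reduce
      rw [h5]
      exact (mem_kSp.1 (g d).2).2
    refine ⟨⟨_, hgK⟩, ?_⟩
    funext d
    apply Subtype.ext
    rw [hL]
    show ((g (σ.symm (σ d)) : kSp p (W (σ.symm (σ d))) (N (σ.symm (σ d)))) : k[X]) = (g d : k[X])
    rw [Equiv.symm_apply_apply]

/-- The families as functions on `Fin m`. -/
theorem KFamOf_card {m : ℕ} (N : ℕ → ℕ) (W : ℕ → k[X]) (t : ℕ → ℕ) (σ : Fin m ≃ Fin m)
    (hσ : ∀ d : Fin m, ((σ d : Fin m) : ℕ) = t d)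
    (C : ((d : Fin m) → degreeLT k (N d)) →+ ((d : Fin m) → degreeLT k (N d)))
    (hC : ∀ (f : (d : Fin m) → degreeLT k (N d)) (d : Fin m),
        ((C f d : degreeLT k (N d)) : k[X]) = crt p ((f (σ d) : k[X]) * W d)) :
    Nat.card {f : ℕ → k[X] // (∀ d, m ≤ d → f d = 0) ∧
      (∀ d < m, (f d).degree < ((N d : ℕ) : WithBot ℕ)) ∧
      ∀ d < m, ∀ i, (f d).coeff i ^ p = (f (t d) * W d).coeff (p * i + (p - 1))} =
    Nat.card {v // C v = v} := by
  have hfun : ∀ v : (d : Fin m) → degreeLT k (N d), C v = v ↔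
      ∀ d : Fin m, crt p ((v (σ d) : k[X]) * W d) = (v d : k[X]) := by
    intro v
    constructor
    · intro h d
      rw [← hC, h]
    · intro h
      funext d
      apply Subtype.ext
      rw [hC, h]
  refine Nat.card_eq_of_bijective
    (fun f => (⟨fun d => ⟨f.1 d, mem_degreeLT.2 (f.2.2.1 d d.2)⟩, (hfun _).2 fun d => by
      rw [crt_eq_iff]
      have h1 := f.2.2.2 d d.2
      rw [← hσ] at h1
      exact h1⟩ : {v // C v = v})) ⟨?_, ?_⟩
  · intro f g hfg
    apply Subtype.ext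
    funext d
    by_cases hd : d < m
    · have h1 := congrArg (fun w : {v // C v = v} => ((w.1 ⟨d, hd⟩ : degreeLT k (N d)) : k[X])) hfg
      exact h1
    · rw [f.2.1 d (by omega), g.2.1 d (by omega)]
  · intro v
    have hv := (hfun v.1).1 v.2
    have hb : ∀ d : Fin m, (fun d : ℕ => if hd : d < m then (v.1 ⟨d, hd⟩ : k[X]) else 0) d =
        (v.1 d : k[X]) := fun d => dif_pos d.2
    refine ⟨⟨fun d => if hd : d < m then (v.1 ⟨d, hd⟩ : k[X]) else 0, ?_, ?_, ?_⟩, ?_⟩
    · intro d hd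
      exact dif_neg (by omega)
    · intro d hd
      have h1 := hb ⟨d, hd⟩
      rw [h1]
      exact mem_degreeLT.1 (v.1 ⟨d, hd⟩).2
    · intro d hd i
      have h1 := hb ⟨d, hd⟩
      have h2 : (fun d : ℕ => if hd : d < m then (v.1 ⟨d, hd⟩ : k[X]) else 0) (t d) =
          (v.1 (σ ⟨d, hd⟩) : k[X]) := by
        rw [← hσ ⟨d, hd⟩]
        exact hb (σ ⟨d, hd⟩)
      rw [h1, h2]
      have h3 := hv ⟨d, hd⟩
      rw [crt_eq_iff] at h3
      exact h3 i
    · apply Subtype.ext
      funext d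
      apply Subtype.ext
      exact hb d

theorem KGood.kfam (hp2 : p ≠ 2) {a : ℕ} (ha : 0 < a) (hpa : ¬ p ∣ a) {F A B E : k[X]}
    (hAB : B.natDegree = A.natDegree) (h : KGood p a F A B E) :
    KFam p a F A B E ((∑ d ∈ Finset.range (2 * a), kN F A E d) - a) := by
  classical
  obtain ⟨σ, hσ⟩ := KFamOf_perm hp2 ha hpa
  have hσN : ∀ d : Fin (2 * a), kN F A E (σ d) = kN F A E d := by
    intro d
    rw [hσ, kfam_N hp2 ha hpa F A E d.2]
  have hfinD : ∀ n : ℕ, Module.Finite k (degreeLT k n) := fun n =>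
    Module.Finite.equiv (degreeLTEquiv k n).symm
  obtain ⟨C, hCv⟩ := KFamOf_C (p := p) (fun d : Fin (2 * a) => kN F A E d)
    (fun d => kW p a F A B E d) σ (fun d g hg =>
      kfam_map hp2 ha hpa F A B E hAB d.2 g (hg.trans_eq (by rw [hσN])))
  have hC0 : ∀ f : (d : Fin (2 * a)) → degreeLT k (kN F A E d), C f = 0 ↔
      ∀ d : Fin (2 * a), crt p ((f (σ d) : k[X]) * kW p a F A B E d) = 0 := by
    intro f
    constructor
    · intro h1 d
      rw [← hCv, h1]
      rfl
    · intro h1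
      funext d
      apply Subtype.ext
      rw [hCv, h1]
      rfl
  have hC : ∀ (c : k) (f : (d : Fin (2 * a)) → degreeLT k (kN F A E d)),
      C (c ^ p • f) = c • C f := by
    intro c f
    funext d
    apply Subtype.ext
    rw [hCv, Pi.smul_apply, Pi.smul_apply, Submodule.coe_smul, Submodule.coe_smul, hCv,
      smul_eq_C_mul, mul_assoc, crt_C_pow_mul, smul_eq_C_mul]
  have hst : ∀ f, C (C f) = 0 → C f = 0 := by
    intro f hf
    rw [hC0] at hf ⊢
    have h1 : ∀ d : Fin (2 * a), crt p ((f (σ (σ d)) : k[X]) * kW p a F A B E (σ d)) = 0 := by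
      intro d
      have h2 := hf d
      rw [hCv] at h2
      have h3 := h.st d d.2 (f (σ (σ d)) : k[X])
        ((mem_degreeLT.1 (f (σ (σ d))).2).trans_eq (by rw [hσN, hσN]))
      rw [← hσ] at h3
      exact h3 h2
    intro d
    have h2 := h1 (σ.symm d)
    rwa [Equiv.apply_symm_apply] at h2
  -- the kernel
  let K : Submodule k ((d : Fin (2 * a)) → degreeLT k (kN F A E d)) :=
    { carrier := {f | C f = 0}
      zero_mem' := map_zero C
      add_mem' := fun {f g} hf hg => by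
        show C (f + g) = 0
        rw [map_add, show C f = 0 from hf, show C g = 0 from hg, add_zero]
      smul_mem' := fun c f hf => by
        obtain ⟨r, rfl⟩ := IsAlgClosed.exists_pow_nat_eq c (Fact.out : p.Prime).pos
        show C (r ^ p • f) = 0
        rw [hC, show C f = 0 from hf, smul_zero] }
  have hK : ∀ f, f ∈ K ↔ C f = 0 := fun f => Iff.rfl
  have key := card_fix_of_stable C hC hst K hK
  have hV : Module.finrank k ((d : Fin (2 * a)) → degreeLT k (kN F A E d)) =
      ∑ d ∈ Finset.range (2 * a), kN F A E d := by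
    rw [Module.finrank_pi_fintype, Finset.sum_range]
    exact Finset.sum_congr rfl fun d _ => KFamOf_finrank _
  have hfr : ∀ d : Fin (2 * a), Module.finrank k (kSp p (kW p a F A B E d) (kN F A E d)) =
      if (d : ℕ) % 2 = 1 then 1 else 0 := by
    intro d
    split_ifs with hd
    · exact h.odd d d.2 hd
    · rw [h.even d d.2 (by omega)]
      exact finrank_bot k k[X]
  have hKf : Module.finrank k K = a := by
    rw [KFamOf_ker (p := p) (fun d : Fin (2 * a) => kN F A E d) (fun d => kW p a F A B E d) σ hσN K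
      (fun f => (hK f).trans (hC0 f)), Finset.sum_congr rfl fun d _ => hfr d,
      ← Finset.sum_range (fun d => if d % 2 = 1 then 1 else 0), KFamOf_sum]
  rw [hV, hKf] at key
  unfold KFam
  rw [← key]
  exact KFamOf_card (fun d => kN F A E d) (fun d => kW p a F A B E d)
    (fun d => p * d % (2 * a)) σ hσ C hCv

end Pool.Agent.PRB
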