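import Pool.Agent.LibPRK.KmReg

/-!
# Kummer covers: fixed points of the Cartier operator

PLAN. Template: `QdS.card` (Pool/Agent/LibPRB/QdReg.lean), TwCnt.lean.  The bijection `a ↦ T.co a` (`IsKm.co_of_le`, `IsKm.exists_co`, `IsKm.ext`),
`KmS.mem_polSp`, and `co_car_km`: `car p D' a = a` iff `T.co (car p D' a) d = T.co a d` for all `d < N`.
-/

set_option autoImplicit false

namespace Pool.Agent.PRB

variable {p N : ℕ} [Fact p.Prime] {k K L : Type} [Field k] [IsAlgClosed k] [CharP k p] [Field K]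
  [Field L] [Algebra k K] [Algebra k L] [Algebra K L] [IsScalarTower k K L] {s : K}
  {D : Derivation k K K} {h : K} {u : L} {D' : Derivation k L L}

theorem KmS.card_polSp (A : KmS p N s D h u D') (E : Plc k K → ℤ) (E' : Plc k L → ℤ)
    (hE : ∀ P, E P = 0 ∨ (E P = 1 ∧ P.ord h = 0))
    (hE' : ∀ (Q : Plc k L) (P : Plc k K) (e : ℕ), OverE e Q P → E' Q = E P) :
    Nat.card {a : L // a ∈ polSp D' E' ∧ car p D' a = a} =
      Nat.card {c : ℕ → K // (∀ d, N ≤ d → c d = 0) ∧
        (∀ d < N, c d ∈ polSp D (fun P => kmc N h d P + E P)) ∧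
        ∀ d < N, car p D (c (p * d % N) / h ^ (p * d / N)) = c d} := by
  have : CharP K p := charP_of_injective_algebraMap (algebraMap k K).injective p
  have hcar : ∀ (a : L) {i : ℕ}, i < N →
      A.km.co (car p D' a) i = car p D (A.km.co a (p * i % N) / h ^ (p * i / N)) :=
    fun a i hi => co_car_km A.hN A.km A.h0 A.gf.pb D' A.D_alg a hi
  refine Nat.card_eq_of_bijective (fun a : {a : L // a ∈ polSp D' E' ∧ car p D' a = a} =>
    (⟨A.km.co a.1, fun d hd => A.km.co_of_le a.1 hd,
      (A.mem_polSp E E' hE hE' a.1).1 a.2.1, fun d hd => by rw [← hcar a.1 hd, a.2.2]⟩ :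
      {c : ℕ → K // (∀ d, N ≤ d → c d = 0) ∧
        (∀ d < N, c d ∈ polSp D (fun P => kmc N h d P + E P)) ∧
        ∀ d < N, car p D (c (p * d % N) / h ^ (p * d / N)) = c d})) ⟨?_, ?_⟩
  · intro a b hab
    apply Subtype.ext
    apply A.km.ext
    intro i _
    exact congrFun (congrArg Subtype.val hab) i
  · rintro ⟨c, h0, h1, h2⟩
    obtain ⟨a, ha⟩ := A.km.exists_co c
    have hco : A.km.co a = c := by
      funext d
      rcases lt_or_ge d N with hd | hd
      · exact ha d hd
      · rw [A.km.co_of_le a hd, h0 d hd]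
    refine ⟨⟨a, (A.mem_polSp E E' hE hE' a).2 fun d hd => ?_, ?_⟩, ?_⟩
    · rw [hco]
      exact h1 d hd
    · apply A.km.ext
      intro d hd
      rw [hcar a hd, hco]
      exact h2 d hd
    · exact Subtype.ext hco

end Pool.Agent.PRB
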