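import Pool.Agent.LibPRK.KmB

/-!
# Kummer covers: derivation and Frobenius

PLAN. Copy `exists_deriv_qd`, `QdEx_ind`, `exists_phi_qd` (Pool/Agent/LibPRB/QdEx.lean), with `IsKm.lift`,
`IsKm.ringHom_ext` (KmB.lean).
Derivation: into the dual numbers `TrivSqZeroExt L L`, `x = inl u + inr ω` with `N * u ^ (N-1) * ω = algebraMap (D h)`, so
`ω = algebraMap (D h) / (N * u ^ (N-1))`; `x ^ N = inl (u ^ N) + inr (N • u ^ (N-1) • ω)` (`TrivSqZeroExt` power formula or
induction).
-/

set_option autoImplicit false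

namespace Pool.Agent.PRB

variable {N : ℕ} {k K L : Type} [Field k] [Field K] [Field L]
  [Algebra k K] [Algebra k L] [Algebra K L] [IsScalarTower k K L] {h : K} {u : L}

theorem exists_deriv_km (T : IsKm N h u) (hh : h ≠ 0) (hN : (N : K) ≠ 0)
    (D : Derivation k K K) :
    ∃ D' : Derivation k L L, ∀ a : K, D' (algebraMap K L a) = algebraMap K L (D a) := by
  have hu := T.u_ne hh
  have hN' : (N : L) ≠ 0 := by
    intro h0
    apply hN
    apply (algebraMap K L).injective
    rw [map_zero, map_natCast, h0]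
  let θ : K →+* TrivSqZeroExt L L :=
    { toFun := fun a => (TrivSqZeroExt.inl (algebraMap K L a) +
        TrivSqZeroExt.inr (algebraMap K L (D a)) : TrivSqZeroExt L L)
      map_one' := by
        ext <;> simp
      map_mul' := fun a b => by
        ext
        · simp
        · simp only [map_mul, Derivation.leibniz, smul_eq_mul, map_add, TrivSqZeroExt.snd_add,
            TrivSqZeroExt.snd_inl, TrivSqZeroExt.snd_inr, TrivSqZeroExt.snd_mul,
            TrivSqZeroExt.fst_add, TrivSqZeroExt.fst_inl, TrivSqZeroExt.fst_inr, zero_add,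
            add_zero, MulOpposite.smul_eq_mul_unop, MulOpposite.unop_op]
          ring
      map_zero' := by
        ext <;> simp
      map_add' := fun a b => by
        ext
        · simp
        · simp only [map_add, TrivSqZeroExt.snd_add, TrivSqZeroExt.snd_inl,
            TrivSqZeroExt.snd_inr, zero_add] }
  have hθf : ∀ a, (θ a).fst = algebraMap K L a := fun a => by
    change (TrivSqZeroExt.inl (algebraMap K L a) +
        TrivSqZeroExt.inr (algebraMap K L (D a)) : TrivSqZeroExt L L).fst = _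
    simp
  have hθs : ∀ a, (θ a).snd = algebraMap K L (D a) := fun a => by
    change (TrivSqZeroExt.inl (algebraMap K L a) +
        TrivSqZeroExt.inr (algebraMap K L (D a)) : TrivSqZeroExt L L).snd = _
    simp only [TrivSqZeroExt.snd_add, TrivSqZeroExt.snd_inl, TrivSqZeroExt.snd_inr, zero_add]
  obtain ⟨ω, hω⟩ : ∃ ω : L, N * u ^ (N - 1) * ω = algebraMap K L (D h) := by
    refine ⟨algebraMap K L (D h) / (N * u ^ (N - 1)), ?_⟩
    rw [mul_div_cancel₀ _ (mul_ne_zero hN' (pow_ne_zero _ hu))]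
  obtain ⟨x, hxf, hxs⟩ : ∃ x : TrivSqZeroExt L L, x.fst = u ∧ x.snd = ω := by
    refine ⟨TrivSqZeroExt.inl u + TrivSqZeroExt.inr ω, ?_, ?_⟩
    · simp only [TrivSqZeroExt.fst_add, TrivSqZeroExt.fst_inl, TrivSqZeroExt.fst_inr, add_zero]
    · simp only [TrivSqZeroExt.snd_add, TrivSqZeroExt.snd_inl, TrivSqZeroExt.snd_inr, zero_add]
  have hx : x ^ N = θ h := by
    ext
    · rw [TrivSqZeroExt.fst_pow, hxf, hθf, T.eq]
    · rw [TrivSqZeroExt.snd_pow, hxs, hxf, hθs, ← hω, smul_eq_mul, nsmul_eq_mul,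
        Nat.pred_eq_sub_one, mul_assoc]
  obtain ⟨Θ, hΘ, hΘw⟩ := T.lift θ x hx
  have hfst : ∀ a : L, (Θ a).fst = a := by
    have h1 : (TrivSqZeroExt.fstHom L L L).toRingHom.comp Θ = RingHom.id L := by
      apply T.ringHom_ext
      · intro a
        change (Θ (algebraMap K L a)).fst = algebraMap K L a
        rw [hΘ, hθf]
      · change (Θ u).fst = u
        rw [hΘw, hxf]
    intro a
    exact congrArg (fun f : L →+* L => f a) h1
  have hmul : ∀ a b : L, (Θ (a * b)).snd = a * (Θ b).snd + b * (Θ a).snd := by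
    intro a b
    rw [map_mul, TrivSqZeroExt.snd_mul, hfst, hfst, smul_eq_mul,
      MulOpposite.smul_eq_mul_unop, MulOpposite.unop_op, mul_comm (Θ a).snd b]
  let E : L →ₗ[k] L :=
    { toFun := fun a => (Θ a).snd
      map_add' := fun a b => by rw [map_add, TrivSqZeroExt.snd_add]
      map_smul' := fun c a => by
        have h1 : c • a = algebraMap K L (algebraMap k K c) * a := by
          rw [← IsScalarTower.algebraMap_apply, Algebra.smul_def]
        rw [h1, hmul, hΘ, hθs, D.map_algebraMap, map_zero, mul_zero, add_zero,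
          ← IsScalarTower.algebraMap_apply, ← Algebra.smul_def]
        rfl }
  refine ⟨Derivation.mk' E fun a b => ?_, fun a => ?_⟩
  · change (Θ (a * b)).snd = a • (Θ b).snd + b • (Θ a).snd
    rw [hmul, smul_eq_mul, smul_eq_mul]
  · change (Θ (algebraMap K L a)).snd = _
    rw [hΘ, hθs]

theorem exists_phi_km {p : ℕ} (T : IsKm N h u) (φ : K →+* K)
    (hφc : ∀ c : k, φ (algebraMap k K c) = algebraMap k K (c ^ p))
    (hφh : φ h = h) (hφn : ∀ a, ∃ n > 0, φ^[n] a = a) :
    ∃ Φ : L →+* L, (∀ a : K, Φ (algebraMap K L a) = algebraMap K L (φ a)) ∧ Φ u = u ∧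
      (∀ c : k, Φ (algebraMap k L c) = algebraMap k L (c ^ p)) ∧
      ∀ a, ∃ n > 0, Φ^[n] a = a := by
  obtain ⟨Φ, hΦ, hw⟩ := T.lift ((algebraMap K L).comp φ) u (by
    rw [RingHom.comp_apply, hφh, T.eq])
  have hΦ' : ∀ a : K, Φ (algebraMap K L a) = algebraMap K L (φ a) := hΦ
  refine ⟨Φ, hΦ', hw, ?_, ?_⟩
  · intro c
    rw [IsScalarTower.algebraMap_apply k K L, hΦ', hφc, ← IsScalarTower.algebraMap_apply k K L]
  have halg : ∀ (n : ℕ) (c : K), Φ^[n] (algebraMap K L c) = algebraMap K L (φ^[n] c) := by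
    intro n c
    induction n with
    | zero => rfl
    | succ n ih => rw [Function.iterate_succ_apply', ih, hΦ', Function.iterate_succ_apply']
  have hc : ∀ c : K, ∃ n > 0, Φ^[n] (algebraMap K L c) = algebraMap K L c := by
    intro c
    obtain ⟨n, hn, h⟩ := hφn c
    exact ⟨n, hn, by rw [halg, h]⟩
  have hadd : ∀ a b : L, (∃ n > 0, Φ^[n] a = a) → (∃ n > 0, Φ^[n] b = b) →
      ∃ n > 0, Φ^[n] (a + b) = a + b := by
    rintro a b ⟨n, hn, ha⟩ ⟨m, hm, hb⟩
    have h1 : Φ^[n * m] a = a := Function.IsPeriodicPt.mul_const ha m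
    have h2 : Φ^[n * m] b = b := Function.IsPeriodicPt.const_mul hb n
    exact ⟨n * m, Nat.mul_pos hn hm, by rw [iterate_map_add, h1, h2]⟩
  have hmul : ∀ a b : L, (∃ n > 0, Φ^[n] a = a) → (∃ n > 0, Φ^[n] b = b) →
      ∃ n > 0, Φ^[n] (a * b) = a * b := by
    rintro a b ⟨n, hn, ha⟩ ⟨m, hm, hb⟩
    have h1 : Φ^[n * m] a = a := Function.IsPeriodicPt.mul_const ha m
    have h2 : Φ^[n * m] b = b := Function.IsPeriodicPt.const_mul hb n
    exact ⟨n * m, Nat.mul_pos hn hm, by rw [iterate_map_mul, h1, h2]⟩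
  have hpow : ∀ i : ℕ, ∃ n > 0, Φ^[n] (u ^ i) = u ^ i := by
    intro i
    refine ⟨1, one_pos, ?_⟩
    rw [Function.iterate_one, map_pow, hw]
  intro a
  obtain ⟨c, rfl⟩ := T.repr a
  have hsum : ∀ s : Finset ℕ, ∃ n > 0,
      Φ^[n] (∑ i ∈ s, algebraMap K L (c i) * u ^ i) = ∑ i ∈ s, algebraMap K L (c i) * u ^ i := by
    intro s
    induction s using Finset.induction_on with
    | empty => exact ⟨1, one_pos, by rw [Finset.sum_empty, Function.iterate_one, map_zero]⟩
    | insert i s hi ih =>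
      rw [Finset.sum_insert hi]
      exact hadd _ _ (hmul _ _ (hc _) (hpow i)) ih
  exact hsum _

end Pool.Agent.PRB
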