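import Pool.Agent.LibPRK.KmB
import Pool.Agent.LibPRB.TwEx

/-!
# Kummer covers: existence

PLAN. `f = X ^ N - C h` is irreducible: let `f = A * B`, both monic (`Polynomial.Monic.irreducible_iff...` or
`Polynomial.Monic.irreducible_of_...`; a factorisation can be normalised), `n = A.natDegree`, `0 < n < N`.  Take the
algebraic closure `M` of `K`; the roots `r` of `A` in `M` are roots of `f`, so `r ^ N = h`, so the constant
coefficient `c` of `A`, `c = ± ∏ r` (`Polynomial.prod_roots_eq_coeff_zero_of_monic_of_splits` or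
`coeff_zero_eq_prod_roots_of_monic_of_splits`), satisfies `(c ^ N) ^ 2 = (h ^ n) ^ 2` in `M`, so in `K` (injectivity);
so `2 N P.ord c = 2 n P.ord h = 2 n`, `N ∣ n`, contradiction.
(`N = 1`: `f = X - C h` is irreducible; the argument above works too.)
Then `L = AdjoinRoot f`: copy `exists_Qd` (Pool/Agent/LibPRB/QdEx.lean) or `exists_Tw` (TwEx.lean).
-/

set_option autoImplicit false

namespace Pool.Agent.PRB

open Polynomial in
private theorem KmEx_irr {k K : Type} [Field k] [Field K] [Algebra k K] (N : ℕ) (hN : 0 < N)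
    (P : Plc k K) (h : K) (hh : h ≠ 0) (h1 : P.ord h = 1) : Irreducible (X ^ N - C h : K[X]) := by
  have hdeg : (X ^ N - C h : K[X]).natDegree = N := natDegree_X_pow_sub_C
  have hne : (X ^ N - C h : K[X]) ≠ 0 := X_pow_sub_C_ne_zero hN h
  obtain ⟨A, hA, hdvd⟩ := Polynomial.exists_irreducible_of_natDegree_pos
    (f := (X ^ N - C h : K[X])) (by rw [hdeg]; exact hN)
  haveI : Fact (Irreducible A) := ⟨hA⟩
  have hroot : (AdjoinRoot.root A) ^ N = algebraMap K (AdjoinRoot A) h := by
    have h2 : AdjoinRoot.mk A (X ^ N - C h) = 0 := AdjoinRoot.mk_eq_zero.2 hdvd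
    rw [map_sub, map_pow, AdjoinRoot.mk_X, AdjoinRoot.mk_C] at h2
    rw [AdjoinRoot.algebraMap_eq]
    exact sub_eq_zero.1 h2
  have hfr : Module.finrank K (AdjoinRoot A) = A.natDegree := by
    rw [(AdjoinRoot.powerBasis hA.ne_zero).finrank, AdjoinRoot.powerBasis_dim]
  have hnorm : (Algebra.norm K (AdjoinRoot.root A)) ^ N = h ^ A.natDegree := by
    rw [← map_pow, hroot, Algebra.norm_algebraMap, hfr]
  have hord := congrArg P.ord hnorm
  rw [P.ord_pow, P.ord_pow, h1, mul_one] at hord
  have hle : A.natDegree ≤ N := by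
    rw [← hdeg]
    exact natDegree_le_of_dvd hdvd hne
  have hpos : 0 < A.natDegree := hA.natDegree_pos
  have hNd : N ∣ A.natDegree := by
    have : (N : ℤ) ∣ (A.natDegree : ℤ) := ⟨_, hord.symm⟩
    exact_mod_cast this
  have hEq : A.natDegree = N := le_antisymm hle (Nat.le_of_dvd hpos hNd)
  have hassoc : Associated A (X ^ N - C h) := by
    obtain ⟨B, hB⟩ := hdvd
    have hB0 : B ≠ 0 := by
      rintro rfl
      rw [mul_zero] at hB
      exact hne hB
    have h3 : B.natDegree = 0 := by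
      have h4 := congrArg natDegree hB
      rw [hdeg, natDegree_mul hA.ne_zero hB0, hEq] at h4
      omega
    have hBu : IsUnit B := by
      rw [Polynomial.isUnit_iff_degree_eq_zero, degree_eq_natDegree hB0, h3]
      rfl
    obtain ⟨w, hw⟩ := hBu
    exact ⟨w, by rw [hw, hB]⟩
  exact hassoc.irreducible hA

open Polynomial in
theorem exists_Km {k K : Type} [Field k] [Field K] [Algebra k K] (N : ℕ) (hN : 0 < N)
    (P : Plc k K) (h : K) (hh : h ≠ 0) (h1 : P.ord h = 1) :
    ∃ (L : Type) (_ : Field L) (_ : Algebra k L) (_ : Algebra K L) (_ : IsScalarTower k K L)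
      (u : L), IsKm N h u := by
  haveI : Fact (Irreducible (X ^ N - C h : K[X])) := ⟨KmEx_irr N hN P h hh h1⟩
  have hmon : (X ^ N - C h : K[X]).Monic := monic_X_pow_sub_C h hN.ne'
  have hnd : (X ^ N - C h : K[X]).natDegree = N := natDegree_X_pow_sub_C
  have hf0 := hmon.ne_zero
  refine ⟨AdjoinRoot (X ^ N - C h : K[X]), inferInstance,
    ((algebraMap K (AdjoinRoot (X ^ N - C h : K[X]))).comp (algebraMap k K)).toAlgebra, inferInstance,
    @IsScalarTower.of_algebraMap_eq _ _ _ _ _ _ _ _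
      ((algebraMap K (AdjoinRoot (X ^ N - C h : K[X]))).comp (algebraMap k K)).toAlgebra (fun _ => rfl),
    AdjoinRoot.root (X ^ N - C h : K[X]), ?_, ?_, ?_⟩
  · have h2 : AdjoinRoot.mk (X ^ N - C h : K[X]) (X ^ N - C h) = 0 := AdjoinRoot.mk_self
    rw [map_sub, map_pow, AdjoinRoot.mk_X, AdjoinRoot.mk_C] at h2
    rw [AdjoinRoot.algebraMap_eq]
    exact sub_eq_zero.1 h2
  · intro a
    obtain ⟨r, rfl⟩ := AdjoinRoot.mk_surjective a
    refine ⟨(r %ₘ (X ^ N - C h)).coeff, ?_⟩
    have h1 : AdjoinRoot.mk (X ^ N - C h) r =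
        AdjoinRoot.mk (X ^ N - C h) (r %ₘ (X ^ N - C h)) := by
      rw [AdjoinRoot.mk_eq_mk]
      have := modByMonic_add_div r (X ^ N - C h)
      exact ⟨r /ₘ (X ^ N - C h), by linear_combination -this⟩
    have hlt : (r %ₘ (X ^ N - C h)).natDegree < N := by
      have := natDegree_modByMonic_lt r hmon (by
        intro h'
        rw [h', natDegree_one] at hnd
        omega)
      rwa [hnd] at this
    rw [h1]
    conv_lhs => rw [as_sum_range' (r %ₘ (X ^ N - C h)) N hlt]
    rw [map_sum]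
    refine Finset.sum_congr rfl fun i _ => ?_
    rw [← C_mul_X_pow_eq_monomial, map_mul, map_pow, AdjoinRoot.mk_X, AdjoinRoot.mk_C,
      AdjoinRoot.algebraMap_eq]
  · intro c hc i hi
    have h1 : AdjoinRoot.mk (X ^ N - C h) (∑ i ∈ Finset.range N, C (c i) * X ^ i) = 0 := by
      rw [map_sum, ← hc]
      refine Finset.sum_congr rfl fun i _ => ?_
      rw [map_mul, map_pow, AdjoinRoot.mk_X, AdjoinRoot.mk_C, AdjoinRoot.algebraMap_eq]
    rw [AdjoinRoot.mk_eq_zero] at h1
    have h2 : (∑ i ∈ Finset.range N, C (c i) * X ^ i : K[X]) = 0 := by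
      refine eq_zero_of_dvd_of_degree_lt h1 ?_
      rw [degree_eq_natDegree hf0, hnd]
      refine (degree_sum_le _ _).trans_lt ?_
      rw [Finset.sup_lt_iff (by exact_mod_cast WithBot.bot_lt_coe _)]
      intro j hj
      exact (degree_C_mul_X_pow_le _ _).trans_lt (by exact_mod_cast Finset.mem_range.1 hj)
    have h3 := congrArg (fun r => coeff r i) h2
    simp only [finsetSum_coeff, coeff_C_mul, coeff_X_pow, coeff_zero] at h3
    simpa [hi] using h3

end Pool.Agent.PRB
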