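import Pool.Agent.LibPRB.RatP

/-!
# Root sets of polynomials over the prime field

PLAN. Copy the beginning of `hasCurve_hyp` (Pool/Agent/LibPRB/HypH.lean) for every factor: `RF = (F.map _).roots.toFinset` etc.
(`Separable.of_mul_left`, `Separable.of_mul_right` for the factors; `nodup_roots`; `Splits.eq_prod_roots_of_monic`).
Disjointness: a common root of two factors would be a common root of two coprime polynomials
(`Separable.isCoprime` for a separable product, mapped to the closure).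
-/

set_option autoImplicit false

namespace Pool.Agent.PRB

open Polynomial

private theorem kmRoots_one (p : ℕ) [Fact p.Prime] (F : (ZMod p)[X]) (hF : F.Monic) (hs : F.Separable) :
    ∃ R : Finset (AlgebraicClosure (ZMod p)),
      F.map (algebraMap (ZMod p) (AlgebraicClosure (ZMod p))) = ∏ c ∈ R, (X - C c) ∧
        R.card = F.natDegree ∧ (∀ c ∈ R, c ^ p ∈ R) ∧ ∀ c ∈ R, aeval c F = 0 := by
  classical
  set F' : (AlgebraicClosure (ZMod p))[X] :=
    F.map (algebraMap (ZMod p) (AlgebraicClosure (ZMod p))) with hF'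
  have hF'm : F'.Monic := hF.map _
  have hF's : F'.Separable := hs.map
  have hF'0 : F' ≠ 0 := hF'm.ne_zero
  have hnd : F'.natDegree = F.natDegree := natDegree_map _
  have hsplit : F'.Splits := IsAlgClosed.splits F'
  have hnodup : F'.roots.Nodup := nodup_roots hF's
  refine ⟨F'.roots.toFinset, ?_, ?_, ?_, ?_⟩
  · have h1 := hsplit.eq_prod_roots_of_monic hF'm
    rw [Finset.prod_eq_multiset_prod, Multiset.toFinset_val, hnodup.dedup]
    exact h1
  · rw [Multiset.toFinset_card_of_nodup hnodup, ← hsplit.natDegree_eq_card_roots, hnd]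
  · intro c hc
    rw [Multiset.mem_toFinset, mem_roots hF'0, IsRoot.def, hF', eval_map_algebraMap] at hc ⊢
    have h1 : aeval (c ^ p) F = (aeval c F) ^ p := by
      rw [← expand_aeval, ZMod.expand_card, map_pow]
    rw [h1, hc, zero_pow (Fact.out : p.Prime).ne_zero]
  · intro c hc
    rw [Multiset.mem_toFinset, mem_roots hF'0, IsRoot.def, hF', eval_map_algebraMap] at hc
    exact hc

private theorem kmRoots_disj (p : ℕ) [Fact p.Prime] {F A : (ZMod p)[X]} (h : IsCoprime F A)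
    {c : AlgebraicClosure (ZMod p)} (h1 : aeval c F = 0) (h2 : aeval c A = 0) : False := by
  obtain ⟨a, b, hab⟩ := h
  have h3 := congrArg (aeval c) hab
  rw [map_add, map_mul, map_mul, h1, h2, mul_zero, mul_zero, add_zero, map_one] at h3
  exact zero_ne_one h3

theorem km_roots (p : ℕ) [Fact p.Prime] (F A B E : (ZMod p)[X]) (hF : F.Monic) (hA : A.Monic)
    (hB : B.Monic) (hE : E.Monic) (hsep : (F * A * B * E).Separable) :
    ∃ RF RA RB RE : Finset (AlgebraicClosure (ZMod p)),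
      (F.map (algebraMap (ZMod p) (AlgebraicClosure (ZMod p))) = ∏ c ∈ RF, (X - C c) ∧
        RF.card = F.natDegree ∧ ∀ c ∈ RF, c ^ p ∈ RF) ∧
      (A.map (algebraMap (ZMod p) (AlgebraicClosure (ZMod p))) = ∏ c ∈ RA, (X - C c) ∧
        RA.card = A.natDegree ∧ ∀ c ∈ RA, c ^ p ∈ RA) ∧
      (B.map (algebraMap (ZMod p) (AlgebraicClosure (ZMod p))) = ∏ c ∈ RB, (X - C c) ∧
        RB.card = B.natDegree ∧ ∀ c ∈ RB, c ^ p ∈ RB) ∧
      (E.map (algebraMap (ZMod p) (AlgebraicClosure (ZMod p))) = ∏ c ∈ RE, (X - C c) ∧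
        RE.card = E.natDegree ∧ ∀ c ∈ RE, c ^ p ∈ RE) ∧
      (∀ c ∈ RF, c ∉ RA ∧ c ∉ RB ∧ c ∉ RE) ∧ (∀ c ∈ RA, c ∉ RB ∧ c ∉ RE) ∧
      ∀ c ∈ RB, c ∉ RE := by
  have h1 := hsep.isCoprime
  have h2 := hsep.of_mul_left.isCoprime
  have h3 := hsep.of_mul_left.of_mul_left.isCoprime
  have sFAB := hsep.of_mul_left
  have sFA := sFAB.of_mul_left
  have cFE : IsCoprime F E := h1.of_mul_left_left.of_mul_left_left
  have cAE : IsCoprime A E := h1.of_mul_left_left.of_mul_left_right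
  have cBE : IsCoprime B E := h1.of_mul_left_right
  have cFB : IsCoprime F B := h2.of_mul_left_left
  have cAB : IsCoprime A B := h2.of_mul_left_right
  obtain ⟨RF, hRF1, hRF2, hRF3, hRF4⟩ := kmRoots_one p F hF sFA.of_mul_left
  obtain ⟨RA, hRA1, hRA2, hRA3, hRA4⟩ := kmRoots_one p A hA sFA.of_mul_right
  obtain ⟨RB, hRB1, hRB2, hRB3, hRB4⟩ := kmRoots_one p B hB sFAB.of_mul_right
  obtain ⟨RE, hRE1, hRE2, hRE3, hRE4⟩ := kmRoots_one p E hE hsep.of_mul_right
  refine ⟨RF, RA, RB, RE, ⟨hRF1, hRF2, hRF3⟩, ⟨hRA1, hRA2, hRA3⟩, ⟨hRB1, hRB2, hRB3⟩, ⟨hRE1, hRE2, hRE3⟩, ?_, ?_, ?_⟩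
  · intro c hc
    exact ⟨fun h => kmRoots_disj p h3 (hRF4 c hc) (hRA4 c h), fun h => kmRoots_disj p cFB (hRF4 c hc) (hRB4 c h),
      fun h => kmRoots_disj p cFE (hRF4 c hc) (hRE4 c h)⟩
  · intro c hc
    exact ⟨fun h => kmRoots_disj p cAB (hRA4 c hc) (hRB4 c h),
      fun h => kmRoots_disj p cAE (hRA4 c hc) (hRE4 c h)⟩
  · intro c hc h
    exact kmRoots_disj p cBE (hRB4 c hc) (hRE4 c h)

end Pool.Agent.PRB
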