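import Pool.Agent.LibPRK.KmSp
import Pool.Agent.LibPRK.KmRoots
import Pool.Agent.LibPRK.KmCur
import Pool.Agent.LibPRK.KmCard
import Pool.Agent.LibPRK.KmEx
import Pool.Agent.LibPRB.HypH

/-!
# The Kummer covers `u ^ (2 a) = F ^ a * A * B ^ (2 a - 1)` of the line over `F_p`

PLAN. Template: `hasCurve_hyp` (Pool/Agent/LibPRB/HypH.lean).  Let `k = AlgebraicClosure (ZMod p)`; `km_roots` with `E = 1` (so `RE` is empty: `RE.card = 0`).
`h = ratProd R (kmM a RF RA RB)`, `R = RF ∪ RA ∪ RB ∪ RE`; `(plC c0).ord h = 1` for `c0 ∈ RA` (`0 < A.natDegree`; `ratProd_ordC`: `kmM` vanishes outside `R`), `exists_Km`;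
`exists_deriv_km` (`((2 a : ℕ) : RatFunc k) ≠ 0`: `CharP.cast_eq_zero_iff`); `KmS p (2 a) RatFunc.X (ratD p k) h u D'` (`rat_gf`, `¬ p ∣ 2 a`); `φ` from `ratFunc_phi`, `ratProd_phi`
(`R` and `kmM` are invariant under `c ↦ c ^ p`: by the four invariances and injectivity/disjointness — `c ∈ RF` iff `c^p ∈ RF` is not needed: for `c ∈ R` distinguish the part it lies in).
`KmS.finrank_polSp`, `KmS.card_polSp` with `E := 0`, `E' := 0` (rewrite `kmE ∅ = 0`), then `kmSp_finrank`, `kmSp_card` (`RE = ∅`, `∏ over ∅ = 1 = map 1`); `hasCurve_of_KmS` (`rat_transc`, `rat_fin`).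
-/

set_option autoImplicit false

namespace Pool.Agent.PRB

open Polynomial

theorem hasCurve_kummer (p : ℕ) [Fact p.Prime] (hp2 : p ≠ 2) (a : ℕ) (ha : 0 < a)
    (hpa : ¬ p ∣ a) (F A B : (ZMod p)[X]) (hF : F.Monic) (hA : A.Monic) (hB : B.Monic)
    (hsep : (F * A * B).Separable) (hAB : A.natDegree = B.natDegree) (hA1 : 0 < A.natDegree)
    (hodd : Odd F.natDegree) (s : ℕ)
    (hs : KFam p a (F.map (algebraMap (ZMod p) (AlgebraicClosure (ZMod p))))
      (A.map (algebraMap (ZMod p) (AlgebraicClosure (ZMod p))))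
      (B.map (algebraMap (ZMod p) (AlgebraicClosure (ZMod p)))) 1 s) :
    HasCurve p (∑ d ∈ Finset.range (2 * a), (kν F.natDegree A.natDegree 0 d - 1)) s := by
  classical
  haveI hch : CharP (AlgebraicClosure (ZMod p)) p :=
    charP_of_injective_algebraMap (algebraMap (ZMod p) (AlgebraicClosure (ZMod p))).injective p
  haveI : CharP (RatFunc (AlgebraicClosure (ZMod p))) p :=
    charP_of_injective_algebraMap
      (algebraMap (AlgebraicClosure (ZMod p)) (RatFunc (AlgebraicClosure (ZMod p)))).injective p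
  obtain ⟨RF, RA, RB, RE, ⟨hF1, hF2, hF3⟩, ⟨hA1', hA2, hA3⟩, ⟨hB1, hB2, hB3⟩, ⟨-, hE2, -⟩,
    hd1, hd2, -⟩ := km_roots p F A B 1 hF hA hB monic_one (by rwa [mul_one])
  have hRE : RE = ∅ := Finset.card_eq_zero.1 (by rw [hE2, natDegree_one])
  subst hRE
  have h1 : Disjoint RF RA := Finset.disjoint_left.2 fun c hc => (hd1 c hc).1
  have h2 : Disjoint (RF ∪ RA) RB := Finset.disjoint_left.2 fun c hc => by
    rcases Finset.mem_union.1 hc with hc | hc
    · exact (hd1 c hc).2.1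
    · exact (hd2 c hc).1
  have h3 : Disjoint (RF ∪ RA ∪ RB) (∅ : Finset (AlgebraicClosure (ZMod p))) :=
    Finset.disjoint_empty_right _
  have hα : Odd RF.card := by rwa [hF2]
  have hABc : RA.card = RB.card := by rw [hA2, hB2, hAB]
  have hpN : ¬ p ∣ 2 * a := by
    intro h0
    rcases ((Fact.out : p.Prime).dvd_mul).1 h0 with h0 | h0
    · exact hp2 ((Nat.prime_dvd_prime_iff_eq Fact.out Nat.prime_two).1 h0)
    · exact hpa h0
  have hmF : ∀ c ∈ RF, kmM a RF RA RB c = a := fun c hc => by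
    unfold kmM
    rw [if_pos hc]
  have hmA : ∀ c ∈ RA, kmM a RF RA RB c = 1 := fun c hc => by
    unfold kmM
    rw [if_neg (fun h0 => (hd1 c h0).1 hc), if_pos hc]
  have hmB : ∀ c ∈ RB, kmM a RF RA RB c = 2 * (a : ℤ) - 1 := fun c hc => by
    unfold kmM
    rw [if_neg (fun h0 => (hd1 c h0).2.1 hc), if_neg (fun h0 => (hd2 c h0).1 hc), if_pos hc]
  have hm0 : ∀ c ∉ RF ∪ RA ∪ RB ∪ ∅, kmM a RF RA RB c = 0 := fun c hc => by
    rw [Finset.union_empty, Finset.mem_union, Finset.mem_union, not_or, not_or] at hc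
    unfold kmM
    rw [if_neg hc.1.1, if_neg hc.1.2, if_neg hc.2]
  have hcase : ∀ c ∈ RF ∪ RA ∪ RB ∪ ∅, c ∈ RF ∨ c ∈ RA ∨ c ∈ RB := fun c hc => by
    rw [Finset.union_empty, Finset.mem_union, Finset.mem_union] at hc
    tauto
  have hRp : ∀ c ∈ RF ∪ RA ∪ RB ∪ ∅, c ^ p ∈ RF ∪ RA ∪ RB ∪ ∅ := fun c hc => by
    rw [Finset.union_empty, Finset.mem_union, Finset.mem_union]
    rcases hcase c hc with h0 | h0 | h0
    · exact Or.inl (Or.inl (hF3 c h0))
    · exact Or.inl (Or.inr (hA3 c h0))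
    · exact Or.inr (hB3 c h0)
  have hmp : ∀ c ∈ RF ∪ RA ∪ RB ∪ ∅, kmM a RF RA RB (c ^ p) = kmM a RF RA RB c := fun c hc => by
    rcases hcase c hc with h0 | h0 | h0
    · rw [hmF c h0, hmF _ (hF3 c h0)]
    · rw [hmA c h0, hmA _ (hA3 c h0)]
    · rw [hmB c h0, hmB _ (hB3 c h0)]
  have hh0 : ratProd (RF ∪ RA ∪ RB ∪ ∅) (kmM a RF RA RB) ≠ 0 := ratProd_ne _ _
  obtain ⟨c0, hc0⟩ : RA.Nonempty := by
    rw [← Finset.card_pos, hA2]
    exact hA1
  obtain ⟨L, iL, ikL, iKL, iST, u, T⟩ := exists_Km (2 * a) (by omega) (plC c0)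
    (ratProd (RF ∪ RA ∪ RB ∪ ∅) (kmM a RF RA RB)) hh0 (by
      rw [ratProd_ordC _ _ hm0, hmA c0 hc0])
  have hN : ((2 * a : ℕ) : RatFunc (AlgebraicClosure (ZMod p))) ≠ 0 := by
    intro h0
    exact hpN ((CharP.cast_eq_zero_iff _ p (2 * a)).1 h0)
  obtain ⟨D', hD'⟩ := exists_deriv_km T hh0 hN (ratD p (AlgebraicClosure (ZMod p)))
  have S : KmS p (2 * a) (RatFunc.X : RatFunc (AlgebraicClosure (ZMod p)))
      (ratD p (AlgebraicClosure (ZMod p))) (ratProd (RF ∪ RA ∪ RB ∪ ∅) (kmM a RF RA RB)) u D' :=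
    ⟨rat_gf, T, hh0, hpN, hD'⟩
  obtain ⟨φ, hφX, hφc, hφn⟩ := ratFunc_phi (p := p) (k := AlgebraicClosure (ZMod p))
  have hfun : ∀ d : ℕ,
      (fun P : Plc (AlgebraicClosure (ZMod p)) (RatFunc (AlgebraicClosure (ZMod p))) =>
        kmc (2 * a) (ratProd (RF ∪ RA ∪ RB ∪ ∅) (kmM a RF RA RB)) d P +
          kmE (∅ : Finset (AlgebraicClosure (ZMod p))) P) =
      fun P => kmc (2 * a) (ratProd (RF ∪ RA ∪ RB ∪ ∅) (kmM a RF RA RB)) d P +
        (0 : Plc (AlgebraicClosure (ZMod p)) (RatFunc (AlgebraicClosure (ZMod p))) → ℤ) P := by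
    intro d
    funext P
    simp [kmE]
  have hsp : ∀ d < 2 * a,
      Module.Finite (AlgebraicClosure (ZMod p)) (polSp (ratD p (AlgebraicClosure (ZMod p)))
        (fun P => kmc (2 * a) (ratProd (RF ∪ RA ∪ RB ∪ ∅) (kmM a RF RA RB)) d P +
          (0 : Plc (AlgebraicClosure (ZMod p)) (RatFunc (AlgebraicClosure (ZMod p))) → ℤ) P)) ∧
      Module.finrank (AlgebraicClosure (ZMod p)) (polSp (ratD p (AlgebraicClosure (ZMod p)))
        (fun P => kmc (2 * a) (ratProd (RF ∪ RA ∪ RB ∪ ∅) (kmM a RF RA RB)) d P +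
          (0 : Plc (AlgebraicClosure (ZMod p)) (RatFunc (AlgebraicClosure (ZMod p))) → ℤ) P)) =
        kν F.natDegree A.natDegree 0 d - 1 := by
    intro d hd
    rw [← hfun d]
    have h0 := kmSp_finrank (p := p) a ha RF RA RB ∅ h1 h2 h3 hα hABc d hd
    rw [hF2, hA2, Finset.card_empty] at h0
    exact h0
  have hgen : Module.finrank (AlgebraicClosure (ZMod p)) (polSp D' 0) =
      ∑ d ∈ Finset.range (2 * a), (kν F.natDegree A.natDegree 0 d - 1) := by
    rw [(S.finrank_polSp 0 0 (fun _ => Or.inl rfl) (fun _ _ _ _ => rfl)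
      (fun d hd => (hsp d hd).1)).2]
    exact Finset.sum_congr rfl fun d hd => (hsp d (Finset.mem_range.1 hd)).2
  have hcard : Nat.card {b : L // b ∈ polSp D' 0 ∧ car p D' b = b} = p ^ s := by
    rw [S.card_polSp 0 0 (fun _ => Or.inl rfl) (fun _ _ _ _ => rfl)]
    simp only [← hfun]
    refine kmSp_card hp2 a ha hpa RF RA RB ∅ h1 h2 h3 hα hABc s ?_
    rw [← hF1, ← hA1', ← hB1, Finset.prod_empty]
    exact hs
  exact hasCurve_of_KmS p (2 * a) S rat_transc rat_fin φ hφc hφX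
    (ratProd_phi p _ _ hRp hmp φ hφX hφc) hφn _ s hgen hcard

end Pool.Agent.PRB
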