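import Pool.Agent.LibPRK.KmReg
import Pool.Agent.LibPRK.KmDer
import Pool.Agent.LibPRB.TwCur
import Pool.Agent.LibPRB.TwCnt
import Pool.Agent.LibPRB.TwCrd
import Pool.Agent.LibPRB.TwEx
import Pool.Agent.LibPRB.TwDer

/-!
# Kummer covers and their Artin–Schreier covers as curves over `F_p`

PLAN. `hasCurve_of_KmS_as`: let `v' = algebraMap K L v`, `E'` the function on the places of `L` with `E' Q = 1` if `Q.ord v' < 0` and `0`
otherwise.  For `Q` over `P` (`exists_under_plc`): `Q.ord v' = e * P.ord v`; if `P.ord v < 0` then `P.ord v = -1`, `P.ord h = 0`,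
`e = 1` (`km_e_one`), so `Q.ord v' = -1`.  So `twD p 1 v' Q = p - 1` or `≤ 0` (`ord 1 = 0`), so `twc p 1 v' d = E'` for `d < p - 1`
(`((p - 1) + (p - 1) - d) / p = 1`) and `twc p 1 v' (p - 1) = 0` (`((p-1) + (p-1) - (p-1)) / p = 0`, `cdiv 0 _ = 0`).
There is `P0` with `P0.ord v = -1` (`hv1`), take `Q0` over it (`exists_over_plc`): `exists_Tw Q0 1 v'`, `exists_deriv_tw`; this gives
`TwS p (algebraMap K L s) D' 1 v' w D''`.  `TwS.finrank`, `TwS.card` (`c / 1 ^ d = c`; product over `range p = range (p - 1 + 1)`,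
`Finset.prod_range_succ`), `regSp D = polSp D 0`.  Then `hasCurve_of_TwS` (TwCur.lean) for `K := L` with `φ := Φ` from `exists_phi_km`
(`Φ 1 = 1`, `Φ v' = v'` as `φ v = v`).
-/

set_option autoImplicit false

namespace Pool.Agent.PRB

section KmCurA

variable {p N : ℕ} [Fact p.Prime] {k K L : Type} [Field k] [IsAlgClosed k] [CharP k p] [Field K]
  [Field L] [Algebra k K] [Algebra k L] [Algebra K L] [IsScalarTower k K L] {s : K}
  {D : Derivation k K K} {h : K} {u : L} {D' : Derivation k L L}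

private theorem KmCurA_ord (A : KmS p N s D h u D') (v : K)
    (hv : ∀ P : Plc k K, P.ord v < 0 → P.ord v = -1 ∧ P.ord h = 0) (Q : Plc k L)
    (hQ : Q.ord (algebraMap K L v) < 0) : Q.ord (algebraMap K L v) = -1 := by
  haveI : CharP K p := charP_of_injective_algebraMap (algebraMap k K).injective p
  obtain ⟨P, e, he⟩ := exists_under_plc A.km.finite A.gf.disc Q
  have h1 := he.2 v
  have hP : P.ord v < 0 := by
    by_contra hc
    have hc' : 0 ≤ P.ord v := not_lt.1 hc
    have h2 : 0 ≤ (e : ℤ) * P.ord v := by positivity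
    rw [h1] at hQ
    omega
  obtain ⟨h2, h3⟩ := hv P hP
  obtain ⟨δ, hδ⟩ := A.gf.diff P
  have h4 := km_e_one A.hN A.km A.h0 D D' A.D_alg hδ h3 he
  rw [h1, h4, h2]
  norm_num

omit [IsAlgClosed k] [CharP k p] in
private theorem KmCurA_twD_neg (v : L) (Q : Plc k L) (hQ : Q.ord v = -1) :
    twD p 1 v Q = (p : ℤ) - 1 := by
  unfold twD
  rw [Q.ord_one, hQ]
  ring

omit [IsAlgClosed k] [CharP k p] in
private theorem KmCurA_twD_pos (v : L) (Q : Plc k L) (hQ : 0 ≤ Q.ord v) :
    twD p 1 v Q ≤ 0 := by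
  unfold twD
  rw [Q.ord_one]
  have hp := (Fact.out : p.Prime).one_lt
  have h1 : 0 ≤ ((p : ℤ) - 1) * Q.ord v := mul_nonneg (by omega) hQ
  linarith

omit [IsAlgClosed k] [CharP k p] in
private theorem KmCurA_twc_lt (v : L) (hv : ∀ Q : Plc k L, Q.ord v < 0 → Q.ord v = -1)
    (E' : Plc k L → ℤ) (hE' : ∀ Q, E' Q = if Q.ord v < 0 then 1 else 0) (d : ℕ) (hd : d < p - 1) :
    twc p 1 v d = E' := by
  have hp := (Fact.out : p.Prime).one_lt
  funext Q
  rw [hE']
  unfold twc
  by_cases hQ : Q.ord v < 0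
  · have h1 := hv Q hQ
    rw [if_pos hQ, KmCurA_twD_neg v Q h1, if_pos (by omega), h1]
    have h2 : ((p : ℤ) - 1 + ((p : ℤ) - 1) + (d : ℤ) * (-1)) = ((p : ℤ) - 2 - d) + 1 * p := by ring
    rw [h2, Int.add_mul_ediv_right _ _ (by omega), Int.ediv_eq_zero_of_lt (by omega) (by omega)]
    norm_num
  · have h1 := KmCurA_twD_pos (p := p) v Q (not_lt.1 hQ)
    rw [if_neg hQ, if_neg (not_lt.2 h1), Q.ord_one]
    unfold cdiv
    simp

omit [IsAlgClosed k] [CharP k p] in
private theorem KmCurA_twc_eq (v : L) (hv : ∀ Q : Plc k L, Q.ord v < 0 → Q.ord v = -1) :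
    twc p 1 v (p - 1) = (0 : Plc k L → ℤ) := by
  have hp := (Fact.out : p.Prime).one_lt
  funext Q
  rw [Pi.zero_apply]
  unfold twc
  by_cases hQ : Q.ord v < 0
  · have h1 := hv Q hQ
    rw [KmCurA_twD_neg v Q h1, if_pos (by omega), h1]
    have h2 : ((p : ℤ) - 1 + ((p : ℤ) - 1) + ((p - 1 : ℕ) : ℤ) * (-1)) = (p : ℤ) - 1 := by
      rw [Nat.cast_sub hp.le]
      push_cast
      ring
    rw [h2]
    exact Int.ediv_eq_zero_of_lt (by omega) (by omega)
  · have h1 := KmCurA_twD_pos (p := p) v Q (not_lt.1 hQ)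
    rw [if_neg (not_lt.2 h1), Q.ord_one]
    unfold cdiv
    simp

end KmCurA

/-- The Artin–Schreier cover `w ^ p - w = v` of the Kummer cover `L`, where `v` is in `K`, with simple poles, at places where
`h` is a unit.  `E'` is the indicator function of the poles of `v` on the places of `L`. -/
theorem hasCurve_of_KmS_as (p N : ℕ) [Fact p.Prime] {K L : Type} [Field K] [Field L]
    [Algebra (AlgebraicClosure (ZMod p)) K] [Algebra (AlgebraicClosure (ZMod p)) L] [Algebra K L]
    [IsScalarTower (AlgebraicClosure (ZMod p)) K L] {s : K}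
    {D : Derivation (AlgebraicClosure (ZMod p)) K K} {h : K} {u : L}
    {D' : Derivation (AlgebraicClosure (ZMod p)) L L} (A : KmS p N s D h u D')
    (hs : Transcendental (AlgebraicClosure (ZMod p)) s)
    (hfin : Module.Finite (IntermediateField.adjoin (AlgebraicClosure (ZMod p)) {s}) K)
    (φ : K →+* K) (hφc : ∀ c : AlgebraicClosure (ZMod p),
      φ (algebraMap _ K c) = algebraMap _ K (c ^ p))
    (hφs : φ s = s) (hφh : φ h = h) (hφn : ∀ a, ∃ n > 0, φ^[n] a = a)
    (v : K) (hφv : φ v = v)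
    (hv : ∀ P : Plc (AlgebraicClosure (ZMod p)) K, P.ord v < 0 → P.ord v = -1 ∧ P.ord h = 0)
    (hv1 : ∃ P : Plc (AlgebraicClosure (ZMod p)) K, P.ord v < 0)
    (E' : Plc (AlgebraicClosure (ZMod p)) L → ℤ)
    (hE' : ∀ Q, E' Q = if Q.ord (algebraMap K L v) < 0 then 1 else 0) (g0 g1 f0 f1 : ℕ)
    (hfin0 : Module.Finite (AlgebraicClosure (ZMod p)) (polSp D' 0))
    (hfin1 : Module.Finite (AlgebraicClosure (ZMod p)) (polSp D' E'))
    (hg0 : Module.finrank (AlgebraicClosure (ZMod p)) (polSp D' 0) = g0)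
    (hf0 : Nat.card {a : L // a ∈ polSp D' 0 ∧ car p D' a = a} = p ^ f0)
    (hg1 : Module.finrank (AlgebraicClosure (ZMod p)) (polSp D' E') = g1)
    (hf1 : Nat.card {a : L // a ∈ polSp D' E' ∧ car p D' a = a} = p ^ f1) :
    HasCurve p ((p - 1) * g1 + g0) ((p - 1) * f1 + f0) := by
  have hpr : p.Prime := Fact.out
  have hp1 := hpr.one_lt
  haveI : CharP K p :=
    charP_of_injective_algebraMap (algebraMap (AlgebraicClosure (ZMod p)) K).injective p
  haveI : CharP L p :=
    charP_of_injective_algebraMap (algebraMap (AlgebraicClosure (ZMod p)) L).injective p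
  have hKL : Module.Finite K L := A.km.finite
  have hord : ∀ Q : Plc (AlgebraicClosure (ZMod p)) L, Q.ord (algebraMap K L v) < 0 →
      Q.ord (algebraMap K L v) = -1 := fun Q hQ => KmCurA_ord A v hv Q hQ
  obtain ⟨P0, hP0⟩ := hv1
  obtain ⟨Q0, e0, he0⟩ := exists_over_plc (L := L) hKL P0
  have hQ0 : Q0.ord (algebraMap K L v) < 0 := by
    rw [he0.2 v, (hv P0 hP0).1]
    have := he0.1
    push_cast
    omega
  have hv0 : algebraMap K L v ≠ 0 := by
    intro h1
    rw [h1, Q0.ord_zero] at hQ0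
    exact lt_irrefl _ hQ0
  have hD0 : twD p 1 (algebraMap K L v) Q0 = (p : ℤ) - 1 := KmCurA_twD_neg _ Q0 (hord Q0 hQ0)
  have hnd : ¬ (p : ℤ) ∣ (p : ℤ) - 1 := by
    intro h1
    have h2 := Int.le_of_dvd (by omega) h1
    omega
  obtain ⟨M, i1, i2, i3, i4, w, T⟩ := exists_Tw (p := p) Q0 1 (algebraMap K L v) one_ne_zero hv0
    (by rw [hD0]; omega) (by rw [hD0]; exact hnd)
  obtain ⟨D2, hD2⟩ := exists_deriv_tw T one_ne_zero D'
  have B : TwS p (algebraMap K L s) D' 1 (algebraMap K L v) w D2 := by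
    refine ⟨A.gf', T, one_ne_zero, hv0, ?_, hD2⟩
    intro Q hQ
    by_cases h1 : Q.ord (algebraMap K L v) < 0
    · rw [KmCurA_twD_neg _ Q (hord Q h1)]
      exact hnd
    · exact absurd hQ (not_lt.2 (KmCurA_twD_pos _ Q (not_lt.1 h1)))
  have hlt : ∀ d < p - 1, twc p 1 (algebraMap K L v) d = E' := fun d hd =>
    KmCurA_twc_lt _ hord E' hE' d hd
  have heq : twc p 1 (algebraMap K L v) (p - 1) =
      (0 : Plc (AlgebraicClosure (ZMod p)) L → ℤ) := KmCurA_twc_eq _ hord
  have hfinB : ∀ d < p, Module.Finite (AlgebraicClosure (ZMod p))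
      (polSp D' (twc p 1 (algebraMap K L v) d)) := by
    intro d hd
    rcases Nat.lt_or_ge d (p - 1) with h1 | h1
    · rw [hlt d h1]
      exact hfin1
    · have h2 : d = p - 1 := by omega
      rw [h2, heq]
      exact hfin0
  have hg : Module.finrank (AlgebraicClosure (ZMod p)) (regSp D2) = (p - 1) * g1 + g0 := by
    rw [(B.finrank hfinB).2]
    have h1 : p = (p - 1) + 1 := by omega
    have h2 : ∑ d ∈ Finset.range p, Module.finrank (AlgebraicClosure (ZMod p))
        (polSp D' (twc p 1 (algebraMap K L v) d)) =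
        ∑ d ∈ Finset.range (p - 1 + 1), Module.finrank (AlgebraicClosure (ZMod p))
        (polSp D' (twc p 1 (algebraMap K L v) d)) :=
      congrArg (fun n => ∑ d ∈ Finset.range n, Module.finrank (AlgebraicClosure (ZMod p))
        (polSp D' (twc p 1 (algebraMap K L v) d))) h1
    rw [h2, Finset.sum_range_succ, heq, hg0]
    congr 1
    rw [Finset.sum_congr rfl (fun d hd => by rw [hlt d (Finset.mem_range.1 hd), hg1]),
      Finset.sum_const, Finset.card_range, smul_eq_mul]
  have hf : Nat.card {a : M // a ∈ regSp D2 ∧ car p D2 a = a} = p ^ ((p - 1) * f1 + f0) := by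
    rw [B.card hfinB]
    have h1 : p = (p - 1) + 1 := by omega
    have h2 : ∏ d ∈ Finset.range p, Nat.card {c : L // c ∈ polSp D'
          (twc p 1 (algebraMap K L v) d) ∧ car p D' (c / 1 ^ d) = c} =
        ∏ d ∈ Finset.range (p - 1 + 1), Nat.card {c : L // c ∈ polSp D'
          (twc p 1 (algebraMap K L v) d) ∧ car p D' (c / 1 ^ d) = c} :=
      congrArg (fun n => ∏ d ∈ Finset.range n, Nat.card {c : L // c ∈ polSp D'
          (twc p 1 (algebraMap K L v) d) ∧ car p D' (c / 1 ^ d) = c}) h1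
    rw [h2, Finset.prod_range_succ]
    simp only [one_pow, div_one]
    rw [heq, hf0, pow_add]
    congr 1
    rw [Finset.prod_congr rfl (fun d hd => by rw [hlt d (Finset.mem_range.1 hd), hf1]),
      Finset.prod_const, Finset.card_range, ← pow_mul, mul_comm f1]
  obtain ⟨Φ, hΦa, hΦu, hΦc, hΦn⟩ := exists_phi_km A.km φ hφc hφh hφn
  have htr : Transcendental (AlgebraicClosure (ZMod p)) (algebraMap K L s) := by
    rw [transcendental_algebraMap_iff (algebraMap K L).injective]
    exact hs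
  exact hasCurve_of_TwS p B htr (TwCur_fin s hKL hfin) Φ hΦc (by rw [hΦa, hφs]) (map_one Φ)
    (by rw [hΦa, hφv]) hΦn _ _ hg hf

end Pool.Agent.PRB
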