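import Pool.Agent.LibPRK.KmSp
import Pool.Agent.LibPRK.KmRoots
import Pool.Agent.LibPRK.KmCurA
import Pool.Agent.LibPRK.KmCard
import Pool.Agent.LibPRK.KmEx
import Pool.Agent.LibPRB.HypH

/-!
# The Artin–Schreier covers of the Kummer covers `u ^ (2 a) = F ^ a * A * B ^ (2 a - 1)` of the line over `F_p`

PLAN. Template: `hasCurve_hyp` (Pool/Agent/LibPRB/HypH.lean).  Let `k = AlgebraicClosure (ZMod p)`; `km_roots` for `F A B E`.
`h = ratProd R (kmM a RF RA RB)`, `R = RF ∪ RA ∪ RB ∪ RE`; `(plC c0).ord h = 1` for `c0 ∈ RA` (`0 < A.natDegree`; `ratProd_ordC`: `kmM` vanishes outside `R`, and on `RE`), `exists_Km`;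
`exists_deriv_km` (`((2 a : ℕ) : RatFunc k) ≠ 0`: `CharP.cast_eq_zero_iff`); `KmS p (2 a) RatFunc.X (ratD p k) h u D'` (`rat_gf`, `¬ p ∣ 2 a`); `φ` from `ratFunc_phi`, `ratProd_phi`
(`R` and `kmM` are invariant under `c ↦ c ^ p`: for `c ∈ R` distinguish the part it lies in).
`v = ratProd RE (fun _ => -1)`: `(plC c).ord v = -1` on `RE`, `0` elsewhere, `(plI).ord v = RE.card > 0` (`pl_class` for all places); `h` is a unit at `plC c`, `c ∈ RE`.
`E' Q = if Q.ord (algebraMap v) < 0 then 1 else 0`, and for `Q` over `P` (index `e > 0`): `Q.ord (algebraMap v) = e * P.ord v`, so `E' Q = kmE RE P`.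
(1) `E := 0`, `E' := 0`: needs the spaces without `kmE`: for these use `kmSp_finrank`, `kmSp_card` with the sets `RF, RA, RB, ∅`; the function `ratProd (RF ∪ RA ∪ RB ∪ ∅) m` equals
`ratProd (RF ∪ RA ∪ RB ∪ RE) m` since `kmM` vanishes on `RE` (`ratProd` is a product over the set; `Finset.prod_subset`).
(2) `E := kmE RE`: `KmS.finrank_polSp`, `KmS.card_polSp`, `kmSp_finrank`, `kmSp_card`.  Then `hasCurve_of_KmS_as` (`rat_transc`, `rat_fin`).
-/

set_option autoImplicit false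

namespace Pool.Agent.PRB

open Polynomial

theorem hasCurve_kummer_as (p : ℕ) [Fact p.Prime] (hp2 : p ≠ 2) (a : ℕ) (ha : 0 < a)
    (hpa : ¬ p ∣ a) (F A B E : (ZMod p)[X]) (hF : F.Monic) (hA : A.Monic) (hB : B.Monic)
    (hE : E.Monic) (hsep : (F * A * B * E).Separable) (hAB : A.natDegree = B.natDegree)
    (hA1 : 0 < A.natDegree) (hE1 : 0 < E.natDegree) (hodd : Odd F.natDegree) (s0 s1 : ℕ)
    (hs0 : KFam p a (F.map (algebraMap (ZMod p) (AlgebraicClosure (ZMod p))))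
      (A.map (algebraMap (ZMod p) (AlgebraicClosure (ZMod p))))
      (B.map (algebraMap (ZMod p) (AlgebraicClosure (ZMod p)))) 1 s0)
    (hs1 : KFam p a (F.map (algebraMap (ZMod p) (AlgebraicClosure (ZMod p))))
      (A.map (algebraMap (ZMod p) (AlgebraicClosure (ZMod p))))
      (B.map (algebraMap (ZMod p) (AlgebraicClosure (ZMod p))))
      (E.map (algebraMap (ZMod p) (AlgebraicClosure (ZMod p)))) s1) :
    HasCurve p ((p - 1) * (∑ d ∈ Finset.range (2 * a),
        (kν F.natDegree A.natDegree E.natDegree d - 1)) +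
        ∑ d ∈ Finset.range (2 * a), (kν F.natDegree A.natDegree 0 d - 1))
      ((p - 1) * s1 + s0) := by
  classical
  haveI hch : CharP (AlgebraicClosure (ZMod p)) p :=
    charP_of_injective_algebraMap (algebraMap (ZMod p) (AlgebraicClosure (ZMod p))).injective p
  haveI : CharP (RatFunc (AlgebraicClosure (ZMod p))) p :=
    charP_of_injective_algebraMap
      (algebraMap (AlgebraicClosure (ZMod p)) (RatFunc (AlgebraicClosure (ZMod p)))).injective p
  have hpr : p.Prime := Fact.out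
  obtain ⟨RF, RA, RB, RE, ⟨hFp, hFc, hFi⟩, ⟨hAp, hAc, hAi⟩, ⟨hBp, hBc, hBi⟩, ⟨hEp, hEc, hEi⟩,
    hdF, hdA, hdB⟩ := km_roots p F A B E hF hA hB hE hsep
  have h1 : Disjoint RF RA := Finset.disjoint_left.2 fun c hc hc' => (hdF c hc).1 hc'
  have h2 : Disjoint (RF ∪ RA) RB := Finset.disjoint_left.2 fun c hc hc' => by
    rcases Finset.mem_union.1 hc with h | h
    · exact (hdF c h).2.1 hc'
    · exact (hdA c h).1 hc'
  have h3 : Disjoint (RF ∪ RA ∪ RB) RE := Finset.disjoint_left.2 fun c hc hc' => by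
    rcases Finset.mem_union.1 hc with h | h
    · rcases Finset.mem_union.1 h with h | h
      · exact (hdF c h).2.2 hc'
      · exact (hdA c h).2 hc'
    · exact hdB c h hc'
  have hm0 : ∀ c ∉ RF ∪ RA ∪ RB, kmM a RF RA RB c = 0 := by
    intro c hc
    simp only [Finset.mem_union, not_or] at hc
    unfold kmM
    rw [if_neg hc.1.1, if_neg hc.1.2, if_neg hc.2]
  have hmR : ∀ c ∉ RF ∪ RA ∪ RB ∪ RE, kmM a RF RA RB c = 0 := fun c hc =>
    hm0 c fun h => hc (Finset.mem_union_left _ h)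
  have hmE : ∀ c ∈ RE, kmM a RF RA RB c = 0 := fun c hc =>
    hm0 c fun h => (Finset.disjoint_left.1 h3 h) hc
  have hmF : ∀ c ∈ RF, kmM a RF RA RB c = a := by
    intro c hc
    unfold kmM
    rw [if_pos hc]
  have hmA : ∀ c ∈ RA, kmM a RF RA RB c = 1 := by
    intro c hc
    unfold kmM
    rw [if_neg (fun h => (hdF c h).1 hc), if_pos hc]
  have hmB : ∀ c ∈ RB, kmM a RF RA RB c = 2 * (a : ℤ) - 1 := by
    intro c hc
    unfold kmM
    rw [if_neg (fun h => (hdF c h).2.1 hc), if_neg (fun h => (hdA c h).1 hc), if_pos hc]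
  have hh' : ratProd (RF ∪ RA ∪ RB ∪ ∅) (kmM a RF RA RB) =
      ratProd (RF ∪ RA ∪ RB ∪ RE) (kmM a RF RA RB) := by
    unfold ratProd
    apply Finset.prod_subset
    · exact Finset.union_subset_union_right (Finset.empty_subset _)
    · intro c _ hc'
      rw [Finset.union_empty] at hc'
      rw [hm0 c hc', zpow_zero]
  have hh0 : ratProd (RF ∪ RA ∪ RB ∪ RE) (kmM a RF RA RB) ≠ 0 := ratProd_ne _ _
  have hhC : ∀ c, (plC c).ord (ratProd (RF ∪ RA ∪ RB ∪ RE) (kmM a RF RA RB)) =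
      kmM a RF RA RB c := ratProd_ordC _ _ hmR
  have hAne : RA.Nonempty := by
    rw [← Finset.card_pos, hAc]
    exact hA1
  obtain ⟨c0, hc0⟩ := hAne
  have hEne : RE.Nonempty := by
    rw [← Finset.card_pos, hEc]
    exact hE1
  obtain ⟨c1, hc1⟩ := hEne
  obtain ⟨L, iL, ikL, iKL, iST, u, T⟩ := exists_Km (2 * a) (by omega) (plC c0)
    (ratProd (RF ∪ RA ∪ RB ∪ RE) (kmM a RF RA RB)) hh0 (by rw [hhC, hmA c0 hc0])
  have hN : ¬ p ∣ 2 * a := by
    intro hd
    rcases (Nat.Prime.dvd_mul hpr).1 hd with h | h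
    · exact hp2 ((Nat.prime_dvd_prime_iff_eq hpr Nat.prime_two).1 h)
    · exact hpa h
  have hN0 : ((2 * a : ℕ) : RatFunc (AlgebraicClosure (ZMod p))) ≠ 0 := fun h0 =>
    hN ((CharP.cast_eq_zero_iff _ p (2 * a)).1 h0)
  obtain ⟨D', hD'⟩ := exists_deriv_km T hh0 hN0 (ratD p (AlgebraicClosure (ZMod p)))
  have hKm : KmS p (2 * a) (RatFunc.X : RatFunc (AlgebraicClosure (ZMod p)))
      (ratD p (AlgebraicClosure (ZMod p)))
      (ratProd (RF ∪ RA ∪ RB ∪ RE) (kmM a RF RA RB)) u D' :=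
    ⟨rat_gf, T, hh0, hN, hD'⟩
  obtain ⟨φ, hφX, hφc, hφn⟩ := ratFunc_phi (p := p) (k := AlgebraicClosure (ZMod p))
  have hφh : φ (ratProd (RF ∪ RA ∪ RB ∪ RE) (kmM a RF RA RB)) =
      ratProd (RF ∪ RA ∪ RB ∪ RE) (kmM a RF RA RB) := by
    refine ratProd_phi p _ _ ?_ ?_ φ hφX hφc
    · intro c hc
      simp only [Finset.mem_union] at hc ⊢
      rcases hc with ((hc | hc) | hc) | hc
      · exact Or.inl (Or.inl (Or.inl (hFi c hc)))
      · exact Or.inl (Or.inl (Or.inr (hAi c hc)))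
      · exact Or.inl (Or.inr (hBi c hc))
      · exact Or.inr (hEi c hc)
    · intro c hc
      simp only [Finset.mem_union] at hc
      rcases hc with ((hc | hc) | hc) | hc
      · rw [hmF c hc, hmF _ (hFi c hc)]
      · rw [hmA c hc, hmA _ (hAi c hc)]
      · rw [hmB c hc, hmB _ (hBi c hc)]
      · rw [hmE c hc, hmE _ (hEi c hc)]
  have hw0 : ∀ c ∉ RE, (fun c => if c ∈ RE then (-1 : ℤ) else 0) c = 0 := fun c hc => by
    simp [hc]
  obtain ⟨v, hvdef⟩ : ∃ v, v = ratProd RE (fun c => if c ∈ RE then (-1 : ℤ) else 0) := ⟨_, rfl⟩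
  have hvC : ∀ c, (plC c).ord v = if c ∈ RE then (-1 : ℤ) else 0 := by
    intro c
    rw [hvdef, ratProd_ordC RE _ hw0]
  have hvI : 0 ≤ (plI (AlgebraicClosure (ZMod p))).ord v := by
    rw [hvdef, ratProd_ordI, ← Finset.sum_neg_distrib]
    refine Finset.sum_nonneg fun c hc => ?_
    simp only [hc, if_true]
    norm_num
  have hφv : φ v = v := by
    rw [hvdef]
    refine ratProd_phi p _ _ hEi ?_ φ hφX hφc
    intro c hc
    simp only [hc, hEi c hc, if_true]
  have hvneg : ∀ P : Plc (AlgebraicClosure (ZMod p)) (RatFunc (AlgebraicClosure (ZMod p))),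
      P.ord v < 0 ↔ ∃ c ∈ RE, P = plC c := by
    intro P
    constructor
    · intro hP
      rcases pl_class P with ⟨c, rfl⟩ | rfl
      · refine ⟨c, ?_, rfl⟩
        by_contra hc
        rw [hvC, if_neg hc] at hP
        exact lt_irrefl _ hP
      · exact absurd hP (not_lt.2 hvI)
    · rintro ⟨c, hc, rfl⟩
      rw [hvC, if_pos hc]
      norm_num
  have hv : ∀ P : Plc (AlgebraicClosure (ZMod p)) (RatFunc (AlgebraicClosure (ZMod p))),
      P.ord v < 0 → P.ord v = -1 ∧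
        P.ord (ratProd (RF ∪ RA ∪ RB ∪ RE) (kmM a RF RA RB)) = 0 := by
    intro P hP
    obtain ⟨c, hc, rfl⟩ := (hvneg P).1 hP
    rw [hvC, if_pos hc, hhC, hmE c hc]
    exact ⟨rfl, rfl⟩
  have hv1 : ∃ P : Plc (AlgebraicClosure (ZMod p)) (RatFunc (AlgebraicClosure (ZMod p))),
      P.ord v < 0 := ⟨plC c1, (hvneg _).2 ⟨c1, hc1, rfl⟩⟩
  -- the spaces with poles at the roots of `E`
  have hE : ∀ P : Plc (AlgebraicClosure (ZMod p)) (RatFunc (AlgebraicClosure (ZMod p))),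
      kmE RE P = 0 ∨ (kmE RE P = 1 ∧
        P.ord (ratProd (RF ∪ RA ∪ RB ∪ RE) (kmM a RF RA RB)) = 0) := by
    intro P
    by_cases hP : ∃ c ∈ RE, P = plC c
    · right
      refine ⟨?_, ?_⟩
      · unfold kmE
        rw [if_pos hP]
      · obtain ⟨c, hc, rfl⟩ := hP
        rw [hhC, hmE c hc]
    · left
      unfold kmE
      rw [if_neg hP]
  have hE' : ∀ (Q : Plc (AlgebraicClosure (ZMod p)) L)
      (P : Plc (AlgebraicClosure (ZMod p)) (RatFunc (AlgebraicClosure (ZMod p)))) (e : ℕ),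
      OverE e Q P → (fun Q : Plc (AlgebraicClosure (ZMod p)) L =>
        if Q.ord (algebraMap (RatFunc (AlgebraicClosure (ZMod p))) L v) < 0 then (1 : ℤ)
        else 0) Q = kmE RE P := by
    intro Q P e hQ
    have he : 0 < (e : ℤ) := by exact_mod_cast hQ.1
    have h4 : Q.ord (algebraMap (RatFunc (AlgebraicClosure (ZMod p))) L v) < 0 ↔
        ∃ c ∈ RE, P = plC c := by
      rw [hQ.2 v, ← hvneg P]
      constructor
      · intro h5
        by_contra h6
        have h7 : 0 ≤ (e : ℤ) * P.ord v := mul_nonneg he.le (not_lt.1 h6)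
        omega
      · intro h5
        exact mul_neg_of_pos_of_neg he h5
    unfold kmE
    by_cases hP : ∃ c ∈ RE, P = plC c
    · rw [if_pos hP]
      exact if_pos (h4.2 hP)
    · rw [if_neg hP]
      exact if_neg fun h5 => hP (h4.1 h5)
  have hoddc : Odd RF.card := by
    rw [hFc]
    exact hodd
  have hABc : RA.card = RB.card := by rw [hAc, hBc, hAB]
  have hfr1 := fun (d : ℕ) (hd : d < 2 * a) =>
    kmSp_finrank (p := p) a ha RF RA RB RE h1 h2 h3 hoddc hABc d hd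
  have hpol1 := hKm.finrank_polSp (kmE RE) _ hE hE' (fun d hd => (hfr1 d hd).1)
  have hcard1 := hKm.card_polSp (kmE RE) _ hE hE'
  rw [kmSp_card hp2 a ha hpa RF RA RB RE h1 h2 h3 hoddc hABc s1
    (by rw [← hFp, ← hAp, ← hBp, ← hEp]; exact hs1)] at hcard1
  have hg1 : ∑ d ∈ Finset.range (2 * a), Module.finrank (AlgebraicClosure (ZMod p))
      (polSp (ratD p (AlgebraicClosure (ZMod p))) (fun P =>
        kmc (2 * a) (ratProd (RF ∪ RA ∪ RB ∪ RE) (kmM a RF RA RB)) d P + kmE RE P)) =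
      ∑ d ∈ Finset.range (2 * a), (kν F.natDegree A.natDegree E.natDegree d - 1) := by
    refine Finset.sum_congr rfl fun d hd => ?_
    rw [(hfr1 d (Finset.mem_range.1 hd)).2, hFc, hAc, hEc]
  -- the spaces without these poles
  have hEe : ∀ P : Plc (AlgebraicClosure (ZMod p)) (RatFunc (AlgebraicClosure (ZMod p))),
      kmE (∅ : Finset (AlgebraicClosure (ZMod p))) P = 0 := by
    intro P
    unfold kmE
    rw [if_neg]
    rintro ⟨c, hc, _⟩
    exact absurd hc (Finset.notMem_empty c)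
  have hE0 : ∀ P : Plc (AlgebraicClosure (ZMod p)) (RatFunc (AlgebraicClosure (ZMod p))),
      kmE (∅ : Finset (AlgebraicClosure (ZMod p))) P = 0 ∨
        (kmE (∅ : Finset (AlgebraicClosure (ZMod p))) P = 1 ∧
        P.ord (ratProd (RF ∪ RA ∪ RB ∪ RE) (kmM a RF RA RB)) = 0) := fun P => Or.inl (hEe P)
  have hE0' : ∀ (Q : Plc (AlgebraicClosure (ZMod p)) L)
      (P : Plc (AlgebraicClosure (ZMod p)) (RatFunc (AlgebraicClosure (ZMod p)))) (e : ℕ),
      OverE e Q P → (0 : Plc (AlgebraicClosure (ZMod p)) L → ℤ) Q =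
        kmE (∅ : Finset (AlgebraicClosure (ZMod p))) P := by
    intro Q P e _
    rw [hEe P]
    rfl
  have h3' : Disjoint (RF ∪ RA ∪ RB) (∅ : Finset (AlgebraicClosure (ZMod p))) :=
    Finset.disjoint_empty_right _
  have hfr0 := fun (d : ℕ) (hd : d < 2 * a) =>
    kmSp_finrank (p := p) a ha RF RA RB ∅ h1 h2 h3' hoddc hABc d hd
  have hca0 := kmSp_card hp2 a ha hpa RF RA RB ∅ h1 h2 h3' hoddc hABc s0
    (by rw [← hFp, ← hAp, ← hBp, Finset.prod_empty]; exact hs0)
  rw [hh'] at hfr0 hca0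
  have hpol0 := hKm.finrank_polSp (kmE ∅) 0 hE0 hE0' (fun d hd => (hfr0 d hd).1)
  have hcard0 := hKm.card_polSp (kmE ∅) 0 hE0 hE0'
  rw [hca0] at hcard0
  have hg0 : ∑ d ∈ Finset.range (2 * a), Module.finrank (AlgebraicClosure (ZMod p))
      (polSp (ratD p (AlgebraicClosure (ZMod p))) (fun P =>
        kmc (2 * a) (ratProd (RF ∪ RA ∪ RB ∪ RE) (kmM a RF RA RB)) d P +
          kmE (∅ : Finset (AlgebraicClosure (ZMod p))) P)) =
      ∑ d ∈ Finset.range (2 * a), (kν F.natDegree A.natDegree 0 d - 1) := by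
    refine Finset.sum_congr rfl fun d hd => ?_
    rw [(hfr0 d (Finset.mem_range.1 hd)).2, hFc, hAc, Finset.card_empty]
  exact hasCurve_of_KmS_as p (2 * a) hKm rat_transc rat_fin φ hφc hφX hφh hφn v hφv hv hv1 _
    (fun Q => rfl) _ _ s0 s1 hpol0.1 hpol1.1 (hpol0.2.trans hg0) hcard0 (hpol1.2.trans hg1) hcard1

end Pool.Agent.PRB
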