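import Pool.Agent.LibPRK.CrtDvd

/-!
# Adding logarithmic poles: stability

PLAN. `g' = crt (g * (W * E^(p-1)))` and `crt (g' * (W' * E^(p-1))) = 0`, so `E ∣ g' * W'` (`dvd_of_dvd_crt`), `E ∣ g'`, so (`dvd_of_dvd_crt`) `E ∣ g * W`, `E ∣ g`,
`g = E g₀`, `g₀.degree < ν - 1` (for `ν = 0`: `deg g < δ - 1` so `g₀ = 0`), `g' = E * crt (g₀ * W)`, `0 = crt (E^p * (crt (g₀ W) * W')) = E * crt (crt (g₀ W) * W')`; `hst`.
-/

set_option autoImplicit false

namespace Pool.Agent.PRB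

open Polynomial

variable {p : ℕ} [Fact p.Prime] {k : Type} [Field k] [IsAlgClosed k] [CharP k p]

private theorem LogS_deg {E g : k[X]} (hE0 : E ≠ 0) (ν : ℕ)
    (h : (E * g).degree < ((ν + E.natDegree - 1 : ℕ) : WithBot ℕ)) :
    g.degree < ((ν - 1 : ℕ) : WithBot ℕ) := by
  by_cases hg : g = 0
  · rw [hg, degree_zero]
    exact WithBot.bot_lt_coe _
  · rw [← natDegree_lt_iff_degree_lt (mul_ne_zero hE0 hg), natDegree_mul hE0 hg] at h
    rw [← natDegree_lt_iff_degree_lt hg]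
    omega

private theorem LogS_crt (W E g : k[X]) :
    crt p (E * g * (W * E ^ (p - 1))) = E * crt p (g * W) := by
  have h1 : E * g * (W * E ^ (p - 1)) = E ^ p * (g * W) := by
    have h2 : E ^ p = E * E ^ (p - 1) := (mul_pow_sub_one (Fact.out : p.Prime).ne_zero E).symm
    rw [h2]
    ring
  rw [h1, crt_pow_mul]

private theorem LogS_dvd {W E g : k[X]} (hE : E.Separable) (hWE : IsCoprime W E)
    (h : E ∣ crt p (g * (W * E ^ (p - 1)))) : E ∣ g := by
  have h5 : E ∣ g * W := by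
    refine dvd_of_dvd_crt (p := p) E (g * W) hE ?_
    rw [mul_assoc]
    exact h
  exact hWE.symm.dvd_of_dvd_mul_right h5

theorem log_stable (W W' E : k[X]) (hE : E.Separable) (hWE : IsCoprime W E)
    (hWE' : IsCoprime W' E) (ν : ℕ)
    (hst : ∀ g : k[X], g.degree < ((ν - 1 : ℕ) : WithBot ℕ) →
      crt p (crt p (g * W) * W') = 0 → crt p (g * W) = 0)
    (g : k[X]) (hg : g.degree < ((ν + E.natDegree - 1 : ℕ) : WithBot ℕ))
    (h0 : crt p (crt p (g * (W * E ^ (p - 1))) * (W' * E ^ (p - 1))) = 0) :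
    crt p (g * (W * E ^ (p - 1))) = 0 := by
  have hE0 : E ≠ 0 := hE.ne_zero
  have h1 : E ∣ crt p (g * (W * E ^ (p - 1))) := by
    refine LogS_dvd (p := p) hE hWE' ?_
    rw [h0]
    exact dvd_zero E
  obtain ⟨g0, rfl⟩ := LogS_dvd (p := p) hE hWE h1
  rw [LogS_crt] at h0 ⊢
  rw [LogS_crt] at h0
  have h2 := (mul_eq_zero.1 h0).resolve_left hE0
  rw [hst g0 (LogS_deg hE0 ν hg) h2, mul_zero]

end Pool.Agent.PRB
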