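import Pool.Agent.LibPRK.LogK
import Pool.Agent.LibPRK.LogS
import Pool.Agent.LibPRK.KFamN

/-!
# Good families: adding blocks and logarithmic poles

PLAN (all four).  `d < 2 a`, `t = p * d % (2 a) < 2 a`; `t` has the same parity as `d` and `t = 0` iff `d = 0` (cf. `kfam_N`), so
`kN F A E t = kN F A E d`.  `W_d = kW p a F A B E d`.
`KGood.quad`: even `d`: neither `kW` nor `kN` changes (`kν` does not involve `α`).  Odd `d`: `kW p a (F * (A_S * B_S)) A B 1 d =
kW p a F A B 1 d * blkU p ((p-1)/2) S₀` (`μ = (p-1)/2 = p - 1 - μ`, `p` odd), and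
`kν` increases by `L_S = (blkA p S₀).natDegree = (blkB p S₀).natDegree`: `(α + 2 L_S + 1) / 2 = (α + 1) / 2 + L_S`, so
`kN_new = ν + L_S - 1` with `ν = kν F.natDegree A.natDegree 0 d`, `kN_old = ν - 1`.  `blk_ker`, `blk_stable` (`W := W_t`, `W' := W_d`, both divide
`(F * A * B) ^ (p-1)`; `hd1`, `hd2`: `natDegree W_t = (p-1)/2 * α + (p-1) L`, `ν = (α+1)/2 + L`, `α` odd).
`KGood.full`: `d = 0` unchanged; `d > 0`: `kW p a F A_S B_S 1 d = kW p a F 1 1 1 d * blkU p μ S₀` with `μ = p - 1 - p d / (2 a)`,
`p - 1 - μ = p d / (2 a)` (`≤ p - 1`); `μ` depends on the class: `μ` for `t`, `μ'` for `d`.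
`KGood.log`: `kW p a F A B E d = kW p a F A B 1 d * E ^ (p-1)`, `kN = ν + δ - 1`; `log_ker`, `log_stable` (`W_d` is a product of powers of
`F`, `A`, `B`, so coprime to `E` by separability of the product: `Polynomial.Separable`, `Separable.isCoprime`).
`KGood.base`: `A = B = E = 1`: even `d`: `kN = 0`, `kSp = ⊥` (degree `< 0`).  Odd `d`: `kW = F ^ ((p-1)/2)`, `kN = (p+1)/2 - 1 = (p-1)/2 = m`.
`kSp p (F^m) m` has dimension one: `g ↦ g.coeff 0` is injective on it (`h2`, applied to differences), so `finrank ≤ 1`; it is not zero because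
the linear map `degreeLT k m → (Fin (m-1) → k)`, `g ↦ ((g * F^m).coeff (p (i+1) + (p-1)))_i` has a kernel (`m > m - 1`), for `i = 0` the coefficient vanishes
by `h1` and for `i ≥ m` by the degree (`natDegree (g F^m) ≤ m - 1 + p m < p m + (p - 1)`).  `st`: `c = crt (g * F^m)` has degree `< m` and `c.coeff 0 = 0`
(`h1`, `coeff_crt`), so if `crt (c * F^m) = 0` then `c = 0` by `h2` (`crt_eq_zero_iff`).
-/

set_option autoImplicit false

namespace Pool.Agent.PRB

open Polynomial

variable {p : ℕ} [Fact p.Prime] {k : Type} [Field k] [IsAlgClosed k] [CharP k p]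

theorem KGood.log (hp2 : p ≠ 2) {a : ℕ} (ha : 0 < a) (hpa : ¬ p ∣ a) {F A B E : k[X]}
    (hsep : (F * A * B * E).Separable) (h : KGood p a F A B 1) : KGood p a F A B E := by
  have hE : E.Separable := hsep.of_mul_right
  have hcop : IsCoprime (F * A * B) E := hsep.isCoprime
  have hFA : IsCoprime (F * A) E := hcop.of_mul_left_left
  have hB : IsCoprime B E := hcop.of_mul_left_right
  have hF : IsCoprime F E := hFA.of_mul_left_left
  have hA : IsCoprime A E := hFA.of_mul_left_right
  have hW : ∀ d, IsCoprime (kW p a F A B 1 d) E := by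
    intro d
    unfold kW
    rw [one_pow, mul_one]
    refine IsCoprime.mul_left ?_ ?_
    · split_ifs
      · exact hF.pow_left
      · exact isCoprime_one_left
    · split_ifs
      · exact isCoprime_one_left
      · exact IsCoprime.mul_left hA.pow_left hB.pow_left
  have hWE : ∀ d, kW p a F A B E d = kW p a F A B 1 d * E ^ (p - 1) := by
    intro d
    unfold kW
    rw [one_pow, mul_one]
  have hN1 : ∀ d, kN F A 1 d = kν F.natDegree A.natDegree 0 d - 1 := by
    intro d
    unfold kN
    rw [natDegree_one]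
  have hNE : ∀ d, kN F A E d = kν F.natDegree A.natDegree 0 d + E.natDegree - 1 := by
    intro d
    unfold kN kν
    rw [add_zero]
  have hfin : ∀ d, Module.finrank k (kSp p (kW p a F A B E d) (kN F A E d)) =
      Module.finrank k (kSp p (kW p a F A B 1 d) (kN F A 1 d)) := by
    intro d
    rw [hWE, hNE, hN1]
    exact log_ker _ _ hE (hW d) _
  exact
    { odd := fun d hd h1 => by rw [hfin]; exact h.odd d hd h1
      even := fun d hd h1 => by
        have h2 := hfin d
        rw [h.even d hd h1, finrank_bot] at h2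
        have := kSp_finite (p := p) (kW p a F A B E d) (kN F A E d)
        exact Submodule.finrank_eq_zero.1 h2
      st := fun d hd g hg h0 => by
        rw [hWE, hWE] at h0
        rw [hWE]
        rw [hNE] at hg
        refine log_stable _ _ E hE (hW _) (hW d) (kν F.natDegree A.natDegree 0 d) ?_ g hg h0
        intro g' hg' h1
        refine h.st d hd g' ?_ h1
        rw [hN1]
        exact hg' }

end Pool.Agent.PRB
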