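import Pool.Agent.LibPRK.SysD
import Pool.Agent.LibPRK.StE
import Pool.Agent.LibPRK.KmMain
import Pool.Agent.LibPRK.KmMainA
import Pool.Agent.LibPRK.KFamOf

/-!
# Systems give curves

PLAN. `k = AlgebraicClosure (ZMod p)` (characteristic `p`: `charP_of_injective_algebraMap`).  `natDegree_map` for monic polynomials / field embeddings.
`KSys.curve` (`E` arbitrary, ignored): `KGood.kfam` gives `KFam p a F A B 1 (∑ - a)`; `hasCurve_kummer` (`(F * A * B).Separable` from `h.sep`: `Separable.of_mul_left`).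
`KSys.curve_as`: also `KGood.log` for the images of `E` (`hsep`: `Polynomial.Separable.map`), `KGood.kfam`, `hasCurve_kummer_as`.
-/

set_option autoImplicit false

namespace Pool.Agent.PRB

open Polynomial

variable {p : ℕ} [Fact p.Prime]

private theorem SysC_char (p : ℕ) [Fact p.Prime] : CharP (AlgebraicClosure (ZMod p)) p :=
  charP_of_injective_algebraMap (algebraMap (ZMod p) (AlgebraicClosure (ZMod p))).injective p

private theorem SysC_sum {a : ℕ} (F A E : (ZMod p)[X]) :
    ∑ d ∈ Finset.range (2 * a), kN (F.map (algebraMap (ZMod p) (AlgebraicClosure (ZMod p))))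
      (A.map (algebraMap (ZMod p) (AlgebraicClosure (ZMod p))))
      (E.map (algebraMap (ZMod p) (AlgebraicClosure (ZMod p)))) d =
      ∑ d ∈ Finset.range (2 * a), (kν F.natDegree A.natDegree E.natDegree d - 1) := by
  refine Finset.sum_congr rfl fun d _ => ?_
  unfold kN
  rw [natDegree_map, natDegree_map, natDegree_map]

private theorem SysC_k0 (hp2 : p ≠ 2) {a : ℕ} (ha : 0 < a) (hpa : ¬ p ∣ a) {E F A B : (ZMod p)[X]}
    (h : KSys p a E F A B) :
    KFam p a (F.map (algebraMap (ZMod p) (AlgebraicClosure (ZMod p))))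
      (A.map (algebraMap (ZMod p) (AlgebraicClosure (ZMod p))))
      (B.map (algebraMap (ZMod p) (AlgebraicClosure (ZMod p)))) 1
      ((∑ d ∈ Finset.range (2 * a), (kν F.natDegree A.natDegree 0 d - 1)) - a) := by
  have hcp := SysC_char p
  have hk := (h.good (AlgebraicClosure (ZMod p))).kfam hp2 ha hpa
    (by rw [natDegree_map, natDegree_map]; exact h.deg)
  have h1 := SysC_sum (a := a) F A 1
  rw [Polynomial.map_one, natDegree_one] at h1
  rwa [h1] at hk

theorem KSys.curve (hp2 : p ≠ 2) {a : ℕ} (ha : 0 < a) (hpa : ¬ p ∣ a) {E F A B : (ZMod p)[X]}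
    (hA : 0 < A.natDegree) (h : KSys p a E F A B) :
    HasCurve p (∑ d ∈ Finset.range (2 * a), (kν F.natDegree A.natDegree 0 d - 1))
      ((∑ d ∈ Finset.range (2 * a), (kν F.natDegree A.natDegree 0 d - 1)) - a) :=
  hasCurve_kummer p hp2 a ha hpa F A B h.mF h.mA h.mB h.sep.of_mul_left h.deg.symm hA h.odd _
    (SysC_k0 hp2 ha hpa h)

theorem KSys.curve_as (hp2 : p ≠ 2) {a : ℕ} (ha : 0 < a) (hpa : ¬ p ∣ a)
    {E F A B : (ZMod p)[X]} (hA : 0 < A.natDegree) (hE : E.Monic) (hE1 : 0 < E.natDegree)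
    (h : KSys p a E F A B) :
    HasCurve p ((p - 1) * (∑ d ∈ Finset.range (2 * a),
        (kν F.natDegree A.natDegree E.natDegree d - 1)) +
        ∑ d ∈ Finset.range (2 * a), (kν F.natDegree A.natDegree 0 d - 1))
      ((p - 1) * ((∑ d ∈ Finset.range (2 * a),
        (kν F.natDegree A.natDegree E.natDegree d - 1)) - a) +
        ((∑ d ∈ Finset.range (2 * a), (kν F.natDegree A.natDegree 0 d - 1)) - a)) := by
  have hcp := SysC_char p
  have hsep : (F.map (algebraMap (ZMod p) (AlgebraicClosure (ZMod p))) *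
      A.map (algebraMap (ZMod p) (AlgebraicClosure (ZMod p))) *
      B.map (algebraMap (ZMod p) (AlgebraicClosure (ZMod p))) *
      E.map (algebraMap (ZMod p) (AlgebraicClosure (ZMod p)))).Separable := by
    rw [← Polynomial.map_mul, ← Polynomial.map_mul, ← Polynomial.map_mul]
    exact h.sep.map
  have hk := (KGood.log hp2 ha hpa hsep (h.good (AlgebraicClosure (ZMod p)))).kfam hp2 ha hpa
    (by rw [natDegree_map, natDegree_map]; exact h.deg)
  rw [SysC_sum] at hk
  exact hasCurve_kummer_as p hp2 a ha hpa F A B E h.mF h.mA h.mB hE h.sep h.deg.symm hA hE1 h.odd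
    _ _ (SysC_k0 hp2 ha hpa h) hk

end Pool.Agent.PRB
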