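import Pool.Agent.LibPRK.SysXE
import Pool.Agent.LibPRK.SysC
import Pool.Agent.LibPRB.Final

/-!
# All curves of large genus over `F_p`, with an explicit bound
-/

set_option autoImplicit false

namespace Pool.Agent.PRB

open Polynomial

theorem kBd_mono (p a : ℕ) {e e' : ℕ} (h : e ≤ e') : kBd p a e ≤ kBd p a e' := by
  unfold kBd
  gcongr

theorem fin_one_e (p : ℕ) [Fact p.Prime] (hp4 : p % 4 = 1) (a : ℕ) (ha : 0 < a) (hpa : ¬ p ∣ a)
    (g : ℕ) (hg : kBd p a 0 ≤ g) : HasCurve p g (g - a) := by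
  have hp2 : p ≠ 2 := by omega
  obtain ⟨F, A, B, h, hA, hs⟩ := exists_sys_e hp4 ha hpa (1 : (ZMod p)[X]) monic_one
    (Or.inl rfl) g (by rw [natDegree_one]; exact hg)
  have h1 := h.curve hp2 ha hpa hA
  rwa [hs] at h1

theorem FinE_irr (p : ℕ) [Fact p.Prime] (d : ℕ) (hd0 : d ≠ 0) :
    ∃ Q : (ZMod p)[X], Q.Monic ∧ Irreducible Q ∧ Q.natDegree = d := by
  obtain ⟨α, hα⟩ := Field.exists_primitive_element (ZMod p) (GaloisField p d)
  have hint : IsIntegral (ZMod p) α := Algebra.IsIntegral.isIntegral α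
  refine ⟨minpoly (ZMod p) α, minpoly.monic hint, minpoly.irreducible hint, ?_⟩
  have h1 := IntermediateField.adjoin.finrank hint
  rw [hα, IntermediateField.finrank_top', GaloisField.finrank p hd0] at h1
  exact h1.symm

theorem fin_two_e (p : ℕ) [Fact p.Prime] (hp4 : p % 4 = 1) (a : ℕ) (ha : 0 < a) (hpa : ¬ p ∣ a)
    (g : ℕ) (hg : p * (kBd p a (2 * p) + a) + (p - 1) * (2 * a * (2 * p)) ≤ g) :
    HasCurve p g (g - p * a) := by
  have hpp : p.Prime := Fact.out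
  have hp2 : p ≠ 2 := by omega
  have hp3 : 3 ≤ p := by
    have := hpp.two_le
    omega
  have hco : Nat.Coprime (2 * a) p := (KFamN_cop hp2 hpa).symm
  obtain ⟨t, htp, c, hc⟩ := SysX_res (a := p) (p := 2 * a) hpp.pos hco (2 * a * (p + 1) - 1 + g)
  obtain ⟨δ, hδ⟩ : ∃ δ, δ = p + 1 + t := ⟨_, rfl⟩
  obtain ⟨E, hEm, hEi, hEd⟩ := FinE_irr p δ (by omega)
  have hδ1 : 1 ≤ 2 * a * δ := by
    have : 0 < 2 * a * δ := Nat.mul_pos (by omega) (by omega)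
    omega
  have hδle : 2 * a * δ ≤ 2 * a * (2 * p) := Nat.mul_le_mul_left _ (by omega)
  have hle : (p - 1) * (2 * a * δ - 1) ≤ (p - 1) * (2 * a * (2 * p)) :=
    Nat.mul_le_mul_left _ (by omega)
  obtain ⟨G, hG⟩ : ∃ G : ℕ, g = p * G + (p - 1) * (2 * a * δ - 1) := by
    have hle2 : (p - 1) * (2 * a * δ - 1) ≤ g := by omega
    have hd : p ∣ g - (p - 1) * (2 * a * δ - 1) := by
      rw [← Int.natCast_dvd_natCast, Nat.cast_sub hle2, Nat.cast_mul,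
        Nat.cast_sub (show 1 ≤ p by omega), Nat.cast_sub hδ1, hδ]
      refine ⟨c - (2 * a * (p + 1 + t) - 1), ?_⟩
      push_cast at hc ⊢
      linear_combination hc
    obtain ⟨G, hG⟩ := hd
    exact ⟨G, by omega⟩
  have hGb : kBd p a (2 * p) + a ≤ G := by
    by_contra hlt
    have h3 : p * (G + 1) ≤ p * (kBd p a (2 * p) + a) := Nat.mul_le_mul_left p (by omega)
    rw [mul_add, mul_one] at h3
    omega
  obtain ⟨F, A, B, h, hA, hs⟩ := exists_sys_e hp4 ha hpa E hEm (Or.inr ⟨hEi, by omega⟩) G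
    (le_trans (kBd_mono p a (by omega)) (le_trans (Nat.le_add_right _ _) hGb))
  have h1 := h.curve_as hp2 ha hpa hA hEm (by omega)
  rw [kν_sum_E a F.natDegree A.natDegree E.natDegree ha hA (by omega), hs, hEd] at h1
  have e1 : (p - 1) * (G + 2 * a * δ - 1) + G = g := by
    rw [show G + 2 * a * δ - 1 = G + (2 * a * δ - 1) by omega, mul_add, hG]
    obtain ⟨q, hq⟩ : ∃ q, p = q + 1 := ⟨p - 1, by omega⟩
    rw [show p - 1 = q by omega, hq]
    ring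
  have e2 : (p - 1) * (G + 2 * a * δ - 1 - a) + (G - a) = g - p * a := by
    obtain ⟨q, hq⟩ : ∃ q, p = q + 1 := ⟨p - 1, by omega⟩
    obtain ⟨r, hr⟩ : ∃ r, G = r + a := ⟨G - a, by omega⟩
    have e3 : (p - 1) * (G + 2 * a * δ - 1 - a) + (G - a) + p * a = g := by
      rw [← e1, show G + 2 * a * δ - 1 = G + (2 * a * δ - 1) by omega,
        show G + (2 * a * δ - 1) - a = r + (2 * a * δ - 1) by omega,
        show G - a = r by omega, hr, show p - 1 = q by omega, hq]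
      ring
    omega
  rwa [e1, e2] at h1

theorem FinE_b1 (p a : ℕ) (hp : 3 ≤ p) (ha : a ≤ p ^ 2) : kBd p a 0 ≤ (2 * p) ^ (2 * p + 5) := by
  obtain ⟨Q, hQ⟩ : ∃ Q, Q = (2 * p) ^ (2 * p - 1) := ⟨_, rfl⟩
  have hQ1 : 1 ≤ Q := by
    rw [hQ]
    exact Nat.one_le_pow _ _ (by omega)
  have hpow : (2 * p) ^ (2 * p + 5) = 64 * p ^ 6 * Q := by
    rw [hQ, show 2 * p + 5 = (2 * p - 1) + 6 by omega, pow_add]
    ring
  have hp1 : p ≤ p ^ 3 := by nlinarith [Nat.pow_le_pow_left hp 2, Nat.pow_le_pow_left hp 3]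
  obtain ⟨Lm, hLm⟩ : ∃ Lm, Lm = p * (2 * p ^ 2 + 0 + a) := ⟨_, rfl⟩
  have hL : Lm ≤ 3 * p ^ 3 := by
    rw [hLm]
    calc p * (2 * p ^ 2 + 0 + a) ≤ p * (3 * p ^ 2) := Nat.mul_le_mul_left _ (by omega)
      _ = 3 * p ^ 3 := by ring
  have h2 : p + 2 * Lm + 0 + 2 ≤ 8 * p ^ 3 := by
    have : 2 ≤ p ^ 3 := by omega
    omega
  have h3 : p * (Q * (p + 2 * Lm + 0 + 2)) + (p + 1) / 2 + Lm ≤ 12 * p ^ 4 * Q := by
    have h4 : p * (Q * (p + 2 * Lm + 0 + 2)) ≤ 8 * p ^ 4 * Q := by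
      calc p * (Q * (p + 2 * Lm + 0 + 2)) ≤ p * (Q * (8 * p ^ 3)) :=
            Nat.mul_le_mul_left _ (Nat.mul_le_mul_left _ h2)
        _ = 8 * p ^ 4 * Q := by ring
    have h5 : (p + 1) / 2 + Lm ≤ 4 * p ^ 3 := by omega
    have h6 : 4 * p ^ 3 ≤ 4 * p ^ 4 * Q := by
      calc 4 * p ^ 3 = 4 * p ^ 3 * 1 := by ring
        _ ≤ 4 * p ^ 4 * Q := Nat.mul_le_mul (Nat.mul_le_mul_left 4
            (Nat.pow_le_pow_right (by omega) (by norm_num))) hQ1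
    have h7 : 12 * p ^ 4 * Q = 8 * p ^ 4 * Q + 4 * p ^ 4 * Q := by ring
    omega
  have h8 : (a - 1) * Lm ≤ 3 * p ^ 6 * Q := by
    calc (a - 1) * Lm ≤ p ^ 2 * (3 * p ^ 3) := Nat.mul_le_mul (by omega) hL
      _ = 3 * p ^ 5 * 1 := by ring
      _ ≤ 3 * p ^ 6 * Q := Nat.mul_le_mul (Nat.mul_le_mul_left 3
            (Nat.pow_le_pow_right (by omega) (by norm_num))) hQ1
  have h9 : a * (p * (Q * (p + 2 * Lm + 0 + 2)) + (p + 1) / 2 + Lm) ≤ 12 * p ^ 6 * Q := by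
    calc a * (p * (Q * (p + 2 * Lm + 0 + 2)) + (p + 1) / 2 + Lm) ≤ p ^ 2 * (12 * p ^ 4 * Q) :=
          Nat.mul_le_mul ha h3
      _ = 12 * p ^ 6 * Q := by ring
  have h10 : kBd p a 0 = a * (p * (Q * (p + 2 * Lm + 0 + 2)) + (p + 1) / 2 + Lm) +
      (a - 1) * Lm := by
    rw [hQ, hLm]
    rfl
  rw [h10, hpow]
  have h11 : 64 * p ^ 6 * Q = 12 * p ^ 6 * Q + 3 * p ^ 6 * Q + 49 * p ^ 6 * Q := by ring
  omega

theorem FinE_b2 (p a : ℕ) (hp : 3 ≤ p) (ha : a ≤ p) :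
    p * (kBd p a (2 * p) + a) + (p - 1) * (2 * a * (2 * p)) ≤ (2 * p) ^ (2 * p + 5) := by
  obtain ⟨Q, hQ⟩ : ∃ Q, Q = (2 * p) ^ (2 * p - 1) := ⟨_, rfl⟩
  have hQ1 : 1 ≤ Q := by
    rw [hQ]
    exact Nat.one_le_pow _ _ (by omega)
  have hpow : (2 * p) ^ (2 * p + 5) = 64 * p ^ 6 * Q := by
    rw [hQ, show 2 * p + 5 = (2 * p - 1) + 6 by omega, pow_add]
    ring
  have hp1 : p ≤ p ^ 3 := by nlinarith [Nat.pow_le_pow_left hp 2, Nat.pow_le_pow_left hp 3]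
  have hp2 : p ≤ p ^ 2 := by nlinarith
  obtain ⟨Lm, hLm⟩ : ∃ Lm, Lm = p * (2 * p ^ 2 + 2 * p + a) := ⟨_, rfl⟩
  have hL : Lm ≤ 5 * p ^ 3 := by
    rw [hLm]
    calc p * (2 * p ^ 2 + 2 * p + a) ≤ p * (5 * p ^ 2) := Nat.mul_le_mul_left _ (by omega)
      _ = 5 * p ^ 3 := by ring
  have h2 : p + 2 * Lm + 2 * p + 2 ≤ 15 * p ^ 3 := by
    have : 2 ≤ p ^ 3 := by omega
    omega
  have h3 : p * (Q * (p + 2 * Lm + 2 * p + 2)) + (p + 1) / 2 + Lm ≤ 21 * p ^ 4 * Q := by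
    have h4 : p * (Q * (p + 2 * Lm + 2 * p + 2)) ≤ 15 * p ^ 4 * Q := by
      calc p * (Q * (p + 2 * Lm + 2 * p + 2)) ≤ p * (Q * (15 * p ^ 3)) :=
            Nat.mul_le_mul_left _ (Nat.mul_le_mul_left _ h2)
        _ = 15 * p ^ 4 * Q := by ring
    have h5 : (p + 1) / 2 + Lm ≤ 6 * p ^ 3 := by omega
    have h6 : 6 * p ^ 3 ≤ 6 * p ^ 4 * Q := by
      calc 6 * p ^ 3 = 6 * p ^ 3 * 1 := by ring
        _ ≤ 6 * p ^ 4 * Q := Nat.mul_le_mul (Nat.mul_le_mul_left 6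
            (Nat.pow_le_pow_right (by omega) (by norm_num))) hQ1
    have h7 : 21 * p ^ 4 * Q = 15 * p ^ 4 * Q + 6 * p ^ 4 * Q := by ring
    omega
  have h8 : (a - 1) * Lm ≤ 5 * p ^ 5 * Q := by
    calc (a - 1) * Lm ≤ p * (5 * p ^ 3) := Nat.mul_le_mul (by omega) hL
      _ = 5 * p ^ 4 * 1 := by ring
      _ ≤ 5 * p ^ 5 * Q := Nat.mul_le_mul (Nat.mul_le_mul_left 5
            (Nat.pow_le_pow_right (by omega) (by norm_num))) hQ1
  have h9 : a * (p * (Q * (p + 2 * Lm + 2 * p + 2)) + (p + 1) / 2 + Lm) ≤ 21 * p ^ 5 * Q := by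
    calc a * (p * (Q * (p + 2 * Lm + 2 * p + 2)) + (p + 1) / 2 + Lm) ≤ p * (21 * p ^ 4 * Q) :=
          Nat.mul_le_mul ha h3
      _ = 21 * p ^ 5 * Q := by ring
  have h10 : kBd p a (2 * p) = a * (p * (Q * (p + 2 * Lm + 2 * p + 2)) + (p + 1) / 2 + Lm) +
      (a - 1) * Lm := by
    rw [hQ, hLm]
    rfl
  have h12 : kBd p a (2 * p) + a ≤ 27 * p ^ 5 * Q := by
    have h13 : a ≤ p ^ 5 * Q := by
      calc a ≤ p ^ 1 * 1 := by rw [pow_one, mul_one]; exact ha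
        _ ≤ p ^ 5 * Q := Nat.mul_le_mul (Nat.pow_le_pow_right (by omega) (by norm_num)) hQ1
    have h14 : 27 * p ^ 5 * Q = 21 * p ^ 5 * Q + 5 * p ^ 5 * Q + p ^ 5 * Q := by ring
    rw [h10]
    omega
  have h15 : p * (kBd p a (2 * p) + a) ≤ 27 * p ^ 6 * Q := by
    calc p * (kBd p a (2 * p) + a) ≤ p * (27 * p ^ 5 * Q) := Nat.mul_le_mul_left _ h12
      _ = 27 * p ^ 6 * Q := by ring
  have h16 : (p - 1) * (2 * a * (2 * p)) ≤ 4 * p ^ 6 * Q := by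
    calc (p - 1) * (2 * a * (2 * p)) ≤ p * (2 * p * (2 * p)) :=
          Nat.mul_le_mul (by omega) (Nat.mul_le_mul_right _ (by omega))
      _ = 4 * p ^ 3 * 1 := by ring
      _ ≤ 4 * p ^ 6 * Q := Nat.mul_le_mul (Nat.mul_le_mul_left 4
            (Nat.pow_le_pow_right (by omega) (by norm_num))) hQ1
  rw [hpow]
  have h17 : 64 * p ^ 6 * Q = 27 * p ^ 6 * Q + 4 * p ^ 6 * Q + 33 * p ^ 6 * Q := by ring
  omega

/-- For `p = 1` mod `4`, `a < (p - 1) ^ 2 / 4` and `g` large. -/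
theorem fin_a_e (p : ℕ) [Fact p.Prime] (hp4 : p % 4 = 1) (a : ℕ) (ha : 0 < a)
    (h4a : 4 * a < (p - 1) ^ 2) (g : ℕ) (hg : (2 * p) ^ (2 * p + 5) ≤ g) :
    HasCurve p g (g - a) := by
  have hpp : p.Prime := Fact.out
  have hp3 : 3 ≤ p := by
    have := hpp.two_le
    omega
  have h2 : (p - 1) ^ 2 ≤ p ^ 2 := Nat.pow_le_pow_left (by omega) 2
  by_cases h : p ∣ a
  · obtain ⟨b, rfl⟩ := h
    have hb : 0 < b := Nat.pos_of_mul_pos_left ha
    have hbp : b < p := by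
      by_contra hlt
      have h3 : p * p ≤ p * b := Nat.mul_le_mul_left p (by omega)
      have h4 : p ^ 2 = p * p := pow_two p
      omega
    refine fin_two_e p hp4 b hb (fun h1 => ?_) g
      (le_trans (FinE_b2 p b hp3 hbp.le) hg)
    exact absurd (Nat.le_of_dvd hb h1) (by omega)
  · exact fin_one_e p hp4 a ha h g (le_trans (FinE_b1 p a hp3 (by omega)) hg)

/-- The final theorem. -/
theorem all_large_e (p : ℕ) [Fact p.Prime] (hp : 3 ≤ p) (g f : ℕ) (hg : 3 ≤ g) (hf : f < g)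
    (h : p ≤ 7 ∨ f + p ^ ((p + 9) / 2) ≤ g ∨
      (4 * p ^ 3 ≤ f ∧ (¬ 12 ∣ p - 1 ∨ (p - 1) ^ 2 ≤ 4 * (g - f))) ∨
      (2 * p) ^ (2 * p + 5) ≤ g) : HasCurve p g f := by
  rcases h with h | h | h | h
  · exact finite_box p hp g f hg hf (Or.inl h)
  · exact finite_box p hp g f hg hf (Or.inr (Or.inl h))
  · exact finite_box p hp g f hg hf (Or.inr (Or.inr h))
  · have hpp : p.Prime := Fact.out
    by_cases hf2 : f + p ^ ((p + 9) / 2) ≤ g
    · exact finite_box p hp g f hg hf (Or.inr (Or.inl hf2))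
    -- `f` is large
    have hf3 : 4 * p ^ 3 ≤ f := by
      have h1 : 4 * p ^ 3 + p ^ ((p + 9) / 2) ≤ (2 * p) ^ (2 * p + 5) := by
        have e1 : 4 * p ^ 3 ≤ 8 * p ^ (p + 6) := by
          calc 4 * p ^ 3 ≤ 8 * p ^ 3 := by omega
            _ ≤ 8 * p ^ (p + 6) := Nat.mul_le_mul_left 8
                (Nat.pow_le_pow_right (by omega) (by omega))
        have e2 : p ^ ((p + 9) / 2) ≤ p ^ (p + 6) :=
          Nat.pow_le_pow_right (by omega) (by omega)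
        have e3 : 32 * p ^ (p + 6) ≤ (2 * p) ^ (2 * p + 5) := by
          calc 32 * p ^ (p + 6) ≤ 2 ^ (2 * p + 5) * p ^ (2 * p + 5) := by
                refine Nat.mul_le_mul ?_ (Nat.pow_le_pow_right (by omega) (by omega))
                calc 32 = 2 ^ 5 := by norm_num
                  _ ≤ 2 ^ (2 * p + 5) := Nat.pow_le_pow_right (by norm_num) (by omega)
            _ = (2 * p) ^ (2 * p + 5) := (mul_pow 2 p (2 * p + 5)).symm
        omega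
      omega
    by_cases h12 : 12 ∣ p - 1
    · by_cases ha : 4 * (g - f) < (p - 1) ^ 2
      · have h2 := fin_a_e p (by omega) (g - f) (by omega) ha g h
        rwa [show g - (g - f) = f by omega] at h2
      · exact finite_box p hp g f hg hf (Or.inr (Or.inr ⟨hf3, Or.inr (by omega)⟩))
    · exact finite_box p hp g f hg hf (Or.inr (Or.inr ⟨hf3, Or.inl h12⟩))

end Pool.Agent.PRB
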