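import Pool.Agent.LibPRK.Crt
import Pool.Agent.LibPRK.FamD

/-!
# Good families of twisted Cartier operators

In the classes `d` with `d` odd the kernel of the twisted Cartier operator is one-dimensional, in the
other classes it is zero, and no image meets a kernel.
-/

set_option autoImplicit false

namespace Pool.Agent.PRB

open Polynomial

/-- The bound for the degrees in the class `d`. -/
def kN {k : Type} [Field k] (F A E : k[X]) (d : ℕ) : ℕ :=
  kν F.natDegree A.natDegree E.natDegree d - 1

/-- Kernels of dimension `1` in the odd classes, `0` in the even classes, and no image meets a kernel. -/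
structure KGood (p a : ℕ) [Fact p.Prime] {k : Type} [Field k] [IsAlgClosed k] [CharP k p]
    (F A B E : k[X]) : Prop where
  odd : ∀ d < 2 * a, d % 2 = 1 → Module.finrank k (kSp p (kW p a F A B E d) (kN F A E d)) = 1
  even : ∀ d < 2 * a, d % 2 = 0 → kSp p (kW p a F A B E d) (kN F A E d) = ⊥
  st : ∀ d < 2 * a, ∀ g : k[X], g.degree < (kN F A E d : WithBot ℕ) →
    crt p (crt p (g * kW p a F A B E (p * d % (2 * a))) * kW p a F A B E d) = 0 →
    crt p (g * kW p a F A B E (p * d % (2 * a))) = 0

end Pool.Agent.PRB
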