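import Pool.Agent.LibPRB.TwS

/-!
# Kummer covers `u ^ N = h`: definitions and coefficients
-/

set_option autoImplicit false

namespace Pool.Agent.PRB

/-- `L = K(u)` with `u ^ N = h`, of degree `N` over `K`. -/
structure IsKm (N : ℕ) {K L : Type} [Field K] [Field L] [Algebra K L] (h : K) (u : L) :
    Prop where
  eq : u ^ N = algebraMap K L h
  repr : ∀ a : L, ∃ c : ℕ → K, a = ∑ i ∈ Finset.range N, algebraMap K L (c i) * u ^ i
  indep : ∀ c : ℕ → K, ∑ i ∈ Finset.range N, algebraMap K L (c i) * u ^ i = 0 → ∀ i < N, c i = 0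

open Classical in
/-- The coefficients of `a` with respect to the basis `u ^ i`, `i < N`. -/
noncomputable def IsKm.co {N : ℕ} {K L : Type} [Field K] [Field L] [Algebra K L] {h : K} {u : L}
    (T : IsKm N h u) (a : L) (i : ℕ) : K :=
  if i < N then (T.repr a).choose i else 0

/-- The pole order at `P` allowed for the coefficient of `u ^ d` of a regular differential. -/
def kmc {k K : Type} [Field k] [Field K] [Algebra k K] (N : ℕ) (h : K) (d : ℕ) (P : Plc k K) : ℤ :=
  cdiv (d * P.ord h) N

/-- The Kummer cover `u ^ N = h` of the function field `K` with its derivation. -/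
structure KmS (p N : ℕ) {k K L : Type} [Field k] [Field K] [Field L] [Algebra k K] [Algebra k L]
    [Algebra K L] (s : K) (D : Derivation k K K) (h : K) (u : L) (D' : Derivation k L L) :
    Prop where
  gf : GF p s D
  km : IsKm N h u
  h0 : h ≠ 0
  hN : ¬ p ∣ N
  D_alg : ∀ a : K, D' (algebraMap K L a) = algebraMap K L (D a)

variable {N : ℕ} {K L : Type} [Field K] [Field L] [Algebra K L] {h : K} {u : L}

namespace IsKm

theorem pos (T : IsKm N h u) : 0 < N := by
  rcases Nat.eq_zero_or_pos N with h0 | h0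
  · subst h0
    obtain ⟨c, hc⟩ := T.repr 1
    rw [Finset.range_zero, Finset.sum_empty] at hc
    exact absurd hc one_ne_zero
  · exact h0

theorem sum_co (T : IsKm N h u) (a : L) :
    ∑ i ∈ Finset.range N, algebraMap K L (T.co a i) * u ^ i = a := by
  have h1 := (T.repr a).choose_spec
  conv_rhs => rw [h1]
  refine Finset.sum_congr rfl fun i hi => ?_
  unfold co
  rw [if_pos (Finset.mem_range.1 hi)]

theorem co_of_le (T : IsKm N h u) (a : L) {i : ℕ} (hi : N ≤ i) : T.co a i = 0 := by
  unfold co
  rw [if_neg (by omega)]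

theorem co_eq_of_lt (T : IsKm N h u) {a : L} {c : ℕ → K}
    (ha : ∑ i ∈ Finset.range N, algebraMap K L (c i) * u ^ i = a) {i : ℕ} (hi : i < N) :
    T.co a i = c i := by
  have h1 : ∑ i ∈ Finset.range N, algebraMap K L (T.co a i - c i) * u ^ i = 0 := by
    have h2 := T.sum_co a
    simp only [map_sub, sub_mul, Finset.sum_sub_distrib]
    rw [h2, ha, sub_self]
  exact sub_eq_zero.1 (T.indep (fun i => T.co a i - c i) h1 i hi)

theorem co_eq (T : IsKm N h u) {a : L} {c : ℕ → K} (hc : ∀ i, N ≤ i → c i = 0)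
    (ha : ∑ i ∈ Finset.range N, algebraMap K L (c i) * u ^ i = a) : T.co a = c := by
  funext i
  rcases lt_or_ge i N with hi | hi
  · exact T.co_eq_of_lt ha hi
  · rw [T.co_of_le a hi, hc i hi]

theorem co_add (T : IsKm N h u) (a b : L) (i : ℕ) : T.co (a + b) i = T.co a i + T.co b i := by
  rcases lt_or_ge i N with hi | hi
  · refine T.co_eq_of_lt (c := fun i => T.co a i + T.co b i) ?_ hi
    simp only [map_add, add_mul, Finset.sum_add_distrib]
    rw [T.sum_co, T.sum_co]
  · rw [T.co_of_le _ hi, T.co_of_le _ hi, T.co_of_le _ hi, add_zero]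

theorem co_mul (T : IsKm N h u) (c : K) (a : L) (i : ℕ) :
    T.co (algebraMap K L c * a) i = c * T.co a i := by
  rcases lt_or_ge i N with hi | hi
  · refine T.co_eq_of_lt (c := fun i => c * T.co a i) ?_ hi
    simp only [map_mul, mul_assoc]
    rw [← Finset.mul_sum, T.sum_co]
  · rw [T.co_of_le _ hi, T.co_of_le _ hi, mul_zero]

theorem co_neg (T : IsKm N h u) (a : L) (i : ℕ) : T.co (-a) i = - T.co a i := by
  have := T.co_mul (-1) a i
  simpa using this

theorem co_sub (T : IsKm N h u) (a b : L) (i : ℕ) : T.co (a - b) i = T.co a i - T.co b i := by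
  rw [sub_eq_add_neg, T.co_add, T.co_neg, sub_eq_add_neg]

theorem co_zero (T : IsKm N h u) (i : ℕ) : T.co 0 i = 0 := by
  have := T.co_mul 0 0 i
  simpa using this

theorem co_sum (T : IsKm N h u) {ι : Type*} (s : Finset ι) (f : ι → L) (i : ℕ) :
    T.co (∑ j ∈ s, f j) i = ∑ j ∈ s, T.co (f j) i := by
  classical
  induction s using Finset.induction_on with
  | empty => simpa using T.co_zero i
  | insert j s hj ih => rw [Finset.sum_insert hj, Finset.sum_insert hj, T.co_add, ih]

theorem co_mul_u_pow (T : IsKm N h u) (c : K) {j : ℕ} (hj : j < N) (i : ℕ) :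
    T.co (algebraMap K L c * u ^ j) i = if i = j then c else 0 := by
  have h1 : T.co (algebraMap K L c * u ^ j) = fun i => if i = j then c else 0 := by
    refine T.co_eq ?_ ?_
    · intro i hi
      rw [if_neg (by omega)]
    · rw [Finset.sum_eq_single j]
      · rw [if_pos rfl]
      · intro i _ hij
        rw [if_neg hij, map_zero, zero_mul]
      · intro hj'
        exact absurd (Finset.mem_range.2 hj) hj'
  rw [h1]

theorem co_algebraMap (T : IsKm N h u) (c : K) (i : ℕ) :
    T.co (algebraMap K L c) i = if i = 0 then c else 0 := by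
  have := T.co_mul_u_pow c T.pos i
  simpa using this

theorem ext (T : IsKm N h u) {a b : L} (hab : ∀ i < N, T.co a i = T.co b i) : a = b := by
  rw [← T.sum_co a, ← T.sum_co b]
  refine Finset.sum_congr rfl fun i hi => ?_
  rw [hab i (Finset.mem_range.1 hi)]

theorem eq_zero_iff (T : IsKm N h u) {a : L} : a = 0 ↔ ∀ i < N, T.co a i = 0 := by
  constructor
  · rintro rfl i _
    exact T.co_zero i
  · intro h1
    refine T.ext fun i hi => ?_
    rw [h1 i hi, T.co_zero]

theorem u_ne (T : IsKm N h u) (hh : h ≠ 0) : u ≠ 0 := by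
  rintro rfl
  have h1 := T.eq
  rw [zero_pow T.pos.ne'] at h1
  exact hh ((algebraMap K L).injective (by rw [← h1, map_zero]))

/-- The element with given coefficients. -/
theorem exists_co (T : IsKm N h u) (c : ℕ → K) : ∃ a : L, ∀ i < N, T.co a i = c i :=
  ⟨∑ i ∈ Finset.range N, algebraMap K L (c i) * u ^ i, fun _ hi => T.co_eq_of_lt rfl hi⟩

theorem li (T : IsKm N h u) : LinearIndependent K (fun i : Fin N => u ^ (i : ℕ)) := by
  rw [Fintype.linearIndependent_iff]
  intro c hc i
  have h1 : ∑ i ∈ Finset.range N,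
      algebraMap K L ((fun j : ℕ => if hj : j < N then c ⟨j, hj⟩ else 0) i) * u ^ i = 0 := by
    rw [Finset.sum_range, ← hc]
    apply Finset.sum_congr rfl
    intro j _
    simp [Algebra.smul_def]
  have h2 := T.indep _ h1 i i.2
  simpa using h2

theorem span (T : IsKm N h u) :
    ⊤ ≤ Submodule.span K (Set.range (fun i : Fin N => u ^ (i : ℕ))) := by
  intro a _
  obtain ⟨c, rfl⟩ := T.repr a
  apply Submodule.sum_mem
  intro i hi
  rw [← Algebra.smul_def]
  apply Submodule.smul_mem
  apply Submodule.subset_span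
  exact ⟨⟨i, Finset.mem_range.1 hi⟩, rfl⟩

noncomputable def basis (T : IsKm N h u) : Module.Basis (Fin N) K L :=
  Module.Basis.mk T.li T.span

theorem finite (T : IsKm N h u) : Module.Finite K L :=
  Module.Finite.of_basis T.basis

theorem finrank (T : IsKm N h u) : Module.finrank K L = N := by
  rw [Module.finrank_eq_card_basis T.basis, Fintype.card_fin]

theorem ker (T : IsKm N h u) (q : Polynomial K) (hq : Polynomial.aeval u q = 0) :
    (Polynomial.X ^ N - Polynomial.C h) ∣ q := by
  set f : Polynomial K := Polynomial.X ^ N - Polynomial.C h with hf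
  have hmon : f.Monic := Polynomial.monic_X_pow_sub_C h T.pos.ne'
  have hfd : f.degree = (N : ℕ) := Polynomial.degree_X_pow_sub_C T.pos h
  have hfz : Polynomial.aeval u f = 0 := by
    simp only [hf, map_sub, map_pow, Polynomial.aeval_X, Polynomial.aeval_C]
    rw [T.eq]; ring
  rw [← Polynomial.modByMonic_eq_zero_iff_dvd hmon]
  set r := q %ₘ f with hr
  have hrz : Polynomial.aeval u r = 0 := by
    have := Polynomial.modByMonic_add_div q f
    have h2 := congrArg (Polynomial.aeval u) this
    rw [map_add, map_mul, hfz, zero_mul, add_zero, hq] at h2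
    exact h2
  have hrd : r.degree < (N : ℕ) := by
    rw [← hfd]
    exact Polynomial.degree_modByMonic_lt q hmon
  have hsum : ∑ i ∈ Finset.range N, algebraMap K L (r.coeff i) * u ^ i = 0 := by
    rw [← hrz, Polynomial.aeval_def, Polynomial.eval₂_eq_sum_range' (algebraMap K L)]
    by_cases hr0 : r = 0
    · rw [hr0]; simp; exact T.pos
    · exact (Polynomial.natDegree_lt_iff_degree_lt hr0).2 hrd
  ext i
  by_cases hi : i < N
  · rw [T.indep _ hsum i hi]; simp
  · rw [Polynomial.coeff_zero]
    apply Polynomial.coeff_eq_zero_of_degree_lt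
    refine lt_of_lt_of_le hrd ?_
    exact_mod_cast not_lt.1 hi

/-- Universal property of `L = K(u)`. -/
theorem lift (T : IsKm N h u) {M : Type} [CommRing M] (θ : K →+* M) (x : M)
    (hx : x ^ N = θ h) :
    ∃ Θ : L →+* M, (∀ a : K, Θ (algebraMap K L a) = θ a) ∧ Θ u = x := by
  have hsurj : Function.Surjective
      ((Polynomial.aeval u : Polynomial K →ₐ[K] L) : Polynomial K →+* L) := by
    intro a
    obtain ⟨c, rfl⟩ := T.repr a
    refine ⟨∑ i ∈ Finset.range N, Polynomial.C (c i) * Polynomial.X ^ i, ?_⟩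
    simp
  have hker : RingHom.ker ((Polynomial.aeval u : Polynomial K →ₐ[K] L) : Polynomial K →+* L) ≤
      RingHom.ker (Polynomial.eval₂RingHom θ x) := by
    intro q hq
    rw [RingHom.mem_ker] at hq ⊢
    obtain ⟨v, rfl⟩ := T.ker q hq
    rw [map_mul]
    have : Polynomial.eval₂RingHom θ x (Polynomial.X ^ N - Polynomial.C h) = 0 := by
      simp [hx]
    rw [this, zero_mul]
  let Θ := (((Polynomial.aeval u : Polynomial K →ₐ[K] L) : Polynomial K →+* L).liftOfSurjective
    hsurj) ⟨Polynomial.eval₂RingHom θ x, hker⟩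
  have hΘ : ∀ q : Polynomial K, Θ (Polynomial.aeval u q) = Polynomial.eval₂ θ x q := fun q =>
    RingHom.liftOfRightInverse_comp_apply _ _ _ _ q
  refine ⟨Θ, fun a => ?_, ?_⟩
  · have := hΘ (Polynomial.C a)
    simpa using this
  · have := hΘ Polynomial.X
    simpa using this

theorem ringHom_ext (T : IsKm N h u) {M : Type} [CommRing M] {Θ Θ' : L →+* M}
    (h1 : ∀ a : K, Θ (algebraMap K L a) = Θ' (algebraMap K L a)) (h2 : Θ u = Θ' u) : Θ = Θ' := by
  ext a
  obtain ⟨c, rfl⟩ := T.repr a
  simp only [map_sum, map_mul, map_pow, h1, h2]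

end IsKm

end Pool.Agent.PRB
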