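import Pool.Agent.LibPRK.KmTg
import Pool.Agent.LibPRB.TwDiff

/-!
# Kummer covers: the differential at the places

PLAN. Template: `diff_tw` (Pool/Agent/LibPRB/TwDiff.lean): `isDiff_of_bdd`, `exists_appr`; the coefficients are bounded by
`km_co_zero_ge` applied to `x / u ^ d` (`km_co_div`) — a crude bound is enough.  `D' u`: `N u ^ (N-1) D' u = D' (u ^ N) =
algebraMap (D h)`, so `D' (c u ^ d) = u ^ d * (D c + (d / N) c (D h) / h)`.
-/

set_option autoImplicit false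

namespace Pool.Agent.PRB

variable {p N : ℕ} [Fact p.Prime] {k K L : Type} [Field k] [Field K] [Field L]
  [Algebra k K] [Algebra k L] [Algebra K L] [IsScalarTower k K L] {h : K} {u : L}

omit [IsScalarTower k K L] in
private theorem KmDiff_up {e : ℕ} {Q : Plc k L} {P : Plc k K} (hQ : OverE e Q P) {n : ℤ} {a : K}
    (ha : P.ge n a) : Q.ge (e * n) (algebraMap K L a) := by
  rcases ha with ha | ha
  · left
    rw [ha, map_zero]
  · right
    rw [hQ.2]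
    exact mul_le_mul_of_nonneg_left ha (Int.natCast_nonneg e)

private theorem KmDiff_co [IsAlgClosed k] [CharP K p] (hpN : ¬ p ∣ N) (T : IsKm N h u)
    (hh : h ≠ 0) (P : Plc k K) (B : ℕ)
    (hB : ∀ (Q' : Plc k L) (e' : ℕ), OverE e' Q' P → (Q'.ord u).natAbs ≤ B) (x : L)
    (hx : ∀ (Q' : Plc k L) (e' : ℕ), OverE e' Q' P → Q'.ge 0 x) (d : ℕ) (hd : d < N) :
    P.ge (-((N * B : ℕ) : ℤ)) (T.co x d) := by
  rw [← km_co_div T hh x hd]
  refine km_co_zero_ge hpN T P _ _ fun Q' e' hQ' => ?_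
  have hu0 : u ≠ 0 := T.u_ne hh
  have h1 : Q'.ge (-((d : ℤ) * Q'.ord u)) ((u ^ d)⁻¹) := by
    right
    rw [Q'.ord_inv, Q'.ord_pow]
  have h2 := Q'.ge_mul (hx Q' e' hQ') h1
  rw [← div_eq_mul_inv] at h2
  refine h2.mono ?_
  have h3 : Q'.ord u ≤ B := by
    have := hB Q' e' hQ'
    omega
  have he : (1 : ℤ) ≤ e' := by exact_mod_cast hQ'.1
  have hdN : (d : ℤ) ≤ N := by exact_mod_cast hd.le
  have hB0 : (0 : ℤ) ≤ B := Int.natCast_nonneg B
  have h4 : (d : ℤ) * Q'.ord u ≤ d * B := mul_le_mul_of_nonneg_left h3 (Int.natCast_nonneg d)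
  have h5 : (d : ℤ) * B ≤ N * B := mul_le_mul_of_nonneg_right hdN hB0
  have h6 : (1 : ℤ) * (N * B) ≤ e' * (N * B) :=
    mul_le_mul_of_nonneg_right he (mul_nonneg (Int.natCast_nonneg N) hB0)
  push_cast
  linarith

private theorem KmDiff_bd (T : IsKm N h u)
    (D : Derivation k K K) (D' : Derivation k L L)
    (hD : ∀ a : K, D' (algebraMap K L a) = algebraMap K L (D a)) {P : Plc k K} {δ : ℤ}
    (hP : IsDiff P D δ) {e : ℕ} {Q : Plc k L} (hQ : OverE e Q P) (B : ℕ)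
    (hu : Q.ge (-(B : ℤ)) u) (hDu : Q.ge (-(B : ℤ)) (D' u)) (C₁ : ℕ) (x : L)
    (hx : ∀ d < N, P.ge (-(C₁ : ℤ)) (T.co x d)) (dn : ℕ) (hδ1 : δ ≤ (dn : ℤ)) :
    Q.ge (-((e * (C₁ + 1 + dn) + (N + 1) * B : ℕ) : ℤ)) (D' x) := by
  have hsum : D' x = ∑ d ∈ Finset.range N, D' (algebraMap K L (T.co x d) * u ^ d) := by
    conv_lhs => rw [← T.sum_co x]
    rw [map_sum]
  rw [hsum]
  refine Q.ge_sum _ _ fun d hd => ?_
  have hd' := Finset.mem_range.1 hd
  have hdp : (d : ℤ) ≤ N := by exact_mod_cast hd'.le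
  have hN0 : (0 : ℤ) ≤ B := Int.natCast_nonneg B
  have he0 : (0 : ℤ) ≤ e := Int.natCast_nonneg e
  have hC0 : (0 : ℤ) ≤ C₁ := Int.natCast_nonneg C₁
  rw [D'.leibniz, Derivation.leibniz_pow, hD]
  simp only [smul_eq_mul, nsmul_eq_mul]
  have hdN : (d : ℤ) * B ≤ N * B := mul_le_mul_of_nonneg_right hdp hN0
  refine Q.ge_add ?_ ?_
  · have h1 := KmDiff_up hQ (hx d hd')
    have h2 : Q.ge 0 ((d : ℕ) : L) := by
      have := Q.ge_const ((d : ℕ) : k)
      rwa [map_natCast] at this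
    have h3 := Q.ge_mul h1 (Q.ge_mul h2 (Q.ge_mul (Q.ge_pow hu (d - 1)) hDu))
    refine h3.mono ?_
    have h4 : ((d - 1 : ℕ) : ℤ) * B ≤ N * B := by
      apply mul_le_mul_of_nonneg_right _ hN0
      have : d - 1 ≤ N := by omega
      exact_mod_cast this
    have h5 : (0 : ℤ) ≤ e * (1 + (dn : ℤ)) := by positivity
    push_cast
    linarith
  · have h1 := KmDiff_up hQ (hP.ge_D (hx d hd'))
    have h3 := Q.ge_mul (Q.ge_pow hu d) h1
    refine h3.mono ?_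
    have h5 : (e : ℤ) * δ ≤ e * (dn : ℤ) := mul_le_mul_of_nonneg_left hδ1 he0
    push_cast
    linarith

theorem diff_km [IsAlgClosed k] [CharP k p] [CharP K p] (hpN : ¬ p ∣ N) (T : IsKm N h u)
    (hh : h ≠ 0) (D : Derivation k K K) (D' : Derivation k L L)
    (hD : ∀ a : K, D' (algebraMap K L a) = algebraMap K L (D a)) {P : Plc k K} {δ : ℤ}
    (hP : IsDiff P D δ) {e : ℕ} {Q : Plc k L} (hQ : OverE e Q P) : ∃ δ', IsDiff Q D' δ' := by
  classical
  obtain ⟨S, hS⟩ : ∃ S : Finset (Plc k L), ∀ Q' : Plc k L, Q' ∈ S ↔ ∃ e', OverE e' Q' P :=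
    ⟨(over_finite T.finite P).toFinset, fun Q' => by
      rw [Set.Finite.mem_toFinset]
      exact Iff.rfl⟩
  obtain ⟨B, hBdef⟩ : ∃ B : ℕ, B = (∑ Q' ∈ S, (Q'.ord u).natAbs) +
      (Q.ord (D' u)).natAbs := ⟨_, rfl⟩
  have hB : ∀ (Q' : Plc k L) (e' : ℕ), OverE e' Q' P → (Q'.ord u).natAbs ≤ B := by
    intro Q' e' hQ'
    have hmem : Q' ∈ S := (hS Q').2 ⟨e', hQ'⟩
    have h1 : (Q'.ord u).natAbs ≤ ∑ Q' ∈ S, (Q'.ord u).natAbs :=
      Finset.single_le_sum (f := fun Q' : Plc k L => (Q'.ord u).natAbs) (fun _ _ => Nat.zero_le _) hmem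
    omega
  have hBu : Q.ge (-(B : ℤ)) u := by
    right
    have := hB Q e hQ
    omega
  have hBd : Q.ge (-(B : ℤ)) (D' u) := by
    right
    omega
  haveI : CharP L p := charP_of_injective_algebraMap (algebraMap K L).injective p
  refine isDiff_of_bdd Q D' (e * (N * B + 1 + δ.natAbs) + (N + 1) * B) ?_ ?_
  · intro a ha
    obtain ⟨M, hM⟩ : ∃ M : ℕ, M = ∑ Q' ∈ S, (Q'.ord a).natAbs := ⟨_, rfl⟩
    obtain ⟨s, hs0, hsQ, hsM⟩ := exists_appr (S.erase Q) Q (Finset.notMem_erase Q S) M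
    have hp1 : 1 ≤ p := (Fact.out : p.Prime).one_lt.le
    have hx : ∀ (Q' : Plc k L) (e' : ℕ), OverE e' Q' P → Q'.ge 0 (s ^ p * a) := by
      intro Q' e' hQ'
      have hmem : Q' ∈ S := (hS Q').2 ⟨e', hQ'⟩
      rw [Q'.ge_mul_iff (pow_ne_zero _ hs0), Q'.ord_pow]
      by_cases hQQ : Q' = Q
      · rw [hQQ, hsQ]
        simpa using ha
      · right
        have h1 := hsM Q' (Finset.mem_erase.2 ⟨hQQ, hmem⟩)
        have h2 : (Q'.ord a).natAbs ≤ ∑ Q' ∈ S, (Q'.ord a).natAbs :=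
          Finset.single_le_sum (f := fun Q' : Plc k L => (Q'.ord a).natAbs) (fun _ _ => Nat.zero_le _) hmem
        have h3 : (M : ℤ) ≤ p * Q'.ord s := by
          have h4 : (0 : ℤ) ≤ Q'.ord s := le_trans (Int.natCast_nonneg M) h1
          have h5 : (1 : ℤ) ≤ p := by exact_mod_cast hp1
          nlinarith
        omega
    have h1 := KmDiff_bd T D D' hD hP hQ B hBu hBd (N * B) (s ^ p * a)
      (fun d hd => KmDiff_co hpN T hh P B hB (s ^ p * a) hx d hd) δ.natAbs Int.le_natAbs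
    have h2 : D' (s ^ p * a) = s ^ p * D' a := by
      rw [D'.leibniz, Derivation.leibniz_pow]
      simp only [smul_eq_mul, nsmul_eq_mul, CharP.cast_eq_zero, zero_mul, mul_zero, add_zero]
    rw [h2, Q.ge_mul_iff (pow_ne_zero _ hs0), Q.ord_pow, hsQ] at h1
    simpa using h1
  · obtain ⟨_, π, _, _, hDπ, _⟩ := hP
    refine ⟨algebraMap K L π, ?_⟩
    rw [hD]
    exact (map_ne_zero (algebraMap K L)).2 hDπ

end Pool.Agent.PRB
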