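import Pool.Agent.LibPRK.KmTame

/-!
# Kummer covers: unramified places

PLAN. See KmTame.lean for the notation.  `P.ord h = 0`: then `Q'.ord u = 0` for all `Q'` over `P`.  Choose `a` with `Q.ord a = 1` and `Q'.ge 1 a` for all `Q'` over `P`
(`over_finite`, `exists_appr`): `Q'.ge 1 (a / u ^ d)`, `1 = e' * 1 + 1 - e'`, so `P.ge 1 (co a d)` (`km_co_zero_ge`, `km_co_div`), `P.ge (-δ) (D (co a d))` and
`P.ge (-δ) ((D h) / h)` (`IsDiff` of a unit: `P.ge (-δ) (D h)`), so `Q.ge (-e δ) (D' (co a d * u ^ d))`, `Q.ge (-e δ) (D' a)`; `Q.ord (D' a) = -δ'`, so `δ' ≤ e δ`;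
with `δ' = e δ + e - 1` (`diff_tame`, `km_tame`) `e ≤ 1`; and `0 < e` (`OverE`).
-/

set_option autoImplicit false

namespace Pool.Agent.PRB

variable {p N : ℕ} [Fact p.Prime] {k K L : Type} [Field k] [Field K] [Field L]
  [Algebra k K] [Algebra k L] [Algebra K L] [IsScalarTower k K L] {h : K} {u : L}

omit [Fact p.Prime] in
private theorem KmE1_up {e : ℕ} {Q : Plc k L} {P : Plc k K} (hQ : OverE e Q P) {n : ℤ} {a : K}
    (ha : P.ge n a) : Q.ge (e * n) (algebraMap K L a) := by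
  rcases ha with ha | ha
  · left
    rw [ha, map_zero]
  · right
    rw [hQ.2]
    exact mul_le_mul_of_nonneg_left ha (Int.natCast_nonneg e)

private theorem KmE1_u (T : IsKm N h u) {P : Plc k K} (h0 : P.ord h = 0) {e : ℕ} {Q : Plc k L}
    (hQ : OverE e Q P) : Q.ord u = 0 := by
  have h1 : Q.ord (u ^ N) = 0 := by
    rw [T.eq, hQ.2, h0, mul_zero]
  rw [Q.ord_pow] at h1
  rcases mul_eq_zero.1 h1 with h2 | h2
  · exact absurd (by exact_mod_cast h2) T.pos.ne'
  · exact h2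

/-- A uniformizer of `Q` with zeros at the other places over `P`. -/
private theorem KmE1_a (hfin : Module.Finite K L) (P : Plc k K) (Q : Plc k L) :
    ∃ a : L, a ≠ 0 ∧ Q.ord a = 1 ∧ ∀ (Q' : Plc k L) (e : ℕ), OverE e Q' P → 1 ≤ Q'.ord a := by
  classical
  obtain ⟨t, ht, ht1⟩ := Q.exists_unif
  set S : Finset (Plc k L) := (over_finite hfin P).toFinset.erase Q with hS
  obtain ⟨s, hs, hs0, hs1⟩ := exists_appr S Q (Finset.notMem_erase Q _)
    (∑ Q' ∈ S, (1 - Q'.ord t).natAbs)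
  refine ⟨t * s, mul_ne_zero ht hs, ?_, fun Q' e hQ' => ?_⟩
  · rw [Q.ord_mul ht hs, ht1, hs0, add_zero]
  · by_cases hQQ : Q' = Q
    · rw [hQQ, Q.ord_mul ht hs, ht1, hs0, add_zero]
    · have hmem : Q' ∈ S := by
        rw [hS, Finset.mem_erase]
        refine ⟨hQQ, ?_⟩
        rw [Set.Finite.mem_toFinset]
        exact ⟨e, hQ'⟩
      have h1 := hs1 Q' hmem
      have h2 : (1 - Q'.ord t).natAbs ≤ ∑ Q' ∈ S, (1 - Q'.ord t).natAbs :=
        Finset.single_le_sum (f := fun Q' : Plc k L => (1 - Q'.ord t).natAbs)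
          (fun _ _ => Nat.zero_le _) hmem
      have h3 : (1 - Q'.ord t) ≤ ((1 - Q'.ord t).natAbs : ℤ) := Int.le_natAbs
      have h4 : ((1 - Q'.ord t).natAbs : ℤ) ≤
          ((∑ Q' ∈ S, (1 - Q'.ord t).natAbs : ℕ) : ℤ) := by exact_mod_cast h2
      rw [Q'.ord_mul ht hs]
      linarith

theorem km_e_one [IsAlgClosed k] [CharP k p] [CharP K p] (hpN : ¬ p ∣ N) (T : IsKm N h u)
    (hh : h ≠ 0) (D : Derivation k K K) (D' : Derivation k L L)
    (hD : ∀ a : K, D' (algebraMap K L a) = algebraMap K L (D a)) {P : Plc k K} {δ : ℤ}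
    (hP : IsDiff P D δ) (h0 : P.ord h = 0) {e : ℕ} {Q : Plc k L} (hQ : OverE e Q P) : e = 1 := by
  have hp : p.Prime := Fact.out
  obtain ⟨δ', hδ⟩ := diff_km hpN T hh D D' hD hP hQ
  have ht := km_tame hpN T hh D D' hD hP hQ
  have hdt := diff_tame hQ ht D D' hD hP hδ
  suffices h1 : δ' ≤ e * δ by
    have h2 := hQ.1
    omega
  obtain ⟨a, ha, ha1, ha2⟩ := KmE1_a T.finite P Q
  have hu0 : u ≠ 0 := T.u_ne hh
  have huQ : Q.ord u = 0 := KmE1_u T h0 hQ
  have hco : ∀ d < N, P.ge 1 (T.co a d) := fun d hd => by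
    rw [← km_co_div T hh a hd]
    refine km_co_zero_ge hpN T P 1 _ fun Q' e' hQ' => ?_
    right
    rw [Q'.ord_div ha (pow_ne_zero _ hu0), Q'.ord_pow, KmE1_u T h0 hQ']
    have := ha2 Q' e' hQ'
    linarith
  have hNk : (N : k) ≠ 0 := fun h1 => hpN ((CharP.cast_eq_zero_iff k p N).1 h1)
  have hNL : (N : L) = algebraMap k L (N : k) := by rw [map_natCast]
  have hNL0 : (N : L) ≠ 0 := by
    rw [hNL]
    exact (map_ne_zero _).2 hNk
  -- the derivative of `u`
  have hDu : Q.ge (-(e * δ)) (D' u) := by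
    have e1 : (N : L) * u ^ (N - 1) * D' u = algebraMap K L (D h) := by
      rw [← hD, ← T.eq, Derivation.leibniz_pow, smul_eq_mul, nsmul_eq_mul]
      ring
    have e2 : Q.ge (e * (-δ)) (algebraMap K L (D h)) :=
      KmE1_up hQ (hP.1 h (Or.inr h0.ge))
    have e3 : (N : L) * u ^ (N - 1) ≠ 0 := mul_ne_zero hNL0 (pow_ne_zero _ hu0)
    have e4 : Q.ord ((N : L) * u ^ (N - 1)) = 0 := by
      rw [Q.ord_mul hNL0 (pow_ne_zero _ hu0), hNL, Q.ord_const, Q.ord_pow, huQ]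
      ring
    rw [← e1, Q.ge_mul_iff e3, e4] at e2
    refine e2.mono (le_of_eq ?_)
    ring
  have hu1 : ∀ i : ℕ, Q.ge 0 (u ^ i) := fun i => by
    right
    rw [Q.ord_pow, huQ, mul_zero]
  have hterm : ∀ d < N, Q.ge (-(e * δ)) (D' (algebraMap K L (T.co a d) * u ^ d)) := by
    intro d hd
    have e1 : D' (algebraMap K L (T.co a d) * u ^ d) =
        algebraMap K L (D (T.co a d)) * u ^ d +
          (algebraMap K L (T.co a d) * (algebraMap k L (d : k) * u ^ (d - 1))) * D' u := by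
      rw [Derivation.leibniz, Derivation.leibniz_pow, hD, smul_eq_mul, smul_eq_mul, smul_eq_mul,
        nsmul_eq_mul, map_natCast]
      ring
    rw [e1]
    refine Q.ge_add ?_ ?_
    · have e2 : Q.ge (e * (1 - 1 - δ)) (algebraMap K L (D (T.co a d))) :=
        KmE1_up hQ (hP.ge_D (hco d hd))
      refine (Q.ge_mul e2 (hu1 d)).mono (le_of_eq ?_)
      ring
    · have e3 : Q.ge (e * 1) (algebraMap K L (T.co a d)) := KmE1_up hQ (hco d hd)
      have e4 := Q.ge_mul (Q.ge_mul e3 (Q.ge_mul (Q.ge_const (d : k)) (hu1 (d - 1)))) hDu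
      refine e4.mono ?_
      have : (0 : ℤ) ≤ e := Int.natCast_nonneg e
      linarith
  have hDa : Q.ge (-(e * δ)) (D' a) := by
    rw [← T.sum_co a, map_sum]
    exact Q.ge_sum _ _ fun d hd => hterm d (Finset.mem_range.1 hd)
  have hord := hδ.ord_D (p := p) ha (by
    rw [ha1]
    intro h1
    have h2 := Int.natCast_dvd_natCast.1 (by simpa using h1 : (p : ℤ) ∣ ((1 : ℕ) : ℤ))
    exact hp.one_lt.ne' (Nat.dvd_one.1 h2))
  rw [Q.ge_iff hord.1, hord.2, ha1] at hDa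
  linarith

end Pool.Agent.PRB
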