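import Pool.Agent.LibPRK.KmTame
import Pool.Agent.LibPRB.TwTameR

/-!
# Kummer covers: regular differentials

PLAN. Template: `tw_tame_reg` (Pool/Agent/LibPRB/TwTameR.lean).  `δ' = e δ + e - 1` (`diff_tame`, `km_tame`),
`N * Q.ord u = e * P.ord h` (`Q.ord_pow`, `T.eq`, `hQ.2`).  `c = kmc N h d P = cdiv (d * P.ord h) N` satisfies
`d m ≤ N c ≤ d m + N - 1`, `m = P.ord h` (`TwTameR_cdiv`).
(⇐) `Q.ord (algebraMap a_d * u ^ d) ≥ e (-δ - c) + d Q.ord u`, and `N (e (-δ - c) + d Q.ord u) = -N e δ - e (N c - d m) ≥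
-N e δ - e (N - 1) > N (-δ' - 1)`.  Sum with `T.sum_co`, `Q.ge_sum`.
(⇒) `co a d = co (a / u ^ d) 0` (`km_co_div`), `Q.ge (-δ' - d Q.ord u) (a / u ^ d)` and `-δ' - d Q.ord u ≥ e n + 1 - e` for
`n = -δ - c`; `km_co_zero_ge`.
-/

set_option autoImplicit false

namespace Pool.Agent.PRB

variable {p N : ℕ} [Fact p.Prime] {k K L : Type} [Field k] [Field K] [Field L]
  [Algebra k K] [Algebra k L] [Algebra K L] [IsScalarTower k K L] {h : K} {u : L}

theorem km_reg [IsAlgClosed k] [CharP k p] [CharP K p] (hpN : ¬ p ∣ N) (T : IsKm N h u)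
    (hh : h ≠ 0) (D : Derivation k K K) (D' : Derivation k L L)
    (hD : ∀ a : K, D' (algebraMap K L a) = algebraMap K L (D a)) {P : Plc k K} {δ : ℤ}
    (hP : IsDiff P D δ) (a : L) :
    (∀ (Q : Plc k L) (e : ℕ) (δ' : ℤ), OverE e Q P → IsDiff Q D' δ' → Q.ge (-δ') a) ↔
      ∀ d < N, P.ge (-δ - kmc N h d P) (T.co a d) := by
  have hN : (0 : ℤ) < N := by exact_mod_cast T.pos
  have hu : u ≠ 0 := T.u_ne hh
  have hord : ∀ (Q : Plc k L) (e : ℕ), OverE e Q P → (N : ℤ) * Q.ord u = e * P.ord h := by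
    intro Q e hQ
    rw [← Q.ord_pow, T.eq, hQ.2]
  have hδ : ∀ (Q : Plc k L) (e : ℕ) (δ' : ℤ), OverE e Q P → IsDiff Q D' δ' →
      δ' = e * δ + e - 1 := fun Q e δ' hQ hQ' =>
    diff_tame hQ (km_tame hpN T hh D D' hD hP hQ) D D' hD hP hQ'
  have hcd : ∀ d : ℕ, (d : ℤ) * P.ord h ≤ (N : ℤ) * kmc N h d P ∧
      (N : ℤ) * kmc N h d P ≤ d * P.ord h + (N : ℤ) - 1 := by
    intro d
    unfold kmc
    exact TwTameR_cdiv _ _ hN
  constructor
  · intro H d hd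
    have hQa : ∀ (Q : Plc k L) (e : ℕ), OverE e Q P → Q.ge (-(e * δ + e - 1)) a := by
      intro Q e hQ
      obtain ⟨δ', hQ'⟩ := diff_km hpN T hh D D' hD hP hQ
      have := H Q e δ' hQ hQ'
      rwa [hδ Q e δ' hQ hQ'] at this
    rw [← km_co_div T hh a hd]
    refine km_co_zero_ge hpN T P _ _ fun Q e hQ => ?_
    rw [div_eq_mul_inv]
    have h2 : Q.ge (-(d * Q.ord u)) (u ^ d)⁻¹ := by
      right
      rw [Q.ord_inv, Q.ord_pow]
    refine (Q.ge_mul (hQa Q e hQ) h2).mono ?_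
    have h3 := hord Q e hQ
    have h5 := (hcd d).1
    have he : (0 : ℤ) ≤ e := by positivity
    have h7 : (e : ℤ) * ((d : ℤ) * P.ord h) ≤ e * ((N : ℤ) * kmc N h d P) :=
      mul_le_mul_of_nonneg_left h5 he
    have h8 : (d : ℤ) * ((N : ℤ) * Q.ord u) = d * (e * P.ord h) := by rw [h3]
    have h9 : (d : ℤ) * Q.ord u ≤ e * kmc N h d P := by
      refine le_of_mul_le_mul_left ?_ hN
      linarith
    linarith
  · intro hc Q e δ' hQ hQ'
    rw [hδ Q e δ' hQ hQ', ← T.sum_co a]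
    refine Q.ge_sum _ _ fun d hd => ?_
    have h2 : Q.ge (Q.ord u) u := Or.inr le_rfl
    have h1 := Q.ge_mul ((hQ.ge_iff _ _).2 (hc d (Finset.mem_range.1 hd))) (Q.ge_pow h2 d)
    refine h1.mono ?_
    have h3 := hord Q e hQ
    have h5 := (hcd d).2
    have he : (0 : ℤ) < e := by exact_mod_cast hQ.1
    have h7 : (e : ℤ) * ((N : ℤ) * kmc N h d P) ≤ e * (d * P.ord h + (N : ℤ) - 1) :=
      mul_le_mul_of_nonneg_left h5 he.le
    have h8 : (d : ℤ) * ((N : ℤ) * Q.ord u) = d * (e * P.ord h) := by rw [h3]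
    have h9 : -(e : ℤ) < d * Q.ord u - e * kmc N h d P := by
      refine lt_of_mul_lt_mul_left ?_ hN.le
      linarith
    linarith

end Pool.Agent.PRB
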