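import Pool.Agent.LibPRK.KmTame
import Pool.Agent.LibPRB.TwTameR

/-!
# Kummer covers: logarithmic differentials

PLAN. Template: `tw_tame_reg` (Pool/Agent/LibPRB/TwTameR.lean).  `δ' = e δ + e - 1` (`diff_tame`, `km_tame`), `P.ord h = 0`, so
`Q.ord u = 0` (`Q.ord_pow`, `T.eq`, `hQ.2`) for all `Q` over `P`; `-δ' - 1 = -e (δ + 1)`.
(⇐) `Q.ord (algebraMap a_d * u ^ d) ≥ e (-δ - 1)`.  Sum with `T.sum_co`, `Q.ge_sum`.
(⇒) `co a d = co (a / u ^ d) 0` (`km_co_div`), `Q.ge (-δ' - 1) (a / u ^ d)` and `-δ' - 1 = e n ≥ e n + 1 - e` for `n = -δ - 1`; `km_co_zero_ge`.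
-/

set_option autoImplicit false

namespace Pool.Agent.PRB

variable {p N : ℕ} [Fact p.Prime] {k K L : Type} [Field k] [Field K] [Field L]
  [Algebra k K] [Algebra k L] [Algebra K L] [IsScalarTower k K L] {h : K} {u : L}

theorem km_log [IsAlgClosed k] [CharP k p] [CharP K p] (hpN : ¬ p ∣ N) (T : IsKm N h u)
    (hh : h ≠ 0) (D : Derivation k K K) (D' : Derivation k L L)
    (hD : ∀ a : K, D' (algebraMap K L a) = algebraMap K L (D a)) {P : Plc k K} {δ : ℤ}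
    (hP : IsDiff P D δ) (h0 : P.ord h = 0) (a : L) :
    (∀ (Q : Plc k L) (e : ℕ) (δ' : ℤ), OverE e Q P → IsDiff Q D' δ' → Q.ge (-δ' - 1) a) ↔
      ∀ d < N, P.ge (-δ - 1) (T.co a d) := by
  have hN : (0 : ℤ) < N := by exact_mod_cast T.pos
  have hu : u ≠ 0 := T.u_ne hh
  have hord : ∀ (Q : Plc k L) (e : ℕ), OverE e Q P → Q.ord u = 0 := by
    intro Q e hQ
    have h1 : (N : ℤ) * Q.ord u = e * P.ord h := by rw [← Q.ord_pow, T.eq, hQ.2]
    rw [h0, mul_zero] at h1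
    rcases mul_eq_zero.1 h1 with h2 | h2
    · exact absurd h2 hN.ne'
    · exact h2
  have hδ : ∀ (Q : Plc k L) (e : ℕ) (δ' : ℤ), OverE e Q P → IsDiff Q D' δ' →
      δ' = e * δ + e - 1 := fun Q e δ' hQ hQ' =>
    diff_tame hQ (km_tame hpN T hh D D' hD hP hQ) D D' hD hP hQ'
  constructor
  · intro H d hd
    have hQa : ∀ (Q : Plc k L) (e : ℕ), OverE e Q P → Q.ge (-(e * δ + e - 1) - 1) a := by
      intro Q e hQ
      obtain ⟨δ', hQ'⟩ := diff_km hpN T hh D D' hD hP hQ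
      have := H Q e δ' hQ hQ'
      rwa [hδ Q e δ' hQ hQ'] at this
    rw [← km_co_div T hh a hd]
    refine km_co_zero_ge hpN T P _ _ fun Q e hQ => ?_
    rw [div_eq_mul_inv]
    have h2 : Q.ge 0 (u ^ d)⁻¹ := by
      right
      rw [Q.ord_inv, Q.ord_pow, hord Q e hQ, mul_zero, neg_zero]
    refine (Q.ge_mul (hQa Q e hQ) h2).mono ?_
    have he : (0 : ℤ) < e := by exact_mod_cast hQ.1
    linarith
  · intro hc Q e δ' hQ hQ'
    rw [hδ Q e δ' hQ hQ', ← T.sum_co a]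
    refine Q.ge_sum _ _ fun d hd => ?_
    have h2 : Q.ge 0 u := Or.inr (hord Q e hQ).ge
    have h1 := Q.ge_mul ((hQ.ge_iff _ _).2 (hc d (Finset.mem_range.1 hd))) (Q.ge_pow h2 d)
    refine h1.mono ?_
    linarith

end Pool.Agent.PRB
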