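import Pool.Agent.LibPRK.KmB
import Pool.Agent.LibPRB.PBa
import Pool.Agent.LibPRB.ASPB

/-!
# Kummer covers: `p`-basis and Cartier operator
-/

set_option autoImplicit false

namespace Pool.Agent.PRB

variable {p N : ℕ} [Fact p.Prime] {k K L : Type} [Field k] [Field K] [Field L]
  [Algebra k K] [Algebra k L] [Algebra K L] [IsScalarTower k K L] {h : K} {u : L}

private theorem KmPB_image (hpN : ¬ p ∣ N) (hN : 0 < N) :
    (Finset.range N).image (fun i => p * i % N) = Finset.range N := by
  have hco : Nat.Coprime p N := (Nat.Prime.coprime_iff_not_dvd Fact.out).2 hpN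
  refine Finset.eq_of_subset_of_card_le ?_ ?_
  · intro d hd
    rw [Finset.mem_image] at hd
    obtain ⟨i, _, rfl⟩ := hd
    exact Finset.mem_range.2 (Nat.mod_lt _ hN)
  · rw [Finset.card_image_of_injOn]
    intro i hi j hj hij
    have h1 : p * i % N = p * j % N := hij
    have h2 : i ≡ j [MOD N] := Nat.ModEq.cancel_left_of_coprime hco.symm h1
    exact Nat.ModEq.eq_of_lt_of_lt h2 (Finset.mem_range.1 hi) (Finset.mem_range.1 hj)

private theorem KmPB_inj (hpN : ¬ p ∣ N) :
    Set.InjOn (fun i => p * i % N) (Finset.range N) := by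
  have hco : Nat.Coprime p N := (Nat.Prime.coprime_iff_not_dvd Fact.out).2 hpN
  intro i hi j hj hij
  have h1 : p * i % N = p * j % N := hij
  have h2 : i ≡ j [MOD N] := Nat.ModEq.cancel_left_of_coprime hco.symm h1
  exact Nat.ModEq.eq_of_lt_of_lt h2 (Finset.mem_range.1 hi) (Finset.mem_range.1 hj)

omit [Field k] [Algebra k K] [Algebra k L] [IsScalarTower k K L] in
private theorem KmPB_expand (hpN : ¬ p ∣ N) (T : IsKm N h u) (hh : h ≠ 0) (a : L) :
    a = ∑ i ∈ Finset.range N,
      algebraMap K L (T.co a (p * i % N) / h ^ (p * i / N)) * (u ^ i) ^ p := by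
  have hh' : algebraMap K L h ≠ 0 := by
    rw [Ne, map_eq_zero]
    exact hh
  have h1 : ∀ i ∈ Finset.range N,
      algebraMap K L (T.co a (p * i % N) / h ^ (p * i / N)) * (u ^ i) ^ p =
        algebraMap K L (T.co a (p * i % N)) * u ^ (p * i % N) := by
    intro i _
    have h2 : (u ^ i) ^ p = algebraMap K L h ^ (p * i / N) * u ^ (p * i % N) := by
      rw [← pow_mul, ← T.eq, ← pow_mul, ← pow_add, Nat.div_add_mod, mul_comm]
    rw [h2, map_div₀, map_pow]
    field_simp
  rw [Finset.sum_congr rfl h1]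
  have h3 := Finset.sum_image (f := fun d => algebraMap K L (T.co a d) * u ^ d)
    (KmPB_inj (p := p) (N := N) hpN)
  rw [KmPB_image hpN T.pos] at h3
  rw [← h3, T.sum_co]

theorem PB.of_Km [CharP K p] (hpN : ¬ p ∣ N) (T : IsKm N h u) (hh : h ≠ 0) {s : K}
    {D : Derivation k K K} (hs : PB p s D) (D' : Derivation k L L)
    (hD : ∀ a : K, D' (algebraMap K L a) = algebraMap K L (D a)) :
    PB p (algebraMap K L s) D' := by
  have : CharP L p := charP_of_injective_algebraMap (algebraMap K L).injective p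
  refine ⟨by rw [hD, hs.D_s, map_one], fun a => ?_⟩
  choose e he using hs.span
  refine ⟨fun j => ∑ i ∈ Finset.range N,
    algebraMap K L (e (T.co a (p * i % N) / h ^ (p * i / N)) j) * u ^ i, ?_⟩
  conv_lhs => rw [KmPB_expand hpN T hh a]
  have h1 : ∀ i ∈ Finset.range N,
      algebraMap K L (T.co a (p * i % N) / h ^ (p * i / N)) * (u ^ i) ^ p =
      ∑ j ∈ Finset.range p, (algebraMap K L (e (T.co a (p * i % N) / h ^ (p * i / N)) j) *
        u ^ i) ^ p * algebraMap K L s ^ j := by
    intro i _
    conv_lhs => rw [he (T.co a (p * i % N) / h ^ (p * i / N))]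
    rw [map_sum, Finset.sum_mul]
    refine Finset.sum_congr rfl fun j _ => ?_
    rw [map_mul, map_pow, map_pow, mul_pow]
    ring
  rw [Finset.sum_congr rfl h1, Finset.sum_comm]
  refine Finset.sum_congr rfl fun j _ => ?_
  rw [sum_pow_char, Finset.sum_mul]

private theorem KmPB_car_algebraMap [CharP K p] (hpN : ¬ p ∣ N) (T : IsKm N h u) (hh : h ≠ 0)
    {s : K} {D : Derivation k K K} (hs : PB p s D)
    (D' : Derivation k L L) (hD : ∀ a : K, D' (algebraMap K L a) = algebraMap K L (D a)) (a : K) :
    car p D' (algebraMap K L a) = algebraMap K L (car p D a) := by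
  have : CharP L p := charP_of_injective_algebraMap (algebraMap K L).injective p
  have hs' := PB.of_Km hpN T hh hs D' hD
  have hit : ∀ n : ℕ, D'^[n] (algebraMap K L a) = algebraMap K L (D^[n] a) := by
    intro n
    induction n with
    | zero => rfl
    | succ n ih => rw [Function.iterate_succ_apply', Function.iterate_succ_apply', ih, hD]
  have h1 : car p D' (algebraMap K L a) ^ p = (algebraMap K L (car p D a)) ^ p := by
    rw [hs'.car_pow, hit, ← map_neg, ← hs.car_pow, map_pow]
  exact frobenius_inj L p h1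

theorem co_car_km [CharP K p] (hpN : ¬ p ∣ N) (T : IsKm N h u) (hh : h ≠ 0) {s : K}
    {D : Derivation k K K} (hs : PB p s D) (D' : Derivation k L L)
    (hD : ∀ a : K, D' (algebraMap K L a) = algebraMap K L (D a)) (a : L) {i : ℕ} (hi : i < N) :
    T.co (car p D' a) i = car p D (T.co a (p * i % N) / h ^ (p * i / N)) := by
  have : CharP L p := charP_of_injective_algebraMap (algebraMap K L).injective p
  have hs' := PB.of_Km hpN T hh hs D' hD
  refine T.co_eq_of_lt (c := fun i => car p D (T.co a (p * i % N) / h ^ (p * i / N))) ?_ hi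
  have h1 : car p D' a = ∑ i ∈ Finset.range N,
      car p D' (algebraMap K L (T.co a (p * i % N) / h ^ (p * i / N)) * (u ^ i) ^ p) := by
    conv_lhs => rw [KmPB_expand hpN T hh a]
    exact map_sum (AddMonoidHom.mk' (car p D') hs'.car_add) _ _
  rw [h1]
  refine Finset.sum_congr rfl fun i _ => ?_
  rw [mul_comm (algebraMap K L _) ((u ^ i) ^ p), hs'.car_pow_mul,
    KmPB_car_algebraMap hpN T hh hs D' hD, mul_comm]

end Pool.Agent.PRB
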