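import Pool.Agent.LibPRB.RatF

/-!
# The rational function field: families fixed by the twisted Cartier operators

PLAN. Template: `rat_card_fix` (Pool/Agent/LibPRB/RatF.lean; its `key` is the computation for one class).  The bijection is
`B ↦ (d ↦ algebraMap (B d) * ratProd R (fun c => -E d (plC c)))` for `d < N` and `0` for `N ≤ d` (`rat_polSp`).
With `q = p * d / N`, `t = p * d % N`, `u_d = ratProd R (fun c => E d (plC c))`:
`car (algebraMap (B t) / u_t / h ^ q) = algebraMap (B d) / u_d` iff (multiply the p-th powers by `u_d ^ p`)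
`(algebraMap (B d)) ^ p = - D^[p-1] (algebraMap (B t) * (u_d ^ p / (u_t * h ^ q)))` and
`u_d ^ p / (u_t * h ^ q) = algebraMap (∏ c ∈ R, (X - C c) ^ (e d c))` by `he`.
-/

set_option autoImplicit false

namespace Pool.Agent.PRB

open Polynomial

variable {p : ℕ} [Fact p.Prime] {k : Type} [Field k] [IsAlgClosed k] [CharP k p]

private theorem KmRat_ne (c : k) :
    algebraMap (Polynomial k) (RatFunc k) (Polynomial.X - Polynomial.C c) ≠ 0 :=
  RatFunc.algebraMap_ne_zero (Polynomial.X_sub_C_ne_zero c)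

private theorem KmRat_iter (G : Polynomial k) (n : ℕ) :
    (ratD p k)^[n] (algebraMap _ (RatFunc k) G) =
      algebraMap _ (RatFunc k) (Polynomial.derivative^[n] G) := by
  induction n generalizing G with
  | zero => rfl
  | succ n ih => rw [Function.iterate_succ_apply, ratD_alg, ih, Function.iterate_succ_apply]

private theorem KmRat_inv (R : Finset k) (f : k → ℤ) :
    ratProd R (fun c => -f c) * ratProd R f = 1 := by
  unfold ratProd
  rw [← Finset.prod_mul_distrib]
  apply Finset.prod_eq_one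
  intro c _
  rw [← zpow_add₀ (KmRat_ne c), neg_add_cancel, zpow_zero]

/-- The computation for one class. -/
private theorem KmRat_key (R : Finset k) (m f g : k → ℤ) (q : ℕ) (e : k → ℕ)
    (he : ∀ c ∈ R, (e c : ℤ) = p * f c - g c - (q : ℤ) * m c) (Bt Bd : k[X]) :
    car p (ratD p k) (algebraMap _ (RatFunc k) Bt * ratProd R (fun c => -g c) / ratProd R m ^ q) =
        algebraMap _ (RatFunc k) Bd * ratProd R (fun c => -f c) ↔
      ∀ i, Bd.coeff i ^ p = (Bt * ∏ c ∈ R, (X - C c) ^ (e c)).coeff (p * i + (p - 1)) := by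
  have hpb := ratD_pb (p := p) (k := k)
  have hAinj : Function.Injective (algebraMap (Polynomial k) (RatFunc k)) :=
    RatFunc.algebraMap_injective k
  set W : Polynomial k := ∏ c ∈ R, (Polynomial.X - Polynomial.C c) ^ (e c) with hW
  have hAW : ratProd R f ^ p * ratProd R (fun c => -g c) / ratProd R m ^ q =
      algebraMap (Polynomial k) (RatFunc k) W := by
    unfold ratProd
    rw [← Finset.prod_pow, ← Finset.prod_pow, ← Finset.prod_mul_distrib,
      ← Finset.prod_div_distrib, hW, map_prod]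
    apply Finset.prod_congr rfl
    intro c hc
    have hx := KmRat_ne c
    rw [map_pow, ← zpow_natCast, ← zpow_mul, ← zpow_natCast, ← zpow_mul, ← zpow_add₀ hx,
      ← zpow_sub₀ hx,
      ← zpow_natCast (algebraMap (Polynomial k) (RatFunc k) (Polynomial.X - Polynomial.C c)) (e c),
      he c hc]
    congr 1
    ring
  have hu0 : ratProd R f ≠ 0 := ratProd_ne R _
  have hui : ratProd R (fun c => -f c) * ratProd R f = 1 := KmRat_inv R f
  rw [← pow_eq_deriv_pred_iff Bd (Bt * W)]
  generalize ratProd R (fun c => -g c) = v at hAW ⊢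
  generalize ratProd R (fun c => -f c) = ui at hui ⊢
  generalize ratProd R f = u at hAW hui hu0 ⊢
  generalize ratProd R m = h at hAW ⊢
  have e1 : u ^ p * (algebraMap _ (RatFunc k) Bt * v / h ^ q) =
      algebraMap _ (RatFunc k) (Bt * W) := by
    rw [map_mul, ← hAW]
    ring
  have e3 : u ^ p * (algebraMap _ (RatFunc k) Bd * ui) ^ p =
      algebraMap _ (RatFunc k) (Bd ^ p) := by
    rw [map_pow, ← mul_pow]
    congr 1
    calc u * (algebraMap _ (RatFunc k) Bd * ui) = algebraMap _ (RatFunc k) Bd * (ui * u) := by ring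
      _ = _ := by rw [hui, mul_one]
  have e4 : u ^ p * (ratD p k)^[p - 1] (algebraMap _ (RatFunc k) Bt * v / h ^ q) =
      algebraMap _ (RatFunc k) (Polynomial.derivative^[p - 1] (Bt * W)) := by
    rw [← iter_D_pow_mul, e1, KmRat_iter]
  constructor
  · intro h1
    have h2 := hpb.car_pow (algebraMap _ (RatFunc k) Bt * v / h ^ q)
    rw [h1] at h2
    have h3' : u ^ p * (algebraMap _ (RatFunc k) Bd * ui) ^ p = u ^ p *
      -(ratD p k)^[p - 1] (algebraMap _ (RatFunc k) Bt * v / h ^ q) :=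
      congrArg (fun x => u ^ p * x) h2
    rw [mul_neg, e3, e4, ← map_neg] at h3'
    exact hAinj h3'
  · intro h1
    apply PB.PBa_car_eq_of
    apply mul_left_cancel₀ (pow_ne_zero p hu0)
    rw [mul_neg, e3, e4, ← map_neg, h1]

theorem rat_fam (N : ℕ) (hN : 0 < N) (R : Finset k) (m : k → ℤ)
    (E : ℕ → Plc k (RatFunc k) → ℤ)
    (hE : ∀ d < N, ∀ c ∉ R, E d (plC c) = 0) (e : ℕ → k → ℕ)
    (he : ∀ d < N, ∀ c ∈ R, (e d c : ℤ) =
      p * E d (plC c) - E (p * d % N) (plC c) - ((p * d / N : ℕ) : ℤ) * m c) :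
    Nat.card {c : ℕ → RatFunc k // (∀ d, N ≤ d → c d = 0) ∧
        (∀ d < N, c d ∈ polSp (ratD p k) (E d)) ∧
        ∀ d < N, car p (ratD p k) (c (p * d % N) / ratProd R m ^ (p * d / N)) = c d} =
      Nat.card {B : ℕ → k[X] // (∀ d, N ≤ d → B d = 0) ∧
        (∀ d < N, (B d).degree <
          (((∑ c ∈ R, E d (plC c)) + E d (plI k) - 1).toNat : WithBot ℕ)) ∧
        ∀ d < N, ∀ i, (B d).coeff i ^ p =
          (B (p * d % N) * ∏ c ∈ R, (X - C c) ^ (e d c)).coeff (p * i + (p - 1))} := by
  classical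
  have hAinj : Function.Injective (algebraMap (Polynomial k) (RatFunc k)) :=
    RatFunc.algebraMap_injective k
  have hui0 : ∀ d, ratProd R (fun c => -E d (plC c)) ≠ 0 := fun d => ratProd_ne R _
  let G : (ℕ → k[X]) → ℕ → RatFunc k := fun B d =>
    if d < N then algebraMap _ (RatFunc k) (B d) * ratProd R (fun c => -E d (plC c)) else 0
  have hG : ∀ B d, d < N → G B d =
      algebraMap _ (RatFunc k) (B d) * ratProd R (fun c => -E d (plC c)) := fun B d hd => if_pos hd
  have hG0 : ∀ B d, N ≤ d → G B d = 0 := fun B d hd => if_neg (by omega)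
  have hkey : ∀ B : ℕ → k[X], ∀ d < N,
      (car p (ratD p k) (G B (p * d % N) / ratProd R m ^ (p * d / N)) = G B d ↔
        ∀ i, (B d).coeff i ^ p =
          (B (p * d % N) * ∏ c ∈ R, (X - C c) ^ (e d c)).coeff (p * i + (p - 1))) := by
    intro B d hd
    rw [hG B d hd, hG B (p * d % N) (Nat.mod_lt _ hN)]
    exact KmRat_key R m (fun c => E d (plC c)) (fun c => E (p * d % N) (plC c)) (p * d / N)
      (e d) (he d hd) (B (p * d % N)) (B d)
  refine (Nat.card_eq_of_bijective (fun B : {B : ℕ → k[X] // (∀ d, N ≤ d → B d = 0) ∧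
        (∀ d < N, (B d).degree <
          (((∑ c ∈ R, E d (plC c)) + E d (plI k) - 1).toNat : WithBot ℕ)) ∧
        ∀ d < N, ∀ i, (B d).coeff i ^ p =
          (B (p * d % N) * ∏ c ∈ R, (X - C c) ^ (e d c)).coeff (p * i + (p - 1))} =>
      (⟨G B.1, hG0 B.1, fun d hd => by
          rw [hG B.1 d hd]
          exact (rat_polSp R (E d) (hE d hd) _).2 ⟨B.1 d, B.2.2.1 d hd, rfl⟩,
        fun d hd => (hkey B.1 d hd).2 (B.2.2.2 d hd)⟩ :
        {c : ℕ → RatFunc k // (∀ d, N ≤ d → c d = 0) ∧
        (∀ d < N, c d ∈ polSp (ratD p k) (E d)) ∧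
        ∀ d < N, car p (ratD p k) (c (p * d % N) / ratProd R m ^ (p * d / N)) = c d}))
      ⟨?_, ?_⟩).symm
  · intro B B' hBB
    apply Subtype.ext
    funext d
    have h1 : G B.1 d = G B'.1 d := congrFun (congrArg Subtype.val hBB) d
    rcases lt_or_ge d N with hd | hd
    · rw [hG _ d hd, hG _ d hd] at h1
      exact hAinj (mul_right_cancel₀ (hui0 d) h1)
    · rw [B.2.1 d hd, B'.2.1 d hd]
  · rintro ⟨c, h0, h1, h2⟩
    have hex : ∀ d, ∃ B : k[X], (d < N → (B.degree <
        (((∑ c ∈ R, E d (plC c)) + E d (plI k) - 1).toNat : WithBot ℕ)) ∧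
        c d = algebraMap _ (RatFunc k) B * ratProd R (fun c => -E d (plC c))) ∧
        (N ≤ d → B = 0) := by
      intro d
      rcases lt_or_ge d N with hd | hd
      · obtain ⟨B, hB1, hB2⟩ := (rat_polSp R (E d) (hE d hd) (c d)).1 (h1 d hd)
        exact ⟨B, fun _ => ⟨hB1, hB2⟩, fun h => absurd hd (by omega)⟩
      · exact ⟨0, fun h => absurd hd (by omega), fun _ => rfl⟩
    choose B hB hB0 using hex
    have hGc : G B = c := by
      funext d
      rcases lt_or_ge d N with hd | hd
      · rw [hG B d hd, ((hB d) hd).2]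
      · rw [hG0 B d hd, h0 d hd]
    refine ⟨⟨B, hB0, fun d hd => ((hB d) hd).1, fun d hd => (hkey B d hd).1 ?_⟩, ?_⟩
    · rw [hGc]
      exact h2 d hd
    · exact Subtype.ext hGc

end Pool.Agent.PRB
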