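import Pool.Agent.LibPRK.KmPB
import Pool.Agent.LibPRK.KmLoc
import Pool.Agent.LibPRK.KmLog
import Pool.Agent.LibPRK.KmE1
import Pool.Agent.LibPRB.FinS
import Pool.Agent.LibPRB.QdReg

/-!
# Kummer covers: function field and spaces of differentials

PLAN. Templates: Pool/Agent/LibPRB/QdReg.lean (`QdS.gf'`, `QdS.mem_regSp`, `QdReg_equiv`, `QdS.finrank`), TwCnt.lean.
`mem_polSp`: place by place; at `P` with `E P = 0` `km_reg`, at `P` with `E P = 1`, `P.ord h = 0` `km_log` and `kmc N h d P = 0`.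
`finrank_polSp`: the linear equivalence `a ↦ (T.co a)` with the product over `Fin N` (`IsKm.exists_co`, `IsKm.ext`).
-/

set_option autoImplicit false

namespace Pool.Agent.PRB

variable {p N : ℕ} [Fact p.Prime] {k K L : Type} [Field k] [IsAlgClosed k] [CharP k p] [Field K]
  [Field L] [Algebra k K] [Algebra k L] [Algebra K L] [IsScalarTower k K L] {s : K}
  {D : Derivation k K K} {h : K} {u : L} {D' : Derivation k L L}

theorem KmS.gf' (A : KmS p N s D h u D') : GF p (algebraMap K L s) D' := by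
  have : CharP K p := charP_of_injective_algebraMap (algebraMap k K).injective p
  have hfin : Module.Finite K L := A.km.finite
  refine ⟨PB.of_Km A.hN A.km A.h0 A.gf.pb D' A.D_alg, disc_fin hfin A.gf.disc, fun Q => ?_,
    fsupp_fin hfin A.gf.disc A.gf.fsupp⟩
  obtain ⟨P, e, hQ⟩ := exists_under_plc hfin A.gf.disc Q
  obtain ⟨δ, hδ⟩ := A.gf.diff P
  exact diff_km A.hN A.km A.h0 D D' A.D_alg hδ hQ

/-- One place. -/
private theorem KmReg_place (A : KmS p N s D h u D') (E : Plc k K → ℤ) (E' : Plc k L → ℤ)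
    (hE : ∀ P, E P = 0 ∨ (E P = 1 ∧ P.ord h = 0))
    (hE' : ∀ (Q : Plc k L) (P : Plc k K) (e : ℕ), OverE e Q P → E' Q = E P) (a : L)
    {P : Plc k K} {δ : ℤ} (hP : IsDiff P D δ) :
    (∀ (Q : Plc k L) (e : ℕ) (δ' : ℤ), OverE e Q P → IsDiff Q D' δ' → Q.ge (-δ' - E' Q) a) ↔
      ∀ d < N, P.ge (-δ - (kmc N h d P + E P)) (A.km.co a d) := by
  have : CharP K p := charP_of_injective_algebraMap (algebraMap k K).injective p
  rcases hE P with h0 | ⟨h1, h2⟩
  · have key := km_reg A.hN A.km A.h0 D D' A.D_alg hP a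
    rw [h0]
    simp only [add_zero]
    rw [← key]
    constructor
    · intro ha Q e δ' hQ hd
      have := ha Q e δ' hQ hd
      rwa [hE' Q P e hQ, h0, sub_zero] at this
    · intro ha Q e δ' hQ hd
      have := ha Q e δ' hQ hd
      rwa [hE' Q P e hQ, h0, sub_zero]
  · have key := km_log A.hN A.km A.h0 D D' A.D_alg hP h2 a
    have hk : ∀ d : ℕ, kmc N h d P = 0 := by
      intro d
      unfold kmc cdiv
      rw [h2, mul_zero, neg_zero, Int.zero_ediv, neg_zero]
    rw [h1]
    simp only [hk, zero_add]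
    rw [← key]
    constructor
    · intro ha Q e δ' hQ hd
      have := ha Q e δ' hQ hd
      rwa [hE' Q P e hQ, h1] at this
    · intro ha Q e δ' hQ hd
      have := ha Q e δ' hQ hd
      rwa [hE' Q P e hQ, h1]

theorem KmS.mem_polSp (A : KmS p N s D h u D') (E : Plc k K → ℤ) (E' : Plc k L → ℤ)
    (hE : ∀ P, E P = 0 ∨ (E P = 1 ∧ P.ord h = 0))
    (hE' : ∀ (Q : Plc k L) (P : Plc k K) (e : ℕ), OverE e Q P → E' Q = E P) (a : L) :
    a ∈ polSp D' E' ↔ ∀ d < N, A.km.co a d ∈ polSp D (fun P => kmc N h d P + E P) := by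
  have hfin : Module.Finite K L := A.km.finite
  rw [PRB.mem_polSp]
  constructor
  · intro ha d hd
    rw [PRB.mem_polSp]
    intro P δ hP
    exact (KmReg_place A E E' hE hE' a hP).1 (fun Q _ δ' _ h' => ha Q δ' h') d hd
  · intro ha Q δ' hQ'
    obtain ⟨P, e, hQ⟩ := exists_under_plc hfin A.gf.disc Q
    obtain ⟨δ, hP⟩ := A.gf.diff P
    exact (KmReg_place A E E' hE hE' a hP).2
      (fun d hd => PRB.mem_polSp.1 (ha d hd) P δ hP) Q e δ' hQ hQ'

omit [IsAlgClosed k] in
private theorem KmReg_co_smul (T : IsKm N h u) (r : k) (a : L) (i : ℕ) :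
    T.co (r • a) i = r • T.co a i := by
  have h : r • a = algebraMap K L (algebraMap k K r) * a := by
    rw [← IsScalarTower.algebraMap_apply, Algebra.smul_def]
  rw [h, T.co_mul, Algebra.smul_def]

omit [IsAlgClosed k] in
/-- A subspace given by conditions on the coefficients is the product of the spaces of
coefficients. -/
private theorem KmReg_equiv (T : IsKm N h u) (V : Submodule k L) (W : ℕ → Submodule k K)
    (hV : ∀ a, a ∈ V ↔ ∀ d < N, T.co a d ∈ W d) :
    Nonempty (V ≃ₗ[k] (∀ d : Fin N, W (d : ℕ))) := by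
  classical
  let f : V →ₗ[k] (∀ d : Fin N, W (d : ℕ)) :=
    { toFun := fun a d => ⟨T.co (a : L) d, (hV a).1 a.2 d d.2⟩
      map_add' := fun a b => by
        funext d
        apply Subtype.ext
        exact T.co_add _ _ _
      map_smul' := fun r a => by
        funext d
        apply Subtype.ext
        exact KmReg_co_smul T r _ _ }
  have hf : ∀ (a : V) (d : Fin N), ((f a d : W (d : ℕ)) : K) = T.co (a : L) d :=
    fun a d => rfl
  refine ⟨LinearEquiv.ofBijective f ⟨?_, ?_⟩⟩
  · intro a b hab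
    apply Subtype.ext
    apply T.ext
    intro i hi
    have h1 := congrFun hab ⟨i, hi⟩
    have h2 := congrArg Subtype.val h1
    exact h2
  · intro c
    let c' : ℕ → K := fun i => if h : i < N then (c ⟨i, h⟩ : K) else 0
    have hc' : ∀ (i : ℕ) (hi : i < N), c' i = (c ⟨i, hi⟩ : K) := fun i hi => dif_pos hi
    obtain ⟨a, hco⟩ := T.exists_co c'
    have ha : a ∈ V := by
      rw [hV]
      intro d hd
      rw [hco d hd, hc' d hd]
      exact (c ⟨d, hd⟩).2
    refine ⟨⟨a, ha⟩, ?_⟩
    funext d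
    apply Subtype.ext
    rw [hf]
    change T.co a d = _
    rw [hco d d.2, hc' d d.2]

theorem KmS.finrank_polSp (A : KmS p N s D h u D') (E : Plc k K → ℤ) (E' : Plc k L → ℤ)
    (hE : ∀ P, E P = 0 ∨ (E P = 1 ∧ P.ord h = 0))
    (hE' : ∀ (Q : Plc k L) (P : Plc k K) (e : ℕ), OverE e Q P → E' Q = E P)
    (hfin : ∀ d < N, Module.Finite k (polSp D (fun P => kmc N h d P + E P))) :
    Module.Finite k (polSp D' E') ∧ Module.finrank k (polSp D' E') =
      ∑ d ∈ Finset.range N, Module.finrank k (polSp D (fun P => kmc N h d P + E P)) := by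
  obtain ⟨e⟩ := KmReg_equiv A.km (polSp D' E') (fun d => polSp D (fun P => kmc N h d P + E P))
    (fun a => A.mem_polSp E E' hE hE' a)
  have h1 : ∀ d : Fin N, Module.Finite k (polSp D (fun P => kmc N h (d : ℕ) P + E P)) :=
    fun d => hfin d d.2
  refine ⟨Module.Finite.equiv e.symm, ?_⟩
  rw [e.finrank_eq, Module.finrank_pi_fintype, Finset.sum_range]

end Pool.Agent.PRB
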