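import Pool.Agent.LibPRK.KmB
import Pool.Agent.LibPRK.FamD
import Pool.Agent.LibPRB.RatP
import Pool.Agent.LibPRB.RatF

/-!
# The Kummer cover `u ^ (2 a) = F ^ a * A * B ^ (2 a - 1)` of the line: orders and exponents

PLAN. Pure bookkeeping over `k`.  `RF, RA, RB, RE` are the (disjoint) root sets, `N = 2 a`, `α = #RF` odd, `#RA = #RB = L`, `δ = #RE`,
`m = a` on `RF`, `1` on `RA`, `N - 1` on `RB`, `0` elsewhere, `h = ratProd R m`, `R` the union.
`(plC c).ord h = m c` (`ratProd_ordC`), `(plI k).ord h = -(a α + N L)` (`ratProd_ordI`).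
Let `E d P = kmc N h d P + ε P`, `ε = 1` at `plC c`, `c ∈ RE`, `0` elsewhere.
`kmc` at `plC c`: `RF`: `⌈d / 2⌉`; `RA`: `1` if `0 < d` else `0`; `RB`: `⌈d - d / N⌉ = d` (`d < N`); `RE`: `0`; others `0`.
`kmc` at `plI`: `⌈-d (a α + N L) / N⌉ = -⌊d α / 2⌋ - d L`.
`kmSet_deg`: `∑ + E d (plI) - 1 = ⌈d/2⌉ α + [0<d] L + d L + δ - ⌊d α / 2⌋ - d L - 1`: for `d` even `[0<d] L + δ - 1`, for `d` odd
(`α` odd) `(α + 1) / 2 + L + δ - 1`; compare with `kν α L δ d - 1` (truncated).
-/

set_option autoImplicit false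

namespace Pool.Agent.PRB

variable {p : ℕ} [Fact p.Prime] {k : Type} [Field k] [IsAlgClosed k] [CharP k p] [DecidableEq k]

/-- The exponents of `h`. -/
def kmM (a : ℕ) (RF RA RB : Finset k) (c : k) : ℤ :=
  if c ∈ RF then (a : ℤ) else if c ∈ RA then 1 else if c ∈ RB then 2 * (a : ℤ) - 1 else 0

open Classical in
/-- The indicator function of the places `plC c`, `c ∈ RE`. -/
noncomputable def kmE (RE : Finset k) (P : Plc k (RatFunc k)) : ℤ :=
  if ∃ c ∈ RE, P = plC c then 1 else 0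

/-- The exponents of the twisting polynomials. -/
def kmX (p a : ℕ) (RF RA RB RE : Finset k) (d : ℕ) (c : k) : ℕ :=
  if c ∈ RF then (if d % 2 = 1 then (p - 1) / 2 else 0)
  else if c ∈ RA then (if d = 0 then 0 else p - 1 - p * d / (2 * a))
  else if c ∈ RB then (if d = 0 then 0 else p * d / (2 * a))
  else if c ∈ RE then p - 1 else 0

private theorem KmSet_cdiv {x n c : ℤ} (hn : 0 < n) (h1 : x ≤ n * c) (h2 : n * c ≤ x + n - 1) :
    cdiv x n = c := by
  unfold cdiv
  have h3 : n * ((-x) / n) ≤ -x := Int.mul_ediv_self_le hn.ne'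
  have h4 : -x < n * ((-x) / n) + n := Int.lt_mul_ediv_self_add hn
  have h5 : n * (-((-x) / n) - c) < n * 1 := by linarith
  have h6 : n * (c - -((-x) / n)) < n * 1 := by linarith
  have h7 := lt_of_mul_lt_mul_left h5 hn.le
  have h8 := lt_of_mul_lt_mul_left h6 hn.le
  omega

omit [DecidableEq k] in
private theorem KmSet_inj {c c' : k} (h : (plC c : Plc k (RatFunc k)) = plC c') : c = c' := by
  classical
  have h1 := plC_spec c _ (Polynomial.X_sub_C_ne_zero c')
  have h2 := plC_spec c' _ (Polynomial.X_sub_C_ne_zero c')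
  rw [h, h2] at h1
  rw [Polynomial.rootMultiplicity_X_sub_C, Polynomial.rootMultiplicity_X_sub_C, if_pos rfl] at h1
  by_contra hne
  rw [if_neg hne] at h1
  norm_num at h1

omit [DecidableEq k] in
private theorem KmSet_inf (c : k) : (plI k : Plc k (RatFunc k)) ≠ plC c := by
  classical
  intro h
  have h1 := plI_spec (k := k) _ (Polynomial.X_sub_C_ne_zero c)
  have h2 := plC_spec c _ (Polynomial.X_sub_C_ne_zero c)
  rw [h, h2, Polynomial.rootMultiplicity_X_sub_C, if_pos rfl, Polynomial.natDegree_X_sub_C] at h1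
  norm_num at h1

omit [DecidableEq k] in
private theorem KmSet_E_of {RE : Finset k} {c : k} (hc : c ∈ RE) : kmE RE (plC c) = 1 := by
  unfold kmE
  exact if_pos ⟨c, hc, rfl⟩

omit [DecidableEq k] in
private theorem KmSet_E_not {RE : Finset k} {c : k} (hc : c ∉ RE) : kmE RE (plC c) = 0 := by
  unfold kmE
  apply if_neg
  rintro ⟨c', hc', h⟩
  exact hc (KmSet_inj h ▸ hc')

omit [DecidableEq k] in
private theorem KmSet_E_inf (RE : Finset k) : kmE RE (plI k) = 0 := by
  unfold kmE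
  apply if_neg
  rintro ⟨c', _, h⟩
  exact KmSet_inf c' h

private theorem KmSet_m (a : ℕ) (RF RA RB RE : Finset k) (c : k) (hc : c ∉ RF ∪ RA ∪ RB ∪ RE) :
    kmM a RF RA RB c = 0 := by
  simp only [Finset.mem_union, not_or] at hc
  obtain ⟨⟨⟨h1, h2⟩, h3⟩, _⟩ := hc
  unfold kmM
  rw [if_neg h1, if_neg h2, if_neg h3]

theorem kmSet_zero (a : ℕ) (ha : 0 < a) (RF RA RB RE : Finset k) (d : ℕ) (c : k)
    (hc : c ∉ RF ∪ RA ∪ RB ∪ RE) :
    kmc (2 * a) (ratProd (RF ∪ RA ∪ RB ∪ RE) (kmM a RF RA RB)) d (plC c) + kmE RE (plC c) = 0 := by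
  have hcE : c ∉ RE := fun h => hc (Finset.mem_union_right _ h)
  rw [KmSet_E_not hcE, add_zero]
  unfold kmc
  rw [ratProd_ordC _ _ (KmSet_m a RF RA RB RE), KmSet_m a RF RA RB RE c hc, mul_zero]
  apply KmSet_cdiv
  · push_cast; omega
  · rw [mul_zero]
  · rw [mul_zero]; push_cast; omega

private theorem KmSet_arith (a α L δ d : ℕ) (ha : 0 < a) (hα : Odd α) :
    ((((α : ℤ) * (((d + 1) / 2 : ℕ) : ℤ) + L * (if d = 0 then 0 else 1) + L * d + δ)) +
      (-((d : ℤ) * L + ((d * α / 2 : ℕ) : ℤ)) + 0) - 1).toNat = kν α L δ d - 1 := by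
  obtain ⟨s, rfl⟩ := hα
  unfold kν
  rcases Nat.even_or_odd d with ⟨t, rfl⟩ | ⟨t, rfl⟩
  · have h1 : (t + t + 1) / 2 = t := by omega
    have h2 : (t + t) * (2 * s + 1) / 2 = t * (2 * s + 1) := by
      have : (t + t) * (2 * s + 1) = t * (2 * s + 1) * 2 := by ring
      rw [this, Nat.mul_div_cancel _ (by norm_num)]
    have h3 : ¬ (t + t) % 2 = 1 := by omega
    rw [h1, h2, if_neg h3]
    by_cases ht : t + t = 0
    · rw [if_pos ht, if_pos ht]
      have ht0 : t = 0 := by omega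
      subst ht0
      push_cast
      ring_nf
      omega
    · rw [if_neg ht, if_neg ht]
      have e : (((((2 * s + 1 : ℕ) : ℤ)) * (t : ℤ) + L * 1 + L * ((t + t : ℕ) : ℤ) + δ) +
          (-(((t + t : ℕ) : ℤ) * L + ((t * (2 * s + 1) : ℕ) : ℤ)) + 0) - 1) = (L : ℤ) + δ - 1 := by
        push_cast; ring
      rw [e]
      omega
  · have h1 : (2 * t + 1 + 1) / 2 = t + 1 := by omega
    have h2 : (2 * t + 1) * (2 * s + 1) / 2 = 2 * (t * s) + t + s := by
      have : (2 * t + 1) * (2 * s + 1) = (2 * (t * s) + t + s) * 2 + 1 := by ring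
      rw [this]
      omega
    have h3 : (2 * t + 1) % 2 = 1 := by omega
    have h4 : (2 * s + 1 + 1) / 2 = s + 1 := by omega
    have h5 : ¬ 2 * t + 1 = 0 := by omega
    rw [h1, h2, if_pos h3, h4, if_neg h5, if_neg h5]
    have e : (((((2 * s + 1 : ℕ) : ℤ)) * ((t + 1 : ℕ) : ℤ) + L * 1 + L * ((2 * t + 1 : ℕ) : ℤ) + δ) +
        (-(((2 * t + 1 : ℕ) : ℤ) * L + ((2 * (t * s) + t + s : ℕ) : ℤ)) + 0) - 1) =
        (s : ℤ) + 1 + L + δ - 1 := by
      push_cast; ring
    rw [e]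
    omega

theorem kmSet_deg (a : ℕ) (ha : 0 < a) (RF RA RB RE : Finset k)
    (h1 : Disjoint RF RA) (h2 : Disjoint (RF ∪ RA) RB) (h3 : Disjoint (RF ∪ RA ∪ RB) RE)
    (hα : Odd RF.card) (hAB : RA.card = RB.card) (d : ℕ) (hd : d < 2 * a) :
    ((∑ c ∈ RF ∪ RA ∪ RB ∪ RE,
        (kmc (2 * a) (ratProd (RF ∪ RA ∪ RB ∪ RE) (kmM a RF RA RB)) d (plC c) +
          kmE RE (plC c))) +
      (kmc (2 * a) (ratProd (RF ∪ RA ∪ RB ∪ RE) (kmM a RF RA RB)) d (plI k) +
        kmE RE (plI k)) - 1).toNat = kν RF.card RA.card RE.card d - 1 := by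
  have ha' : (0 : ℤ) < a := by exact_mod_cast ha
  have hd' : (d : ℤ) < 2 * a := by exact_mod_cast hd
  have hd0 : (0 : ℤ) ≤ d := by positivity
  have hA : ∀ c ∈ RA, c ∉ RF := fun c hc hF => Finset.disjoint_left.1 h1 hF hc
  have hB : ∀ c ∈ RB, c ∉ RF ∧ c ∉ RA := fun c hc =>
    ⟨fun h => Finset.disjoint_left.1 h2 (Finset.mem_union_left _ h) hc,
      fun h => Finset.disjoint_left.1 h2 (Finset.mem_union_right _ h) hc⟩
  have hEn : ∀ c ∈ RF ∪ RA ∪ RB, c ∉ RE := fun c hc => Finset.disjoint_left.1 h3 hc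
  -- exponents
  have mF : ∀ c ∈ RF, kmM a RF RA RB c = a := fun c hc => by unfold kmM; rw [if_pos hc]
  have mA : ∀ c ∈ RA, kmM a RF RA RB c = 1 := fun c hc => by
    unfold kmM; rw [if_neg (hA c hc), if_pos hc]
  have mB : ∀ c ∈ RB, kmM a RF RA RB c = 2 * (a : ℤ) - 1 := fun c hc => by
    unfold kmM; rw [if_neg (hB c hc).1, if_neg (hB c hc).2, if_pos hc]
  have mE : ∀ c ∈ RE, kmM a RF RA RB c = 0 := fun c hc => by
    have h4 : c ∉ RF ∪ RA ∪ RB := fun h => hEn c h hc
    simp only [Finset.mem_union, not_or] at h4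
    unfold kmM
    rw [if_neg h4.1.1, if_neg h4.1.2, if_neg h4.2]
  set R := RF ∪ RA ∪ RB ∪ RE with hR
  set m := kmM a RF RA RB with hm
  have hord : ∀ c, (plC c).ord (ratProd R m) = m c := fun c =>
    ratProd_ordC _ _ (KmSet_m a RF RA RB RE) c
  have hsm : ∑ c ∈ R, m c = a * RF.card + 2 * a * RA.card := by
    rw [hR, Finset.sum_union h3, Finset.sum_union h2, Finset.sum_union h1,
      Finset.sum_congr rfl mF, Finset.sum_congr rfl mA, Finset.sum_congr rfl mB,
      Finset.sum_congr rfl mE, Finset.sum_const, Finset.sum_const, Finset.sum_const,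
      Finset.sum_const, ← hAB]
    simp only [nsmul_eq_mul]
    ring
  have hcast : ((2 * a : ℕ) : ℤ) = 2 * (a : ℤ) := by push_cast; ring
  have kF : ∀ c ∈ RF, kmc (2 * a) (ratProd R m) d (plC c) + kmE RE (plC c) =
      (((d + 1) / 2 : ℕ) : ℤ) := by
    intro c hc
    rw [KmSet_E_not (hEn c (Finset.mem_union_left _ (Finset.mem_union_left _ hc))), add_zero]
    unfold kmc
    rw [hord, mF c hc, hcast]
    have hq1 : (d : ℤ) ≤ 2 * (((d + 1) / 2 : ℕ) : ℤ) := by omega
    have hq2 : 2 * (((d + 1) / 2 : ℕ) : ℤ) ≤ d + 1 := by omega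
    apply KmSet_cdiv
    · linarith
    · nlinarith
    · nlinarith
  have kA : ∀ c ∈ RA, kmc (2 * a) (ratProd R m) d (plC c) + kmE RE (plC c) =
      (if d = 0 then 0 else 1) := by
    intro c hc
    rw [KmSet_E_not (hEn c (Finset.mem_union_left _ (Finset.mem_union_right _ hc))), add_zero]
    unfold kmc
    rw [hord, mA c hc, hcast, mul_one]
    by_cases h0 : d = 0
    · rw [if_pos h0]
      subst h0
      apply KmSet_cdiv
      · linarith
      · simp
      · push_cast; linarith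
    · rw [if_neg h0]
      have h0' : (1 : ℤ) ≤ d := by omega
      apply KmSet_cdiv
      · linarith
      · linarith
      · linarith
  have kB : ∀ c ∈ RB, kmc (2 * a) (ratProd R m) d (plC c) + kmE RE (plC c) = (d : ℤ) := by
    intro c hc
    rw [KmSet_E_not (hEn c (Finset.mem_union_right _ hc)), add_zero]
    unfold kmc
    rw [hord, mB c hc, hcast]
    apply KmSet_cdiv
    · linarith
    · nlinarith
    · nlinarith
  have kE : ∀ c ∈ RE, kmc (2 * a) (ratProd R m) d (plC c) + kmE RE (plC c) = 1 := by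
    intro c hc
    rw [KmSet_E_of hc]
    unfold kmc
    rw [hord, mE c hc, hcast, mul_zero]
    have : cdiv 0 (2 * (a : ℤ)) = 0 := by
      apply KmSet_cdiv
      · linarith
      · simp
      · linarith
    rw [this, zero_add]
  have kI : kmc (2 * a) (ratProd R m) d (plI k) + kmE RE (plI k) =
      -((d : ℤ) * RA.card + ((d * RF.card / 2 : ℕ) : ℤ)) + 0 := by
    rw [KmSet_E_inf RE]
    congr 1
    unfold kmc
    rw [ratProd_ordI, hsm, hcast]
    have hq1 : 2 * ((d * RF.card / 2 : ℕ) : ℤ) ≤ (d : ℤ) * RF.card := by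
      have := Nat.div_mul_le_self (d * RF.card) 2
      have h5 : ((d * RF.card / 2 * 2 : ℕ) : ℤ) ≤ ((d * RF.card : ℕ) : ℤ) := by exact_mod_cast this
      push_cast at h5
      push_cast
      linarith
    have hq2 : (d : ℤ) * RF.card ≤ 2 * ((d * RF.card / 2 : ℕ) : ℤ) + 1 := by
      have : d * RF.card ≤ 2 * (d * RF.card / 2) + 1 := by omega
      have h5 : ((d * RF.card : ℕ) : ℤ) ≤ ((2 * (d * RF.card / 2) + 1 : ℕ) : ℤ) := by
        exact_mod_cast this
      push_cast at h5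
      push_cast
      linarith
    generalize ((d * RF.card / 2 : ℕ) : ℤ) = q at hq1 hq2 ⊢
    apply KmSet_cdiv
    · linarith
    · nlinarith
    · nlinarith
  rw [kI, hR, Finset.sum_union h3, Finset.sum_union h2, Finset.sum_union h1, ← hR,
    Finset.sum_congr rfl kF, Finset.sum_congr rfl kA, Finset.sum_congr rfl kB,
    Finset.sum_congr rfl kE, Finset.sum_const, Finset.sum_const, Finset.sum_const,
    Finset.sum_const, ← hAB]
  simp only [nsmul_eq_mul, mul_one]
  exact KmSet_arith a RF.card RA.card RE.card d ha hα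

end Pool.Agent.PRB
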