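import Pool.Agent.LibPRK.KmSet

/-!
# The Kummer cover `u ^ (2 a) = F ^ a * A * B ^ (2 a - 1)` of the line: exponents

PLAN. Notation and the values of `kmc` at `plC c`: see KmSet.lean (`kmc`: `RF`: `⌈d / 2⌉`; `RA`: `1` if `0 < d` else `0`; `RB`: `⌈d - d / N⌉ = d` (`d < N`); `RE`: `0`).
With `N = 2 a`, `q = p d / N`, `t = p d % N = p d - N q` (as integers), `0 < t` iff `0 < d` (`N ∤ p d`: `p ∤ a`, `p` odd), `t` odd iff `d` odd:
`RF`: `p ⌈d/2⌉ - ⌈t/2⌉ - q a` is `0` for `d` even, `(p - 1) / 2` for `d` odd; `RA`: `p - 1 - q` (`0 < d`), `0` (`d = 0`);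
`RB`: `p d - t - q (N - 1) = q`; `RE`: `p - 1`.  (`q ≤ p - 1`.)
-/

set_option autoImplicit false

namespace Pool.Agent.PRB

variable {p : ℕ} [Fact p.Prime] {k : Type} [Field k] [IsAlgClosed k] [CharP k p] [DecidableEq k]

private theorem KmSetX_cdivF (a e : ℕ) (ha : 0 < a) :
    cdiv ((e : ℤ) * (a : ℤ)) ((2 * a : ℕ) : ℤ) = -((-(e : ℤ)) / 2) := by
  unfold cdiv
  have h1 : -((e : ℤ) * (a : ℤ)) = (-(e : ℤ)) * a := by ring
  have h2 : ((2 * a : ℕ) : ℤ) = 2 * (a : ℤ) := by push_cast; ring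
  rw [h1, h2, Int.mul_ediv_mul_of_pos_left _ _ (by exact_mod_cast ha)]

private theorem KmSetX_cdivA (N e : ℕ) (he : 0 < e) (heN : e < N) :
    cdiv ((e : ℤ) * 1) (N : ℤ) = 1 := by
  unfold cdiv
  have h1 : (-((e : ℤ) * 1)) / (N : ℤ) = -1 := by
    rw [Int.ediv_eq_iff_of_pos (by omega)]
    constructor <;> omega
  rw [h1]; norm_num

private theorem KmSetX_cdivB (N e : ℕ) (heN : e < N) :
    cdiv ((e : ℤ) * ((N : ℤ) - 1)) (N : ℤ) = e := by
  unfold cdiv
  have h1 : -((e : ℤ) * ((N : ℤ) - 1)) = (e : ℤ) + (N : ℤ) * (-(e : ℤ)) := by ring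
  rw [h1, Int.add_mul_ediv_left _ _ (by omega), Int.ediv_eq_zero_of_lt (by omega) (by omega)]
  ring

private theorem KmSetX_kmE (RE : Finset k) (c : k) : kmE RE (plC c) = if c ∈ RE then 1 else 0 := by
  classical
  unfold kmE
  by_cases h : c ∈ RE
  · rw [if_pos h, if_pos ⟨c, h, rfl⟩]
  · rw [if_neg h, if_neg]
    rintro ⟨c', hc', he⟩
    exact h (plC_inj he ▸ hc')

private theorem KmSetX_ord (a : ℕ) (RF RA RB RE : Finset k) (c : k) :
    (plC c).ord (ratProd (RF ∪ RA ∪ RB ∪ RE) (kmM a RF RA RB)) = kmM a RF RA RB c := by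
  apply ratProd_ordC
  intro c hc
  simp only [Finset.mem_union, not_or] at hc
  unfold kmM
  rw [if_neg hc.1.1.1, if_neg hc.1.1.2, if_neg hc.1.2]

theorem kmSet_exp (hp2 : p ≠ 2) (a : ℕ) (ha : 0 < a) (hpa : ¬ p ∣ a) (RF RA RB RE : Finset k)
    (h1 : Disjoint RF RA) (h2 : Disjoint (RF ∪ RA) RB) (h3 : Disjoint (RF ∪ RA ∪ RB) RE)
    (d : ℕ) (hd : d < 2 * a) (c : k) (hc : c ∈ RF ∪ RA ∪ RB ∪ RE) :
    (kmX p a RF RA RB RE d c : ℤ) =
      p * (kmc (2 * a) (ratProd (RF ∪ RA ∪ RB ∪ RE) (kmM a RF RA RB)) d (plC c) +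
        kmE RE (plC c)) -
      (kmc (2 * a) (ratProd (RF ∪ RA ∪ RB ∪ RE) (kmM a RF RA RB)) (p * d % (2 * a)) (plC c) +
        kmE RE (plC c)) - ((p * d / (2 * a) : ℕ) : ℤ) * kmM a RF RA RB c := by
  have hp : p.Prime := Fact.out
  have hodd : p % 2 = 1 := hp.eq_two_or_odd.resolve_left hp2
  have hpos := hp.pos
  unfold kmc
  rw [KmSetX_ord, KmSetX_kmE]
  set q := p * d / (2 * a) with hq
  set t := p * d % (2 * a) with ht
  have hqt : 2 * a * q + t = p * d := Nat.div_add_mod (p * d) (2 * a)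
  have htN : t < 2 * a := Nat.mod_lt _ (by omega)
  have hqp : q < p := by
    rw [hq, Nat.div_lt_iff_lt_mul (by omega)]
    exact Nat.mul_lt_mul_of_pos_left hd hpos
  by_cases hF : c ∈ RF
  · have hE : c ∉ RE := fun h => (Finset.disjoint_left.1 h3) (by simp [hF]) h
    have hX : kmX p a RF RA RB RE d c = if d % 2 = 1 then (p - 1) / 2 else 0 := by
      unfold kmX; rw [if_pos hF]
    have hM : kmM a RF RA RB c = (a : ℤ) := by unfold kmM; rw [if_pos hF]
    rw [hX, hM, if_neg hE, KmSetX_cdivF a d ha, KmSetX_cdivF a t ha, add_zero, add_zero]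
    obtain ⟨s, hs⟩ : ∃ s, p = 2 * s + 1 := ⟨p / 2, by omega⟩
    have hpar : t % 2 = d % 2 := by
      have e1 : (2 * a * q + t) % 2 = (p * d) % 2 := by rw [hqt]
      rw [hs] at e1
      have e2 : (2 * a * q + t) % 2 = t % 2 := by
        rw [mul_assoc, Nat.add_mod, Nat.mul_mod_right, zero_add, Nat.mod_mod]
      have e3 : ((2 * s + 1) * d) % 2 = d % 2 := by
        have : (2 * s + 1) * d = 2 * (s * d) + d := by ring
        rw [this, Nat.add_mod, Nat.mul_mod_right, zero_add, Nat.mod_mod]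
      rw [e2, e3] at e1
      exact e1
    have hqt' : 2 * (a : ℤ) * q + t = p * d := by exact_mod_cast hqt
    have hs' : (p : ℤ) = 2 * s + 1 := by exact_mod_cast hs
    rcases Nat.mod_two_eq_zero_or_one d with hd0 | hd1
    · rw [if_neg (by omega)]
      obtain ⟨e, he⟩ : ∃ e, d = 2 * e := ⟨d / 2, by omega⟩
      obtain ⟨f, hf⟩ : ∃ f, t = 2 * f := ⟨t / 2, by omega⟩
      have e1 : -((-(d : ℤ)) / 2) = e := by rw [he]; push_cast; omega
      have e2 : -((-(t : ℤ)) / 2) = f := by rw [hf]; push_cast; omega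
      rw [e1, e2]
      have he' : (d : ℤ) = 2 * e := by exact_mod_cast he
      have hf' : (t : ℤ) = 2 * f := by exact_mod_cast hf
      rw [he', hf'] at hqt'
      push_cast
      nlinarith [hqt']
    · rw [if_pos hd1]
      obtain ⟨e, he⟩ : ∃ e, d = 2 * e + 1 := ⟨d / 2, by omega⟩
      obtain ⟨f, hf⟩ : ∃ f, t = 2 * f + 1 := ⟨t / 2, by omega⟩
      have e1 : -((-(d : ℤ)) / 2) = e + 1 := by rw [he]; push_cast; omega
      have e2 : -((-(t : ℤ)) / 2) = f + 1 := by rw [hf]; push_cast; omega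
      rw [e1, e2]
      have he' : (d : ℤ) = 2 * e + 1 := by exact_mod_cast he
      have hf' : (t : ℤ) = 2 * f + 1 := by exact_mod_cast hf
      rw [he', hf'] at hqt'
      have e3 : (((p - 1) / 2 : ℕ) : ℤ) = s := by
        have : (p - 1) / 2 = s := by omega
        rw [this]
      rw [e3]
      nlinarith [hqt', hs']
  · by_cases hA : c ∈ RA
    · have hE : c ∉ RE := fun h => (Finset.disjoint_left.1 h3) (by simp [hA]) h
      have hX : kmX p a RF RA RB RE d c = if d = 0 then 0 else p - 1 - q := by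
        unfold kmX; rw [if_neg hF, if_pos hA]
      have hM : kmM a RF RA RB c = 1 := by unfold kmM; rw [if_neg hF, if_pos hA]
      rw [hX, hM, if_neg hE, add_zero, add_zero]
      rcases Nat.eq_zero_or_pos d with hd0 | hd0
      · have hq0 : q = 0 := by rw [hq, hd0]; simp
        have ht0 : t = 0 := by rw [ht, hd0]; simp
        rw [if_pos hd0, hq0, ht0, hd0]
        simp [cdiv]
      · rw [if_neg (by omega)]
        have ht0 : 0 < t := by
          rcases Nat.eq_zero_or_pos t with h0 | h0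
          · exfalso
            have hdv : 2 * a ∣ p * d := ⟨q, by omega⟩
            have hcop : Nat.Coprime (2 * a) p := by
              apply Nat.Coprime.mul_left
              · exact (Nat.coprime_primes Nat.prime_two hp).2 (Ne.symm hp2)
              · exact ((Nat.Prime.coprime_iff_not_dvd hp).2 hpa).symm
            have := Nat.le_of_dvd hd0 (hcop.dvd_of_dvd_mul_left hdv)
            omega
          · exact h0
        rw [KmSetX_cdivA (2 * a) d hd0 hd, KmSetX_cdivA (2 * a) t ht0 htN]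
        have : ((p - 1 - q : ℕ) : ℤ) = p - 1 - q := by omega
        rw [this]
        ring
    · by_cases hB : c ∈ RB
      · have hE : c ∉ RE := fun h => (Finset.disjoint_left.1 h3) (by simp [hB]) h
        have hX : kmX p a RF RA RB RE d c = if d = 0 then 0 else q := by
          unfold kmX; rw [if_neg hF, if_neg hA, if_pos hB]
        have hX' : kmX p a RF RA RB RE d c = q := by
          rw [hX]
          split_ifs with h0
          · rw [hq, h0]; simp
          · rfl
        have hM : kmM a RF RA RB c = ((2 * a : ℕ) : ℤ) - 1 := by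
          unfold kmM; rw [if_neg hF, if_neg hA, if_pos hB]; push_cast; ring
        rw [hX', hM, if_neg hE, add_zero, add_zero, KmSetX_cdivB (2 * a) d hd, KmSetX_cdivB (2 * a) t htN]
        have hqt' : ((2 * a : ℕ) : ℤ) * q + t = p * d := by exact_mod_cast hqt
        linear_combination hqt'
      · have hE : c ∈ RE := by
          simp only [Finset.mem_union] at hc
          tauto
        have hX : kmX p a RF RA RB RE d c = p - 1 := by
          unfold kmX; rw [if_neg hF, if_neg hA, if_neg hB, if_pos hE]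
        have hM : kmM a RF RA RB c = 0 := by unfold kmM; rw [if_neg hF, if_neg hA, if_neg hB]
        rw [hX, hM, if_pos hE]
        have : ((p - 1 : ℕ) : ℤ) = p - 1 := by omega
        rw [this]
        simp [cdiv]

end Pool.Agent.PRB
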