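import Pool.Agent.LibPRK.KmSetX
import Pool.Agent.LibPRK.KmRat
import Pool.Agent.LibPRB.RatN

/-!
# The Kummer cover `u ^ (2 a) = F ^ a * A * B ^ (2 a - 1)` of the line: spaces and families

PLAN. `R = RF ∪ RA ∪ RB ∪ RE`, `E d P = kmc (2 a) h d P + kmE RE P`.
`kmSp_finrank`: `rat_finrank R (E d)` (RatN.lean) with `kmSet_zero`, `kmSet_deg` (`RF.card` etc. are the degrees: `hAB`).
`kmSp_card`: `rat_fam (2 a) _ R (kmM a RF RA RB) E (kmX p a RF RA RB RE)` with `kmSet_zero`, `kmSet_exp`; the degree bound by `kmSet_deg`;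
`∏ c ∈ R, (X - C c) ^ kmX p a RF RA RB RE d c = kW p a (∏ RF) (∏ RA) (∏ RB) (∏ RE) d` (`Finset.prod_union` for the disjoint union, `Finset.prod_pow`,
`kmX` on each part); `KFam` with the degrees `(∏ c ∈ RF, (X - C c)).natDegree = RF.card` (`natDegree_prod_of_monic`, `natDegree_finset_prod_X_sub_C_eq_card`).
-/

set_option autoImplicit false

namespace Pool.Agent.PRB

open Polynomial

variable {p : ℕ} [Fact p.Prime] {k : Type} [Field k] [IsAlgClosed k] [CharP k p] [DecidableEq k]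

omit [IsAlgClosed k] [DecidableEq k] in
private theorem KmSp_deg (R : Finset k) : (∏ c ∈ R, (X - C c : k[X])).natDegree = R.card := by
  rw [natDegree_prod_of_monic _ _ (fun c _ => monic_X_sub_C c)]
  simp

omit [IsAlgClosed k] in
private theorem KmSp_prod (p a : ℕ) (RF RA RB RE : Finset k)
    (h1 : Disjoint RF RA) (h2 : Disjoint (RF ∪ RA) RB) (h3 : Disjoint (RF ∪ RA ∪ RB) RE) (d : ℕ) :
    ∏ c ∈ RF ∪ RA ∪ RB ∪ RE, (X - C c : k[X]) ^ (kmX p a RF RA RB RE d c) =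
      kW p a (∏ c ∈ RF, (X - C c)) (∏ c ∈ RA, (X - C c)) (∏ c ∈ RB, (X - C c))
        (∏ c ∈ RE, (X - C c)) d := by
  rw [Finset.prod_union h3, Finset.prod_union h2, Finset.prod_union h1]
  have eF : ∏ c ∈ RF, (X - C c : k[X]) ^ (kmX p a RF RA RB RE d c) =
      if d % 2 = 1 then (∏ c ∈ RF, (X - C c : k[X])) ^ ((p - 1) / 2) else 1 := by
    have e1 : ∏ c ∈ RF, (X - C c : k[X]) ^ (kmX p a RF RA RB RE d c) =
        ∏ c ∈ RF, (X - C c : k[X]) ^ (if d % 2 = 1 then (p - 1) / 2 else 0) := by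
      refine Finset.prod_congr rfl fun c hc => ?_
      unfold kmX
      rw [if_pos hc]
    rw [e1, Finset.prod_pow]
    split_ifs
    · rfl
    · rw [pow_zero]
  have eA : ∏ c ∈ RA, (X - C c : k[X]) ^ (kmX p a RF RA RB RE d c) =
      (∏ c ∈ RA, (X - C c : k[X])) ^ (if d = 0 then 0 else p - 1 - p * d / (2 * a)) := by
    rw [← Finset.prod_pow]
    refine Finset.prod_congr rfl fun c hc => ?_
    have n1 : c ∉ RF := fun h => Finset.disjoint_left.1 h1 h hc
    unfold kmX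
    rw [if_neg n1, if_pos hc]
  have eB : ∏ c ∈ RB, (X - C c : k[X]) ^ (kmX p a RF RA RB RE d c) =
      (∏ c ∈ RB, (X - C c : k[X])) ^ (if d = 0 then 0 else p * d / (2 * a)) := by
    rw [← Finset.prod_pow]
    refine Finset.prod_congr rfl fun c hc => ?_
    have n : c ∉ RF ∪ RA := fun h => Finset.disjoint_left.1 h2 h hc
    have n1 : c ∉ RF := fun h => n (Finset.mem_union_left _ h)
    have n2 : c ∉ RA := fun h => n (Finset.mem_union_right _ h)
    unfold kmX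
    rw [if_neg n1, if_neg n2, if_pos hc]
  have eE : ∏ c ∈ RE, (X - C c : k[X]) ^ (kmX p a RF RA RB RE d c) =
      (∏ c ∈ RE, (X - C c : k[X])) ^ (p - 1) := by
    rw [← Finset.prod_pow]
    refine Finset.prod_congr rfl fun c hc => ?_
    have n : c ∉ RF ∪ RA ∪ RB := fun h => Finset.disjoint_left.1 h3 h hc
    have n3 : c ∉ RB := fun h => n (Finset.mem_union_right _ h)
    have n1 : c ∉ RF := fun h => n (Finset.mem_union_left _ (Finset.mem_union_left _ h))
    have n2 : c ∉ RA := fun h => n (Finset.mem_union_left _ (Finset.mem_union_right _ h))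
    unfold kmX
    rw [if_neg n1, if_neg n2, if_neg n3, if_pos hc]
  rw [eF, eA, eB, eE]
  unfold kW
  split_ifs <;> simp [mul_assoc]

theorem kmSp_finrank (a : ℕ) (ha : 0 < a) (RF RA RB RE : Finset k)
    (h1 : Disjoint RF RA) (h2 : Disjoint (RF ∪ RA) RB) (h3 : Disjoint (RF ∪ RA ∪ RB) RE)
    (hα : Odd RF.card) (hAB : RA.card = RB.card) (d : ℕ) (hd : d < 2 * a) :
    Module.Finite k (polSp (ratD p k) (fun P =>
      kmc (2 * a) (ratProd (RF ∪ RA ∪ RB ∪ RE) (kmM a RF RA RB)) d P + kmE RE P)) ∧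
    Module.finrank k (polSp (ratD p k) (fun P =>
      kmc (2 * a) (ratProd (RF ∪ RA ∪ RB ∪ RE) (kmM a RF RA RB)) d P + kmE RE P)) =
      kν RF.card RA.card RE.card d - 1 := by
  have h := rat_finrank (p := p) (RF ∪ RA ∪ RB ∪ RE)
    (fun P => kmc (2 * a) (ratProd (RF ∪ RA ∪ RB ∪ RE) (kmM a RF RA RB)) d P + kmE RE P)
    (fun c hc => kmSet_zero a ha RF RA RB RE d c hc)
  exact ⟨h.1, h.2.trans (kmSet_deg a ha RF RA RB RE h1 h2 h3 hα hAB d hd)⟩

theorem kmSp_card (hp2 : p ≠ 2) (a : ℕ) (ha : 0 < a) (hpa : ¬ p ∣ a) (RF RA RB RE : Finset k)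
    (h1 : Disjoint RF RA) (h2 : Disjoint (RF ∪ RA) RB) (h3 : Disjoint (RF ∪ RA ∪ RB) RE)
    (hα : Odd RF.card) (hAB : RA.card = RB.card) (s : ℕ)
    (hs : KFam p a (∏ c ∈ RF, (X - C c)) (∏ c ∈ RA, (X - C c)) (∏ c ∈ RB, (X - C c))
      (∏ c ∈ RE, (X - C c)) s) :
    Nat.card {c : ℕ → RatFunc k // (∀ d, 2 * a ≤ d → c d = 0) ∧
        (∀ d < 2 * a, c d ∈ polSp (ratD p k) (fun P =>
          kmc (2 * a) (ratProd (RF ∪ RA ∪ RB ∪ RE) (kmM a RF RA RB)) d P + kmE RE P)) ∧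
        ∀ d < 2 * a, car p (ratD p k) (c (p * d % (2 * a)) /
          ratProd (RF ∪ RA ∪ RB ∪ RE) (kmM a RF RA RB) ^ (p * d / (2 * a))) = c d} = p ^ s := by
  have key := rat_fam (p := p) (2 * a) (by omega) (RF ∪ RA ∪ RB ∪ RE) (kmM a RF RA RB)
    (fun d P => kmc (2 * a) (ratProd (RF ∪ RA ∪ RB ∪ RE) (kmM a RF RA RB)) d P + kmE RE P)
    (fun d _ c hc => kmSet_zero a ha RF RA RB RE d c hc) (kmX p a RF RA RB RE)
    (fun d hd c hc => kmSet_exp hp2 a ha hpa RF RA RB RE h1 h2 h3 d hd c hc)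
  refine key.trans ?_
  unfold KFam at hs
  rw [← hs]
  refine Nat.card_congr (Equiv.subtypeEquivRight fun B => ?_)
  refine and_congr_right fun _ => and_congr ?_ ?_
  · refine forall_congr' fun d => forall_congr' fun hd => ?_
    rw [KmSp_deg, KmSp_deg, KmSp_deg, kmSet_deg a ha RF RA RB RE h1 h2 h3 hα hAB d hd]
  · refine forall_congr' fun d => forall_congr' fun hd => forall_congr' fun i => ?_
    rw [KmSp_prod p a RF RA RB RE h1 h2 h3 d]

end Pool.Agent.PRB
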