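import Pool.Agent.LibPRK.KmDiff

/-!
# Kummer covers: tame ramification

PLAN (`p ∤ e`). Let `δ'` be the order of `ds` at `Q` (`diff_km`), `S` the finite set of the places over `P`
(`over_finite`), `t` with `Q.ord t = 1`; multiply `t` by a suitable element of `exists_appr (S.erase Q) Q` to get `a` with
`Q.ord a = 1` and `Q'.ge 1 a` for all `Q'` over `P`.
(1) `Q.ge 1 (algebraMap (co a d) * u ^ d)` for all `d < N`: let `n : ℤ` with `N n > - d P.ord h` and `N (n - 1) ≤ - d P.ord h`;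
for every `Q'` over `P` (index `e'`) `N * Q'.ord u = e' * P.ord h`, so `N * Q'.ord (a / u ^ d) ≥ N - e' d P.ord h ≥ N + e' N (n - 1)`,
i.e. `Q'.ge (e' n + 1 - e') (a / u ^ d)`, so `P.ge n (co a d)` (`km_co_zero_ge`, `km_co_div`), and
`N * (e * n + d * Q.ord u) = e * (N n + d P.ord h) > 0`.
(2) `D' (c u ^ d) = u ^ d * (D c + (d / N) c (D h) / h)` (`c = co a d`): at `P`, `P.ge (ord c - 1 - δ) (D c)` and
`P.ge (ord c - 1 - δ) (c (D h)/ h)` (`IsDiff.ge_D`, ...), so `Q.ge (1 - e (1 + δ)) (D' (c u ^ d))`, so `Q.ge (1 - e (1 + δ)) (D' a)`.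
(3) `Q.ord (D' a) = -δ'` (`IsDiff.ord_D`, `Q.ord a = 1`), so `δ' ≤ e (1 + δ) - 1`.
(4) if `p ∣ e`: the uniformizer `π` of `P` with `P.ord (D π) = -δ` has `Q.ord π = e`, and `Q.ge (e - δ') (D' π)`: write
`π = t ^ e * v`, `D' π = t ^ e D' v + e t ^ (e-1) v D' t` and `(e : L) = 0`; so `-e δ ≥ e - δ'`, contradiction with (3).
-/

set_option autoImplicit false

namespace Pool.Agent.PRB

variable {p N : ℕ} [Fact p.Prime] {k K L : Type} [Field k] [Field K] [Field L]
  [Algebra k K] [Algebra k L] [Algebra K L] [IsScalarTower k K L] {h : K} {u : L}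

omit [IsScalarTower k K L] in
private theorem KmTame_up {e : ℕ} {Q : Plc k L} {P : Plc k K} (hQ : OverE e Q P) {n : ℤ} {a : K}
    (ha : P.ge n a) : Q.ge (e * n) (algebraMap K L a) := by
  rcases ha with ha | ha
  · left
    rw [ha, map_zero]
  · right
    rw [hQ.2]
    exact mul_le_mul_of_nonneg_left ha (Int.natCast_nonneg e)

omit [IsScalarTower k K L] in
private theorem KmTame_ordu (T : IsKm N h u) {e : ℕ} {Q : Plc k L} {P : Plc k K}
    (hQ : OverE e Q P) : (N : ℤ) * Q.ord u = e * P.ord h := by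
  rw [← Q.ord_pow, T.eq, hQ.2]

omit [Algebra k K] [IsScalarTower k K L] in
private theorem KmTame_DN (T : IsKm N h u) (hh : h ≠ 0) (DD : K → K) (D' : Derivation k L L)
    (hD : ∀ a : K, D' (algebraMap K L a) = algebraMap K L (DD a)) (c : K) (d : ℕ) :
    (N : L) * D' (algebraMap K L c * u ^ d) =
      u ^ d * algebraMap K L (N * DD c + d * (c * (DD h / h))) := by
  have hu0 : u ≠ 0 := T.u_ne hh
  have h1 : (N : L) * D' u = u * algebraMap K L (DD h / h) := by
    have h2 := congrArg D' T.eq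
    rw [Derivation.leibniz_pow, hD] at h2
    simp only [smul_eq_mul, nsmul_eq_mul] at h2
    have h3 : u ^ (N - 1) * u = algebraMap K L h := by
      rw [← pow_succ, Nat.sub_add_cancel T.pos, T.eq]
    rw [map_div₀, ← h3, ← h2]
    field_simp
  rw [D'.leibniz, Derivation.leibniz_pow, hD]
  simp only [smul_eq_mul, nsmul_eq_mul, map_add, map_mul, map_natCast]
  rcases Nat.eq_zero_or_pos d with hd | hd
  · subst hd
    simp
  · have h4 : u ^ (d - 1) * u = u ^ d := by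
      rw [← pow_succ, Nat.sub_add_cancel hd]
    linear_combination (algebraMap K L c * (d : L) * u ^ (d - 1)) * h1 +
      (algebraMap K L c * (d : L) * algebraMap K L (DD h / h)) * h4

private theorem KmTame_one [IsAlgClosed k] [CharP K p] (hpN : ¬ p ∣ N) (T : IsKm N h u)
    (hh : h ≠ 0) {P : Plc k K} {e : ℕ} {Q : Plc k L} (hQ : OverE e Q P) (a : L)
    (ha : ∀ (Q' : Plc k L) (e' : ℕ), OverE e' Q' P → Q'.ge 1 a) (d : ℕ) (hd : d < N) :
    T.co a d = 0 ∨ 1 ≤ e * P.ord (T.co a d) + d * Q.ord u := by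
  have hu0 : u ≠ 0 := T.u_ne hh
  have hN0 : (0 : ℤ) < N := by exact_mod_cast T.pos
  obtain ⟨n, hn⟩ : ∃ n : ℤ, n = (-(d * P.ord h)) / N + 1 := ⟨_, rfl⟩
  have hdiv := Int.emod_add_mul_ediv (-(d * P.ord h)) N
  have hm0 := Int.emod_nonneg (-(d * P.ord h)) hN0.ne'
  have hm1 := Int.emod_lt_of_pos (-(d * P.ord h)) hN0
  have hn1 : (N : ℤ) * (n - 1) ≤ -(d * P.ord h) := by
    rw [hn, add_sub_cancel_right]
    linarith
  have hn2 : -(d * P.ord h) < (N : ℤ) * n := by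
    rw [hn, mul_add, mul_one]
    linarith
  have hge : P.ge n (T.co a d) := by
    rw [← km_co_div T hh a hd]
    refine km_co_zero_ge hpN T P _ _ fun Q' e' hQ' => ?_
    have h1 : Q'.ge (-((d : ℤ) * Q'.ord u)) ((u ^ d)⁻¹) := by
      right
      rw [Q'.ord_inv, Q'.ord_pow]
    have h2 := Q'.ge_mul (ha Q' e' hQ') h1
    rw [← div_eq_mul_inv] at h2
    refine h2.mono ?_
    have h3 := KmTame_ordu T hQ'
    have h4 : (e' : ℤ) * ((N : ℤ) * (n - 1)) ≤ e' * (-(d * P.ord h)) :=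
      mul_le_mul_of_nonneg_left hn1 (Int.natCast_nonneg e')
    have h5 : (N : ℤ) * (e' * n + 1 - e') ≤ N * (1 + -((d : ℤ) * Q'.ord u)) := by
      have h6 : (N : ℤ) * (1 + -((d : ℤ) * Q'.ord u)) = N - d * (N * Q'.ord u) := by ring
      rw [h6, h3]
      linarith
    exact le_of_mul_le_mul_left h5 hN0
  by_cases hc : T.co a d = 0
  · exact Or.inl hc
  right
  have h1 : n ≤ P.ord (T.co a d) := (P.ge_iff hc).1 hge
  have h3 := KmTame_ordu T hQ
  have he : (0 : ℤ) < e := by exact_mod_cast hQ.1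
  have h4 : (e : ℤ) * n ≤ e * P.ord (T.co a d) := mul_le_mul_of_nonneg_left h1 he.le
  have h5 : 0 < (N : ℤ) * (e * n + d * Q.ord u) := by
    have h6 : (N : ℤ) * (e * n + d * Q.ord u) = e * (N * n) + d * (N * Q.ord u) := by ring
    rw [h6, h3]
    have h7 : (e : ℤ) * (-(d * P.ord h)) < e * (N * n) := mul_lt_mul_of_pos_left hn2 he
    linarith
  have h6 : 0 < e * n + d * Q.ord u := (pos_iff_pos_of_mul_pos h5).1 hN0
  linarith

theorem km_tame [IsAlgClosed k] [CharP k p] [CharP K p] (hpN : ¬ p ∣ N) (T : IsKm N h u)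
    (hh : h ≠ 0) (D : Derivation k K K) (D' : Derivation k L L)
    (hD : ∀ a : K, D' (algebraMap K L a) = algebraMap K L (D a)) {P : Plc k K} {δ : ℤ}
    (hP : IsDiff P D δ) {e : ℕ} {Q : Plc k L} (hQ : OverE e Q P) : ¬ p ∣ e := by
  classical
  haveI : CharP L p := charP_of_injective_algebraMap (algebraMap K L).injective p
  obtain ⟨δ', hδ'⟩ := diff_km hpN T hh D D' hD hP hQ
  obtain ⟨S, hS⟩ : ∃ S : Finset (Plc k L), ∀ Q' : Plc k L, Q' ∈ S ↔ ∃ e', OverE e' Q' P :=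
    ⟨(over_finite T.finite P).toFinset, fun Q' => by
      rw [Set.Finite.mem_toFinset]
      exact Iff.rfl⟩
  obtain ⟨t, ht0, ht1⟩ : ∃ t : L, t ≠ 0 ∧ Q.ord t = 1 := by
    obtain ⟨-, t, ht0, ht1, -⟩ := hδ'
    exact ⟨t, ht0, ht1⟩
  obtain ⟨M, hM⟩ : ∃ M : ℕ, M = 1 + ∑ Q' ∈ S, (Q'.ord t).natAbs := ⟨_, rfl⟩
  obtain ⟨s, hs0, hsQ, hsM⟩ := exists_appr (S.erase Q) Q (Finset.notMem_erase Q S) M
  have ha0 : t * s ≠ 0 := mul_ne_zero ht0 hs0
  have haQ : Q.ord (t * s) = 1 := by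
    rw [Q.ord_mul ht0 hs0, ht1, hsQ, add_zero]
  have ha : ∀ (Q' : Plc k L) (e' : ℕ), OverE e' Q' P → Q'.ge 1 (t * s) := by
    intro Q' e' hQ'
    have hmem : Q' ∈ S := (hS Q').2 ⟨e', hQ'⟩
    right
    by_cases hQQ : Q' = Q
    · rw [hQQ, haQ]
    · rw [Q'.ord_mul ht0 hs0]
      have h1 := hsM Q' (Finset.mem_erase.2 ⟨hQQ, hmem⟩)
      have h2 : (Q'.ord t).natAbs ≤ ∑ Q' ∈ S, (Q'.ord t).natAbs :=
        Finset.single_le_sum (f := fun Q' : Plc k L => (Q'.ord t).natAbs) (fun _ _ => Nat.zero_le _) hmem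
      omega
  have hNL : (N : L) ≠ 0 := by
    intro h0
    exact hpN ((CharP.cast_eq_zero_iff L p N).1 h0)
  have hNord : Q.ord (N : L) = 0 := by
    have := Q.ord_const (N : k)
    rwa [map_natCast] at this
  have he0 : (0 : ℤ) < e := by exact_mod_cast hQ.1
  have h2 : Q.ge (1 - e * (1 + δ)) (D' (t * s)) := by
    have hsum : D' (t * s) = ∑ d ∈ Finset.range N,
        D' (algebraMap K L (T.co (t * s) d) * u ^ d) := by
      conv_lhs => rw [← T.sum_co (t * s)]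
      rw [map_sum]
    rw [hsum]
    refine Q.ge_sum _ _ fun d hd => ?_
    rcases KmTame_one hpN T hh hQ (t * s) ha d (Finset.mem_range.1 hd) with h3 | h3
    · rw [h3, map_zero, zero_mul, map_zero]
      exact Q.ge_zero _
    obtain ⟨c, hc⟩ : ∃ c, c = T.co (t * s) d := ⟨_, rfl⟩
    rw [← hc] at h3 ⊢
    have h4 : P.ge (P.ord c - 1 - δ) (D c) := hP.ge_D (Or.inr le_rfl)
    have h5 : P.ge (P.ord c - 1 - δ) (c * (D h / h)) := by
      have h6 : P.ge (P.ord h - 1 - δ) (D h) := hP.ge_D (Or.inr le_rfl)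
      have h7 : P.ge (-P.ord h) h⁻¹ := Or.inr (by rw [P.ord_inv])
      have h8 : P.ge (P.ord c) c := Or.inr le_rfl
      have h9 := P.ge_mul h8 (P.ge_mul h6 h7)
      rw [div_eq_mul_inv]
      exact h9.mono (by linarith)
    have hcst : ∀ n : ℕ, P.ge 0 ((n : ℕ) : K) := fun n => by
      have := P.ge_const ((n : ℕ) : k)
      rwa [map_natCast] at this
    have h6 : P.ge (P.ord c - 1 - δ) ((N : K) * D c + (d : K) * (c * (D h / h))) := by
      refine P.ge_add ?_ ?_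
      · have := P.ge_mul (hcst N) h4
        rwa [zero_add] at this
      · have := P.ge_mul (hcst d) h5
        rwa [zero_add] at this
    have h7 := KmTame_up hQ h6
    have h8 : Q.ge (d * Q.ord u) (u ^ d) := Or.inr (by rw [Q.ord_pow])
    have h9 := Q.ge_mul h8 h7
    rw [← KmTame_DN T hh D D' hD c d, Q.ge_mul_iff hNL, hNord, sub_zero] at h9
    refine h9.mono ?_
    linarith
  have hp1 : ¬ (p : ℤ) ∣ Q.ord (t * s) := by
    rw [haQ]
    intro h0
    have h3 : p ∣ 1 := by exact_mod_cast h0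
    exact (Fact.out : p.Prime).one_lt.ne' (Nat.dvd_one.1 h3)
  obtain ⟨h3, h4⟩ := hδ'.ord_D ha0 hp1
  rw [haQ] at h4
  have h5 := (Q.ge_iff h3).1 h2
  intro hpe
  obtain ⟨-, π, hπ0, hπ1, hDπ, hDo⟩ := hP
  have hv : Q.ge 0 (algebraMap K L π / t ^ e) := by
    right
    rw [Q.ord_div ((map_ne_zero (algebraMap K L)).2 hπ0) (pow_ne_zero _ ht0), hQ.2, Q.ord_pow, hπ1, ht1]
    simp
  have h6 := hδ'.1 _ hv
  have hec : (e : L) = 0 := (CharP.cast_eq_zero_iff L p e).2 hpe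
  have h7 : D' (algebraMap K L π) = t ^ e * D' (algebraMap K L π / t ^ e) := by
    conv_lhs => rw [show algebraMap K L π = t ^ e * (algebraMap K L π / t ^ e) by
      field_simp]
    rw [D'.leibniz, Derivation.leibniz_pow]
    simp only [smul_eq_mul, nsmul_eq_mul, hec, zero_mul, mul_zero, add_zero]
  have h8 : Q.ge (e * 1 + -δ') (D' (algebraMap K L π)) := by
    rw [h7]
    refine Q.ge_mul ?_ h6
    right
    rw [Q.ord_pow, ht1]
  rw [hD] at h8
  have h9 := (Q.ge_iff ((map_ne_zero (algebraMap K L)).2 hDπ)).1 h8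
  rw [hQ.2, hDo] at h9
  linarith

end Pool.Agent.PRB
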