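import Pool.Agent.LibPRK.KmTr
import Pool.Agent.LibPRB.FinU
import Pool.Agent.LibPRB.TwTg

/-!
# Kummer covers: the coefficient of `1` at the places

PLAN. Template: `trace_ge_tw` in Pool/Agent/LibPRB/TwTg.lean (there `e ≤ p`); here use `p ^ j` with `e ≤ p ^ j`
for all `e ≤ N` (`OverE.le_finrank`, `T.finrank`; e.g. `j = N`): with `π` a uniformizer of `P`, `b = π ^ (1 - n) a` has
`Q.ge 1 b` at all `Q` over `P`, so `Q.ge 0 (π⁻¹ b ^ (p ^ j))`, so by `trace_ge` and `trace_km`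
`P.ge 0 (N * π⁻¹ * (co b 0) ^ (p ^ j))` (`co_pow_km` iterated), so `P.ge 1 (co b 0)` (`(N : K) ≠ 0` is a constant: `hpN`), so
`P.ge n (co a 0)`.
-/

set_option autoImplicit false

namespace Pool.Agent.PRB

variable {p N : ℕ} [Fact p.Prime] {k K L : Type} [Field k] [Field K] [Field L]
  [Algebra k K] [Algebra k L] [Algebra K L] [IsScalarTower k K L] {h : K} {u : L}

omit [Field k] [Algebra k K] [Algebra k L] [IsScalarTower k K L] in
private theorem KmTg_co_pow [CharP K p] (hpN : ¬ p ∣ N) (T : IsKm N h u) (a : L) (j : ℕ) :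
    T.co (a ^ (p ^ j)) 0 = T.co a 0 ^ (p ^ j) := by
  induction j with
  | zero => simp
  | succ j ih => rw [pow_succ, pow_mul, co_pow_km hpN T, ih, ← pow_mul]

theorem km_co_zero_ge [IsAlgClosed k] [CharP K p] (hpN : ¬ p ∣ N) (T : IsKm N h u)
    (P : Plc k K) (n : ℤ) (a : L)
    (ha : ∀ (Q : Plc k L) (e : ℕ), OverE e Q P → Q.ge (e * n + 1 - e) a) :
    P.ge n (T.co a 0) := by
  obtain ⟨π, hπ0, hπ⟩ := P.exists_unif
  obtain ⟨q, hq⟩ : ∃ q : ℕ, q = p ^ N := ⟨_, rfl⟩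
  have hqN : N ≤ q := by
    rw [hq]
    exact (Nat.lt_pow_self (Fact.out : p.Prime).one_lt).le
  have hq0 : (0 : ℤ) < q := by
    have h0 : 0 < q := by
      rw [hq]
      exact pow_pos (Fact.out : p.Prime).pos _
    exact_mod_cast h0
  have hz0 : π ^ (1 - n) ≠ 0 := zpow_ne_zero _ hπ0
  have hzo : P.ord (π ^ (1 - n)) = 1 - n := by rw [P.ord_zpow, hπ, mul_one]
  have hi0 : π⁻¹ ≠ 0 := inv_ne_zero hπ0
  have hio : P.ord π⁻¹ = -1 := by rw [P.ord_inv, hπ]
  have hNK : (N : K) ≠ 0 := by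
    intro h0
    exact hpN ((CharP.cast_eq_zero_iff K p N).1 h0)
  have h1 : P.ge 0 (Algebra.trace K L
      (algebraMap K L π⁻¹ * (algebraMap K L (π ^ (1 - n)) * a) ^ q)) := by
    refine trace_ge T.finite P _ fun Q e hQ => ?_
    have h2 : Q.ge (e * (1 - n)) (algebraMap K L (π ^ (1 - n))) := by
      right
      rw [hQ.2, hzo]
    have h3 := Q.ge_mul h2 (ha Q e hQ)
    have h4 : Q.ge 1 (algebraMap K L (π ^ (1 - n)) * a) := by
      refine h3.mono ?_
      linarith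
    have h5 := Q.ge_pow h4 q
    have h6 : Q.ge (e * (-1)) (algebraMap K L π⁻¹) := by
      right
      rw [hQ.2, hio]
    have h7 := Q.ge_mul h6 h5
    have h8 : (e : ℤ) ≤ q := by
      have := OverE.le_finrank T.finite hQ
      rw [T.finrank] at this
      exact_mod_cast this.trans hqN
    refine h7.mono ?_
    linarith
  rw [trace_km T, T.co_mul, hq, KmTg_co_pow hpN T, ← hq, T.co_mul] at h1
  have h1' : P.ge 0 (π⁻¹ * (π ^ (1 - n) * T.co a 0) ^ q) := by
    have h2 := P.ge_mul (P.ge_const ((N : k)⁻¹)) h1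
    rw [map_inv₀, map_natCast, inv_mul_cancel_left₀ hNK] at h2
    simpa using h2
  rw [P.ge_mul_iff hi0, hio] at h1'
  have h2 : P.ge 1 (π ^ (1 - n) * T.co a 0) := by
    by_cases h3 : π ^ (1 - n) * T.co a 0 = 0
    · exact Or.inl h3
    · right
      rw [P.ge_iff (pow_ne_zero _ h3), P.ord_pow] at h1'
      by_contra h4
      push Not at h4
      have h5 : P.ord (π ^ (1 - n) * T.co a 0) ≤ 0 := by linarith
      have h6 : (q : ℤ) * P.ord (π ^ (1 - n) * T.co a 0) ≤ 0 :=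
        mul_nonpos_of_nonneg_of_nonpos hq0.le h5
      linarith
  rw [P.ge_mul_iff hz0, hzo] at h2
  simpa using h2

end Pool.Agent.PRB
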