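import Pool.Agent.LibPRK.KmB
import Pool.Agent.LibPRB.FinI
import Pool.Agent.LibPRB.FinU
import Pool.Agent.LibPRB.TwTg

/-!
# Kummer covers: the coefficient of `1` and the places

PLAN. `trace_km`: `Algebra.trace_eq_matrix_trace T.basis` or `LinearMap.trace`; multiplication by `u ^ j`, `0 < j < N`, shifts the
basis and has trace `0`: `trace a = ∑ d, co a d * trace (u ^ d)`, and `trace (u ^ d) = ∑_i coefficient of u ^ i in u ^ (i + d)`,
which is `0` for `0 < d < N` and `N` for `d = 0`.  Template: `TwTr_trace`, `TwTr_repr` in Pool/Agent/LibPRB/TwTr.lean.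
`co_pow_km`: `a ^ p = ∑ (co a d) ^ p * u ^ (p d)` (char `p`: `sum_pow_char`), `u ^ (p d) = h ^ (p d / N) * u ^ (p d % N)` and
`p d % N = 0` iff `d = 0` (for `d < N`, `p ∤ N`, `p` prime: `N ∣ p d` implies `N ∣ d`).
`km_co_div`: `T.co (a / u ^ d) 0 = T.co a d` for `d < N`
(`a = ∑ c_i u ^ i`, `u ^ i / u ^ d = u ^ (i - d)` for `i ≥ d` and `u ^ (N + i - d) / h` for `i < d`).
-/

set_option autoImplicit false

namespace Pool.Agent.PRB

variable {p N : ℕ} [Fact p.Prime] {k K L : Type} [Field k] [Field K] [Field L]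
  [Algebra k K] [Algebra k L] [Algebra K L] [IsScalarTower k K L] {h : K} {u : L}

private theorem KmTr_pow (T : IsKm N h u) (m : ℕ) :
    u ^ m = algebraMap K L (h ^ (m / N)) * u ^ (m % N) := by
  conv_lhs => rw [← Nat.div_add_mod m N, pow_add, pow_mul, T.eq, ← map_pow]

private theorem KmTr_gen (T : IsKm N h u) (m i : ℕ) :
    T.co (u ^ m) i = if i = m % N then h ^ (m / N) else 0 := by
  rw [KmTr_pow T m, T.co_mul_u_pow _ (Nat.mod_lt _ T.pos)]

private theorem KmTr_repr (T : IsKm N h u) (x : L) (i : Fin N) :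
    T.basis.repr x i = T.co x i := by
  have h1 : x = ∑ j : Fin N, T.co x j • T.basis j := by
    conv_lhs => rw [← T.sum_co x]
    rw [Finset.sum_range]
    refine Finset.sum_congr rfl fun j _ => ?_
    rw [Algebra.smul_def]
    unfold IsKm.basis
    rw [Module.Basis.mk_apply]
  have h2 := congrArg (fun y => T.basis.repr y i) h1
  rw [h2, Module.Basis.repr_sum_self]

private theorem KmTr_trace (T : IsKm N h u) (a : L) :
    Algebra.trace K L a = ∑ i ∈ Finset.range N, T.co (a * u ^ i) i := by
  classical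
  rw [Algebra.trace_eq_matrix_trace T.basis, Matrix.trace, Finset.sum_range]
  refine Finset.sum_congr rfl fun i _ => ?_
  rw [Matrix.diag_apply, Algebra.leftMulMatrix_eq_repr_mul, KmTr_repr]
  unfold IsKm.basis
  rw [Module.Basis.mk_apply]

private theorem KmTr_upow (T : IsKm N h u) {j : ℕ} (hj : j < N) :
    Algebra.trace K L (u ^ j) = if j = 0 then (N : K) else 0 := by
  rw [KmTr_trace T]
  have hterm : ∀ i ∈ Finset.range N, T.co (u ^ j * u ^ i) i = if j = 0 then 1 else 0 := by
    intro i hi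
    have hi' := Finset.mem_range.1 hi
    rw [← pow_add, KmTr_gen T]
    by_cases h0 : j = 0
    · have h1 : (j + i) % N = i := by
        rw [h0, zero_add, Nat.mod_eq_of_lt hi']
      have h2 : (j + i) / N = 0 := by
        rw [h0, zero_add, Nat.div_eq_of_lt hi']
      rw [if_pos h1.symm, h2, pow_zero, if_pos h0]
    · rw [if_neg h0, if_neg]
      intro h1
      by_cases hlt : j + i < N
      · rw [Nat.mod_eq_of_lt hlt] at h1
        omega
      · rw [Nat.mod_eq_sub_mod (by omega), Nat.mod_eq_of_lt (by omega)] at h1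
        omega
  rw [Finset.sum_congr rfl hterm, Finset.sum_const, Finset.card_range, nsmul_eq_mul]
  split_ifs
  · rw [mul_one]
  · rw [mul_zero]

omit [Field k] [Algebra k K] [Algebra k L] [IsScalarTower k K L] [Fact p.Prime] in
theorem trace_km (T : IsKm N h u) (a : L) : Algebra.trace K L a = N * T.co a 0 := by
  conv_lhs => rw [← T.sum_co a]
  rw [map_sum]
  have h1 : ∀ i ∈ Finset.range N, Algebra.trace K L (algebraMap K L (T.co a i) * u ^ i) =
      if i = 0 then N * T.co a 0 else 0 := by
    intro i hi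
    rw [← Algebra.smul_def, map_smul, KmTr_upow T (Finset.mem_range.1 hi), smul_eq_mul]
    split_ifs with h2
    · rw [h2, mul_comm]
    · rw [mul_zero]
  rw [Finset.sum_congr rfl h1, Finset.sum_ite_eq', if_pos (Finset.mem_range.2 T.pos)]

theorem co_pow_km [CharP K p] (hpN : ¬ p ∣ N) (T : IsKm N h u) (a : L) :
    T.co (a ^ p) 0 = T.co a 0 ^ p := by
  have hp : p.Prime := Fact.out
  have : CharP L p := charP_of_injective_algebraMap (algebraMap K L).injective p
  have h1 : a ^ p = ∑ d ∈ Finset.range N, algebraMap K L (T.co a d ^ p) * u ^ (d * p) := by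
    conv_lhs => rw [← T.sum_co a]
    rw [sum_pow_char p]
    refine Finset.sum_congr rfl fun d _ => ?_
    rw [mul_pow, ← pow_mul, map_pow]
  rw [h1, T.co_sum]
  have h2 : ∀ d ∈ Finset.range N, T.co (algebraMap K L (T.co a d ^ p) * u ^ (d * p)) 0 =
      if d = 0 then T.co a 0 ^ p else 0 := by
    intro d hd
    have hd' := Finset.mem_range.1 hd
    rw [T.co_mul, KmTr_gen T]
    by_cases h0 : d = 0
    · rw [if_pos h0, h0, zero_mul, Nat.zero_mod, if_pos rfl, Nat.zero_div, pow_zero, mul_one]
    · rw [if_neg h0, if_neg, mul_zero]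
      intro h3
      have h4 : N ∣ d * p := Nat.dvd_of_mod_eq_zero h3.symm
      have h5 : Nat.Coprime N p := ((Nat.Prime.coprime_iff_not_dvd hp).2 hpN).symm
      have h6 : N ∣ d := h5.dvd_of_dvd_mul_right h4
      exact h0 (Nat.eq_zero_of_dvd_of_lt h6 hd')
  rw [Finset.sum_congr rfl h2, Finset.sum_ite_eq', if_pos (Finset.mem_range.2 T.pos)]

theorem km_co_div (T : IsKm N h u) (hh : h ≠ 0) (a : L) {d : ℕ} (hd : d < N) :
    T.co (a / u ^ d) 0 = T.co a d := by
  have hu : u ≠ 0 := T.u_ne hh
  have hh' : algebraMap K L h ≠ 0 := by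
    rw [← T.eq]
    exact pow_ne_zero _ hu
  have h1 : a / u ^ d = algebraMap K L h⁻¹ *
      ∑ i ∈ Finset.range N, algebraMap K L (T.co a i) * u ^ (i + (N - d)) := by
    have h2 : ∑ i ∈ Finset.range N, algebraMap K L (T.co a i) * u ^ (i + (N - d)) =
        a * u ^ (N - d) := by
      conv_rhs => rw [← T.sum_co a]
      rw [Finset.sum_mul]
      refine Finset.sum_congr rfl fun i _ => ?_
      rw [mul_assoc, ← pow_add]
    rw [h2, map_inv₀, div_eq_iff (pow_ne_zero _ hu), mul_assoc, mul_assoc, ← pow_add,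
      Nat.sub_add_cancel hd.le, T.eq, mul_comm a, ← mul_assoc, inv_mul_cancel₀ hh', one_mul]
  rw [h1, T.co_mul, T.co_sum]
  have h2 : ∀ i ∈ Finset.range N, T.co (algebraMap K L (T.co a i) * u ^ (i + (N - d))) 0 =
      if i = d then T.co a d * h else 0 := by
    intro i hi
    have hi' := Finset.mem_range.1 hi
    rw [T.co_mul, KmTr_gen T]
    by_cases h0 : i = d
    · have h3 : i + (N - d) = N := by omega
      rw [if_pos h0, h3, Nat.mod_self, if_pos rfl, Nat.div_self T.pos, pow_one, h0]
    · rw [if_neg h0, if_neg, mul_zero]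
      intro h3
      by_cases hlt : i + (N - d) < N
      · rw [Nat.mod_eq_of_lt hlt] at h3
        omega
      · rw [Nat.mod_eq_sub_mod (by omega), Nat.mod_eq_of_lt (by omega)] at h3
        omega
  rw [Finset.sum_congr rfl h2, Finset.sum_ite_eq', if_pos (Finset.mem_range.2 hd), mul_comm,
    mul_assoc, mul_inv_cancel₀ hh, mul_one]

end Pool.Agent.PRB
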