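import Pool.Agent.LibPRK.CrtDvd

/-!
# Adding logarithmic poles: the kernel

PLAN. `δ = E.natDegree`.  `g ∈ kSp (W * E^(p-1)) (ν + δ - 1)`: `crt (g * W * E^(p-1)) = 0`, so `E ∣ g * W` (`dvd_of_dvd_crt`), `E ∣ g`, `g = E * g₀`,
`g * (W * E^(p-1)) = E^p * (g₀ * W)`, `crt = E * crt (g₀ * W)`.  So multiplication by `E` is a linear bijection from `kSp W (ν - 1)` (degrees:
`g₀.degree + δ < ν + δ - 1` iff `g₀.degree < ν - 1`; for `ν = 0` both sides are zero: `E ∣ g` and `deg g < δ - 1`).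
-/

set_option autoImplicit false

namespace Pool.Agent.PRB

open Polynomial

variable {p : ℕ} [Fact p.Prime] {k : Type} [Field k] [IsAlgClosed k] [CharP k p]

private theorem LogK_deg {E g : k[X]} (hE0 : E ≠ 0) (ν : ℕ) :
    (E * g).degree < ((ν + E.natDegree - 1 : ℕ) : WithBot ℕ) ↔
      g.degree < ((ν - 1 : ℕ) : WithBot ℕ) := by
  by_cases hg : g = 0
  · rw [hg, mul_zero, degree_zero]
    exact ⟨fun _ => WithBot.bot_lt_coe _, fun _ => WithBot.bot_lt_coe _⟩
  · rw [← natDegree_lt_iff_degree_lt hg, ← natDegree_lt_iff_degree_lt (mul_ne_zero hE0 hg),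
      natDegree_mul hE0 hg]
    omega

private theorem LogK_crt (W E g : k[X]) :
    crt p (E * g * (W * E ^ (p - 1))) = E * crt p (g * W) := by
  have h1 : E * g * (W * E ^ (p - 1)) = E ^ p * (g * W) := by
    have h2 : E ^ p = E * E ^ (p - 1) := (mul_pow_sub_one (Fact.out : p.Prime).ne_zero E).symm
    rw [h2]
    ring
  rw [h1, crt_pow_mul]

theorem log_ker (W E : k[X]) (hE : E.Separable) (hWE : IsCoprime W E) (ν : ℕ) :
    Module.finrank k (kSp p (W * E ^ (p - 1)) (ν + E.natDegree - 1)) =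
      Module.finrank k (kSp p W (ν - 1)) := by
  have hE0 : E ≠ 0 := hE.ne_zero
  have hinj : Function.Injective (LinearMap.mulLeft k E) := fun a b h =>
    mul_left_cancel₀ hE0 h
  have h1 : kSp p (W * E ^ (p - 1)) (ν + E.natDegree - 1) =
      (kSp p W (ν - 1)).map (LinearMap.mulLeft k E) := by
    ext g
    rw [Submodule.mem_map]
    constructor
    · rintro ⟨h2, h3⟩
      have h4 : E ∣ g := by
        have h5 : E ∣ g * W := by
          refine dvd_of_dvd_crt (p := p) E (g * W) hE ?_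
          rw [mul_assoc, h3]
          exact dvd_zero E
        exact hWE.symm.dvd_of_dvd_mul_right h5
      obtain ⟨g0, rfl⟩ := h4
      refine ⟨g0, ⟨(LogK_deg hE0 ν).1 h2, ?_⟩, rfl⟩
      rw [LogK_crt] at h3
      exact (mul_eq_zero.1 h3).resolve_left hE0
    · rintro ⟨g0, ⟨h2, h3⟩, rfl⟩
      refine ⟨(LogK_deg hE0 ν).2 h2, ?_⟩
      rw [LinearMap.mulLeft_apply, LogK_crt, h3, mul_zero]
  rw [h1]
  exact (LinearEquiv.finrank_eq (Submodule.equivMapOfInjective _ hinj _)).symm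

end Pool.Agent.PRB
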