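import Pool.Agent.LibPRK.KFamN

/-!
# Good families: adding blocks and logarithmic poles

PLAN (all four).  `d < 2 a`, `t = p * d % (2 a) < 2 a`; `t` has the same parity as `d` and `t = 0` iff `d = 0` (cf. `kfam_N`), so
`kN F A E t = kN F A E d`.  `W_d = kW p a F A B E d`.
`KGood.quad`: even `d`: neither `kW` nor `kN` changes (`kν` does not involve `α`).  Odd `d`: `kW p a (F * (A_S * B_S)) A B 1 d =
kW p a F A B 1 d * blkU p ((p-1)/2) S₀` (`μ = (p-1)/2 = p - 1 - μ`, `p` odd), and
`kν` increases by `L_S = (blkA p S₀).natDegree = (blkB p S₀).natDegree`: `(α + 2 L_S + 1) / 2 = (α + 1) / 2 + L_S`, so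
`kN_new = ν + L_S - 1` with `ν = kν F.natDegree A.natDegree 0 d`, `kN_old = ν - 1`.  `blk_ker`, `blk_stable` (`W := W_t`, `W' := W_d`, both divide
`(F * A * B) ^ (p-1)`; `hd1`, `hd2`: `natDegree W_t = (p-1)/2 * α + (p-1) L`, `ν = (α+1)/2 + L`, `α` odd).
`KGood.full`: `d = 0` unchanged; `d > 0`: `kW p a F A_S B_S 1 d = kW p a F 1 1 1 d * blkU p μ S₀` with `μ = p - 1 - p d / (2 a)`,
`p - 1 - μ = p d / (2 a)` (`≤ p - 1`); `μ` depends on the class: `μ` for `t`, `μ'` for `d`.
`KGood.log`: `kW p a F A B E d = kW p a F A B 1 d * E ^ (p-1)`, `kN = ν + δ - 1`; `log_ker`, `log_stable` (`W_d` is a product of powers of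
`F`, `A`, `B`, so coprime to `E` by separability of the product: `Polynomial.Separable`, `Separable.isCoprime`).
`KGood.base`: `A = B = E = 1`: even `d`: `kN = 0`, `kSp = ⊥` (degree `< 0`).  Odd `d`: `kW = F ^ ((p-1)/2)`, `kN = (p+1)/2 - 1 = (p-1)/2 = m`.
`kSp p (F^m) m` has dimension one: `g ↦ g.coeff 0` is injective on it (`h2`, applied to differences), so `finrank ≤ 1`; it is not zero because
the linear map `degreeLT k m → (Fin (m-1) → k)`, `g ↦ ((g * F^m).coeff (p (i+1) + (p-1)))_i` has a kernel (`m > m - 1`), for `i = 0` the coefficient vanishes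
by `h1` and for `i ≥ m` by the degree (`natDegree (g F^m) ≤ m - 1 + p m < p m + (p - 1)`).  `st`: `c = crt (g * F^m)` has degree `< m` and `c.coeff 0 = 0`
(`h1`, `coeff_crt`), so if `crt (c * F^m) = 0` then `c = 0` by `h2` (`crt_eq_zero_iff`).
-/

set_option autoImplicit false

namespace Pool.Agent.PRB

open Polynomial

variable {p : ℕ} [Fact p.Prime] {k : Type} [Field k] [IsAlgClosed k] [CharP k p]

omit [Fact p.Prime] [IsAlgClosed k] [CharP k p] in
private theorem stb_kW (a : ℕ) (F : k[X]) (d : ℕ) (hd : d % 2 = 1) :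
    kW p a F 1 1 1 d = F ^ ((p - 1) / 2) := by
  unfold kW
  rw [if_pos hd]
  simp

omit [Fact p.Prime] [IsAlgClosed k] [CharP k p] in
private theorem stb_kN_odd (F : k[X]) (hp2 : p % 2 = 1) (hF : F.natDegree = p) (d : ℕ)
    (hd : d % 2 = 1) : kN F 1 1 d = (p - 1) / 2 := by
  unfold kN kν
  rw [if_pos hd, hF, natDegree_one]
  have h0 : (if d = 0 then 0 else 0) = 0 := by split_ifs <;> rfl
  rw [h0]
  omega

omit [Fact p.Prime] [IsAlgClosed k] [CharP k p] in
private theorem stb_kN_even (F : k[X]) (d : ℕ) (hd : d % 2 = 0) : kN F 1 1 d = 0 := by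
  unfold kN kν
  rw [if_neg (by omega), natDegree_one]
  have h0 : (if d = 0 then 0 else 0) = 0 := by split_ifs <;> rfl
  rw [h0]

theorem KGood.base (hp2 : p ≠ 2) {a : ℕ} (ha : 0 < a) (hpa : ¬ p ∣ a) {F : k[X]}
    (hF : F.natDegree = p)
    (h1 : ∀ g : k[X], g.degree < (((p - 1) / 2 : ℕ) : WithBot ℕ) →
      (g * F ^ ((p - 1) / 2)).coeff (p - 1) = 0)
    (h2 : ∀ g : k[X], g.degree < (((p - 1) / 2 : ℕ) : WithBot ℕ) → g.coeff 0 = 0 →
      (∀ i, (g * F ^ ((p - 1) / 2)).coeff (p * i + (p - 1)) = 0) → g = 0) :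
    KGood p a F 1 1 1 := by
  have hp : p.Prime := Fact.out
  have hp1 : p % 2 = 1 := hp.eq_two_or_odd.resolve_left hp2
  have hp3 : 3 ≤ p := by
    have := hp.two_le
    omega
  set m := (p - 1) / 2 with hm
  have hm1 : 1 ≤ m := by omega
  have hmp : 2 * m = p - 1 := by omega
  have hF0 : F ≠ 0 := by
    rintro rfl
    rw [natDegree_zero] at hF
    omega
  -- degrees
  have hdeg : ∀ g : k[X], g.degree < (m : WithBot ℕ) →
      (g * F ^ m).degree < ((p * m + (p - 1) : ℕ) : WithBot ℕ) := by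
    intro g hg
    by_cases hg0 : g = 0
    · rw [hg0, zero_mul, degree_zero]
      exact WithBot.bot_lt_coe _
    have h3 : g.natDegree < m := (natDegree_lt_iff_degree_lt hg0).2 hg
    rw [← natDegree_lt_iff_degree_lt (mul_ne_zero hg0 (pow_ne_zero _ hF0)),
      natDegree_mul hg0 (pow_ne_zero _ hF0), natDegree_pow, hF]
    have h4 : m * p = p * m := mul_comm _ _
    omega
  have hhigh : ∀ g : k[X], g.degree < (m : WithBot ℕ) → ∀ i, m ≤ i →
      (g * F ^ m).coeff (p * i + (p - 1)) = 0 := by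
    intro g hg i hi
    apply coeff_eq_zero_of_degree_lt
    refine (hdeg g hg).trans_le ?_
    have h3 : p * m + (p - 1) ≤ p * i + (p - 1) := Nat.add_le_add_right (Nat.mul_le_mul_left p hi) _
    exact_mod_cast h3
  -- the kernel is not zero
  have hex : ∃ g : k[X], g ≠ 0 ∧ g.degree < (m : WithBot ℕ) ∧ crt p (g * F ^ m) = 0 := by
    let L : degreeLT k m →ₗ[k] (Fin (m - 1) → k) :=
      { toFun := fun g i => ((g : k[X]) * F ^ m).coeff (p * ((i : ℕ) + 1) + (p - 1))
        map_add' := fun g h => by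
          funext i
          simp only [Submodule.coe_add, add_mul, coeff_add, Pi.add_apply]
        map_smul' := fun c g => by
          funext i
          simp only [Submodule.coe_smul, smul_mul_assoc, coeff_smul, RingHom.id_apply,
            Pi.smul_apply] }
    have hfd : Module.Finite k (degreeLT k m) := Module.Finite.equiv (degreeLTEquiv k m).symm
    have hlt : Module.finrank k (Fin (m - 1) → k) < Module.finrank k (degreeLT k m) := by
      rw [Module.finrank_fin_fun, (degreeLTEquiv k m).finrank_eq, Module.finrank_fin_fun]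
      omega
    have hker := LinearMap.ker_ne_bot_of_finrank_lt (f := L) hlt
    obtain ⟨g, hg, hg0⟩ := Submodule.exists_mem_ne_zero_of_ne_bot hker
    have hgd : (g : k[X]).degree < (m : WithBot ℕ) := mem_degreeLT.1 g.2
    refine ⟨g, fun h0 => hg0 (Subtype.ext h0), hgd, ?_⟩
    rw [crt_eq_zero_iff]
    intro i
    rcases Nat.eq_zero_or_pos i with hi | hi
    · rw [hi, mul_zero, zero_add]
      exact h1 _ hgd
    · by_cases him : m ≤ i
      · exact hhigh _ hgd i him
      · have h3 := congrFun (LinearMap.mem_ker.1 hg) ⟨i - 1, by omega⟩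
        have h4 : i - 1 + 1 = i := by omega
        change ((g : k[X]) * F ^ m).coeff (p * ((i - 1) + 1) + (p - 1)) = 0 at h3
        rwa [h4] at h3
  refine ⟨?_, ?_, ?_⟩
  · intro d _ hd
    rw [stb_kW a F d hd, stb_kN_odd F hp1 hF d hd]
    obtain ⟨g, hg0, hgd, hgc⟩ := hex
    have hgm : g ∈ kSp p (F ^ m) m := ⟨hgd, hgc⟩
    have hgv : (⟨g, hgm⟩ : kSp p (F ^ m) m) ≠ 0 := fun h => hg0 (congrArg Subtype.val h)
    rw [finrank_eq_one_iff_of_nonzero' (⟨g, hgm⟩ : kSp p (F ^ m) m) hgv]
    have hg00 : g.coeff 0 ≠ 0 := by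
      intro h0
      exact hg0 (h2 g hgd h0 ((crt_eq_zero_iff _).1 hgc))
    intro w
    refine ⟨(w : k[X]).coeff 0 / g.coeff 0, ?_⟩
    have h3 : w - ((w : k[X]).coeff 0 / g.coeff 0) • (⟨g, hgm⟩ : kSp p (F ^ m) m) = 0 := by
      set z := w - ((w : k[X]).coeff 0 / g.coeff 0) • (⟨g, hgm⟩ : kSp p (F ^ m) m) with hz
      apply Subtype.ext
      apply h2 _ z.2.1
      · rw [hz]
        simp only [Submodule.coe_sub, Submodule.coe_smul, coeff_sub, coeff_smul, smul_eq_mul]
        rw [div_mul_cancel₀ _ hg00, sub_self]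
      · exact (crt_eq_zero_iff _).1 z.2.2
    exact (sub_eq_zero.1 h3).symm
  · intro d _ hd
    rw [stb_kN_even F d hd, eq_bot_iff]
    intro g hg
    have h3 : g.degree < ((0 : ℕ) : WithBot ℕ) := hg.1
    rw [Submodule.mem_bot]
    by_contra h0
    have h4 := (natDegree_lt_iff_degree_lt h0).2 h3
    omega
  · intro d hd g hg hc
    rcases Nat.mod_two_eq_zero_or_one d with hd2 | hd2
    · rw [stb_kN_even F d hd2] at hg
      have h3 : g = 0 := by
        by_contra h0
        have h4 := (natDegree_lt_iff_degree_lt h0).2 hg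
        omega
      rw [h3, zero_mul, crt_zero]
    · have ht : (p * d % (2 * a)) % 2 = 1 := by
        rw [Nat.mod_mod_of_dvd _ (Dvd.intro a rfl), Nat.mul_mod, hp1, hd2]
      rw [stb_kW a F _ ht] at hc ⊢
      rw [stb_kW a F _ hd2] at hc
      rw [stb_kN_odd F hp1 hF d hd2] at hg
      apply h2
      · exact crt_degree_lt _ _ (hdeg g hg)
      · have h3 := coeff_crt (p := p) (g * F ^ m) 0
        rw [mul_zero, zero_add, h1 g hg] at h3
        exact (pow_eq_zero_iff hp.ne_zero).1 h3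
      · exact (crt_eq_zero_iff _).1 hc

end Pool.Agent.PRB
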