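import Pool.Agent.LibPRK.BlkKer
import Pool.Agent.LibPRK.BlkSt
import Pool.Agent.LibPRK.BlkDeg
import Pool.Agent.LibPRK.KFamN

/-!
# Good families: adding blocks and logarithmic poles
-/

set_option autoImplicit false

namespace Pool.Agent.PRB

open Polynomial

variable {p : ℕ} [Fact p.Prime] {k : Type} [Field k] [IsAlgClosed k] [CharP k p]

private theorem stf_par (hodd : p % 2 = 1) (a d : ℕ) : (p * d % (2 * a)) % 2 = d % 2 := by
  rw [Nat.mod_mul_right_mod, Nat.mul_mod, hodd, one_mul, Nat.mod_mod]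

private theorem stf_exp {p a d : ℕ} (hp : 0 < p) (hd : d < 2 * a) : p * d / (2 * a) ≤ p - 1 := by
  have : p * d / (2 * a) < p := by
    rw [Nat.div_lt_iff_lt_mul (by omega)]
    exact Nat.mul_lt_mul_of_pos_left hd hp
  omega

/-- The factor which does not change. -/
private noncomputable def stfV (p : ℕ) {k : Type} [Field k] (F : k[X]) (d : ℕ) : k[X] :=
  if d % 2 = 1 then F ^ ((p - 1) / 2) else 1

omit [IsAlgClosed k] [CharP k p] in
private theorem stf_W1 (a : ℕ) (F : k[X]) (d : ℕ) : kW p a F 1 1 1 d = stfV p F d := by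
  unfold kW stfV
  rw [one_pow, one_pow, one_pow, mul_one, mul_one, ite_self, mul_one]

omit [IsAlgClosed k] [CharP k p] in
private theorem stf_W (a : ℕ) (F A B : k[X]) {d : ℕ} (hd : d ≠ 0) :
    kW p a F A B 1 d = stfV p F d * (A ^ (p - 1 - p * d / (2 * a)) * B ^ (p * d / (2 * a))) := by
  unfold kW stfV
  rw [if_neg hd, one_pow, mul_one]

omit [IsAlgClosed k] [CharP k p] in
private theorem stf_W0 (a : ℕ) (F A B : k[X]) : kW p a F A B 1 0 = kW p a F 1 1 1 0 := by
  unfold kW
  rw [if_pos rfl, if_pos rfl]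

omit [IsAlgClosed k] in
private theorem stf_N0 (F A : k[X]) : kN F A 1 0 = kN F 1 1 0 := by
  unfold kN kν
  rw [if_pos rfl, if_pos rfl]

omit [IsAlgClosed k] in
private theorem stf_N (F A : k[X]) {d : ℕ} (hd : d ≠ 0) :
    kN F A 1 d = (if d % 2 = 1 then (F.natDegree + 1) / 2 else 0) + A.natDegree - 1 := by
  unfold kN kν
  rw [if_neg hd, natDegree_one, add_zero]

theorem KGood.full (hp2 : p ≠ 2) {a : ℕ} (ha : 0 < a) (hpa : ¬ p ∣ a) {F : k[X]}
    (hF : F ≠ 0) (hodd : Odd F.natDegree) (S₀ : k[X]) (hS₀ : S₀.Monic)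
    (hS : (X ^ 2 - 1) ^ (p - 1) * F ^ (2 * (p - 1)) ∣ S₀)
    (h : KGood p a F 1 1 1) : KGood p a F (blkA p S₀) (blkB p S₀) 1 := by
  have hp : p.Prime := Fact.out
  have hpo : p % 2 = 1 := by
    rcases hp.eq_two_or_odd with h | h
    · exact absurd h hp2
    · exact h
  have h2a : 0 < 2 * a := by omega
  obtain ⟨m, hm⟩ : ∃ m, m = (p - 1) / 2 := ⟨_, rfl⟩
  have hpm : p = 2 * m + 1 := by omega
  obtain ⟨b, hb⟩ := hodd
  have hWnew : ∀ d, d < 2 * a → d ≠ 0 → kW p a F (blkA p S₀) (blkB p S₀) 1 d =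
      kW p a F 1 1 1 d * blkU p (p - 1 - p * d / (2 * a)) S₀ := by
    intro d hd hd0
    rw [stf_W a F _ _ hd0, stf_W1]
    unfold blkU
    rw [Nat.sub_sub_self (stf_exp hp.pos hd)]
  have hV0 : ∀ d, stfV p F d ≠ 0 := by
    intro d
    unfold stfV
    split_ifs
    · exact pow_ne_zero _ hF
    · exact one_ne_zero
  have hVdvd : ∀ d, stfV p F d ∣ F ^ (p - 1) := by
    intro d
    unfold stfV
    split_ifs
    · exact pow_dvd_pow _ (by omega)
    · exact one_dvd _
  have hpow2 : F ^ (2 * (p - 1)) = F ^ (p - 1) * F ^ (p - 1) := by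
    rw [two_mul, pow_add]
  let ν : ℕ → ℕ := fun d => if d % 2 = 1 then (F.natDegree + 1) / 2 else 0
  have hNold : ∀ d, d ≠ 0 → kN F 1 1 d = ν d - 1 := by
    intro d hd
    rw [stf_N F 1 hd, natDegree_one, add_zero]
  have hNnew : ∀ d, d ≠ 0 → kN F (blkA p S₀) 1 d = ν d + (blkA p S₀).natDegree - 1 := by
    intro d hd
    rw [stf_N F _ hd]
  have hker : ∀ d, d < 2 * a → d ≠ 0 →
      Module.finrank k (kSp p (kW p a F (blkA p S₀) (blkB p S₀) 1 d) (kN F (blkA p S₀) 1 d)) =
        Module.finrank k (kSp p (kW p a F 1 1 1 d) (kN F 1 1 d)) := by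
    intro d hd hd0
    rw [hWnew d hd hd0, hNnew d hd0, hNold d hd0]
    refine blk_ker hp2 (Nat.sub_le _ _) _ S₀ (by rw [stf_W1]; exact hV0 d) hS₀ ?_ (ν d)
    refine Dvd.dvd.trans (mul_dvd_mul_left _ ?_) hS
    rw [hpow2, stf_W1]
    exact (hVdvd d).mul_right _
  have htlt : ∀ d, p * d % (2 * a) < 2 * a := fun d => Nat.mod_lt _ h2a
  refine ⟨?_, ?_, ?_⟩
  · intro d hd hd1
    rw [hker d hd (by omega)]
    exact h.odd d hd hd1
  · intro d hd hd0
    by_cases hz : d = 0
    · subst hz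
      rw [stf_W0, stf_N0]
      exact h.even 0 hd hd0
    · have e1 := hker d hd hz
      rw [h.even d hd hd0, finrank_bot] at e1
      have := kSp_finite (p := p) (kW p a F (blkA p S₀) (blkB p S₀) 1 d) (kN F (blkA p S₀) 1 d)
      exact Submodule.finrank_eq_zero.1 e1
  · intro d hd g hg h0
    by_cases hz : d = 0
    · subst hz
      have e0 : p * 0 % (2 * a) = 0 := by rw [mul_zero, Nat.zero_mod]
      have e1 := h.st 0 hd g
      rw [e0] at h0 ⊢ e1
      rw [stf_W0] at h0 ⊢
      rw [stf_N0] at hg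
      exact e1 hg h0
    · have htz : p * d % (2 * a) ≠ 0 := by
        intro e
        have e1 : 2 * a ∣ p * d := Nat.dvd_of_mod_eq_zero e
        have e2 : Nat.Coprime (2 * a) p := by
          rw [Nat.coprime_comm]
          refine (Nat.Prime.coprime_iff_not_dvd hp).2 ?_
          intro e3
          rcases (Nat.Prime.dvd_mul hp).1 e3 with e4 | e4
          · exact hp2 ((Nat.prime_dvd_prime_iff_eq hp Nat.prime_two).1 e4)
          · exact hpa e4
        have e3 : 2 * a ∣ d := e2.dvd_of_dvd_mul_left e1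
        exact hz (Nat.eq_zero_of_dvd_of_lt e3 hd)
      have hpar := stf_par hpo a d
      have hνt : ν (p * d % (2 * a)) = ν d := by
        change (if (p * d % (2 * a)) % 2 = 1 then (F.natDegree + 1) / 2 else 0) =
          (if d % 2 = 1 then (F.natDegree + 1) / 2 else 0)
        rw [hpar]
      rw [hWnew d hd hz, hWnew _ (htlt d) htz] at h0
      rw [hNnew d hz] at hg
      rw [hWnew _ (htlt d) htz]
      have key : (kW p a F 1 1 1 (p * d % (2 * a))).natDegree + ν d ≤ p * ν d ∧
          p * ν d ≤ (kW p a F 1 1 1 (p * d % (2 * a))).natDegree + ν d + (p - 1) := by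
        rw [stf_W1]
        unfold stfV
        change (if (p * d % (2 * a)) % 2 = 1 then F ^ ((p - 1) / 2) else 1).natDegree +
          (if d % 2 = 1 then (F.natDegree + 1) / 2 else 0) ≤
            p * (if d % 2 = 1 then (F.natDegree + 1) / 2 else 0) ∧ _ ≤ _
        rw [hpar]
        rcases Nat.mod_two_eq_zero_or_one d with hd0 | hd1
        · have h' : ¬ d % 2 = 1 := by omega
          change _ ∧ p * (if d % 2 = 1 then (F.natDegree + 1) / 2 else 0) ≤ _ +
            (if d % 2 = 1 then (F.natDegree + 1) / 2 else 0) + _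
          rw [if_neg h', if_neg h', natDegree_one]
          omega
        · change _ ∧ p * (if d % 2 = 1 then (F.natDegree + 1) / 2 else 0) ≤ _ +
            (if d % 2 = 1 then (F.natDegree + 1) / 2 else 0) + _
          rw [if_pos hd1, if_pos hd1, natDegree_pow, ← hm, hb]
          have e1 : (2 * b + 1 + 1) / 2 = b + 1 := by omega
          have e3 : p * (b + 1) = m * (2 * b + 1) + (b + 1) + m := by
            rw [hpm]
            ring
          rw [e1]
          omega
      refine blk_stable hp2 (Nat.sub_le _ _) (Nat.sub_le _ _) _ _ S₀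
        (by rw [stf_W1]; exact hV0 _) (by rw [stf_W1]; exact hV0 _) hS₀ ?_ (ν d) key.1 key.2 ?_
        g hg h0
      · refine Dvd.dvd.trans (mul_dvd_mul_left _ ?_) hS
        rw [hpow2, stf_W1, stf_W1]
        exact mul_dvd_mul (hVdvd _) (hVdvd _)
      · intro g' hg' h0'
        rw [← hNold d hz] at hg'
        exact h.st d hd g' hg' h0'

end Pool.Agent.PRB
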