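import Pool.Agent.LibPRK.BlkKer
import Pool.Agent.LibPRK.BlkSt
import Pool.Agent.LibPRK.BlkDeg
import Pool.Agent.LibPRK.KFamN

/-!
# Good families: adding blocks and logarithmic poles
-/

set_option autoImplicit false

namespace Pool.Agent.PRB

open Polynomial

variable {p : ℕ} [Fact p.Prime] {k : Type} [Field k] [IsAlgClosed k] [CharP k p]

private theorem stq_par (hodd : p % 2 = 1) (a d : ℕ) : (p * d % (2 * a)) % 2 = d % 2 := by
  rw [Nat.mod_mul_right_mod, Nat.mul_mod, hodd, one_mul, Nat.mod_mod]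

private theorem stq_exp {p a d : ℕ} (hp : 0 < p) (hd : d < 2 * a) : p * d / (2 * a) ≤ p - 1 := by
  have : p * d / (2 * a) < p := by
    rw [Nat.div_lt_iff_lt_mul (by omega)]
    exact Nat.mul_lt_mul_of_pos_left hd hp
  omega

omit [IsAlgClosed k] [CharP k p] in
private theorem stq_even (a : ℕ) (F F' A B E : k[X]) {d : ℕ} (hd : d % 2 = 0) :
    kW p a F' A B E d = kW p a F A B E d := by
  have h' : ¬ d % 2 = 1 := by omega
  unfold kW
  rw [if_neg h', if_neg h']

private theorem stq_kNeven (F F' A E : k[X]) {d : ℕ} (hd : d % 2 = 0) :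
    kN F' A E d = kN F A E d := by
  have h' : ¬ d % 2 = 1 := by omega
  unfold kN kν
  rw [if_neg h', if_neg h']

omit [IsAlgClosed k] [CharP k p] in
private theorem stq_oddW (a : ℕ) (F A B : k[X]) {d : ℕ} (hd : d % 2 = 1) :
    kW p a F A B 1 d = F ^ ((p - 1) / 2) * (A ^ (p - 1 - p * d / (2 * a)) * B ^ (p * d / (2 * a))) := by
  unfold kW
  rw [if_pos hd, if_neg (by omega), one_pow, mul_one]

private theorem stq_oddN (F A : k[X]) {d : ℕ} (hd : d % 2 = 1) :
    kN F A 1 d = (F.natDegree + 1) / 2 + A.natDegree - 1 := by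
  unfold kN kν
  rw [if_pos hd, if_neg (by omega), natDegree_one, add_zero]

theorem KGood.quad (hp2 : p ≠ 2) {a : ℕ} (ha : 0 < a) (hpa : ¬ p ∣ a) {F A B : k[X]}
    (hF : F ≠ 0) (hA : A ≠ 0) (hB : B ≠ 0) (hAB : B.natDegree = A.natDegree)
    (hodd : Odd F.natDegree) (S₀ : k[X]) (hS₀ : S₀.Monic)
    (hS : (X ^ 2 - 1) ^ (p - 1) * (F * A * B) ^ (2 * (p - 1)) ∣ S₀)
    (h : KGood p a F A B 1) : KGood p a (F * (blkA p S₀ * blkB p S₀)) A B 1 := by
  have hp : p.Prime := Fact.out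
  have hpo : p % 2 = 1 := by
    rcases hp.eq_two_or_odd with h | h
    · exact absurd h hp2
    · exact h
  have h2a : 0 < 2 * a := by omega
  obtain ⟨m, hm⟩ : ∃ m, m = (p - 1) / 2 := ⟨_, rfl⟩
  have hpm : p = 2 * m + 1 := by omega
  have hm1 : p - 1 - m = m := by omega
  have hmp : m ≤ p - 1 := by omega
  have hLA := blkA_deg (p := p) S₀ hS₀
  have hLB := blkB_deg (p := p) S₀ hS₀
  have hAm := blkA_monic (p := p) S₀ hS₀
  have hBm := blkB_monic (p := p) S₀ hS₀
  obtain ⟨L, hL⟩ : ∃ L : ℕ, L = (blkA p S₀).natDegree := ⟨_, rfl⟩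
  have hLB' : (blkB p S₀).natDegree = L := by omega
  obtain ⟨b, hb⟩ := hodd
  have hF'd : (F * (blkA p S₀ * blkB p S₀)).natDegree = F.natDegree + 2 * L := by
    rw [natDegree_mul hF (mul_ne_zero hAm.ne_zero hBm.ne_zero),
      natDegree_mul hAm.ne_zero hBm.ne_zero, ← hL, hLB']
    ring
  have hWnew : ∀ d, d % 2 = 1 → kW p a (F * (blkA p S₀ * blkB p S₀)) A B 1 d =
      kW p a F A B 1 d * blkU p m S₀ := by
    intro d hd
    rw [stq_oddW a _ A B hd, stq_oddW a F A B hd, mul_pow, mul_pow]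
    unfold blkU
    rw [hm1, ← hm]
    ring
  obtain ⟨ν, hν⟩ : ∃ ν : ℕ, ν = (F.natDegree + 1) / 2 + A.natDegree := ⟨_, rfl⟩
  have hNold : ∀ d, d % 2 = 1 → kN F A 1 d = ν - 1 := by
    intro d hd
    rw [stq_oddN F A hd, hν]
  have hNnew : ∀ d, d % 2 = 1 → kN (F * (blkA p S₀ * blkB p S₀)) A 1 d =
      ν + (blkA p S₀).natDegree - 1 := by
    intro d hd
    rw [stq_oddN _ A hd, hF'd, hν, ← hL]
    omega
  have hWne : ∀ d, d % 2 = 1 → kW p a F A B 1 d ≠ 0 := by
    intro d hd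
    rw [stq_oddW a F A B hd]
    exact mul_ne_zero (pow_ne_zero _ hF) (mul_ne_zero (pow_ne_zero _ hA) (pow_ne_zero _ hB))
  have hWdvd : ∀ d, d < 2 * a → d % 2 = 1 → kW p a F A B 1 d ∣ (F * A * B) ^ (p - 1) := by
    intro d hd hd1
    rw [stq_oddW a F A B hd1, mul_pow, mul_pow, mul_assoc]
    exact mul_dvd_mul (pow_dvd_pow _ (by omega)) (mul_dvd_mul (pow_dvd_pow _ (Nat.sub_le _ _))
      (pow_dvd_pow _ (stq_exp hp.pos hd)))
  have hpow2 : (F * A * B) ^ (2 * (p - 1)) = (F * A * B) ^ (p - 1) * (F * A * B) ^ (p - 1) := by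
    rw [two_mul, pow_add]
  have hWd : ∀ d, d < 2 * a → d % 2 = 1 → (kW p a F A B 1 d).natDegree =
      m * F.natDegree + (p - 1) * A.natDegree := by
    intro d hd hd1
    rw [stq_oddW a F A B hd1, natDegree_mul (pow_ne_zero _ hF)
      (mul_ne_zero (pow_ne_zero _ hA) (pow_ne_zero _ hB)),
      natDegree_mul (pow_ne_zero _ hA) (pow_ne_zero _ hB), natDegree_pow, natDegree_pow,
      natDegree_pow, hAB, ← hm, ← add_mul]
    rw [Nat.sub_add_cancel (stq_exp (a := a) hp.pos hd)]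
  have htlt : ∀ d, p * d % (2 * a) < 2 * a := fun d => Nat.mod_lt _ h2a
  refine ⟨?_, ?_, ?_⟩
  · intro d hd hd1
    rw [hWnew d hd1, hNnew d hd1]
    rw [blk_ker hp2 hmp _ S₀ (hWne d hd1) hS₀ ?_ ν, ← hNold d hd1]
    · exact h.odd d hd hd1
    · refine Dvd.dvd.trans (mul_dvd_mul_left _ ?_) hS
      rw [hpow2]
      exact (hWdvd d hd hd1).mul_right _
  · intro d hd hd0
    rw [stq_even a F _ A B 1 hd0, stq_kNeven F _ A 1 hd0]
    exact h.even d hd hd0
  · intro d hd g hg h0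
    have hpar := stq_par hpo a d
    rcases Nat.mod_two_eq_zero_or_one d with hd0 | hd1
    · rw [hd0] at hpar
      rw [stq_even a F _ A B 1 hd0, stq_even a F _ A B 1 hpar] at h0
      rw [stq_kNeven F _ A 1 hd0] at hg
      rw [stq_even a F _ A B 1 hpar]
      exact h.st d hd g hg h0
    · rw [hd1] at hpar
      rw [hWnew d hd1, hWnew _ hpar] at h0
      rw [hNnew d hd1] at hg
      rw [hWnew _ hpar]
      have hWt := hWd _ (htlt d) hpar
      have key : p * ν = (kW p a F A B 1 (p * d % (2 * a))).natDegree + ν + m := by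
        rw [hWt, hν, hb]
        have e1 : (2 * b + 1 + 1) / 2 = b + 1 := by omega
        have e2 : p - 1 = 2 * m := by omega
        rw [e1, e2, hpm]
        ring
      refine blk_stable hp2 hmp hmp _ _ S₀ (hWne _ hpar) (hWne d hd1) hS₀ ?_ ν ?_ ?_ ?_ g hg h0
      · refine Dvd.dvd.trans (mul_dvd_mul_left _ ?_) hS
        rw [hpow2]
        exact mul_dvd_mul (hWdvd _ (htlt d) hpar) (hWdvd d hd hd1)
      · omega
      · omega
      · intro g' hg' h0'
        rw [← hNold d hd1] at hg'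
        exact h.st d hd g' hg' h0'

end Pool.Agent.PRB
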