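import Pool.Agent.LibPRK.GoodD
import Pool.Agent.LibPRK.BlkD

/-!
# Systems over the prime field: definition
-/

set_option autoImplicit false

namespace Pool.Agent.PRB

open Polynomial

/-- `F`, `A`, `B` over `F_p` define the Kummer cover `u ^ (2 a) = F ^ a * A * B ^ (2 a - 1)` with a good
family of twisted Cartier operators; `E` is prime to all of them. -/
structure KSys (p a : ℕ) [Fact p.Prime] (E F A B : (ZMod p)[X]) : Prop where
  mF : F.Monic
  mA : A.Monic
  mB : B.Monic
  sep : (F * A * B * E).Separable
  deg : B.natDegree = A.natDegree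
  odd : Odd F.natDegree
  good : ∀ (k : Type) [Field k] [IsAlgClosed k] [CharP k p] [Algebra (ZMod p) k],
    KGood p a (F.map (algebraMap (ZMod p) k)) (A.map (algebraMap (ZMod p) k))
      (B.map (algebraMap (ZMod p) k)) 1

end Pool.Agent.PRB
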