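import Pool.Agent.LibPRK.FamD

/-!
# Sums of the dimensions

PLAN.
`kν_sum`: `∑_{d < 2 a} (kν α L 0 d - 1)`: `d = 0`: `0 - 1 = 0`; `a` odd `d`: `(α+1)/2 + L - 1`; `a - 1` even `d > 0`: `L - 1` (`1 ≤ L`, `α` odd).
(E.g. induction on `a` (start `a = 1`), `Finset.sum_range_succ` twice.)
`kν_sum_E`: each term with `d > 0` increases by `δ`, the term `d = 0` from `0` to `δ - 1`.
-/

set_option autoImplicit false

namespace Pool.Agent.PRB

open Polynomial

private theorem SysN_even (α L δ a : ℕ) (ha : 0 < a) : kν α L δ (2 * a) = L + δ := by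
  unfold kν
  rw [if_neg (by omega), if_neg (by omega)]
  omega

private theorem SysN_odd (α L δ a : ℕ) : kν α L δ (2 * a + 1) = (α + 1) / 2 + L + δ := by
  unfold kν
  rw [if_pos (by omega), if_neg (by omega)]

private theorem SysN_zero (α L δ : ℕ) : kν α L δ 0 = δ := by
  unfold kν
  rw [if_neg (by omega), if_pos rfl]
  omega

private theorem SysN_one (α L δ : ℕ) : kν α L δ 1 = (α + 1) / 2 + L + δ :=
  SysN_odd α L δ 0

theorem kν_sum (a α L : ℕ) (ha : 0 < a) (hL : 0 < L) (hα : Odd α) :
    ∑ d ∈ Finset.range (2 * a), (kν α L 0 d - 1) =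
      a * ((α + 1) / 2 + L - 1) + (a - 1) * (L - 1) := by
  induction a, ha using Nat.le_induction with
  | base =>
    rw [show 2 * (0 + 1) = 0 + 1 + 1 by norm_num, Finset.sum_range_succ, Finset.sum_range_succ,
      Finset.range_zero, Finset.sum_empty, SysN_zero, SysN_one]
    simp
  | succ n hn ih =>
    rw [show 2 * (n + 1) = 2 * n + 1 + 1 by ring, Finset.sum_range_succ, Finset.sum_range_succ, ih,
      SysN_odd, SysN_even α L 0 n hn]
    obtain ⟨m, rfl⟩ : ∃ m, n = m + 1 := ⟨n - 1, by omega⟩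
    simp only [Nat.add_sub_cancel, add_zero]
    ring

theorem kν_sum_E (a α L δ : ℕ) (ha : 0 < a) (hL : 0 < L) (hδ : 0 < δ) :
    ∑ d ∈ Finset.range (2 * a), (kν α L δ d - 1) =
      ∑ d ∈ Finset.range (2 * a), (kν α L 0 d - 1) + 2 * a * δ - 1 := by
  induction a, ha using Nat.le_induction with
  | base =>
    rw [show 2 * (0 + 1) = 0 + 1 + 1 by norm_num, Finset.sum_range_succ, Finset.sum_range_succ,
      Finset.sum_range_succ, Finset.sum_range_succ,
      Finset.range_zero, Finset.sum_empty, SysN_zero, SysN_zero,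
      SysN_one, SysN_one, Finset.sum_empty]
    omega
  | succ n hn ih =>
    rw [show 2 * (n + 1) = 2 * n + 1 + 1 by ring, Finset.sum_range_succ, Finset.sum_range_succ, ih,
      Finset.sum_range_succ, Finset.sum_range_succ,
      SysN_odd, SysN_even α L δ n hn, SysN_odd, SysN_even α L 0 n hn]
    have h1 : (2 * n + 1 + 1) * δ = 2 * n * δ + 2 * δ := by ring
    rw [h1]
    have h2 : 0 < 2 * n * δ := by positivity
    omega

end Pool.Agent.PRB
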