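import Pool.Agent.LibPRK.SysD
import Pool.Agent.LibPRK.StQuad

/-!
# Systems over the prime field: adding a block to `F`

PLAN. `S₀ = (X^2-1)^(p-1) * (F A B)^(2(p-1)) * E * X^t` with `S₀.natDegree + 2 = n` (`t = n - 2 - ...`; `X^2 - 1` is monic of degree `2`), monic;
`F' = F * (blkA p S₀ * blkB p S₀)`; `blkA_monic`, `blkA_deg`, `blk_sep` with `P = F * A * B * E` (`P ∣ S₀`: `FAB ∣ (FAB)^(2(p-1))` as `p ≥ 3`),
`F' A B E = P * (blkA * blkB)` up to commutativity; `odd`: `+ 2 L`; `good`: `KGood.quad` for the images (`blkA_map`, `Polynomial.map_mul`, ...;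
the image of `S₀` is divisible by the image of the divisor; `Monic.map`, `Monic.ne_zero`; `natDegree_map`).
-/

set_option autoImplicit false

namespace Pool.Agent.PRB

open Polynomial

variable {p : ℕ} [Fact p.Prime]

private theorem SysQ1_X2 : (X ^ 2 - 1 : (ZMod p)[X]).Monic ∧ (X ^ 2 - 1 : (ZMod p)[X]).natDegree = 2 := by
  constructor
  · have h := monic_X_pow_sub_C (1 : ZMod p) (n := 2) (by norm_num)
    simpa using h
  · have h := natDegree_X_pow_sub_C (n := 2) (r := (1 : ZMod p))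
    simpa using h

theorem KSys.quad (hp2 : p ≠ 2) {a : ℕ} (ha : 0 < a) (hpa : ¬ p ∣ a) {E F A B : (ZMod p)[X]}
    (hE : E.Monic) (h : KSys p a E F A B) (n : ℕ)
    (hn : 2 * (p - 1) + 2 * (p - 1) * (F * A * B).natDegree + E.natDegree + 2 ≤ n) :
    ∃ F' : (ZMod p)[X], KSys p a E F' A B ∧ F'.natDegree = F.natDegree + 2 * (p * n - 1) := by
  have hp : p.Prime := Fact.out
  have hp1 : 2 * (p - 1) ≠ 0 := by
    have := hp.two_le
    omega
  have hFAB : (F * A * B).Monic := (h.mF.mul h.mA).mul h.mB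
  obtain ⟨hX2, hX2d⟩ := SysQ1_X2 (p := p)
  obtain ⟨t, ht⟩ : ∃ t, n = 2 * (p - 1) + 2 * (p - 1) * (F * A * B).natDegree + E.natDegree + 2 + t :=
    ⟨_, (Nat.add_sub_cancel' hn).symm⟩
  obtain ⟨S₀, hS₀e⟩ : ∃ S₀ : (ZMod p)[X],
      S₀ = (X ^ 2 - 1) ^ (p - 1) * (F * A * B) ^ (2 * (p - 1)) * E * X ^ t := ⟨_, rfl⟩
  have hS₀ : S₀.Monic := by
    rw [hS₀e]
    exact (((hX2.pow _).mul (hFAB.pow _)).mul hE).mul (monic_X_pow t)
  have hdeg : S₀.natDegree + 2 = n := by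
    rw [hS₀e, (((hX2.pow _).mul (hFAB.pow _)).mul hE).natDegree_mul (monic_X_pow t),
      ((hX2.pow _).mul (hFAB.pow _)).natDegree_mul hE, (hX2.pow _).natDegree_mul (hFAB.pow _),
      hX2.natDegree_pow, hFAB.natDegree_pow, hX2d, natDegree_X_pow, ht]
    ring
  have hd : (X ^ 2 - 1) ^ (p - 1) * (F * A * B) ^ (2 * (p - 1)) ∣ S₀ := by
    rw [hS₀e, mul_assoc _ E]
    exact dvd_mul_right _ _
  have hPS : F * A * B * E ∣ S₀ := by
    rw [hS₀e]
    exact Dvd.dvd.mul_right (mul_dvd_mul (Dvd.dvd.mul_left (dvd_pow_self _ hp1) _) dvd_rfl) _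
  have hFd : (F * (blkA p S₀ * blkB p S₀)).natDegree = F.natDegree + 2 * (p * n - 1) := by
    rw [h.mF.natDegree_mul ((blkA_monic S₀ hS₀).mul (blkB_monic S₀ hS₀)),
      (blkA_monic S₀ hS₀).natDegree_mul (blkB_monic S₀ hS₀), blkA_deg S₀ hS₀, blkB_deg S₀ hS₀, hdeg]
    ring
  refine ⟨F * (blkA p S₀ * blkB p S₀), ⟨h.mF.mul ((blkA_monic S₀ hS₀).mul (blkB_monic S₀ hS₀)),
    h.mA, h.mB, ?_, h.deg, ?_, ?_⟩, hFd⟩
  · have h1 := blk_sep hp2 (F * A * B * E) S₀ h.sep hPS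
    have h2 : F * (blkA p S₀ * blkB p S₀) * A * B * E = F * A * B * E * (blkA p S₀ * blkB p S₀) := by
      ring
    rw [h2]
    exact h1
  · rw [hFd]
    exact h.odd.add_even (even_two_mul _)
  · intro k _ _ _ _
    have h1 := map_dvd (algebraMap (ZMod p) k) hd
    simp only [Polynomial.map_mul, Polynomial.map_pow, Polynomial.map_sub, Polynomial.map_one, map_X] at h1
    have h2 := KGood.quad hp2 ha hpa (h.mF.map (algebraMap (ZMod p) k)).ne_zero
      (h.mA.map (algebraMap (ZMod p) k)).ne_zero (h.mB.map (algebraMap (ZMod p) k)).ne_zero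
      (by rw [natDegree_map, natDegree_map, h.deg]) (by rw [natDegree_map]; exact h.odd)
      (S₀.map (algebraMap (ZMod p) k)) (hS₀.map _) h1 (h.good k)
    rw [Polynomial.map_mul, Polynomial.map_mul, blkA_map, blkB_map]
    exact h2

end Pool.Agent.PRB
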