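import Pool.Agent.LibPRK.SysD
import Pool.Agent.LibPRK.StFull

/-!
# Systems over the prime field: the block `A`, `B`

PLAN. `S₀ = (X^2-1)^(p-1) * F^(2(p-1)) * E * X^t` with `S₀.natDegree + 2 = n` (`t = n - 2 - ...`; `X^2 - 1` is monic of degree `2`), monic; `A = blkA p S₀`, `B = blkB p S₀`;
`blkA_monic`, `blkB_monic`, `blkA_deg`, `blkB_deg`, `blk_sep` with `P = F * E` (`P ∣ S₀`, `p ≥ 3`; `P` is separable by `h.sep` with `A = B = 1`),
`F A B E = P * (blkA * blkB)` up to commutativity; `good`: `KGood.full` for the images (`blkA_map`, `blkB_map`, `Polynomial.map_one`, ...;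
the image of `S₀` is divisible by the image of the divisor; `Monic.map`, `Monic.ne_zero`; `natDegree_map`).
-/

set_option autoImplicit false

namespace Pool.Agent.PRB

open Polynomial

variable {p : ℕ} [Fact p.Prime]

private theorem SysQ2_X2 : (X ^ 2 - 1 : (ZMod p)[X]).Monic ∧ (X ^ 2 - 1 : (ZMod p)[X]).natDegree = 2 := by
  constructor
  · have h := monic_X_pow_sub_C (1 : ZMod p) (n := 2) (by norm_num)
    simpa using h
  · have h := natDegree_X_pow_sub_C (n := 2) (r := (1 : ZMod p))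
    simpa using h

theorem KSys.full (hp2 : p ≠ 2) {a : ℕ} (ha : 0 < a) (hpa : ¬ p ∣ a) {E F : (ZMod p)[X]}
    (hE : E.Monic) (h : KSys p a E F 1 1) (n : ℕ)
    (hn : 2 * (p - 1) + 2 * (p - 1) * F.natDegree + E.natDegree + 2 ≤ n) :
    ∃ A B : (ZMod p)[X], KSys p a E F A B ∧ A.natDegree = p * n - 1 := by
  have hp : p.Prime := Fact.out
  have hp1 : 2 * (p - 1) ≠ 0 := by
    have := hp.two_le
    omega
  obtain ⟨hX2, hX2d⟩ := SysQ2_X2 (p := p)
  obtain ⟨t, ht⟩ : ∃ t, n = 2 * (p - 1) + 2 * (p - 1) * F.natDegree + E.natDegree + 2 + t :=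
    ⟨_, (Nat.add_sub_cancel' hn).symm⟩
  obtain ⟨S₀, hS₀e⟩ : ∃ S₀ : (ZMod p)[X],
      S₀ = (X ^ 2 - 1) ^ (p - 1) * F ^ (2 * (p - 1)) * E * X ^ t := ⟨_, rfl⟩
  have hS₀ : S₀.Monic := by
    rw [hS₀e]
    exact (((hX2.pow _).mul (h.mF.pow _)).mul hE).mul (monic_X_pow t)
  have hdeg : S₀.natDegree + 2 = n := by
    rw [hS₀e, (((hX2.pow _).mul (h.mF.pow _)).mul hE).natDegree_mul (monic_X_pow t),
      ((hX2.pow _).mul (h.mF.pow _)).natDegree_mul hE, (hX2.pow _).natDegree_mul (h.mF.pow _),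
      hX2.natDegree_pow, h.mF.natDegree_pow, hX2d, natDegree_X_pow, ht]
    ring
  have hd : (X ^ 2 - 1) ^ (p - 1) * F ^ (2 * (p - 1)) ∣ S₀ := by
    rw [hS₀e, mul_assoc _ E]
    exact dvd_mul_right _ _
  have hPS : F * E ∣ S₀ := by
    rw [hS₀e]
    exact Dvd.dvd.mul_right (mul_dvd_mul (Dvd.dvd.mul_left (dvd_pow_self _ hp1) _) dvd_rfl) _
  have hFE : (F * E).Separable := by
    have h1 := h.sep
    rwa [mul_one, mul_one] at h1
  refine ⟨blkA p S₀, blkB p S₀, ⟨h.mF, blkA_monic S₀ hS₀, blkB_monic S₀ hS₀, ?_, ?_, h.odd, ?_⟩, ?_⟩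
  · have h1 := blk_sep hp2 (F * E) S₀ hFE hPS
    have h2 : F * blkA p S₀ * blkB p S₀ * E = F * E * (blkA p S₀ * blkB p S₀) := by
      ring
    rw [h2]
    exact h1
  · rw [blkA_deg S₀ hS₀, blkB_deg S₀ hS₀]
  · intro k _ _ _ _
    have h1 := map_dvd (algebraMap (ZMod p) k) hd
    simp only [Polynomial.map_mul, Polynomial.map_pow, Polynomial.map_sub, Polynomial.map_one, map_X] at h1
    have h3 := h.good k
    rw [Polynomial.map_one] at h3
    have h2 := KGood.full hp2 ha hpa (h.mF.map (algebraMap (ZMod p) k)).ne_zero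
      (by rw [natDegree_map]; exact h.odd)
      (S₀.map (algebraMap (ZMod p) k)) (hS₀.map _) h1 h3
    rw [blkA_map, blkB_map]
    exact h2
  · rw [blkA_deg S₀ hS₀, hdeg]

end Pool.Agent.PRB
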