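import Pool.Agent.LibPRK.SysD
import Pool.Agent.LibPRK.StBase
import Pool.Agent.LibPRK.BsFin

/-!
# Systems over the prime field: the base system

PLAN. `F` from `bs_base`; `E = 1`, or `E` irreducible of degree `> p = F.natDegree`, so coprime to `F`
(`Irreducible.coprime_iff_not_dvd`, degrees) and separable (perfect field: `Irreducible.separable`); `Odd p`; `KGood.base` for the images (`natDegree_map`).
-/

set_option autoImplicit false

namespace Pool.Agent.PRB

open Polynomial

variable {p : ℕ} [Fact p.Prime]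

theorem exists_KSys_base (hp4 : p % 4 = 1) {a : ℕ} (ha : 0 < a) (hpa : ¬ p ∣ a)
    (E : (ZMod p)[X]) (hE : E = 1 ∨ (Irreducible E ∧ p < E.natDegree)) :
    ∃ F : (ZMod p)[X], KSys p a E F 1 1 ∧ F.natDegree = p := by
  have hp2 : p ≠ 2 := by omega
  obtain ⟨F, hFm, hFs, hFd, hF⟩ := bs_base p hp4
  refine ⟨F, ⟨hFm, monic_one, monic_one, ?_, rfl, ?_, ?_⟩, hFd⟩
  · rw [mul_one, mul_one]
    rcases hE with rfl | ⟨hE1, hE2⟩
    · rw [mul_one]
      exact hFs
    · have hc : IsCoprime E F := by
        rw [hE1.coprime_iff_not_dvd]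
        intro hdvd
        have h1 := natDegree_le_of_dvd hdvd hFm.ne_zero
        omega
      exact hFs.mul (PerfectField.separable_of_irreducible hE1) hc.symm
  · rw [hFd, Nat.odd_iff]
    omega
  · intro k _ _ _ _
    obtain ⟨h1, h2⟩ := hF k
    rw [Polynomial.map_one]
    exact KGood.base hp2 ha hpa (by rw [natDegree_map, hFd]) h1 h2

end Pool.Agent.PRB
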