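import Pool.Agent.LibPRK.SysQ1

/-!
# Systems over the prime field: all large degrees

PLAN. Induction on `K` (for all `F`); `K = 1`: `KSys.quad` (`n₀ = 2 (p-1) + 2 (p-1) natDegree (F A B) + natDegree E + 2`).  `K + 1`: first one block with the minimal `n₁`, then
the induction hypothesis for the new system (`n₀` of it plus `n₁`): `F.natDegree + 2 (p n₁ - 1) + 2 (p (n - n₁) - K) = F.natDegree + 2 (p n - (K + 1))`
(`K ≤ p (n - n₁)`, `1 ≤ p n₁`).
-/

set_option autoImplicit false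

namespace Pool.Agent.PRB

open Polynomial

variable {p : ℕ} [Fact p.Prime]

theorem KSys.reach (hp2 : p ≠ 2) {a : ℕ} (ha : 0 < a) (hpa : ¬ p ∣ a) {E : (ZMod p)[X]}
    (hE : E.Monic) (K : ℕ) (hK : 1 ≤ K) {F A B : (ZMod p)[X]} (h : KSys p a E F A B) :
    ∃ n₀ : ℕ, ∀ n ≥ n₀, ∃ F' : (ZMod p)[X], KSys p a E F' A B ∧ K ≤ p * n ∧
      F'.natDegree = F.natDegree + 2 * (p * n - K) := by
  have hp1 : 2 ≤ p := (Fact.out : p.Prime).two_le
  induction K, hK using Nat.le_induction generalizing F with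
  | base =>
    refine ⟨2 * (p - 1) + 2 * (p - 1) * (F * A * B).natDegree + E.natDegree + 2, fun n hn => ?_⟩
    obtain ⟨F', hF', hd⟩ := KSys.quad hp2 ha hpa hE h n hn
    refine ⟨F', hF', ?_, hd⟩
    have hn1 : 1 ≤ n := by omega
    have := Nat.mul_le_mul hp1 hn1
    omega
  | succ K hK ih =>
    set n₁ := 2 * (p - 1) + 2 * (p - 1) * (F * A * B).natDegree + E.natDegree + 2 with hn₁
    obtain ⟨F₁, hF₁, hd₁⟩ := KSys.quad hp2 ha hpa hE h n₁ le_rfl
    obtain ⟨n₀, hn₀⟩ := ih hF₁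
    refine ⟨n₀ + n₁, fun n hn => ?_⟩
    obtain ⟨m, rfl⟩ : ∃ m, n = m + n₁ := ⟨n - n₁, by omega⟩
    obtain ⟨F', hF', hK', hd'⟩ := hn₀ m (by omega)
    have hn1 : 1 ≤ n₁ := by omega
    have h1 := Nat.mul_le_mul hp1 hn1
    have h2 : p * (m + n₁) = p * m + p * n₁ := mul_add _ _ _
    refine ⟨F', hF', ?_, ?_⟩
    · rw [h2]
      omega
    · rw [hd', hd₁, h2]
      omega

end Pool.Agent.PRB
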