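import Pool.Agent.LibPRK.SysQ1

/-!
# Systems over the prime field: all large degrees, with an explicit bound
-/

set_option autoImplicit false

namespace Pool.Agent.PRB

open Polynomial

variable {p : ℕ} [Fact p.Prime]

theorem SysRE_num (q D e : ℕ) : 2 * q + 2 * q * D + e + 2 ≤ 2 * (q + 1) * (D + e + 2) := by
  have e1 : 2 * (q + 1) * (D + e + 2) =
    2 * q * D + 2 * (q * e) + 4 * q + 2 * D + 2 * e + 4 := by ring
  rw [e1]
  omega

theorem KSys.reach_e (hp2 : p ≠ 2) {a : ℕ} (ha : 0 < a) (hpa : ¬ p ∣ a) {E : (ZMod p)[X]}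
    (hE : E.Monic) (K : ℕ) (hK : 1 ≤ K) : ∀ {F A B : (ZMod p)[X]}, KSys p a E F A B → ∀ n : ℕ,
    (2 * p) ^ (2 * K - 1) * ((F * A * B).natDegree + E.natDegree + 2) ≤ n →
    ∃ F' : (ZMod p)[X], KSys p a E F' A B ∧ K ≤ p * n ∧
      F'.natDegree = F.natDegree + 2 * (p * n - K) := by
  have hpp : p.Prime := Fact.out
  obtain ⟨q, hq⟩ : ∃ q, p = q + 1 := ⟨p - 1, by have := hpp.pos; omega⟩
  have hq2 : 2 ≤ q := by
    have := hpp.two_le
    omega
  have hpq : p - 1 = q := by omega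
  induction K, hK using Nat.le_induction with
  | base =>
    intro F A B h n hn
    set D := (F * A * B).natDegree with hD
    have h1 : 2 * (p - 1) + 2 * (p - 1) * D + E.natDegree + 2 ≤ n := by
      refine le_trans ?_ hn
      rw [show 2 * 1 - 1 = 1 by norm_num, pow_one, hpq]
      have e0 := SysRE_num q D E.natDegree
      have e1 : 2 * (q + 1) * (D + E.natDegree + 2) = 2 * p * (D + E.natDegree + 2) := by
        rw [← hq]
      omega
    obtain ⟨F', hF', hd⟩ := KSys.quad hp2 ha hpa hE h n h1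
    refine ⟨F', hF', ?_, hd⟩
    have h2 : 1 * 1 ≤ p * n := Nat.mul_le_mul hpp.pos (by omega)
    omega
  | succ K hK ih =>
    intro F A B h n hn
    set D := (F * A * B).natDegree with hD
    set X₀ := D + E.natDegree + 2 with hX₀
    set n₁ := 2 * (p - 1) + 2 * (p - 1) * D + E.natDegree + 2 with hn₁
    obtain ⟨F₁, hF₁, hd₁⟩ := KSys.quad hp2 ha hpa hE h n₁ le_rfl
    have hFd : (F₁ * A * B).natDegree = D + 2 * (p * n₁ - 1) := by
      rw [hD, (hF₁.mF.mul hF₁.mA).natDegree_mul hF₁.mB, hF₁.mF.natDegree_mul hF₁.mA,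
        (h.mF.mul h.mA).natDegree_mul h.mB, h.mF.natDegree_mul h.mA, hd₁]
      omega
    have hn1 : n₁ ≤ 2 * q * X₀ := by
      rw [hn₁, hX₀, hpq]
      have e1 : 2 * q * (D + E.natDegree + 2) = 2 * q * D + q * E.natDegree * 2 + 4 * q := by ring
      have e2 : 1 * E.natDegree ≤ q * E.natDegree := Nat.mul_le_mul_right _ (by omega)
      rw [e1]
      omega
    have hpn : 1 ≤ p * n₁ := by
      have h2 : 1 * 1 ≤ p * n₁ := Nat.mul_le_mul hpp.pos (by omega)
      omega
    -- the new bound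
    set Q := (2 * p) ^ (2 * K - 1) with hQ
    have hQ1 : 1 ≤ Q := Nat.one_le_pow _ _ (by omega)
    have hQ2 : (2 * p) ^ (2 * (K + 1) - 1) = Q * (4 * p ^ 2) := by
      rw [hQ, show 2 * (K + 1) - 1 = (2 * K - 1) + 2 by omega, pow_add]
      ring
    have hX1 : D + 2 * (p * n₁ - 1) + E.natDegree + 2 ≤ X₀ + 2 * (p * n₁) := by omega
    have hmain : Q * (D + 2 * (p * n₁ - 1) + E.natDegree + 2) + n₁ ≤ n := by
      refine le_trans ?_ hn
      rw [hQ2]
      calc Q * (D + 2 * (p * n₁ - 1) + E.natDegree + 2) + n₁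
          ≤ Q * (X₀ + 2 * (p * n₁)) + Q * n₁ :=
            add_le_add (Nat.mul_le_mul_left Q hX1) (Nat.le_mul_of_pos_left _ (by omega))
        _ = Q * (X₀ + (2 * p + 1) * n₁) := by ring
        _ ≤ Q * (X₀ + (2 * p + 1) * (2 * q * X₀)) :=
            Nat.mul_le_mul_left Q (by
              exact Nat.add_le_add_left (Nat.mul_le_mul_left _ hn1) X₀)
        _ ≤ Q * (4 * p ^ 2) * X₀ := by
            rw [hq]
            have e3 : Q * (4 * (q + 1) ^ 2) * X₀ =
              Q * (X₀ + (2 * (q + 1) + 1) * (2 * q * X₀)) + Q * (X₀ * (2 * q + 3)) := by ring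
            rw [e3]
            exact Nat.le_add_right _ _
    obtain ⟨F', hF', hK', hd'⟩ := ih hF₁ (n - n₁) (by rw [hFd]; omega)
    have hsplit : p * (n - n₁) + p * n₁ = p * n := by
      rw [← mul_add, Nat.sub_add_cancel (by omega)]
    refine ⟨F', hF', by omega, ?_⟩
    rw [hd', hd₁]
    omega

end Pool.Agent.PRB
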