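import Pool.Agent.LibPRK.SysR
import Pool.Agent.LibPRK.SysQ2
import Pool.Agent.LibPRK.SysQ3
import Pool.Agent.LibPRK.SysN

/-!
# Systems over the prime field: all large genera
-/

set_option autoImplicit false

namespace Pool.Agent.PRB

open Polynomial

variable {p : ℕ} [Fact p.Prime]

theorem SysX_res {a p : ℕ} (ha : 0 < a) (hco : Nat.Coprime p a) (c : ℤ) :
    ∃ t < a, (a : ℤ) ∣ p * (t : ℤ) + c := by
  have : NeZero a := ⟨ha.ne'⟩
  refine ⟨((-c : ZMod a) * (p : ZMod a)⁻¹).val, ZMod.val_lt _, ?_⟩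
  rw [← ZMod.intCast_zmod_eq_zero_iff_dvd]
  push_cast
  rw [ZMod.natCast_zmod_val, mul_comm (-(c : ZMod a)), ← mul_assoc,
    ZMod.coe_mul_inv_eq_one p hco, one_mul]
  ring

theorem exists_sys (hp4 : p % 4 = 1) {a : ℕ} (ha : 0 < a) (hpa : ¬ p ∣ a)
    (E : (ZMod p)[X]) (hE : E.Monic) (hE' : E = 1 ∨ (Irreducible E ∧ p < E.natDegree)) :
    ∃ G₀ : ℕ, ∀ G ≥ G₀, ∃ F A B : (ZMod p)[X], KSys p a E F A B ∧ 0 < A.natDegree ∧
      ∑ d ∈ Finset.range (2 * a), (kν F.natDegree A.natDegree 0 d - 1) = G := by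
  have hpp : p.Prime := Fact.out
  have hp3 : 3 ≤ p := by
    have := hpp.two_le
    omega
  have hp2 : p ≠ 2 := by omega
  have hco : Nat.Coprime p a := (Nat.Prime.coprime_iff_not_dvd hpp).2 hpa
  obtain ⟨F₀, hF₀, hF₀d⟩ := exists_KSys_base hp4 ha hpa E hE'
  set N₁ : ℕ := 2 * (p - 1) + 2 * (p - 1) * F₀.natDegree + E.natDegree + 2 with hN₁
  have hA : ∀ t : ℕ, ∃ A B : (ZMod p)[X], KSys p a E F₀ A B ∧
      A.natDegree = p * (N₁ + t) - 1 := fun t =>
    KSys.full hp2 ha hpa hE hF₀ (N₁ + t) (by omega)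
  choose A B hAB hdeg using hA
  have hr : ∀ t K : ℕ, 1 ≤ K → ∃ n₀ : ℕ, ∀ n ≥ n₀, ∃ F' : (ZMod p)[X],
      KSys p a E F' (A t) (B t) ∧ K ≤ p * n ∧ F'.natDegree = F₀.natDegree + 2 * (p * n - K) :=
    fun t K hK => KSys.reach hp2 ha hpa hE K hK (hAB t)
  choose! n₀ hn₀ using hr
  set M : ℕ := ∑ t ∈ Finset.range a, ∑ K ∈ Finset.range (p + 1), n₀ t K with hM
  have hMle : ∀ t < a, ∀ K ≤ p, n₀ t K ≤ M := by
    intro t ht K hK
    calc n₀ t K ≤ ∑ K ∈ Finset.range (p + 1), n₀ t K :=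
          Finset.single_le_sum (f := fun K => n₀ t K) (fun _ _ => Nat.zero_le _)
            (Finset.mem_range.2 (by omega))
      _ ≤ M := Finset.single_le_sum (f := fun t => ∑ K ∈ Finset.range (p + 1), n₀ t K)
            (fun _ _ => Nat.zero_le _) (Finset.mem_range.2 ht)
  set Lm : ℕ := p * (N₁ + a) with hLm
  refine ⟨a * (p * M + (p + 1) / 2 + Lm) + (a - 1) * Lm, ?_⟩
  intro G hG
  obtain ⟨t, hta, htd⟩ := SysX_res ha hco (G + p * N₁ - 2)
  -- the degree of `A t`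
  set L : ℕ := p * (N₁ + t) - 1 with hL
  have hN2 : 2 ≤ N₁ := by omega
  have hL1 : 6 ≤ p * (N₁ + t) := by
    calc 6 = 3 * 2 := by norm_num
      _ ≤ p * (N₁ + t) := Nat.mul_le_mul hp3 (by omega)
  have hLle : L ≤ Lm := by
    have : p * (N₁ + t) ≤ p * (N₁ + a) := Nat.mul_le_mul_left p (by omega)
    omega
  have hLz : (L : ℤ) = p * (N₁ + t) - 1 := by
    rw [hL]
    push_cast [Nat.cast_sub (show 1 ≤ p * (N₁ + t) by omega)]
    ring
  have h1 : (a - 1) * (L - 1) ≤ (a - 1) * Lm := Nat.mul_le_mul_left _ (by omega)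
  obtain ⟨Q, hQ⟩ : ∃ Q : ℕ, G = a * Q + (a - 1) * (L - 1) := by
    have hd : (a : ℤ) ∣ (G : ℤ) - ((a - 1) * (L - 1) : ℕ) := by
      have h2 : (((a - 1) * (L - 1) : ℕ) : ℤ) = ((a : ℤ) - 1) * ((L : ℤ) - 1) := by
        rw [Nat.cast_mul, Nat.cast_sub (show 1 ≤ a by omega), Nat.cast_sub (show 1 ≤ L by omega)]
        push_cast
        ring
      rw [h2]
      obtain ⟨c, hc⟩ := htd
      refine ⟨c - ((L : ℤ) - 1), ?_⟩
      rw [hLz]
      linear_combination hc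
    have hle : (a - 1) * (L - 1) ≤ G := by
      have : (a - 1) * Lm ≤ G := le_trans (Nat.le_add_left _ _) hG
      omega
    have hd' : a ∣ G - (a - 1) * (L - 1) := by
      rw [← Int.natCast_dvd_natCast, Nat.cast_sub hle]
      exact hd
    obtain ⟨Q, hQ⟩ := hd'
    exact ⟨Q, by omega⟩
  have hQb : p * M + (p + 1) / 2 + Lm ≤ Q := by
    by_contra hlt
    have h3 : a * (Q + 1) ≤ a * (p * M + (p + 1) / 2 + Lm) := Nat.mul_le_mul_left a (by omega)
    rw [mul_add, mul_one] at h3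
    omega
  obtain ⟨y, hy⟩ : ∃ y : ℕ, Q = (p + 1) / 2 + y + L - 1 := ⟨Q + 1 - (p + 1) / 2 - L, by omega⟩
  have hyM : p * M ≤ y := by omega
  have hyd := Nat.div_add_mod y p
  have hym := Nat.mod_lt y hpp.pos
  have hyn : M ≤ y / p := by
    rw [Nat.le_div_iff_mul_le hpp.pos, mul_comm]
    exact hyM
  obtain ⟨F, hF, hK, hFd⟩ := hn₀ t (p - y % p) (by omega) (y / p + 1)
    (le_trans (hMle t hta _ (by omega)) (by omega))
  refine ⟨F, A t, B t, hF, ?_, ?_⟩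
  · rw [hdeg t]
    omega
  · have h5 : p * (y / p + 1) - (p - y % p) = y := by
      rw [mul_add, mul_one]
      omega
    rw [kν_sum a F.natDegree (A t).natDegree ha (by rw [hdeg t]; omega) hF.odd, hdeg t, ← hL, hFd,
      h5, hF₀d, hQ, hy]
    have h6 : (p + 2 * y + 1) / 2 = (p + 1) / 2 + y := by omega
    rw [h6]

end Pool.Agent.PRB
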