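import Pool.Agent.LibPRK.SysRE
import Pool.Agent.LibPRK.SysX

/-!
# Systems over the prime field: all large genera, with an explicit bound
-/

set_option autoImplicit false

namespace Pool.Agent.PRB

open Polynomial

variable {p : ℕ} [Fact p.Prime]

/-- The bound; `e` is the degree of `E`. -/
def kBd (p a e : ℕ) : ℕ :=
  a * (p * ((2 * p) ^ (2 * p - 1) * (p + 2 * (p * (2 * p ^ 2 + e + a)) + e + 2)) + (p + 1) / 2 +
    p * (2 * p ^ 2 + e + a)) + (a - 1) * (p * (2 * p ^ 2 + e + a))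

theorem exists_sys_e (hp4 : p % 4 = 1) {a : ℕ} (ha : 0 < a) (hpa : ¬ p ∣ a)
    (E : (ZMod p)[X]) (hE : E.Monic) (hE' : E = 1 ∨ (Irreducible E ∧ p < E.natDegree))
    (G : ℕ) (hG : kBd p a E.natDegree ≤ G) :
    ∃ F A B : (ZMod p)[X], KSys p a E F A B ∧ 0 < A.natDegree ∧
      ∑ d ∈ Finset.range (2 * a), (kν F.natDegree A.natDegree 0 d - 1) = G := by
  have hpp : p.Prime := Fact.out
  have hp3 : 3 ≤ p := by
    have := hpp.two_le
    omega
  have hp2 : p ≠ 2 := by omega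
  have hco : Nat.Coprime p a := (Nat.Prime.coprime_iff_not_dvd hpp).2 hpa
  obtain ⟨F₀, hF₀, hF₀d⟩ := exists_KSys_base hp4 ha hpa E hE'
  obtain ⟨N₁, hN₁⟩ : ∃ N₁, N₁ = 2 * p ^ 2 + E.natDegree := ⟨_, rfl⟩
  have hN₁' : 2 * (p - 1) + 2 * (p - 1) * F₀.natDegree + E.natDegree + 2 = N₁ := by
    rw [hF₀d, hN₁]
    obtain ⟨q, hq⟩ : ∃ q, p - 1 = q := ⟨p - 1, rfl⟩
    have hq' : p = q + 1 := by omega
    rw [hq]
    have e1 : 2 * q * p + 2 * q + 2 = 2 * p ^ 2 := by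
      rw [hq']
      ring
    omega
  obtain ⟨t, hta, htd⟩ := SysX_res ha hco (G + p * N₁ - 2)
  obtain ⟨A, B, hAB, hdeg⟩ := KSys.full hp2 ha hpa hE hF₀ (N₁ + t) (by omega)
  -- the degree of `A`
  set L : ℕ := p * (N₁ + t) - 1 with hL
  have hN2 : 2 ≤ N₁ := by omega
  have hL1 : 6 ≤ p * (N₁ + t) := by
    calc 6 = 3 * 2 := by norm_num
      _ ≤ p * (N₁ + t) := Nat.mul_le_mul hp3 (by omega)
  obtain ⟨Lm, hLm⟩ : ∃ Lm, Lm = p * (N₁ + a) := ⟨_, rfl⟩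
  have hLle : L ≤ Lm := by
    have : p * (N₁ + t) ≤ p * (N₁ + a) := Nat.mul_le_mul_left p (by omega)
    omega
  have hLz : (L : ℤ) = p * (N₁ + t) - 1 := by
    rw [hL]
    push_cast [Nat.cast_sub (show 1 ≤ p * (N₁ + t) by omega)]
    ring
  obtain ⟨M, hM⟩ : ∃ M, M = (2 * p) ^ (2 * p - 1) * (p + 2 * Lm + E.natDegree + 2) := ⟨_, rfl⟩
  have hGb : a * (p * M + (p + 1) / 2 + Lm) + (a - 1) * Lm ≤ G := by
    rw [hM, hLm, hN₁]
    exact hG
  have h1 : (a - 1) * (L - 1) ≤ (a - 1) * Lm := Nat.mul_le_mul_left _ (by omega)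
  obtain ⟨Q, hQ⟩ : ∃ Q : ℕ, G = a * Q + (a - 1) * (L - 1) := by
    have hd : (a : ℤ) ∣ (G : ℤ) - ((a - 1) * (L - 1) : ℕ) := by
      have h2 : (((a - 1) * (L - 1) : ℕ) : ℤ) = ((a : ℤ) - 1) * ((L : ℤ) - 1) := by
        rw [Nat.cast_mul, Nat.cast_sub (show 1 ≤ a by omega), Nat.cast_sub (show 1 ≤ L by omega)]
        push_cast
        ring
      rw [h2]
      obtain ⟨c, hc⟩ := htd
      refine ⟨c - ((L : ℤ) - 1), ?_⟩
      rw [hLz]
      linear_combination hc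
    have hle : (a - 1) * (L - 1) ≤ G := by
      have : (a - 1) * Lm ≤ G := le_trans (Nat.le_add_left _ _) hGb
      omega
    have hd' : a ∣ G - (a - 1) * (L - 1) := by
      rw [← Int.natCast_dvd_natCast, Nat.cast_sub hle]
      exact hd
    obtain ⟨Q, hQ⟩ := hd'
    exact ⟨Q, by omega⟩
  have hQb : p * M + (p + 1) / 2 + Lm ≤ Q := by
    by_contra hlt
    have h3 : a * (Q + 1) ≤ a * (p * M + (p + 1) / 2 + Lm) := Nat.mul_le_mul_left a (by omega)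
    rw [mul_add, mul_one] at h3
    omega
  obtain ⟨y, hy⟩ : ∃ y : ℕ, Q = (p + 1) / 2 + y + L - 1 := ⟨Q + 1 - (p + 1) / 2 - L, by omega⟩
  have hyM : p * M ≤ y := by omega
  have hyd := Nat.div_add_mod y p
  have hym := Nat.mod_lt y hpp.pos
  have hyn : M ≤ y / p := by
    rw [Nat.le_div_iff_mul_le hpp.pos, mul_comm]
    exact hyM
  obtain ⟨K, hK⟩ : ∃ K, K = p - y % p := ⟨_, rfl⟩
  have hDeg : (F₀ * A * B).natDegree = p + 2 * L := by
    rw [(hAB.mF.mul hAB.mA).natDegree_mul hAB.mB, hAB.mF.natDegree_mul hAB.mA, hAB.deg, hdeg,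
      hF₀d]
    ring
  have hbd : (2 * p) ^ (2 * K - 1) * ((F₀ * A * B).natDegree + E.natDegree + 2) ≤ y / p + 1 := by
    refine le_trans ?_ (le_trans hyn (Nat.le_succ _))
    rw [hDeg, hM]
    exact Nat.mul_le_mul (Nat.pow_le_pow_right (by omega) (by omega)) (by omega)
  obtain ⟨F, hF, hKp, hFd⟩ := KSys.reach_e hp2 ha hpa hE K (by omega) hAB (y / p + 1) hbd
  refine ⟨F, A, B, hF, ?_, ?_⟩
  · rw [hdeg]
    omega
  · have h5 : p * (y / p + 1) - K = y := by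
      rw [mul_add, mul_one]
      omega
    rw [kν_sum a F.natDegree A.natDegree ha (by rw [hdeg]; omega) hF.odd, hdeg, hFd,
      h5, hF₀d, hQ, hy]
    have h6 : (p + 2 * y + 1) / 2 = (p + 1) / 2 + y := by omega
    rw [h6]

end Pool.Agent.PRB
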